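import Pool.Agent.Work.PolyTime.NPDefs

/-!
The class PP.
-/

set_option autoImplicit false

namespace Pool.Agent.Work.PolyTime

/-- The class PP: `x` belongs to the language if and only if more than half of all words `y` of
polynomial length are accepted together with `x` by a polynomial-time test. -/
def InPP (L : Set (List Bool)) : Prop :=
  ∃ (R : List Bool → List Bool) (p : Polynomial ℕ), PolyTimeComputable R ∧
    ∀ x, x ∈ L ↔ 2 ^ p.eval x.length <
      2 * {y : List Bool | y.length = p.eval x.length ∧ R (pairW x y) = [true]}.ncard

end Pool.Agent.Work.PolyTime
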