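import Pool.Agent.Work.PolyTime.Sim
import Pool.Agent.Work.PolyTime.PPDefs
import Pool.Agent.Work.MP_0532f7_lc.Coin

/-!
Closure properties of NP and PP.
-/

set_option autoImplicit false
set_option linter.unusedSimpArgs false

namespace Pool.Agent.Work.PolyTime

open Pool.Agent.Work.MP_0532f7_lc (fs sn FP polyTime_iff_fp)

section

variable {α β γ : Type} [Code α] [Code β] [Code γ]

@[fun_prop]
theorem PTime.fs {f : α → List Bool} (hf : PTime f) : PTime (fun x => MP_0532f7_lc.fs (f x)) := by
  have h : PTime MP_0532f7_lc.fs :=
    PTime.of_polyTimeComputable (polyTime_iff_fp.2 MP_0532f7_lc.FP.fsI)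
  exact h.comp hf

@[fun_prop]
theorem PTime.sn {f : α → List Bool} (hf : PTime f) : PTime (fun x => MP_0532f7_lc.sn (f x)) := by
  have h : PTime MP_0532f7_lc.sn :=
    PTime.of_polyTimeComputable (polyTime_iff_fp.2 MP_0532f7_lc.FP.snI)
  exact h.comp hf

@[fun_prop]
theorem PTime.pairW {f g : α → List Bool} (hf : PTime f) (hg : PTime g) :
    PTime (fun x => PolyTime.pairW (f x) (g x)) := by
  have h : PTime (fun x => (f x).flatMap (fun b => [true, b]) ++ false :: g x) :=
    PTime.append (PTime.flatMap (f := fun _ b => [true, b]) hf (by fun_prop)) (by fun_prop)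
  refine h.code_congr (fun x => ?_)
  generalize f x = a
  induction a with
  | nil => rfl
  | cons b a ih => simp only [PolyTime.pairW, List.flatMap_cons, ← ih]; rfl

theorem PTime.ser {f : α → β} (hf : PTime f) : PTime (fun x => (Code.code (f x)).ser) :=
  PTime.treeSer (PTime.code hf)

/-- Parsing of words. -/
def parseW (β : Type) [Code β] [Decode β] (w : List Bool) : Option β := (parseT w).bind Decode.dec

theorem parseW_eq_some [Decode β] {w : List Bool} {b : β} :
    parseW β w = some b ↔ w = (code b).ser := by
  unfold parseW
  constructor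
  · intro h
    cases h1 : parseT w with
    | none => rw [h1] at h; cases h
    | some t =>
      rw [h1, Option.bind_some] at h
      rw [parseT_eq_some.1 h1, code_of_dec h]
  · rintro rfl
    have e1 : parseT (code b).ser = some (code b) := parseT_eq_some.2 rfl
    rw [e1, Option.bind_some, dec_code]

theorem parseW_ser [Decode β] (b : β) : parseW β (code b).ser = some b := parseW_eq_some.2 rfl

theorem PTime.parseW [Decode β] {w : α → List Bool} (hw : PTime w) :
    PTime (fun x => PolyTime.parseW β (w x)) := by
  unfold PolyTime.parseW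
  exact PTime.bind (PTime.parseT hw) (Decode.ptime.comp (by fun_prop))

/-- A test of the parsed value. -/
theorem PTime.parseTest [Decode β] {w : α → List Bool} (hw : PTime w) {t : α → β → Bool}
    (ht : PTime (fun y : α × β => t y.1 y.2)) :
    PTime (fun x => ((PolyTime.parseW β (w x)).bind fun b => some (t x b)).getD false) :=
  PTime.getD (PTime.bind (PTime.parseW hw) (PTime.mkSome ht)) (PTime.const _)

theorem parseTest_iff [Decode β] {w : List Bool} {t : β → Bool} :
    ((PolyTime.parseW β w).bind fun b => some (t b)).getD false = true ↔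
      ∃ b, w = (code b).ser ∧ t b = true := by
  cases h : PolyTime.parseW β w with
  | none =>
    simp only [Option.bind_none, Option.getD_none, Bool.false_eq_true, false_iff, not_exists,
      not_and]
    rintro b rfl
    rw [parseW_ser] at h; cases h
  | some b =>
    simp only [Option.bind_some, Option.getD_some]
    constructor
    · intro hb; exact ⟨b, parseW_eq_some.1 h, hb⟩
    · rintro ⟨b', rfl, hb'⟩
      rw [parseW_ser] at h
      rw [← Option.some.inj h]; exact hb'

end

instance : Decode Unit :=
  ⟨fun t => bif decide (t = T.nil) then some () else none, fun t a => by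
    by_cases h : t = T.nil
    · simp [h]; rfl
    · simp only [h, decide_false, cond_false, reduceCtorEq, false_iff]
      exact fun h' => h h'.symm,
    PTime.cond (PTime.eq PTime.id (PTime.const _)) (PTime.const _) (PTime.const _)⟩

instance : Decode ℕ :=
  ⟨fun t => (Decode.dec t : Option (List Unit)).bind fun l => some l.length, fun t n => by
    constructor
    · intro h
      obtain ⟨l, hl, hn⟩ := Option.bind_eq_some_iff.1 h
      have h1 := code_of_dec hl
      have h2 : l = List.replicate l.length () := List.eq_replicate_iff.2 ⟨rfl, fun b _ => rfl⟩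
      rw [← h1, h2, code_replicate, ← Option.some.inj hn]
    · rintro rfl
      rw [← code_replicate, dec_code]
      simp,
    PTime.bind Decode.ptime (PTime.mkSome (PTime.length PTime.snd))⟩

theorem sz_word (w : List Bool) : sz w ≤ 4 * w.length + 1 := by
  induction w with
  | nil => simp
  | cons b w ih =>
    have := sz_bool b
    simp only [sz_cons, List.length_cons]; omega

theorem length_bound {β : Type} [Code β] {f : List Bool → β} (hf : PTime f) :
    ∃ q : Polynomial ℕ, ∀ x : List Bool, sz (f x) ≤ q.eval x.length := by
  obtain ⟨p, hp⟩ := hf.sz_le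
  refine ⟨p.comp (4 * Polynomial.X + 1), fun x => (hp x).trans ?_⟩
  rw [Polynomial.eval_comp]
  refine MP_0532f7_lc.pmono p ?_
  simpa using sz_word x

/-- Typed form of the class NP. -/
theorem inNP_iff {L : Set (List Bool)} : InNP L ↔
    ∃ (V : List Bool × List Bool → Bool) (p : Polynomial ℕ), PTime V ∧
      ∀ x, x ∈ L ↔ ∃ y : List Bool, y.length ≤ p.eval x.length ∧ V (x, y) = true := by
  constructor
  · rintro ⟨R, p, hR, h⟩
    have hR' := PTime.of_polyTimeComputable hR
    refine ⟨fun z => decide (R (pairW z.1 z.2) = [true]), p, ?_, fun x => ?_⟩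
    · exact PTime.eq (hR'.comp (PTime.pairW PTime.fst PTime.snd)) (PTime.const _)
    · simp only [h, decide_eq_true_eq]
  · rintro ⟨V, p, hV, h⟩
    refine ⟨fun w => [V (MP_0532f7_lc.fs w, MP_0532f7_lc.sn w)], p,
      polyTimeComputable_of_PTime_word ?_, fun x => ?_⟩
    · have h1 : PTime (fun w : List Bool => V (MP_0532f7_lc.fs w, MP_0532f7_lc.sn w)) :=
        hV.comp (PTime.prodMk (PTime.fs PTime.id) (PTime.sn PTime.id))
      exact PTime.cons h1 (PTime.const _)
    · simp only [h, pairW_eq_pr, MP_0532f7_lc.fs_pr, MP_0532f7_lc.sn_pr, List.cons.injEq,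
        and_true]

/-- Certificates whose length is bounded by a polynomial-time function. -/
theorem inNP_of {L : Set (List Bool)} {V : List Bool × List Bool → Bool} (hV : PTime V)
    {b : List Bool → ℕ} (hb : PTime b)
    (h : ∀ x, x ∈ L ↔ ∃ y : List Bool, y.length ≤ b x ∧ V (x, y) = true) : InNP L := by
  obtain ⟨q, hq⟩ := length_bound hb
  rw [inNP_iff]
  refine ⟨fun z => decide (z.2.length ≤ b z.1) && V z, q, ?_, fun x => ?_⟩
  · exact PTime.and (PTime.natLe (PTime.length PTime.snd) (hb.comp PTime.fst)) (hV.comp PTime.id)
  · rw [h]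
    constructor
    · rintro ⟨y, h1, h2⟩
      refine ⟨y, ?_, by simp [h1, h2]⟩
      have := hq x
      rw [sz_nat] at this
      omega
    · rintro ⟨y, -, h2⟩
      simp only [Bool.and_eq_true, decide_eq_true_eq] at h2
      exact ⟨y, h2⟩

/-- NP is closed under polynomial-time many-one reductions. -/
theorem InNP.of_reducible {L L' : Set (List Bool)} (h : PolyReducible L L') (h' : InNP L') :
    InNP L := by
  obtain ⟨f, hf, hf'⟩ := h
  obtain ⟨V, p, hV, h''⟩ := inNP_iff.1 h'
  have hf1 := PTime.of_polyTimeComputable hf
  refine inNP_of (V := fun z => V (f z.1, z.2)) (b := fun x => p.eval (f x).length) ?_ ?_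
    fun x => ?_
  · exact hV.comp (PTime.prodMk (hf1.comp PTime.fst) PTime.snd)
  · exact PTime.polyEval p (PTime.length hf1)
  · rw [hf', h'']

/-- NP is closed under conjunctions over lists that are computed in polynomial time. -/
theorem InNP.forall_mem {B : Set (List Bool)} (hB : InNP B) {c : List Bool → Bool}
    (hc : PTime c) {g : List Bool → List (List Bool)} (hg : PTime g) :
    InNP {x | c x = true ∧ ∀ u ∈ g x, u ∈ B} := by
  obtain ⟨V, p, hV, h⟩ := inNP_iff.1 hB
  refine inNP_of (V := fun z => c z.1 && ((PolyTime.parseW (List (List Bool)) z.2).bind fun Y =>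
    some (decide (Y.length = (g z.1).length) && ((g z.1).zip Y).all fun uy =>
      decide (uy.2.length ≤ p.eval uy.1.length) && V uy)).getD false)
    (b := fun x => 1 + ((g x).map fun u => 2 + 4 * p.eval u.length).sum) ?_ ?_ fun x => ?_
  · refine PTime.and (hc.comp PTime.fst) (PTime.parseTest PTime.snd
      (t := fun (z : List Bool × List Bool) (Y : List (List Bool)) =>
        decide (Y.length = (g z.1).length) && ((g z.1).zip Y).all fun uy =>
          decide (uy.2.length ≤ p.eval uy.1.length) && V uy) ?_)
    have hg' : PTime (fun y : (List Bool × List Bool) × List (List Bool) => g y.1.1) :=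
      hg.comp (PTime.fst.comp PTime.fst)
    refine PTime.and (PTime.eq (PTime.length PTime.snd) (PTime.length hg')) ?_
    refine PTime.all (p := fun _ uy => decide (uy.2.length ≤ p.eval uy.1.length) && V uy)
      (PTime.zip hg' PTime.snd) ?_
    exact PTime.and (PTime.natLe (PTime.length (by fun_prop))
      (PTime.polyEval p (PTime.length (by fun_prop)))) (hV.comp PTime.snd)
  · refine PTime.natAdd (PTime.const 1) (PTime.listSum (PTime.map
      (f := fun _ (u : List Bool) => 2 + 4 * p.eval u.length) hg ?_))
    exact PTime.natAdd (PTime.const 2) (PTime.natMul (PTime.const 4)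
      (PTime.polyEval p (PTime.length PTime.snd)))
  · simp only [Set.mem_setOf_eq, Bool.and_eq_true, parseTest_iff, decide_eq_true_eq,
      List.all_eq_true]
    constructor
    · rintro ⟨h1, h2⟩
      have h3 : ∀ l : List (List Bool), (∀ u ∈ l, u ∈ B) → ∃ Y : List (List Bool),
          Y.length = l.length ∧ (∀ uy ∈ l.zip Y, uy.2.length ≤ p.eval uy.1.length ∧
            V uy = true) ∧ sz Y ≤ 1 + (l.map fun u => 2 + 4 * p.eval u.length).sum := by
        intro l
        induction l with
        | nil => intro _; exact ⟨[], rfl, by simp, by simp⟩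
        | cons u l ih =>
          intro hl
          obtain ⟨Y, e1, e2, e3⟩ := ih (fun v hv => hl v (by simp [hv]))
          obtain ⟨y, hy1, hy2⟩ := (h u).1 (hl u (by simp))
          refine ⟨y :: Y, by simp [e1], ?_, ?_⟩
          · intro uy huy
            rw [List.zip_cons_cons, List.mem_cons] at huy
            rcases huy with rfl | huy
            · exact ⟨hy1, hy2⟩
            · exact e2 uy huy
          · have := sz_word y
            simp only [sz_cons, List.map_cons, List.sum_cons]
            omega
      obtain ⟨Y, e1, e2, e3⟩ := h3 (g x) h2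
      exact ⟨(code Y).ser, e3, h1, Y, rfl, e1, e2⟩
    · rintro ⟨y, -, h1, Y, -, e1, e2⟩
      refine ⟨h1, fun u hu => ?_⟩
      obtain ⟨i, hi, rfl⟩ := List.mem_iff_getElem.1 hu
      have hi' : i < Y.length := by omega
      have h4 : ((g x)[i], Y[i]) ∈ (g x).zip Y := by
        rw [List.mem_iff_getElem]
        exact ⟨i, by simp [hi, hi'], by simp⟩
      exact (h _).2 ⟨Y[i], e2 _ h4⟩

/-! ### The class PP -/

theorem inPP_of {L : Set (List Bool)} {V : List Bool × List Bool → Bool} (hV : PTime V)
    (p : Polynomial ℕ) (h : ∀ x, x ∈ L ↔ 2 ^ p.eval x.length <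
      2 * {y : List Bool | y.length = p.eval x.length ∧ V (x, y) = true}.ncard) : InPP L := by
  refine ⟨fun w => [V (MP_0532f7_lc.fs w, MP_0532f7_lc.sn w)], p,
    polyTimeComputable_of_PTime_word ?_, fun x => ?_⟩
  · have h1 : PTime (fun w : List Bool => V (MP_0532f7_lc.fs w, MP_0532f7_lc.sn w)) :=
      hV.comp (PTime.prodMk (PTime.fs PTime.id) (PTime.sn PTime.id))
    exact PTime.cons h1 (PTime.const _)
  · simp only [h, pairW_eq_pr, MP_0532f7_lc.fs_pr, MP_0532f7_lc.sn_pr, List.cons.injEq,
      and_true]

theorem finite_words (m : ℕ) (P : List Bool → Prop) : {y : List Bool | y.length = m ∧ P y}.Finite :=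
  ((MP_0532f7_lc.words m).finite_toSet).subset fun y hy =>
    Finset.mem_coe.2 (MP_0532f7_lc.mem_words.2 hy.1)

theorem ncard_words (m : ℕ) : {y : List Bool | y.length = m}.ncard = 2 ^ m := by
  rw [← MP_0532f7_lc.card_words m, ← Set.ncard_coe_finset]
  congr 1
  ext y
  simp [MP_0532f7_lc.mem_words]

theorem ncard_compl (m : ℕ) (P : List Bool → Prop) :
    {y : List Bool | y.length = m ∧ P y}.ncard + {y : List Bool | y.length = m ∧ ¬ P y}.ncard =
      2 ^ m := by
  rw [← ncard_words m, ← Set.ncard_union_eq ?_ (finite_words m _) (finite_words m _)]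
  · congr 1
    ext y
    simp only [Set.mem_union, Set.mem_setOf_eq]
    tauto
  · rw [Set.disjoint_left]
    rintro y ⟨-, h1⟩ ⟨-, h2⟩
    exact h2 h1

/-- Comparison of two numbers of certificates. -/
theorem inPP_compare {L : Set (List Bool)} {V₁ V₂ : List Bool × List Bool → Bool}
    (h₁ : PTime V₁) (h₂ : PTime V₂) (q : Polynomial ℕ)
    (h : ∀ x, x ∈ L ↔ {y : List Bool | y.length = q.eval x.length ∧ V₁ (x, y) = true}.ncard <
      {y : List Bool | y.length = q.eval x.length ∧ V₂ (x, y) = true}.ncard) : InPP L := by
  refine inPP_of (V := fun z => bif z.2.headD false then V₂ (z.1, z.2.tail)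
    else !(V₁ (z.1, z.2.tail))) ?_ (q + 1) fun x => ?_
  · have ht : PTime (fun z : List Bool × List Bool => (z.1, z.2.tail)) := by fun_prop
    have hh : PTime (fun z : List Bool × List Bool => z.2.headD false) := by
      have : PTime (fun z : List Bool × List Bool => (z.2.head?).getD false) :=
        PTime.getD (PTime.headOpt PTime.snd) (PTime.const _)
      refine this.code_congr fun z => ?_
      cases z.2 <;> rfl
    exact PTime.cond hh (h₂.comp ht) (PTime.not (h₁.comp ht))
  · rw [h]
    simp only [Polynomial.eval_add, Polynomial.eval_one]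
    set m := q.eval x.length
    have e : {y : List Bool | y.length = m + 1 ∧ (bif y.headD false then V₂ (x, y.tail)
        else !(V₁ (x, y.tail))) = true} =
        (List.cons true '' {y | y.length = m ∧ V₂ (x, y) = true}) ∪
        (List.cons false '' {y | y.length = m ∧ ¬ V₁ (x, y) = true}) := by
      ext y
      simp only [Set.mem_union, Set.mem_image, Set.mem_setOf_eq]
      constructor
      · rintro ⟨h1, h2⟩
        rcases y with _ | ⟨b, y⟩
        · simp at h1
        · simp only [List.length_cons, Nat.add_right_cancel_iff] at h1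
          cases b
          · right
            refine ⟨y, ⟨h1, ?_⟩, rfl⟩
            simpa using h2
          · left
            refine ⟨y, ⟨h1, ?_⟩, rfl⟩
            simpa using h2
      · rintro (⟨y, ⟨h1, h2⟩, rfl⟩ | ⟨y, ⟨h1, h2⟩, rfl⟩)
        · simp [h1, h2]
        · simp only [List.length_cons, h1, true_and, List.headD_cons, List.tail_cons, cond_false]
          simpa using h2
    rw [e, Set.ncard_union_eq ?_ ((finite_words m _).image _) ((finite_words m _).image _),
      Set.ncard_image_of_injective _ (List.cons_injective),
      Set.ncard_image_of_injective _ (List.cons_injective)]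
    · have h3 := ncard_compl m (fun y => V₁ (x, y) = true)
      rw [pow_succ]
      omega
    · rw [Set.disjoint_left]
      rintro _ ⟨y, -, rfl⟩ ⟨y', -, h'⟩
      simp at h'

/-- Complements of languages in NP are in PP. -/
theorem inPP_compl_of_inNP {L : Set (List Bool)} (hL : InNP L) : InPP Lᶜ := by
  obtain ⟨V, p, hV, h⟩ := inNP_iff.1 hL
  let d : ℕ → List Bool → List Bool := fun P y => (y.take P).take (((y.drop P).filter id).length)
  have hd : ∀ P y, (d P y).length ≤ P := by
    intro P y
    simp only [d, List.length_take]
    omega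
  have hd' : ∀ P (y : List Bool), y.length ≤ P → ∃ z : List Bool, z.length = P + P ∧ d P z = y := by
    intro P y hy
    refine ⟨(y ++ List.replicate (P - y.length) false) ++
      (List.replicate y.length true ++ List.replicate (P - y.length) false), ?_, ?_⟩
    · simp only [List.length_append, List.length_replicate]; omega
    · have e1 : (y ++ List.replicate (P - y.length) false).length = P := by
        simp only [List.length_append, List.length_replicate]; omega
      simp only [d]
      rw [List.take_left' e1, List.drop_left' e1]
      have e2 : ((List.replicate y.length true ++ List.replicate (P - y.length) false).filter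
          id).length = y.length := by
        rw [List.filter_append]
        simp
      rw [e2, List.take_left' rfl]
  refine inPP_compare (V₁ := fun z => V (z.1, d (p.eval z.1.length) z.2))
    (V₂ := fun z => z.2.all fun b => !b) ?_ ?_ (p + p) fun x => ?_
  · refine hV.comp (PTime.prodMk PTime.fst ?_)
    have h1 : PTime (fun z : List Bool × List Bool => p.eval z.1.length) :=
      PTime.polyEval p (PTime.length PTime.fst)
    exact PTime.take (PTime.take PTime.snd h1) (PTime.length (PTime.filter
      (p := fun _ b => id b) (PTime.drop PTime.snd h1) PTime.snd))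
  · exact PTime.all (p := fun _ b => !b) PTime.snd (PTime.not PTime.snd)
  · simp only [Polynomial.eval_add, Set.mem_compl_iff]
    set P := p.eval x.length with hP
    have e : {y : List Bool | y.length = P + P ∧ (y.all fun b => !b) = true} =
        {List.replicate (P + P) false} := by
      ext y
      simp only [Set.mem_setOf_eq, List.all_eq_true, Bool.not_eq_true', Set.mem_singleton_iff,
        List.eq_replicate_iff]
    rw [e, Set.ncard_singleton, Nat.lt_one_iff, Set.ncard_eq_zero (finite_words _ _), h]
    constructor
    · intro hx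
      ext y
      simp only [Set.mem_setOf_eq, Set.mem_empty_iff_false, iff_false, not_and]
      intro _ hy
      exact hx ⟨_, hd _ _, hy⟩
    · rintro he ⟨y, hy1, hy2⟩
      obtain ⟨z, hz1, hz2⟩ := hd' P y hy1
      have : z ∈ {y : List Bool | y.length = P + P ∧ V (x, d P y) = true} :=
        ⟨hz1, by rw [hz2]; exact hy2⟩
      rw [he] at this
      exact this

/-- If PP is contained in NP, then NP is closed under complements. -/
theorem np_compl_of_pp (h : ∀ L, InPP L → InNP L) (L : Set (List Bool)) (hL : InNP L) :
    InNP Lᶜ := h _ (inPP_compl_of_inNP hL)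

end Pool.Agent.Work.PolyTime
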