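import Pool.Agent.Work.PolyTime.Pairs

/-!
More polynomial-time list functions.
-/

set_option autoImplicit false
set_option linter.unusedSimpArgs false

namespace Pool.Agent.Work.PolyTime

open Function

section

variable {α β γ δ σ : Type} [Code α] [Code β] [Code γ] [Code δ] [Code σ]

@[fun_prop]
theorem PTime.tail {l : α → List β} (hl : PTime l) : PTime (fun x => (l x).tail) := by
  refine PTime.listCases hl (g := fun _ => []) (h := fun y => y.2.2) (by fun_prop) (by fun_prop)
    ?_ ?_
  · intro x hx; rw [hx]; rfl
  · intro x b m hx; rw [hx]; rfl

@[fun_prop]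
theorem PTime.headOpt {l : α → List β} (hl : PTime l) : PTime (fun x => (l x).head?) := by
  refine PTime.listCases hl (g := fun _ => none) (h := fun y => Option.some y.2.1) (by fun_prop)
    (by fun_prop) ?_ ?_
  · intro x hx; rw [hx]; rfl
  · intro x b m hx; rw [hx]; rfl

@[fun_prop]
theorem PTime.drop {l : α → List β} {n : α → ℕ} (hl : PTime l) (hn : PTime n) :
    PTime (fun x => (l x).drop (n x)) := by
  have h : PTime (fun x => (List.replicate (n x) ()).foldl
      (fun s u => (fun y : α × List β × Unit => y.2.1.tail) (x, s, u)) (l x)) := by
    refine PTime.foldlGrow (f := fun y : α × List β × Unit => y.2.1.tail) hn.replicateUnit hl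
      (by fun_prop) (G := fun _ => 0) (PB.const 0) ?_
    intro x u _ s
    cases s with
    | nil => simp
    | cons a s => simp only [List.tail_cons, sz_cons]; omega
  refine h.code_congr (fun x => ?_)
  have key : ∀ (k : ℕ) (m : List β),
      (List.replicate k ()).foldl (fun s _ => s.tail) m = m.drop k := by
    intro k
    induction k with
    | zero => intro m; rfl
    | succ k ih => intro m; rw [List.replicate_succ, List.foldl_cons, ih, List.drop_tail]
  exact key _ _

theorem take_eq_filter {X : Type} (l : List X) (n : ℕ) :
    l.take n = (l.zipIdx.filter fun y => decide (y.2 < n)).map Prod.fst := by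
  have key : ∀ (l : List X) (k n : ℕ), (((l.zipIdx k).filter fun y => decide (y.2 < k + n)).map
      Prod.fst) = l.take n := by
    intro l
    induction l with
    | nil => intro k n; simp
    | cons a l ih =>
      intro k n
      cases n with
      | zero =>
        simp only [Nat.add_zero, List.take_zero, List.map_eq_nil_iff, List.filter_eq_nil_iff,
          decide_eq_true_eq, Prod.forall]
        intro b i hb
        have := List.le_snd_of_mem_zipIdx hb
        simp only at this
        omega
      | succ n =>
        rw [List.zipIdx_cons, List.filter_cons]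
        simp only [show k < k + (n + 1) by omega, decide_true, if_true, List.map_cons,
          List.take_succ_cons]
        rw [← ih (k + 1) n]
        congr 3
        funext y
        rw [show k + 1 + n = k + (n + 1) by omega]
  simpa using (key l 0 n).symm

@[fun_prop]
theorem PTime.take {l : α → List β} {n : α → ℕ} (hl : PTime l) (hn : PTime n) :
    PTime (fun x => (l x).take (n x)) := by
  have h : PTime (fun x => ((l x).zipIdx.filter fun y => decide (y.2 < n x)).map Prod.fst) := by
    refine PTime.map (PTime.filter (PTime.zipIdx hl) ?_) (by fun_prop)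
    have h1 : PTime (fun y : α × β × ℕ => n y.1) := hn.comp PTime.fst
    fun_prop
  exact h.code_congr (fun x => (take_eq_filter _ _).symm)

theorem range_eq_zipIdx (n : ℕ) :
    List.range n = (List.replicate n ()).zipIdx.map Prod.snd := by
  rw [List.zipIdx_map_snd, List.length_replicate, List.range_eq_range']

@[fun_prop]
theorem PTime.range {n : α → ℕ} (hn : PTime n) : PTime (fun x => List.range (n x)) := by
  have h : PTime (fun x => (List.replicate (n x) ()).zipIdx.map Prod.snd) :=
    PTime.map (PTime.zipIdx hn.replicateUnit) (by fun_prop)
  exact h.code_congr (fun x => (range_eq_zipIdx _).symm)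

/-- One step of zipping. -/
def zipStep {X Y : Type} (s : List (X × Y) × List Y) (a : X) : List (X × Y) × List Y :=
  match s.2 with
  | [] => s
  | b :: r => ((a, b) :: s.1, r)

theorem foldl_zipStep {X Y : Type} (l : List X) : ∀ (m : List Y) (acc : List (X × Y)),
    (l.foldl zipStep (acc, m)).1.reverse = acc.reverse ++ l.zip m := by
  induction l with
  | nil => intro m acc; simp
  | cons a l ih =>
    intro m acc
    cases m with
    | nil =>
      have h : ∀ l : List X, (l.foldl zipStep (acc, ([] : List Y))).1 = acc := by
        intro l
        induction l with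
        | nil => rfl
        | cons a l ih => exact ih
      rw [h]; simp
    | cons b m =>
      rw [List.foldl_cons]
      have : zipStep (acc, b :: m) a = ((a, b) :: acc, m) := rfl
      rw [this, ih]
      simp

@[fun_prop]
theorem PTime.zip {l : α → List β} {m : α → List γ} (hl : PTime l) (hm : PTime m) :
    PTime (fun x => (l x).zip (m x)) := by
  have hz : PTime (fun y : (List (β × γ) × List γ) × β => zipStep y.1 y.2) := by
    refine PTime.listCases (l := fun y : (List (β × γ) × List γ) × β => y.1.2) (by fun_prop)
      (g := fun y => y.1) (h := fun z => ((z.1.2, z.2.1) :: z.1.1.1, z.2.2)) (by fun_prop)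
      (by fun_prop) ?_ ?_
    · rintro ⟨⟨a, b⟩, c⟩ h; simp only at h; subst h; rfl
    · rintro ⟨⟨a, b⟩, c⟩ d e h; simp only at h; subst h; rfl
  obtain ⟨G, hG, hG'⟩ := PTime.exists_bound hl (PTime.snd (α := α) (β := β))
  have h : PTime (fun x => ((l x).foldl (fun s a =>
      (fun y : α × (List (β × γ) × List γ) × β => zipStep y.2.1 y.2.2) (x, s, a))
      ([], m x)).1.reverse) := by
    refine PTime.reverse (PTime.fst.comp (PTime.foldlGrow
      (f := fun y : α × (List (β × γ) × List γ) × β => zipStep y.2.1 y.2.2) hl (by fun_prop)
      (hz.comp (by fun_prop)) (G := fun x => 2 + G x) ((PB.const 2).add hG) ?_))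
    rintro x a ha ⟨acc, r⟩
    have h1 := hG' x a ha
    simp only at h1
    cases r with
    | nil => simp only [zipStep]; omega
    | cons b r => simp only [zipStep, sz_pair, sz_cons]; omega
  refine h.code_congr (fun x => ?_)
  simp only
  rw [foldl_zipStep]
  simp

@[fun_prop]
theorem PTime.natMax {m n : α → ℕ} (hm : PTime m) (hn : PTime n) :
    PTime (fun x => max (m x) (n x)) := by
  have h : PTime (fun x => m x + (n x - m x)) := by fun_prop
  exact h.code_congr (fun x => by omega)

@[fun_prop]
theorem PTime.natMin {m n : α → ℕ} (hm : PTime m) (hn : PTime n) :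
    PTime (fun x => min (m x) (n x)) := by
  have h : PTime (fun x => m x - (m x - n x)) := by fun_prop
  exact h.code_congr (fun x => by omega)

@[fun_prop]
theorem PTime.listSum {l : α → List ℕ} (hl : PTime l) : PTime (fun x => (l x).sum) := by
  have h : PTime (fun x => ((l x).flatMap fun n => List.replicate n ()).length) :=
    PTime.length (PTime.flatMap hl (PTime.replicateUnit (by fun_prop)))
  refine h.code_congr (fun x => ?_)
  simp [List.length_flatMap, Function.comp_def]

end

end Pool.Agent.Work.PolyTime
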