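import Pool.Agent.Work.PolyTime.NPHard
import Pool.Agent.Work.MP_0532f7_lc.Tableau

/-!
Every function computed by a Mathlib machine in polynomial time is a typed polynomial-time
function.
-/

set_option autoImplicit false
set_option linter.unusedSimpArgs false

namespace Pool.Agent.Work.PolyTime

open Pool.Agent.Work.MP_0532f7_lc (sstep tinit table_spec)

section

variable {α β γ : Type} [Code α] [Code β] [Code γ]

@[fun_prop]
theorem PTime.nth {l : α → List β} {n : α → ℕ} {d : α → β} (hl : PTime l) (hn : PTime n)
    (hd : PTime d) : PTime (fun x => (l x).getD (n x) (d x)) := by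
  have h : PTime (fun x => (((l x).drop (n x)).head?).getD (d x)) :=
    PTime.getD (PTime.headOpt (PTime.drop hl hn)) hd
  refine h.code_congr (fun x => ?_)
  rw [List.head?_drop, List.getD_eq_getElem?_getD]

@[fun_prop]
theorem PTime.set {l : α → List β} {n : α → ℕ} {v : α → β} (hl : PTime l) (hn : PTime n)
    (hv : PTime v) : PTime (fun x => (l x).set (n x) (v x)) := by
  have h : PTime (fun x => bif decide (n x < (l x).length) then
      (l x).take (n x) ++ v x :: (l x).drop (n x + 1) else l x) :=
    PTime.cond (PTime.natLt hn (PTime.length hl))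
      (PTime.append (PTime.take hl hn) (PTime.cons hv (PTime.drop hl (PTime.natAdd hn
        (PTime.const 1))))) hl
  refine h.code_congr (fun x => ?_)
  rw [List.set_eq_take_append_cons_drop, Bool.cond_decide]

theorem sz_set {l : List β} {n : ℕ} {v d : β} {G : ℕ} (h : sz v ≤ sz (l.getD n d) + G) :
    sz (l.set n v) ≤ sz l + G := by
  induction l generalizing n with
  | nil => simp
  | cons a l ih =>
    cases n with
    | zero =>
      simp only [List.set_cons_zero, sz_cons]
      simp only [List.getD_cons_zero] at h
      omega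
    | succ n =>
      simp only [List.set_cons_succ, sz_cons]
      simp only [List.getD_cons_succ] at h
      have := ih h
      omega

theorem exists_tableBound (T : List (List ℕ)) : ∃ N : ℕ, 0 < N ∧ ∀ row ∈ T, ∀ a ∈ row, a < N := by
  induction T with
  | nil => exact ⟨1, by omega, by simp⟩
  | cons r T ih =>
    obtain ⟨N, hN, h⟩ := ih
    have h2 : ∃ M : ℕ, ∀ a ∈ r, a < M := by
      induction r with
      | nil => exact ⟨0, by simp⟩
      | cons b r ih =>
        obtain ⟨M, hM⟩ := ih
        refine ⟨max M (b + 1), fun a ha => ?_⟩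
        rcases List.mem_cons.1 ha with rfl | ha
        · omega
        · have := hM a ha; omega
    obtain ⟨M, hM⟩ := h2
    refine ⟨max N M, by omega, fun row hr a ha => ?_⟩
    rcases List.mem_cons.1 hr with rfl | hr
    · have := hM a ha; omega
    · have := h row hr a ha; omega

/-- The step of the table machine with Boolean conditionals. -/
def sstepB (T : List (List ℕ)) (c : ℕ × List (List ℕ)) : ℕ × List (List ℕ) :=
  bif decide ((T.getD c.1 []).getD 0 0 = 0) then c else
    (((T.getD c.1 []).drop 3).getD
      (bif decide ((T.getD c.1 []).getD 0 0 = 1) || decide ((T.getD c.1 []).getD 0 0 = 2) then 0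
        else (bif (c.2.getD ((T.getD c.1 []).getD 1 0) []).isEmpty then 0 else
          (c.2.getD ((T.getD c.1 []).getD 1 0) []).head?.getD 0 + 1)) 0,
      c.2.set ((T.getD c.1 []).getD 1 0)
        (bif decide ((T.getD c.1 []).getD 0 0 = 2) then
          (T.getD c.1 []).getD 2 0 :: c.2.getD ((T.getD c.1 []).getD 1 0) []
        else bif decide ((T.getD c.1 []).getD 0 0 = 3) then
          (c.2.getD ((T.getD c.1 []).getD 1 0) []).tail
        else c.2.getD ((T.getD c.1 []).getD 1 0) []))

theorem sstepB_eq (T : List (List ℕ)) (c : ℕ × List (List ℕ)) : sstepB T c = sstep T c := by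
  unfold sstepB sstep
  simp only [Bool.cond_decide]
  generalize T.getD c.1 [] = row
  generalize c.2.getD (row.getD 1 0) [] = st
  generalize row.getD 0 0 = kind
  by_cases h0 : kind = 0
  · rw [if_pos h0, if_pos h0]
  · rw [if_neg h0, if_neg h0]
    congr 1
    congr 1
    by_cases h1 : kind = 1 ∨ kind = 2
    · rw [if_pos h1]
      rcases h1 with h1 | h1 <;> simp [h1]
    · rw [if_neg h1]
      push Not at h1
      cases st with
      | nil => simp [h1.1, h1.2]
      | cons a l => simp [h1.1, h1.2]

theorem PTime.sstepB (T : List (List ℕ)) {c : α → ℕ × List (List ℕ)} (hc : PTime c) :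
    PTime (fun x => PolyTime.sstepB T (c x)) := by
  unfold PolyTime.sstepB
  have hT : PTime (fun _ : α => T) := PTime.const T
  have h1 : PTime (fun x => T.getD (c x).1 []) := PTime.nth hT (PTime.fst.comp hc) (PTime.const [])
  have h2 : PTime (fun x => (c x).2.getD ((T.getD (c x).1 []).getD 1 0) []) :=
    PTime.nth (PTime.snd.comp hc) (PTime.nth h1 (PTime.const 1) (PTime.const 0)) (PTime.const [])
  have k0 : PTime (fun x => (T.getD (c x).1 []).getD 0 0) :=
    PTime.nth h1 (PTime.const 0) (PTime.const 0)
  have k1 : PTime (fun x => (T.getD (c x).1 []).getD 1 0) :=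
    PTime.nth h1 (PTime.const 1) (PTime.const 0)
  have k2 : PTime (fun x => (T.getD (c x).1 []).getD 2 0) :=
    PTime.nth h1 (PTime.const 2) (PTime.const 0)
  have k3 : PTime (fun x => (T.getD (c x).1 []).drop 3) := PTime.drop h1 (PTime.const 3)
  exact PTime.cond (PTime.eq k0 (PTime.const _)) hc (PTime.prodMk (PTime.nth k3
    (PTime.cond (PTime.or (PTime.eq k0 (PTime.const _)) (PTime.eq k0 (PTime.const _)))
      (PTime.const 0) (PTime.cond (PTime.isEmpty h2) (PTime.const 0)
        (PTime.succ (PTime.getD (PTime.headOpt h2) (PTime.const 0))))) (PTime.const 0))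
    (PTime.set (PTime.snd.comp hc) k1 (PTime.cond (PTime.eq k0 (PTime.const _)) (PTime.cons k2 h2)
      (PTime.cond (PTime.eq k0 (PTime.const _)) (PTime.tail h2) h2))))

theorem sz_sstep {T : List (List ℕ)} {N : ℕ} (hN : 0 < N) (h : ∀ row ∈ T, ∀ a ∈ row, a < N)
    (c : ℕ × List (List ℕ)) : sz (sstepB T c) ≤ sz c + (4 * N + 3) := by
  have hrow := MP_0532f7_lc.row_mem h c.1
  unfold sstepB
  simp only [Bool.cond_decide]
  generalize T.getD c.1 [] = row at *
  have key : ∀ (idx : ℕ) (st : List ℕ), sz st ≤ sz (c.2.getD (row.getD 1 0) []) + (2 * N + 2) →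
      sz ((row.drop 3).getD idx 0, c.2.set (row.getD 1 0) st) ≤ sz c + (4 * N + 3) := by
    intro idx st hst
    have e1 : ((row.drop 3).getD idx 0) < N :=
      MP_0532f7_lc.getD_lt hN (fun a ha => hrow a (List.mem_of_mem_drop ha)) _
    have e3 := sz_set (d := []) hst
    have e4 : sz c = 1 + sz c.1 + sz c.2 := sz_pair _ _
    rw [sz_pair, sz_nat, e4, sz_nat]
    omega
  by_cases h0 : row.getD 0 0 = 0
  · rw [if_pos h0]; omega
  · rw [if_neg h0]
    refine key _ _ ?_
    split_ifs with h2 h3
    · have e2 : row.getD 2 0 < N := MP_0532f7_lc.getD_lt hN hrow _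
      simp only [sz_cons, sz_nat]
      omega
    · cases c.2.getD (row.getD 1 0) [] with
      | nil => simp
      | cons a l => simp only [List.tail_cons, sz_cons]; omega
    · omega

theorem iterate_eq_foldl {X : Type} (f : X → X) (n : ℕ) (s : X) :
    f^[n] s = (List.replicate n ()).foldl (fun s _ => f s) s := by
  induction n generalizing s with
  | zero => rfl
  | succ n ih => rw [Function.iterate_succ_apply, ih]; rfl

/-- Iterating the table machine. -/
theorem PTime.sstepIter (T : List (List ℕ)) {c : α → ℕ × List (List ℕ)} {t : α → ℕ}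
    (hc : PTime c) (ht : PTime t) : PTime (fun x => (sstep T)^[t x] (c x)) := by
  obtain ⟨N, hN, h⟩ := exists_tableBound T
  have h1 : PTime (fun x => (List.replicate (t x) ()).foldl (fun s b =>
      (fun y : α × (ℕ × List (List ℕ)) × Unit => PolyTime.sstepB T y.2.1) (x, s, b)) (c x)) := by
    refine PTime.foldlGrow (f := fun y : α × (ℕ × List (List ℕ)) × Unit =>
      PolyTime.sstepB T y.2.1) (PTime.replicateUnit ht) hc (PTime.sstepB T (by fun_prop))
      (G := fun _ => 4 * N + 3) (PB.const _) ?_
    intro x b _ s
    exact sz_sstep hN h s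
  refine h1.code_congr (fun x => ?_)
  rw [iterate_eq_foldl]
  simp only [PolyTime.sstepB_eq]

/-- Evaluation of a polynomial. -/
theorem PTime.polyEval (p : Polynomial ℕ) {n : α → ℕ} (hn : PTime n) :
    PTime (fun x => p.eval (n x)) := by
  induction p using Polynomial.induction_on' with
  | add p q hp hq => simp only [Polynomial.eval_add]; exact PTime.natAdd hp hq
  | monomial k a =>
    simp only [Polynomial.eval_monomial]
    refine PTime.natMul (PTime.const a) ?_
    induction k with
    | zero => simp only [pow_zero]; exact PTime.const 1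
    | succ k ih => simp only [pow_succ]; exact PTime.natMul ih hn

/-- Every Mathlib polynomial-time function is a typed polynomial-time function. -/
theorem PTime.of_polyTimeComputable {g : List Bool → List Bool} (hg : PolyTimeComputable g) :
    PTime g := by
  obtain ⟨T, q0, K, k0, k1, i0, i1, o1, P, hk0, hk1, hK, hT⟩ :=
    table_spec (show MP_0532f7_lc.PolyTime g from hg)
  have h1 : PTime (fun x : List Bool => tinit q0 K k0 i0 i1 x) := by
    unfold tinit
    refine PTime.prodMk (PTime.const _) (PTime.set (PTime.const _) (PTime.const _) ?_)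
    have : PTime (fun x : List Bool => x.map fun b => bif b then i1 else i0) :=
      PTime.map (f := fun _ b => bif b then i1 else i0) PTime.id
        (PTime.cond PTime.snd (PTime.const _) (PTime.const _))
    exact this.code_congr (fun x => List.map_congr_left fun b _ => by cases b <;> rfl)
  have h2 : PTime (fun x : List Bool => P.eval x.length) := PTime.polyEval P (PTime.length PTime.id)
  have h3 := PTime.sstepIter T h1 h2
  have h4 : PTime (fun x : List Bool => ((((sstep T)^[P.eval x.length]
      (tinit q0 K k0 i0 i1 x)).2.getD k1 []).map (fun a => decide (a = o1)))) :=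
    PTime.map (f := fun _ a => decide (a = o1)) (PTime.nth (PTime.snd.comp h3) (PTime.const _)
      (PTime.const _)) (PTime.eq PTime.snd (PTime.const _))
  exact h4.code_congr (fun x => hT x _ le_rfl)

theorem polyTimeComputable_iff_PTime {g : List Bool → List Bool} :
    PolyTimeComputable g ↔ PTime g :=
  ⟨PTime.of_polyTimeComputable, polyTimeComputable_of_PTime_word⟩

end

end Pool.Agent.Work.PolyTime
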