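import Pool.Agent.Work.PolyTime.EtrTime

/-!
Conversion of coded lists of bits to raw words, and decoding of words into typed objects.
-/

set_option autoImplicit false
set_option linter.unusedSimpArgs false

namespace Pool.Agent.Work.PolyTime

open Function

/-- Conversion of a coded list on stack `a` to a raw word (reversed) on stack `b`. -/
def unrawLoop : Cmd Aux :=
  Cmd.loop Aux.a (Cmd.pop Aux.a Cmd.skip Cmd.skip
    (Cmd.pop Aux.a Cmd.skip (Cmd.push Aux.b false)
      (Cmd.seq (Cmd.pop Aux.a Cmd.skip Cmd.skip Cmd.skip)
        (Cmd.seq (Cmd.pop Aux.a Cmd.skip Cmd.skip Cmd.skip) (Cmd.push Aux.b true)))))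

theorem exec_unrawLoop (l : List Bool) :
    ∀ m : List Bool, Exec unrawLoop (update (single Aux.a (listCode bitCode l).ser) Aux.b m)
      (single Aux.b (l.reverse ++ m)) (8 * l.length + 4) := by
  induction l with
  | nil =>
    intro m
    have hne : (update (single Aux.a (listCode bitCode []).ser) Aux.b m) Aux.a ≠ [] := by
      simp [listCode, T.ser]
    refine (Exec.loopStep (s' := single Aux.b m) (t₁ := 2) (t₂ := 1) hne ?_
      (Exec.loopDone ?_)).mono ?_
    · refine Exec.popF (t := 1) [] (by simp [listCode, T.ser]) ?_
      refine (Exec.skip _).congr ?_
      funext k; cases k <;> simp [single]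
    · simp [single]
    · simp
  | cons x l ih =>
    intro m
    have hne : (update (single Aux.a (listCode bitCode (x :: l)).ser) Aux.b m) Aux.a ≠ [] := by
      simp [listCode, T.ser]
    have e2 := ih (x :: m)
    have e1 : Exec (Cmd.pop Aux.a Cmd.skip Cmd.skip
        (Cmd.pop Aux.a Cmd.skip (Cmd.push Aux.b false)
        (Cmd.seq (Cmd.pop Aux.a Cmd.skip Cmd.skip Cmd.skip)
        (Cmd.seq (Cmd.pop Aux.a Cmd.skip Cmd.skip Cmd.skip) (Cmd.push Aux.b true)))))
        (update (single Aux.a (listCode bitCode (x :: l)).ser) Aux.b m)
        (update (single Aux.a (listCode bitCode l).ser) Aux.b (x :: m)) 7 := by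
      cases x with
      | false =>
        refine (Exec.popT (t := 2) (false :: (listCode bitCode l).ser)
          (by simp [listCode, T.ser, bitCode]) ?_).mono (by norm_num)
        refine Exec.popF (t := 1) (listCode bitCode l).ser (by simp) ?_
        refine (Exec.push _ _ _).congr ?_
        funext k; cases k <;> simp [single]
      | true =>
        refine (Exec.popT (t := 6) (true :: false :: false :: (listCode bitCode l).ser)
          (by simp [listCode, T.ser, bitCode]) ?_)
        refine Exec.popT (t := 5) (false :: false :: (listCode bitCode l).ser) (by simp) ?_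
        refine Exec.seq (t₁ := 2) (t₂ := 3) (s' := update (single Aux.a
          (false :: (listCode bitCode l).ser)) Aux.b m) ?_ ?_
        · refine Exec.popF (t := 1) (false :: (listCode bitCode l).ser) (by simp) ?_
          refine (Exec.skip _).congr ?_
          funext k; cases k <;> simp [single]
        · refine Exec.seq (t₁ := 2) (t₂ := 1) (s' := update (single Aux.a
            (listCode bitCode l).ser) Aux.b m) ?_ ?_
          · refine Exec.popF (t := 1) (listCode bitCode l).ser (by simp) ?_
            refine (Exec.skip _).congr ?_
            funext k; cases k <;> simp [single]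
          · refine (Exec.push _ _ _).congr ?_
            funext k; cases k <;> simp [single]
    refine ((Exec.loopStep hne e1 e2).mono ?_).congr ?_
    · simp only [List.length_cons]; omega
    · simp

/-- Reading a coded list of bits as a raw word. -/
theorem PS.unraw {ι : Type} {u v : ι → List Bool}
    (h : PS u (fun j => (listCode bitCode (v j)).ser)) : PS u v := by
  obtain ⟨q, hq⟩ := h.length_le
  refine h.trans' (Cmd.seq unrawLoop (moveRev Aux.b Aux.c))
    Aux.a Aux.c (fun j => (8 * (v j).length + 4) + (3 * (v j).length + 1)) (fun j => ?_)
    (11 * q + 5) (fun j => ?_)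
  · have e1 := exec_unrawLoop (v j) []
    have e2 := exec_moveRev (a := Aux.b) (b := Aux.c) (by simp) (v j).reverse
      (single Aux.b (v j).reverse) (by simp)
    rw [List.append_nil] at e1
    refine Exec.seq (e1.congrL ?_) ((e2.congr ?_).mono ?_)
    · funext k; cases k <;> simp [single]
    · funext k; cases k <;> simp [single]
    · simp
  · have h1 := hq j
    have h2 := length_listCode bitCode (v j)
    simp only [Polynomial.eval_add, Polynomial.eval_mul, Polynomial.eval_ofNat]
    omega

/-- A typed polynomial-time function from words to words yields a Mathlib machine. -/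
theorem polyTimeComputable_of_PTime_word {f : List Bool → List Bool} (hf : PTime f) :
    PolyTimeComputable f :=
  polyTimeComputable_of_PS (PS.unraw (PS.trans (PS.raw (PS.refl _)) hf))

/-! ### Parsing words into trees -/

/-- One step of parsing, from the right. -/
def parseStep (s : Option (List T)) (b : Bool) : Option (List T) :=
  s.bind fun st => bif b then
    (match st with
      | x :: y :: r => some (T.cons x y :: r)
      | _ => none)
    else some (T.nil :: st)

def parseRun (w : List Bool) : Option (List T) := w.reverse.foldl parseStep (some [])

theorem parseRun_nil : parseRun [] = some [] := rfl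

theorem parseRun_cons (b : Bool) (w : List Bool) :
    parseRun (b :: w) = parseStep (parseRun w) b := by
  simp [parseRun, List.foldl_append]

/-- The tree of a word. -/
def parseT (w : List Bool) : Option T :=
  (parseRun w).bind fun st => match st with
    | [t] => some t
    | _ => none

theorem parseRun_ser (t : T) : ∀ (w : List Bool) (st : List T), parseRun w = some st →
    parseRun (t.ser ++ w) = some (t :: st) := by
  induction t with
  | nil =>
    intro w st h
    simp [T.ser, parseRun_cons, h, parseStep]
  | cons a b iha ihb =>
    intro w st h
    have h1 := ihb w st h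
    have h2 := iha (b.ser ++ w) (b :: st) h1
    simp only [T.ser, List.cons_append, List.append_assoc]
    rw [parseRun_cons, h2]
    simp [parseStep]

theorem parseRun_eq (w : List Bool) : ∀ st : List T, parseRun w = some st →
    w = st.flatMap T.ser := by
  induction w with
  | nil =>
    intro st h
    rw [parseRun_nil] at h
    simp only [Option.some.injEq] at h
    subst h; rfl
  | cons b w ih =>
    intro st h
    rw [parseRun_cons] at h
    cases hw : parseRun w with
    | none => rw [hw] at h; simp [parseStep] at h
    | some st' =>
      have h1 := ih st' hw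
      rw [hw] at h
      cases b with
      | false =>
        simp only [parseStep, Option.bind_some, cond_false, Option.some.injEq] at h
        subst h
        rw [h1]; simp [T.ser]
      | true =>
        rcases st' with _ | ⟨x, _ | ⟨y, r⟩⟩
        · simp [parseStep] at h
        · simp [parseStep] at h
        · simp only [parseStep, Option.bind_some, cond_true, Option.some.injEq] at h
          subst h
          rw [h1]; simp [T.ser]

theorem parseT_eq_some {w : List Bool} {t : T} : parseT w = some t ↔ w = t.ser := by
  constructor
  · intro h
    simp only [parseT, Option.bind_eq_some_iff] at h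
    obtain ⟨st, h1, h2⟩ := h
    rcases st with _ | ⟨x, _ | ⟨y, r⟩⟩
    · simp at h2
    · simp only [Option.some.injEq] at h2
      subst h2
      have := parseRun_eq w _ h1
      simpa using this
    · simp at h2
  · rintro rfl
    have := parseRun_ser t [] [] parseRun_nil
    rw [List.append_nil] at this
    simp [parseT, this]

theorem PTime.parseStep : PTime (fun y : Option (List T) × Bool => parseStep y.1 y.2) := by
  unfold PolyTime.parseStep
  refine PTime.bind (by fun_prop) (PTime.cond (by fun_prop) ?_ (by fun_prop))
  refine PTime.listCases (l := fun y : (Option (List T) × Bool) × List T => y.2) (by fun_prop)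
    (g := fun _ => none) (h := fun z => match z.2.2 with
      | y :: r => some (T.cons z.2.1 y :: r)
      | _ => none) (by fun_prop) ?_ ?_ ?_
  · refine PTime.listCases (l := fun y : ((Option (List T) × Bool) × List T) × T × List T =>
      y.2.2) (by fun_prop) (g := fun _ => none)
      (h := fun z => some (T.cons z.1.2.1 z.2.1 :: z.2.2)) (by fun_prop) (by fun_prop) ?_ ?_
    · rintro ⟨⟨a, b⟩, c, d⟩ h; simp only at h; subst h; rfl
    · rintro ⟨⟨a, b⟩, c, d⟩ e f h; simp only at h; subst h; rfl
  · rintro ⟨a, b⟩ h; simp only at h; subst h; rfl
  · rintro ⟨a, b⟩ c d h; simp only at h; subst h; rcases d with _ | ⟨e, d⟩ <;> rfl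

theorem sz_listT (st : List T) : sz st ≤ 1 + 2 * (st.flatMap T.ser).length := by
  induction st with
  | nil => simp
  | cons t st ih =>
    have h1 : sz t = t.ser.length := rfl
    have h2 := sz_pos t
    simp only [sz_cons, List.flatMap_cons, List.length_append]
    omega

section

variable {α β γ δ σ : Type} [Code α] [Code β] [Code γ] [Code δ] [Code σ]

theorem PTime.parseRun {w : α → List Bool} (hw : PTime w) :
    PTime (fun x => PolyTime.parseRun (w x)) := by
  have h : PTime (fun x => (w x).reverse.foldl (fun s b =>
      (fun y : α × Option (List T) × Bool => PolyTime.parseStep y.2.1 y.2.2) (x, s, b))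
      (some [])) := by
    refine PTime.foldl (f := fun y : α × Option (List T) × Bool =>
      PolyTime.parseStep y.2.1 y.2.2) hw.reverse (PTime.const _)
      (PTime.parseStep.comp (by fun_prop)) (B := fun x => 3 + 2 * sz (w x))
      ((PB.const 3).add ((PB.const 2).mul hw.sz_le)) ?_
    intro x l' hl'
    have e : l'.foldl (fun s b =>
      (fun y : α × Option (List T) × Bool => PolyTime.parseStep y.2.1 y.2.2) (x, s, b))
      (some []) = PolyTime.parseRun l'.reverse := by
      simp [PolyTime.parseRun]
    rw [e]
    have hlen : l'.length ≤ sz (w x) := by
      have h1 := hl'.length_le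
      have h2 := length_lt_sz (w x)
      rw [List.length_reverse] at h1
      omega
    cases h1 : PolyTime.parseRun l'.reverse with
    | none => rw [sz_none]; omega
    | some st =>
      have h2 := parseRun_eq _ _ h1
      have h3 := sz_listT st
      rw [← h2, List.length_reverse] at h3
      rw [sz_some]; omega
  exact h

theorem PTime.parseT {w : α → List Bool} (hw : PTime w) :
    PTime (fun x => PolyTime.parseT (w x)) := by
  unfold PolyTime.parseT
  refine PTime.bind (PTime.parseRun hw) ?_
  refine PTime.listCases (l := fun y : α × List T => y.2) (by fun_prop) (g := fun _ => none)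
    (h := fun z => bif z.2.2.isEmpty then some z.2.1 else none) (by fun_prop) (by fun_prop) ?_ ?_
  · rintro ⟨a, b⟩ h; simp only at h; subst h; rfl
  · rintro ⟨a, b⟩ c d h; simp only at h; subst h; rcases d with _ | ⟨e, d⟩ <;> rfl

end

/-! ### Decoding trees -/

/-- Types whose codes can be recognised and decoded in polynomial time. -/
class Decode (α : Type) [Code α] where
  /-- the object with a given code, if any -/
  dec : T → Option α
  dec_eq : ∀ t a, dec t = some a ↔ code a = t
  ptime : PTime dec

open Decode

theorem dec_code {α : Type} [Code α] [Decode α] (a : α) : dec (code a) = some a :=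
  (dec_eq _ _).2 rfl

theorem code_of_dec {α : Type} [Code α] [Decode α] {t : T} {a : α} (h : dec t = some a) :
    code a = t := (dec_eq _ _).1 h

instance : Decode T := ⟨fun t => some t, fun t a => by
  simp only [Option.some.injEq]; exact eq_comm, by fun_prop⟩

theorem PTime.treeCases {α γ : Type} [Code α] [Code γ] {t : α → T} (ht : PTime t) {F : α → γ}
    {g : α → γ} {h : α × T × T → γ} (hg : PTime g) (hh : PTime h)
    (e0 : ∀ x, t x = T.nil → F x = g x) (e1 : ∀ x a b, t x = T.cons a b → F x = h (x, a, b)) :
    PTime F := by
  refine PTime.branch (c := t) ht ?_ ?_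
  · exact (hg.comp (PTime.id (α := {a // t a = T.nil})).val).code_congr
      (fun a => (e0 a.1 a.2).symm)
  · have h1 : PTime (fun a : {a // t a ≠ T.nil} => (a.1, (t a.1).left, (t a.1).right)) := by
      have h2 : PTime (fun a : {a // t a ≠ T.nil} => t a.1) := ht.comp PTime.id.val
      exact PTime.prodMk PTime.id.val (PTime.prodMk h2.treeLeft h2.treeRight)
    refine (hh.comp h1).code_congr (fun a => ?_)
    cases hta : t a.1 with
    | nil => exact absurd hta a.2
    | cons b c => simp only [T.left, T.right]; exact (e1 a.1 _ _ hta).symm

/-- Decoding of a bit. -/
def decBool : T → Option Bool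
  | T.nil => some false
  | T.cons T.nil T.nil => some true
  | _ => none

theorem PTime.decBool : PTime PolyTime.decBool := by
  refine PTime.treeCases (t := fun t : T => t) (by fun_prop) (g := fun _ => some false)
    (h := fun y => bif decide (y.2.1 = T.nil) && decide (y.2.2 = T.nil) then some true else none)
    (by fun_prop) (by fun_prop) ?_ ?_
  · intro x hx; subst hx; rfl
  · intro x a b hx; subst hx
    cases a <;> cases b <;> rfl

instance : Decode Bool := ⟨decBool, fun t a => by
  rcases t with _ | ⟨_ | ⟨c, d⟩, _ | ⟨e, f⟩⟩ <;> cases a <;> simp [decBool, code, bitCode],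
  PTime.decBool⟩

/-- Decoding of pairs. -/
def decPair {α β : Type} (f : T → Option α) (g : T → Option β) : T → Option (α × β)
  | T.nil => none
  | T.cons a b => (f a).bind fun x => (g b).bind fun y => some (x, y)

theorem PTime.decPair {α β : Type} [Code α] [Code β] {f : T → Option α} {g : T → Option β}
    (hf : PTime f) (hg : PTime g) : PTime (PolyTime.decPair f g) := by
  refine PTime.treeCases (t := fun t : T => t) (by fun_prop) (g := fun _ => none)
    (h := fun y => (f y.2.1).bind fun x => (g y.2.2).bind fun y => some (x, y))
    (by fun_prop) ?_ ?_ ?_
  · exact PTime.bind (hf.comp (by fun_prop)) (PTime.bind (hg.comp (by fun_prop)) (by fun_prop))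
  · intro x hx; subst hx; rfl
  · intro x a b hx; subst hx; rfl

instance {α β : Type} [Code α] [Code β] [Decode α] [Decode β] : Decode (α × β) :=
  ⟨decPair dec dec, fun t x => by
    obtain ⟨a, b⟩ := x
    cases t with
    | nil => simp [decPair, code]
    | cons c d =>
      simp only [decPair, Option.bind_eq_some_iff, Option.some.injEq, Prod.mk.injEq, code,
        T.cons.injEq]
      constructor
      · rintro ⟨x, hx, y, hy, rfl, rfl⟩
        exact ⟨code_of_dec hx, code_of_dec hy⟩
      · rintro ⟨rfl, rfl⟩
        exact ⟨a, dec_code a, b, dec_code b, rfl, rfl⟩,
    PTime.decPair Decode.ptime Decode.ptime⟩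

/-- The list of trees coded by a tree. -/
def spine : T → List T
  | T.nil => []
  | T.cons a b => a :: spine b

theorem code_spine (t : T) : code (spine t) = t := by
  induction t with
  | nil => rfl
  | cons a b _ ih => exact congrArg (T.cons a) ih

theorem PTime.spine {α : Type} [Code α] {t : α → T} (ht : PTime t) :
    PTime (fun x => PolyTime.spine (t x)) :=
  ht.recode (fun x => code_spine (t x))

/-- Decoding all elements of a list. -/
def decAll {α : Type} (f : T → Option α) (l : List T) : Option (List α) :=
  l.reverse.foldl (fun s t => s.bind fun r => (f t).bind fun a => some (a :: r)) (some [])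

theorem decAll_nil {α : Type} (f : T → Option α) : decAll f [] = some [] := rfl

theorem decAll_cons {α : Type} (f : T → Option α) (t : T) (l : List T) :
    decAll f (t :: l) = (decAll f l).bind fun r => (f t).bind fun a => some (a :: r) := by
  simp [decAll, List.foldl_append]

theorem decAll_eq {α : Type} [Code α] [Decode α] (l : List T) :
    ∀ m : List α, decAll dec l = some m ↔ m.map code = l := by
  induction l with
  | nil =>
    intro m
    rw [decAll_nil]
    cases m with
    | nil => exact ⟨fun _ => rfl, fun _ => rfl⟩
    | cons a m => exact ⟨fun h => (by cases h), fun h => (by cases h)⟩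
  | cons t l ih =>
    intro m
    simp only [decAll_cons, Option.bind_eq_some_iff, Option.some.injEq]
    constructor
    · rintro ⟨r, hr, a, ha, rfl⟩
      simp [code_of_dec ha, (ih r).1 hr]
    · intro h
      cases m with
      | nil => simp at h
      | cons a r =>
        simp only [List.map_cons, List.cons.injEq] at h
        exact ⟨r, (ih r).2 h.2, a, by rw [← h.1]; exact dec_code a, rfl⟩

theorem code_map_code {α : Type} [Code α] (m : List α) : code (m.map code) = code m := by
  induction m with
  | nil => rfl
  | cons a m ih => exact congrArg (T.cons (code a)) ih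

theorem spine_inj : Function.Injective spine := fun s t h => by
  rw [← code_spine s, ← code_spine t, h]

theorem PTime.decAll {α β : Type} [Code α] [Decode α] [Code β] {l : β → List T} (hl : PTime l) :
    PTime (fun x => PolyTime.decAll (dec : T → Option α) (l x)) := by
  have h : PTime (fun x => (l x).reverse.foldl (fun s t =>
      (fun y : β × Option (List α) × T => y.2.1.bind fun r =>
        (dec y.2.2 : Option α).bind fun a => some (a :: r)) (x, s, t)) (some [])) := by
    refine PTime.foldl (f := fun y : β × Option (List α) × T => y.2.1.bind fun r =>
        (dec y.2.2 : Option α).bind fun a => some (a :: r)) hl.reverse (PTime.const _) ?_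
        (B := fun x => 2 + sz (l x)) ((PB.const 2).add hl.sz_le) ?_
    · refine PTime.bind (by fun_prop) (PTime.bind ?_ (by fun_prop))
      exact Decode.ptime.comp (by fun_prop)
    · intro x l' hl'
      have e : l'.foldl (fun s t =>
          (fun y : β × Option (List α) × T => y.2.1.bind fun r =>
          (dec y.2.2 : Option α).bind fun a => some (a :: r)) (x, s, t)) (some []) =
          PolyTime.decAll dec l'.reverse := by
        simp [PolyTime.decAll]
      rw [e]
      cases h1 : PolyTime.decAll (dec : T → Option α) l'.reverse with
      | none => rw [sz_none]; omega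
      | some m =>
        have h2 := (decAll_eq _ m).1 h1
        have h3 : sz m = sz (m.map (Code.code : α → T)) := congrArg (fun t : T => t.ser.length)
          (code_map_code m).symm
        have h4 := sz_prefix hl'
        rw [sz_reverse] at h4
        rw [sz_some, h3, h2, sz_reverse]
        omega
  exact h

instance {α : Type} [Code α] [Decode α] : Decode (List α) :=
  ⟨fun t => decAll dec (spine t), fun t m => by
    rw [decAll_eq]
    constructor
    · intro h
      rw [← code_map_code, h, code_spine]
    · rintro rfl
      apply LawfulCode.inj
      rw [code_spine, code_map_code],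
    PTime.decAll (PTime.spine PTime.id)⟩

end Pool.Agent.Work.PolyTime
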