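import Pool.Agent.Work.PolyTime.ETR

/-!
The class NP and NP-hardness.
-/

set_option autoImplicit false

namespace Pool.Agent.Work.PolyTime

/-- Pairing of words: the bits of `x`, each preceded by `1`, then `0`, then `y`. -/
def pairW : List Bool → List Bool → List Bool
  | [], y => false :: y
  | b :: x, y => true :: b :: pairW x y

/-- The class NP: membership is certified by words of polynomial length that are checked in
polynomial time. -/
def InNP (L : Set (List Bool)) : Prop :=
  ∃ (R : List Bool → List Bool) (p : Polynomial ℕ), PolyTimeComputable R ∧
    ∀ x, x ∈ L ↔ ∃ y : List Bool, y.length ≤ p.eval x.length ∧ R (pairW x y) = [true]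

/-- The class P. -/
def InP (L : Set (List Bool)) : Prop :=
  ∃ f : List Bool → List Bool, PolyTimeComputable f ∧ ∀ x, x ∈ L ↔ f x = [true]

/-- NP-hardness under polynomial-time many-one reductions. -/
def NPHard (L : Set (List Bool)) : Prop := ∀ L', InNP L' → PolyReducible L' L

end Pool.Agent.Work.PolyTime
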