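import Pool.Agent.Work.PolyTime.Criteria

/-!
More polynomial-time predicates on lists, and points of the plane in formulas.
-/

set_option autoImplicit false
set_option linter.unusedSimpArgs false

namespace Pool.Agent.Work.PolyTime

open Function

/-- Boolean version of `List.Pairwise`. -/
def pairwiseB {β : Type} (R : β → β → Bool) (l : List β) : Bool :=
  l.zipIdx.all fun y => l.zipIdx.all fun z => (!(decide (y.2 + 1 ≤ z.2))) || R y.1 z.1

theorem pairwiseB_iff {β : Type} {R : β → β → Bool} {S : β → β → Prop} {l : List β}
    (h : ∀ a b, R a b = true ↔ S a b) : pairwiseB R l = true ↔ l.Pairwise S := by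
  simp only [pairwiseB, List.all_eq_true, Bool.or_eq_true, Bool.not_eq_true',
    decide_eq_false_iff_not, h, List.pairwise_iff_getElem]
  constructor
  · intro H i j hi hj hij
    have h1 := H (l[i], i) (by rw [List.mem_zipIdx_iff_getElem?]; simp [hi]) (l[j], j)
      (by rw [List.mem_zipIdx_iff_getElem?]; simp [hj])
    rcases h1 with h1 | h1
    · simp only at h1; omega
    · exact h1
  · rintro H ⟨a, i⟩ ha ⟨b, j⟩ hb
    rw [List.mem_zipIdx_iff_getElem?] at ha hb
    simp only at ha hb
    obtain ⟨hi, rfl⟩ := List.getElem?_eq_some_iff.1 ha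
    obtain ⟨hj, rfl⟩ := List.getElem?_eq_some_iff.1 hb
    by_cases hij : i < j
    · exact Or.inr (H i j hi hj hij)
    · left; simp only; omega

/-- Boolean membership. -/
def memB {β : Type} [DecidableEq β] (a : β) (l : List β) : Bool := l.any fun b => decide (b = a)

theorem memB_iff {β : Type} [DecidableEq β] {a : β} {l : List β} : memB a l = true ↔ a ∈ l := by
  simp [memB]

section

variable {α β γ : Type} [Code α] [Code β] [Code γ]

@[fun_prop]
theorem PTime.memB [LawfulCode β] [DecidableEq β] {f : α → β} {l : α → List β} (hf : PTime f)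
    (hl : PTime l) : PTime (fun x => PolyTime.memB (f x) (l x)) := by
  unfold PolyTime.memB
  exact PTime.any hl (PTime.eq PTime.snd (hf.comp PTime.fst))

theorem PTime.pairwiseB {l : α → List β} {R : α → β → β → Bool} (hl : PTime l)
    (hR : PTime (fun y : α × β × β => R y.1 y.2.1 y.2.2)) :
    PTime (fun x => PolyTime.pairwiseB (R x) (l x)) := by
  unfold PolyTime.pairwiseB
  have h1 : PTime (fun x => (l x).zipIdx) := PTime.zipIdx hl
  refine PTime.all h1 (PTime.all (h1.comp PTime.fst) ?_)
  refine PTime.or (by fun_prop) (hR.comp (f := fun y : (α × β × ℕ) × β × ℕ =>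
    (y.1.1, y.1.2.1, y.2.1)) (by fun_prop))

@[fun_prop]
theorem PTime.natLt {m n : α → ℕ} (hm : PTime m) (hn : PTime n) :
    PTime (fun x => decide (m x < n x)) := by
  have h : PTime (fun x => decide (m x + 1 ≤ n x)) := by fun_prop
  exact h

/-- Unary names. -/
def nm (n : ℕ) : Name := List.replicate n true

@[fun_prop]
theorem PTime.nm {n : α → ℕ} (hn : PTime n) : PTime (fun x => PolyTime.nm (n x)) := by
  have h : PTime (fun x => (List.replicate (n x) ()).map fun _ => true) :=
    PTime.map hn.replicateUnit (by fun_prop)
  refine h.code_congr (fun x => ?_)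
  simp [PolyTime.nm]

theorem nm_length (n : ℕ) : (nm n).length = n := by simp [nm]

theorem nm_inj : Function.Injective nm := fun a b h => by
  rw [← nm_length a, h, nm_length]

end

/-! ### Points -/

/-- Coordinates of a point as terms. -/
def xc (a : Name) : Term := .var (false :: a)
def yc (a : Name) : Term := .var (true :: a)

/-- The determinant of three points. -/
def detT (a b c : Name) : Term :=
  .sub (.mul (.sub (xc b) (xc a)) (.sub (yc c) (yc a)))
    (.mul (.sub (yc b) (yc a)) (.sub (xc c) (xc a)))

/-- Collinearity as a formula. -/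
def colF (a b c : Name) : Formula := .eq (detT a b c) (.lit [])

/-- The point assigned to a name. -/
def ptOf (x : Name → ℝ) (a : Name) : ℝ × ℝ := (x (false :: a), x (true :: a))

/-- The assignment of numbers given by an assignment of points. -/
def numOf (p : Name → ℝ × ℝ) : Name → ℝ
  | [] => 0
  | false :: a => (p a).1
  | true :: a => (p a).2

theorem ptOf_numOf (p : Name → ℝ × ℝ) : ptOf (numOf p) = p := rfl

/-- The determinant of three points of the plane. -/
def det2 (a b c : ℝ × ℝ) : ℝ := (b.1 - a.1) * (c.2 - a.2) - (b.2 - a.2) * (c.1 - a.1)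

theorem detT_eval (x : Name → ℝ) (a b c : Name) :
    (detT a b c).eval x = det2 (ptOf x a) (ptOf x b) (ptOf x c) := rfl

theorem colF_holds (x : Name → ℝ) (a b c : Name) :
    (colF a b c).Holds x ↔ det2 (ptOf x a) (ptOf x b) (ptOf x c) = 0 := by
  simp [colF, Formula.Holds, detT_eval, Term.eval, litVal]

section

variable {α β γ : Type} [Code α] [Code β] [Code γ]

@[fun_prop]
theorem PTime.detT {a b c : α → Name} (ha : PTime a) (hb : PTime b) (hc : PTime c) :
    PTime (fun x => PolyTime.detT (a x) (b x) (c x)) := by
  unfold PolyTime.detT xc yc; fun_prop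

@[fun_prop]
theorem PTime.colF {a b c : α → Name} (ha : PTime a) (hb : PTime b) (hc : PTime c) :
    PTime (fun x => PolyTime.colF (a x) (b x) (c x)) := by
  unfold PolyTime.colF; fun_prop

end

end Pool.Agent.Work.PolyTime
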