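import Pool.Agent.Work.PolyTime.Cnf

/-!
NP-hardness criterion: reductions from satisfiability of numbered clause systems.
-/

set_option autoImplicit false
set_option linter.unusedSimpArgs false

namespace Pool.Agent.Work.PolyTime

open Pool.Agent.Work.MP_0532f7_lc (Form TAUT pr cook_levin PolyTime)

theorem pairW_eq_pr (x y : List Bool) : pairW x y = pr x y := by
  induction x with
  | nil => rfl
  | cons b x ih => simp [pairW, pr, ih]

/-- The Cook-Levin theorem, in terms of tautologies. -/
theorem np_to_taut {L : Set (List Bool)} (hL : InNP L) :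
    ∃ r : List Bool → List Bool, PolyTimeComputable r ∧ ∀ x, x ∈ L ↔ r x ∉ TAUT := by
  obtain ⟨R, p, hR, h⟩ := hL
  have hR' : PolyTime R := hR
  obtain ⟨r, hr, hr'⟩ := cook_levin hR' p
  refine ⟨r, hr, fun x => ?_⟩
  rw [hr', h]
  push Not
  simp only [pairW_eq_pr]

/-! ### Numbering -/

/-- Numbered clauses. -/
abbrev NClause : Type := List (Bool × ℕ)

/-- Satisfiability of a clause system. -/
def CnfSat (C : List NClause) : Prop := ∃ X : ℕ → Bool, ∀ c ∈ C, ∃ l ∈ c, X l.2 = l.1

def cvars (C : List Clause) : List V := C.flatMap fun c => c.map Prod.snd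

def cRenum (C : List Clause) : List NClause :=
  C.map fun c => c.map fun l => (l.1, pos (cvars C) l.2)

theorem cRenum_correct (C : List Clause) :
    (∃ X : V → Bool, ∀ c ∈ C, CHolds X c) ↔ CnfSat (cRenum C) := by
  constructor
  · rintro ⟨X, hX⟩
    refine ⟨fun n => X (((cvars C)[n]?).getD vone), ?_⟩
    intro c' hc'
    obtain ⟨c, hc, rfl⟩ := List.mem_map.1 hc'
    obtain ⟨l, hl, hl'⟩ := hX c hc
    refine ⟨_, List.mem_map_of_mem hl, ?_⟩
    have hv : l.2 ∈ cvars C := List.mem_flatMap.2 ⟨c, hc, List.mem_map_of_mem hl⟩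
    simp only [pos_getElem _ _ hv]
    exact hl'
  · rintro ⟨X, hX⟩
    refine ⟨fun v => X (pos (cvars C) v), ?_⟩
    intro c hc
    obtain ⟨l, hl, hl'⟩ := hX _ (List.mem_map_of_mem hc)
    obtain ⟨m, hm, rfl⟩ := List.mem_map.1 hl
    exact ⟨m, hm, hl'⟩

/-- The numbered clauses of a word. -/
def cnfOf (w : List Bool) : List NClause := cRenum (clausesW w)

theorem cnfOf_correct (w : List Bool) : w ∉ TAUT ↔ CnfSat (cnfOf w) := by
  rw [clausesW_correct, cRenum_correct]; rfl

theorem cRenum_length (C : List Clause) (h : ∀ c ∈ C, c.length ≤ 3) :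
    ∀ c ∈ cRenum C, c.length ≤ 3 := by
  intro c hc
  obtain ⟨c', hc', rfl⟩ := List.mem_map.1 hc
  simpa using h c' hc'

theorem clausesW_length (w : List Bool) : ∀ c ∈ clausesW w, c.length ≤ 3 := by
  intro c hc
  unfold clausesW at hc
  cases hm : ((rRun w).1.1 || (rRun w).1.2) with
  | true => rw [hm] at hc; simp at hc
  | false =>
    rw [hm, cond_false] at hc
    rcases csim_run (rRun w).2.2 with ⟨-, h2⟩ | ⟨abs, s, -, h2, h3⟩
    · rw [h2] at hc; simp at hc
    · rw [h2, Option.bind_some] at hc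
      obtain ⟨n, st, cs⟩ := s
      rcases st with _ | ⟨v, _ | ⟨v', r⟩⟩
      · simp [kAccept] at hc
      · simp only [kAccept, Option.getD_some, List.mem_cons] at hc
        rcases hc with rfl | hc
        · simp
        · exact (h3.cold c hc).1
      · simp [kAccept] at hc

/-- All clauses have at most three literals. -/
theorem cnfOf_length (w : List Bool) : ∀ c ∈ cnfOf w, c.length ≤ 3 :=
  cRenum_length _ (clausesW_length w)

/-! ### Running time -/

section

variable {α β γ : Type} [Code α] [Code β] [Code γ]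

theorem PTime.rStep {s : α → RSt} {b : α → Bool} (hs : PTime s) (hb : PTime b) :
    PTime (fun x => rStep (s x) (b x)) := by
  unfold PolyTime.rStep; fun_prop

theorem PTime.rRun {w : α → List Bool} (hw : PTime w) :
    PTime (fun x => PolyTime.rRun (w x)) := by
  have h : PTime (fun x => (w x).foldl (fun s b =>
      (fun y : α × RSt × Bool => PolyTime.rStep y.2.1 y.2.2) (x, s, b))
      ((false, false), [], [])) := by
    refine PTime.foldlGrow (f := fun y : α × RSt × Bool => PolyTime.rStep y.2.1 y.2.2) hw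
      (PTime.const _) (PTime.rStep (by fun_prop) (by fun_prop)) (G := fun _ => 30) (PB.const 30) ?_
    rintro x b _ ⟨⟨m1, m2⟩, s, out⟩
    have h1 := sz_bool b
    have h2 := sz_append s [b]
    simp only [sz_cons, sz_nil] at h2
    cases m1 <;> cases m2 <;> cases b <;>
      simp [PolyTime.rStep] at * <;> omega
  exact h

theorem PTime.kStep : PTime (fun y : CSt × Tok => PolyTime.kStep y.1 y.2) := by
  refine PTime.sumCases (o := fun y : CSt × Tok => y.2) (by fun_prop)
    (g := fun z => some (z.1.1.1 + 1, Sum.inl z.2 :: z.1.1.2.1, z.1.1.2.2))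
    (h := fun z => PolyTime.kStep z.1.1 (Sum.inr z.2)) (by fun_prop) ?_ ?_ ?_
  · refine PTime.branchBool (c := fun z : (CSt × Tok) × Bool => z.2) (by fun_prop) ?_ ?_
    · refine PTime.listCases (l := fun z : {a : (CSt × Tok) × Bool // a.2 = false} =>
        z.1.1.1.2.1) (by fun_prop) (g := fun _ => none)
        (h := fun u => some (u.1.1.1.1.1 + 1, ax u.1.1.1.1.1 0 :: u.2.2,
          [(true, ax u.1.1.1.1.1 0), (true, u.2.1)] ::
            [(false, ax u.1.1.1.1.1 0), (false, u.2.1)] :: u.1.1.1.1.2.2))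
        (by fun_prop) (by fun_prop) ?_ ?_
      · rintro ⟨⟨⟨⟨n, st, cs⟩, t⟩, b⟩, hb⟩ h
        simp only at hb h; subst hb; subst h; rfl
      · rintro ⟨⟨⟨⟨n, st, cs⟩, t⟩, b⟩, hb⟩ a r h
        simp only at hb h; subst hb; subst h; rfl
    · refine PTime.listCases (l := fun z : {a : (CSt × Tok) × Bool // a.2 = true} =>
        z.1.1.1.2.1) (by fun_prop) (g := fun _ => none)
        (h := fun u => PolyTime.kStep (u.1.1.1.1.1, u.2.1 :: u.2.2, u.1.1.1.1.2.2)
          (Sum.inr true)) (by fun_prop) ?_ ?_ ?_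
      · refine PTime.listCases (l := fun u : {a : (CSt × Tok) × Bool // a.2 = true} ×
          V × List V => u.2.2) (by fun_prop) (g := fun _ => none)
          (h := fun v => some (v.1.1.1.1.1.1 + 1, ax v.1.1.1.1.1.1 0 :: v.2.2,
            [(false, ax v.1.1.1.1.1.1 0), (false, v.1.2.1), (true, v.2.1)] ::
            [(true, ax v.1.1.1.1.1.1 0), (true, v.1.2.1)] ::
            [(true, ax v.1.1.1.1.1.1 0), (false, v.2.1)] :: v.1.1.1.1.1.2.2))
          (by fun_prop) (by fun_prop) ?_ ?_
        · rintro ⟨⟨⟨⟨⟨n, st, cs⟩, t⟩, b⟩, hb⟩, a, r⟩ h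
          simp only at h; subst h; rfl
        · rintro ⟨⟨⟨⟨⟨n, st, cs⟩, t⟩, b⟩, hb⟩, a, r⟩ c m h
          simp only at h; subst h; rfl
      · rintro ⟨⟨⟨⟨n, st, cs⟩, t⟩, b⟩, hb⟩ h
        simp only at hb h; subst hb; subst h; rfl
      · rintro ⟨⟨⟨⟨n, st, cs⟩, t⟩, b⟩, hb⟩ a r h
        simp only at hb h; subst hb; subst h; rfl
  · rintro ⟨⟨n, st, cs⟩, t⟩ b h
    simp only at h; subst h; rfl
  · rintro ⟨⟨n, st, cs⟩, t⟩ b h
    simp only at h; subst h; rfl

theorem sz_vold {l : List Tok} {n : ℕ} {v : V} (h : VOld l n v) : sz v ≤ 10 + 2 * n + sz l := by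
  rcases v with x | ⟨m, j⟩
  · have h1 : (Sum.inl x : Tok) ∈ l := h
    have h2 := sz_mem h1
    simp only [sz_inl] at *
    omega
  · obtain ⟨h1, h2⟩ := h
    simp only at h1 h2
    subst h2
    simp only [sz_inr, sz_pair, sz_nat]
    omega

theorem sz_csim {l : List Tok} {s : CSt} {abs : List Form} (h : CSim l s abs) :
    sz s ≤ 5 + 2 * s.1 + s.1 * (11 + 2 * s.1 + sz l) +
      3 * s.1 * (2 + 3 * (15 + 2 * s.1 + sz l)) := by
  obtain ⟨n, st, cs⟩ := s
  have h1 := sz_list_le st (10 + 2 * n + sz l) (fun v hv => sz_vold (h.vold v hv))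
  have hc : ∀ c ∈ cs, sz c ≤ 1 + 3 * (15 + 2 * n + sz l) := by
    intro c hc
    obtain ⟨h2, h3⟩ := h.cold c hc
    have h4 := sz_list_le c (14 + 2 * n + sz l) (fun p hp => by
      obtain ⟨b, v⟩ := p
      have h5 := sz_vold (h3 _ hp)
      have h6 := sz_bool b
      simp only [sz_pair] at *
      omega)
    have h7 : c.length * (1 + (14 + 2 * n + sz l)) ≤ 3 * (15 + 2 * n + sz l) := by
      have e : 1 + (14 + 2 * n + sz l) = 15 + 2 * n + sz l := by ring
      rw [e]
      exact Nat.mul_le_mul_right _ h2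
    omega
  have h2 := sz_list_le cs _ hc
  have h3 : st.length * (1 + (10 + 2 * n + sz l)) ≤ n * (11 + 2 * n + sz l) := by
    have := h.lenS
    simp only at this
    have e : 1 + (10 + 2 * n + sz l) = 11 + 2 * n + sz l := by ring
    rw [e]
    exact Nat.mul_le_mul_right _ this
  have h4 : cs.length * (1 + (1 + 3 * (15 + 2 * n + sz l))) ≤
      3 * n * (2 + 3 * (15 + 2 * n + sz l)) := by
    have := h.lenC
    simp only at this
    have e : 1 + (1 + 3 * (15 + 2 * n + sz l)) = 2 + 3 * (15 + 2 * n + sz l) := by ring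
    rw [e]
    exact Nat.mul_le_mul_right _ this
  simp only [sz_pair, sz_nat]
  omega

theorem PTime.kRun {l : α → List Tok} (hl : PTime l) :
    PTime (fun x => PolyTime.kRun (l x)) := by
  have h : PTime (fun x => (l x).foldl (fun s t =>
      (fun y : α × Option CSt × Tok => y.2.1.bind fun s => PolyTime.kStep s y.2.2) (x, s, t))
      (some (0, [], []))) := by
    refine PTime.foldl (f := fun y : α × Option CSt × Tok =>
      y.2.1.bind fun s => PolyTime.kStep s y.2.2) hl (PTime.const _) ?_
      (B := fun x => 7 + 2 * sz (l x) + sz (l x) * (11 + 3 * sz (l x)) +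
        3 * sz (l x) * (2 + 3 * (15 + 3 * sz (l x)))) ?_ ?_
    · refine PTime.bind (by fun_prop) ?_
      exact PTime.kStep.comp (f := fun y : (α × Option CSt × Tok) × CSt => (y.2, y.1.2.2))
        (by fun_prop)
    · have h1 := hl.sz_le
      exact (((PB.const 7).add ((PB.const 2).mul h1)).add (h1.mul ((PB.const 11).add
        ((PB.const 3).mul h1)))).add (((PB.const 3).mul h1).mul ((PB.const 2).add
        ((PB.const 3).mul ((PB.const 15).add ((PB.const 3).mul h1)))))
    · intro x l' hl'
      change sz (PolyTime.kRun l') ≤ _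
      have hlen : l'.length ≤ sz (l x) := by
        have h1 := hl'.length_le
        have h2 := length_lt_sz (l x)
        omega
      have hsz : sz l' ≤ sz (l x) := sz_prefix hl'
      rcases csim_run l' with ⟨-, h2⟩ | ⟨abs, s, -, h2, h3⟩
      · rw [h2, sz_none]; omega
      · rw [h2, sz_some]
        have h5 := sz_csim h3
        have h4 := h3.time
        rw [← h4] at hlen
        have h6 : s.1 * (11 + 2 * s.1 + sz l') ≤ sz (l x) * (11 + 3 * sz (l x)) :=
          Nat.mul_le_mul hlen (by omega)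
        have h7 : 3 * s.1 * (2 + 3 * (15 + 2 * s.1 + sz l')) ≤
            3 * sz (l x) * (2 + 3 * (15 + 3 * sz (l x))) :=
          Nat.mul_le_mul (by omega) (by omega)
        omega
  exact h

theorem PTime.kAccept {s : α → CSt} (hs : PTime s) : PTime (fun x => PolyTime.kAccept (s x)) := by
  refine PTime.listCases (l := fun x => (s x).2.1) (by fun_prop) (g := fun _ => none)
    (h := fun y => bif y.2.2.isEmpty then some ([(false, y.2.1)] :: (s y.1).2.2) else none)
    (by fun_prop) ?_ ?_ ?_
  · have h1 : PTime (fun y : α × V × List V => (s y.1).2.2) :=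
      PTime.snd.comp (PTime.snd.comp (hs.comp PTime.fst))
    fun_prop
  · intro x hx
    generalize s x = y at *
    obtain ⟨n, st, cs⟩ := y
    simp only at hx; subst hx; rfl
  · intro x v r hx
    generalize s x = y at *
    obtain ⟨n, st, cs⟩ := y
    simp only at hx; subst hx
    cases r <;> rfl

theorem PTime.clausesW {w : α → List Bool} (hw : PTime w) :
    PTime (fun x => PolyTime.clausesW (w x)) := by
  unfold PolyTime.clausesW
  have h := PTime.rRun hw
  refine PTime.cond (by fun_prop) (PTime.const _) (PTime.getD (PTime.bind (PTime.kRun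
    (by fun_prop)) ?_) (PTime.const _))
  exact PTime.kAccept (by fun_prop)

theorem PTime.cnfOf {w : α → List Bool} (hw : PTime w) :
    PTime (fun x => PolyTime.cnfOf (w x)) := by
  unfold PolyTime.cnfOf PolyTime.cRenum
  have h := PTime.clausesW hw
  have hv : PTime (fun x => cvars (PolyTime.clausesW (w x))) := by
    unfold cvars
    exact PTime.flatMap h (PTime.map (by fun_prop) (by fun_prop))
  refine PTime.map h (PTime.map (by fun_prop) (PTime.prodMk (by fun_prop)
    (PTime.pos (hv.comp ?_) (by fun_prop))))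
  fun_prop

end

/-- NP-hardness criterion. -/
theorem nphard_of_cnf {α : Type} [Code α] [LawfulCode α] {wf yes : α → Prop}
    {F : List NClause → α} (hF : PTime F) (hw : ∀ C, wf (F C))
    (h : ∀ C, (∀ c ∈ C, c.length ≤ 3) → (CnfSat C ↔ yes (F C))) :
    NPHard (problem wf yes) := by
  intro L hL
  obtain ⟨r, hr, hr'⟩ := np_to_taut hL
  refine ⟨fun x => (code (F (cnfOf (r x)))).ser, ?_, fun x => ?_⟩
  · exact PolyTimeComputable.comp (g := fun w => (code (F (cnfOf w))).ser)
      (polyTimeComputable_of_PTime (hF.comp (PTime.cnfOf PTime.id))) hr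
  · rw [hr', cnfOf_correct, h _ (cnfOf_length _)]
    constructor
    · intro hy
      exact ⟨_, rfl, hw _, hy⟩
    · rintro ⟨a, ha, -, hy⟩
      have := LawfulCode.inj (T.ser_inj ha)
      rw [this]; exact hy

end Pool.Agent.Work.PolyTime
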