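import Pool.Agent.Work.PolyTime.Gap

/-!
The class PP is closed under conjunctions of polynomially many queries that are computed in
polynomial time (Beigel, Reingold, Spielman).
-/

set_option autoImplicit false
set_option linter.unusedSimpArgs false

namespace Pool.Agent.Work.PolyTime

open Pool.Agent.Work.MP_0532f7_lc (words mem_words card_words)

/-! ### Arithmetic -/

section arith

variable {β : Type}

theorem prod_pos_list {l : List β} {V : β → ℤ} (h : ∀ b ∈ l, 0 < V b) : 0 < (l.map V).prod := by
  induction l with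
  | nil => simp
  | cons b l ih =>
    rw [List.map_cons, List.prod_cons]
    exact mul_pos (h b (by simp)) (ih fun c hc => h c (by simp [hc]))

theorem prod_nonneg_list {l : List β} {V : β → ℤ} (h : ∀ b ∈ l, 0 ≤ V b) :
    0 ≤ (l.map V).prod := by
  induction l with
  | nil => simp
  | cons b l ih =>
    rw [List.map_cons, List.prod_cons]
    exact mul_nonneg (h b (by simp)) (ih fun c hc => h c (by simp [hc]))

theorem prod_le_list {l : List β} {U V : β → ℤ} (hU : ∀ b ∈ l, 0 ≤ U b)
    (h : ∀ b ∈ l, U b ≤ V b) : (l.map U).prod ≤ (l.map V).prod := by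
  induction l with
  | nil => simp
  | cons b l ih =>
    rw [List.map_cons, List.prod_cons, List.map_cons, List.prod_cons]
    exact mul_le_mul (h b (by simp))
      (ih (fun c hc => hU c (by simp [hc])) fun c hc => h c (by simp [hc]))
      (prod_nonneg_list fun c hc => hU c (by simp [hc])) ((hU b (by simp)).trans (h b (by simp)))

theorem crit_pos {l : List β} {U V : β → ℤ} {M : ℤ} (hM : 0 < M)
    (hl : 2 * (l.length : ℤ) ≤ M) (hU : ∀ b ∈ l, 0 ≤ U b) (hV : ∀ b ∈ l, 0 < V b)
    (h : ∀ b ∈ l, M * U b ≤ V b) :
    M * (l.map fun b => U b + V b).prod ≤ (M + 2 * l.length) * (l.map V).prod := by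
  induction l with
  | nil => simp
  | cons b l ih =>
    simp only [List.map_cons, List.prod_cons, List.length_cons]
    have hlen : 2 * ((l.length : ℤ) + 1) ≤ M := by
      have := hl
      simp only [List.length_cons] at this
      push_cast at this
      exact this
    have ih' := ih (by linarith) (fun c hc => hU c (by simp [hc])) (fun c hc => hV c (by simp [hc]))
      (fun c hc => h c (by simp [hc]))
    have p1 : 0 < (l.map V).prod := prod_pos_list fun c hc => hV c (by simp [hc])
    have p2 : 0 ≤ (l.map fun b => U b + V b).prod :=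
      prod_nonneg_list fun c hc => add_nonneg (hU c (by simp [hc])) (hV c (by simp [hc])).le
    have u := hU b (by simp)
    have v := hV b (by simp)
    have huv := h b (by simp)
    set X := (l.map fun b => U b + V b).prod
    set Y := (l.map V).prod
    have s1 : M * (U b + V b) ≤ (M + 1) * V b := by nlinarith
    have s2 : M * (M * ((U b + V b) * X)) ≤ ((M + 1) * V b) * ((M + 2 * l.length) * Y) := by
      calc M * (M * ((U b + V b) * X)) = (M * (U b + V b)) * (M * X) := by ring
        _ ≤ ((M + 1) * V b) * ((M + 2 * l.length) * Y) := by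
          refine mul_le_mul s1 ih' (mul_nonneg hM.le p2) ?_
          exact mul_nonneg (by linarith) v.le
    have s3 : ((M + 1) * V b) * ((M + 2 * l.length) * Y) ≤
        M * ((M + 2 * (l.length + 1)) * (V b * Y)) := by
      have s4 : (M + 1) * (M + 2 * l.length) ≤ M * (M + 2 * (l.length + 1)) := by nlinarith
      have s5 : 0 ≤ V b * Y := mul_nonneg v.le p1.le
      nlinarith
    have s6 := s2.trans s3
    push_cast
    exact le_of_mul_le_mul_left s6 hM

theorem crit_neg {l : List β} {U V : β → ℤ} (hU : ∀ b ∈ l, 0 ≤ U b) (hV : ∀ b ∈ l, 0 ≤ V b)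
    (h : ∃ b ∈ l, V b ≤ U b) : 2 * (l.map V).prod ≤ (l.map fun b => U b + V b).prod := by
  induction l with
  | nil =>
    obtain ⟨b, hb, -⟩ := h
    simp at hb
  | cons c l ih =>
    have u := hU c (by simp)
    have v := hV c (by simp)
    have p1 : 0 ≤ (l.map V).prod := prod_nonneg_list fun c hc => hV c (by simp [hc])
    have p2 : (l.map V).prod ≤ (l.map fun b => U b + V b).prod :=
      prod_le_list (fun c hc => hV c (by simp [hc])) fun c hc => by
        have := hU c (by simp [hc])
        linarith
    simp only [List.map_cons, List.prod_cons]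
    obtain ⟨b, hb, hle⟩ := h
    rcases List.mem_cons.1 hb with rfl | hb
    · nlinarith
    · have ih' := ih (fun c hc => hU c (by simp [hc])) (fun c hc => hV c (by simp [hc])) ⟨b, hb, hle⟩
      have : V c * (2 * (l.map V).prod) ≤ (U c + V c) * (l.map fun b => U b + V b).prod :=
        mul_le_mul (by linarith) ih' (by linarith) (by linarith)
      linarith

/-- The criterion. -/
theorem crit {l : List β} {U V : β → ℤ} {P : β → Prop} {M : ℤ} (hl : 2 * (l.length : ℤ) < M)
    (hU : ∀ b ∈ l, 0 ≤ U b) (hV : ∀ b ∈ l, 0 ≤ V b)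
    (hp : ∀ b ∈ l, P b → M * U b ≤ V b ∧ 0 < V b) (hn : ∀ b ∈ l, ¬ P b → V b ≤ U b) :
    0 < 2 * (l.map V).prod - (l.map fun b => U b + V b).prod ↔ ∀ b ∈ l, P b := by
  have hM : 0 < M := lt_of_le_of_lt (by positivity) hl
  constructor
  · intro h b hb
    by_contra hPb
    have := crit_neg hU hV ⟨b, hb, hn b hb hPb⟩
    linarith
  · intro h
    have h1 := crit_pos hM hl.le hU (fun b hb => (hp b hb (h b hb)).2)
      fun b hb => (hp b hb (h b hb)).1
    have h2 : 0 < (l.map V).prod := prod_pos_list fun b hb => (hp b hb (h b hb)).2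
    have h3 : M * (l.map fun b => U b + V b).prod < M * (2 * (l.map V).prod) := by
      refine lt_of_le_of_lt h1 ?_
      nlinarith
    have := lt_of_mul_lt_mul_left h3 hM.le
    linarith

theorem abs_prod_le {l : List β} {A B : β → ℤ} (h : ∀ b ∈ l, |A b| ≤ |B b|) :
    |(l.map A).prod| ≤ |(l.map B).prod| := by
  induction l with
  | nil => simp
  | cons b l ih =>
    rw [List.map_cons, List.prod_cons, List.map_cons, List.prod_cons, abs_mul, abs_mul]
    exact mul_le_mul (h b (by simp)) (ih fun c hc => h c (by simp [hc])) (abs_nonneg _)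
      (abs_nonneg _)

theorem three_abs_prod_le {l : List β} {A B : β → ℤ} (h : ∀ b ∈ l, |A b| ≤ |B b|)
    (h3 : ∃ b ∈ l, 3 * |A b| ≤ |B b|) : 3 * |(l.map A).prod| ≤ |(l.map B).prod| := by
  induction l with
  | nil =>
    obtain ⟨b, hb, -⟩ := h3
    simp at hb
  | cons c l ih =>
    rw [List.map_cons, List.prod_cons, List.map_cons, List.prod_cons, abs_mul, abs_mul]
    obtain ⟨b, hb, hle⟩ := h3
    rcases List.mem_cons.1 hb with rfl | hb
    · have h1 := abs_prod_le (l := l) (A := A) (B := B) fun c hc => h c (by simp [hc])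
      calc 3 * (|A b| * |(l.map A).prod|) = (3 * |A b|) * |(l.map A).prod| := by ring
        _ ≤ |B b| * |(l.map B).prod| := mul_le_mul hle h1 (abs_nonneg _) (abs_nonneg _)
    · have ih' := ih (fun c hc => h c (by simp [hc])) ⟨b, hb, hle⟩
      calc 3 * (|A c| * |(l.map A).prod|) = |A c| * (3 * |(l.map A).prod|) := by ring
        _ ≤ |B c| * |(l.map B).prod| :=
          mul_le_mul (h c (by simp)) ih' (by positivity) (abs_nonneg _)

end arith

/-- The polynomial with the roots `1, 2, 4, …, 2 ^ m`. -/
def rt (m : ℕ) (z : ℤ) : ℤ := ((List.range (m + 1)).map fun i => z - 2 ^ i).prod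

theorem rt_neg_ne {m : ℕ} {z : ℤ} (hz : 1 ≤ z) : rt m (-z) ≠ 0 := by
  unfold rt
  rw [Ne, List.prod_eq_zero_iff, List.mem_map]
  rintro ⟨i, -, hi⟩
  have : (0 : ℤ) < 2 ^ i := by positivity
  linarith

theorem rt_le {m : ℕ} {z : ℤ} (hz : 1 ≤ z) (hz' : z ≤ 2 ^ m) : 3 * |rt m z| ≤ |rt m (-z)| := by
  have hneg : ∀ i : ℕ, |-z - 2 ^ i| = z + 2 ^ i := by
    intro i
    have : (0 : ℤ) < 2 ^ i := by positivity
    rw [abs_of_nonpos (by linarith)]
    ring
  refine three_abs_prod_le (fun i _ => ?_) ?_
  · rw [hneg, abs_le]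
    have : (0 : ℤ) < 2 ^ i := by positivity
    constructor <;> linarith
  · obtain ⟨n, rfl⟩ : ∃ n : ℕ, z = n := ⟨z.toNat, (Int.toNat_of_nonneg (by linarith)).symm⟩
    have hn : n ≠ 0 := by
      rintro rfl
      simp at hz
    have h1 := Nat.pow_log_le_self 2 hn
    have h2 := Nat.lt_pow_succ_log_self (b := 2) one_lt_two n
    have h3 : n ≤ 2 ^ m := by exact_mod_cast hz'
    have h4 : Nat.log 2 n ≤ m := by
      by_contra h
      have h5 : 2 ^ (m + 1) ≤ 2 ^ Nat.log 2 n := Nat.pow_le_pow_right (by norm_num) (by omega)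
      rw [pow_succ] at h5
      have : 0 < 2 ^ m := by positivity
      omega
    refine ⟨Nat.log 2 n, List.mem_range.2 (by omega), ?_⟩
    rw [hneg]
    have h1' : (2 : ℤ) ^ Nat.log 2 n ≤ n := by exact_mod_cast h1
    have h2' : (n : ℤ) < 2 * 2 ^ Nat.log 2 n := by
      rw [pow_succ] at h2
      have : n < 2 * 2 ^ Nat.log 2 n := by omega
      exact_mod_cast this
    rw [abs_of_nonneg (by linarith)]
    linarith

theorem two_mul_lt_nine_pow (N : ℕ) : 2 * (N : ℤ) < 9 ^ N := by
  induction N with
  | zero => norm_num
  | succ N ih =>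
    have : (1 : ℤ) ≤ 9 ^ N := one_le_pow₀ (by norm_num)
    rw [pow_succ]
    push_cast
    linarith

/-- The criterion for the signs of the numbers `z b`. -/
theorem crit_signs {β : Type} {l : List β} {z : β → ℤ} {m : β → ℕ} {P : β → Prop}
    (hz : ∀ b, |z b| ≤ 2 ^ m b) (hp : ∀ b, P b → 1 ≤ z b) (hn : ∀ b, ¬ P b → z b ≤ -1) :
    0 < 2 * (l.map fun b => rt (m b) (- z b) ^ (l.length + l.length)).prod -
      (l.map fun b => rt (m b) (z b) ^ (l.length + l.length) +
        rt (m b) (- z b) ^ (l.length + l.length)).prod ↔ ∀ b ∈ l, P b := by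
  have hev : Even (l.length + l.length) := ⟨_, rfl⟩
  have habs : ∀ w : ℤ, w ^ (l.length + l.length) = |w| ^ (l.length + l.length) := fun w =>
    (hev.pow_abs w).symm
  refine crit (U := fun b => rt (m b) (z b) ^ (l.length + l.length))
    (V := fun b => rt (m b) (- z b) ^ (l.length + l.length)) (M := 9 ^ l.length)
    (two_mul_lt_nine_pow _) (fun b _ => hev.pow_nonneg _) (fun b _ => hev.pow_nonneg _)
    (fun b _ hb => ?_) fun b _ hb => ?_
  · have h1 := hp b hb
    have h2 := rt_le (m := m b) h1 ((le_abs_self _).trans (hz b))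
    have h3 := rt_neg_ne (m := m b) h1
    refine ⟨?_, hev.pow_pos h3⟩
    have e : (9 : ℤ) ^ l.length = 3 ^ (l.length + l.length) := by
      rw [← two_mul, pow_mul]
      norm_num
    beta_reduce
    rw [habs, habs (rt (m b) (- z b)), e, ← mul_pow]
    exact pow_le_pow_left₀ (by positivity) h2 _
  · have h1 := hn b hb
    have h2 := rt_le (m := m b) (z := - z b) (by linarith) ((neg_le_abs _).trans (hz b))
    rw [neg_neg] at h2
    beta_reduce
    rw [habs, habs (rt (m b) (z b))]
    refine pow_le_pow_left₀ (abs_nonneg _) ?_ _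
    have := abs_nonneg (rt (m b) (- z b))
    linarith

/-! ### The theorem -/

theorem Gap.rt {α : Type} [Code α] {f : α → ℤ} (hf : Gap f) {m : α → ℕ} (hm : PTime m) :
    Gap (fun a => PolyTime.rt (m a) (f a)) := by
  unfold PolyTime.rt
  refine Gap.listProd (F := fun z : α × ℕ => f z.1 - 2 ^ z.2) ?_ (PTime.range (PTime.succ hm))
  have h1 : Gap (fun z : α × ℕ => f z.1 + -(2 : ℤ) ^ z.2) :=
    (hf.comp PTime.fst).add (Gap.pow2 PTime.snd).neg
  exact h1.congr fun a => (sub_eq_add_neg _ _).symm

theorem Gap.powLen {α β : Type} [Code α] [Code β] {f : α → ℤ} (hf : Gap f) {l : α → List β}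
    (hl : PTime l) : Gap (fun a => f a ^ ((l a).length + (l a).length)) := by
  have h := Gap.listProd (F := fun z : α × β => f z.1) (hf.comp PTime.fst) (PTime.append hl hl)
  refine h.congr fun a => ?_
  have e : ((l a ++ l a).map fun _ => f a).prod = f a ^ ((l a).length + (l a).length) := by
    rw [List.map_const', List.prod_replicate, List.length_append]
  exact e

/-- PP is closed under conjunctions over lists that are computed in polynomial time. -/
theorem InPP.forall_mem {C : Set (List Bool)} (hC : InPP C) {t : List Bool → Bool}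
    (ht : PTime t) {g : List Bool → List (List Bool)} (hg : PTime g) :
    InPP {x | t x = true ∧ ∀ u ∈ g x, u ∈ C} := by
  obtain ⟨R, p, hR, hRp⟩ := hC
  have hR' := PTime.of_polyTimeComputable hR
  -- the signed number of certificates
  set σ : List Bool × List Bool → Bool × Bool := fun z =>
    (true, !decide (R (pairW z.1 z.2) = [true])) with hσ
  have hσt : PTime σ := PTime.prodMk (PTime.const _) (PTime.not
    (PTime.eq (hR'.comp (PTime.pairW PTime.fst PTime.snd)) (PTime.const _)))
  set a : List Bool → ℤ := fun u => ∑ y ∈ words (p.eval u.length), sg (σ (u, y)) with ha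
  have haG : Gap a := ⟨fun u => p.eval u.length, σ, PTime.polyEval p (PTime.length PTime.id), hσt,
    fun u => rfl⟩
  set z : List Bool → ℤ := fun u => a u + a u + -1 with hz
  have hzG : Gap z := (haG.add haG).add Gap.one.neg
  have hsg : ∀ s, |sg s| ≤ 1 := by
    rintro ⟨b, c⟩
    cases b <;> cases c <;> simp [sg]
  have hab : ∀ u, |a u| ≤ 2 ^ p.eval u.length := by
    intro u
    refine (Finset.abs_sum_le_sum_abs _ _).trans ((Finset.sum_le_sum fun y _ => hsg _).trans ?_)
    rw [Finset.sum_const, card_words, nsmul_eq_mul, mul_one]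
    push_cast
    exact le_rfl
  have hzb : ∀ u, |z u| ≤ 2 ^ (p.eval u.length + 2) := by
    intro u
    have h1 := hab u
    have h2 : (1 : ℤ) ≤ 2 ^ p.eval u.length := one_le_pow₀ (by norm_num)
    rw [pow_add]
    have h3 := abs_le.1 h1
    simp only [hz]
    rw [abs_le]
    constructor <;> linarith [h3.1, h3.2]
  have hau : ∀ u, u ∈ C ↔ 0 < a u := by
    intro u
    rw [hRp]
    have e1 : {y : List Bool | y.length = p.eval u.length ∧ R (pairW u y) = [true]} =
        ((words (p.eval u.length)).filter fun y => R (pairW u y) = [true] : Finset (List Bool)) := by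
      ext y
      simp only [Set.mem_setOf_eq, Finset.coe_filter, mem_words]
    rw [e1, Set.ncard_coe_finset]
    have e2 : a u = 2 * (((words (p.eval u.length)).filter fun y =>
        R (pairW u y) = [true]).card : ℤ) - 2 ^ p.eval u.length := by
      have e3 : ∀ y, sg (σ (u, y)) = 2 * (if R (pairW u y) = [true] then (1 : ℤ) else 0) - 1 := by
        intro y
        simp only [hσ]
        by_cases h : R (pairW u y) = [true]
        · simp [h, sg]
        · simp [h, sg]
      simp only [ha, e3]
      rw [Finset.sum_sub_distrib, ← Finset.mul_sum, Finset.card_filter]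
      simp only [Finset.sum_const, card_words, nsmul_eq_mul, mul_one]
      push_cast
      rfl
    rw [e2]
    constructor
    · intro h
      have : ((2 ^ p.eval u.length : ℕ) : ℤ) < ((2 * ((words (p.eval u.length)).filter fun y =>
        R (pairW u y) = [true]).card : ℕ) : ℤ) := by exact_mod_cast h
      push_cast at this
      linarith
    · intro h
      have : ((2 ^ p.eval u.length : ℕ) : ℤ) < ((2 * ((words (p.eval u.length)).filter fun y =>
        R (pairW u y) = [true]).card : ℕ) : ℤ) := by
        push_cast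
        linarith
      exact_mod_cast this
  have hm : PTime (fun u : List Bool => p.eval u.length + 2) :=
    PTime.succ (PTime.succ (PTime.polyEval p (PTime.length PTime.id)))
  have h1 : Gap (fun y : List Bool × List Bool =>
      rt (p.eval y.2.length + 2) (z y.2) ^ ((g y.1).length + (g y.1).length)) :=
    Gap.powLen (Gap.rt (hzG.comp PTime.snd) (hm.comp PTime.snd)) (hg.comp PTime.fst)
  have h2 : Gap (fun y : List Bool × List Bool =>
      rt (p.eval y.2.length + 2) (- z y.2) ^ ((g y.1).length + (g y.1).length)) :=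
    Gap.powLen (Gap.rt (hzG.neg.comp PTime.snd) (hm.comp PTime.snd)) (hg.comp PTime.fst)
  have h3 := Gap.listProd h2 hg
  have h4 := (Gap.listProd (h1.add h2) hg).neg
  have h5 := (Gap.ind ht).mul ((h3.add h3).add h4)
  have h6 := h5.inPP
  have e : {x | t x = true ∧ ∀ u ∈ g x, u ∈ C} = {x | 0 < (if t x = true then (1 : ℤ) else 0) *
      (((g x).map fun u => rt (p.eval u.length + 2) (- z u) ^
        ((g x).length + (g x).length)).prod +
      ((g x).map fun u => rt (p.eval u.length + 2) (- z u) ^
        ((g x).length + (g x).length)).prod +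
      -((g x).map fun u => rt (p.eval u.length + 2) (z u) ^ ((g x).length + (g x).length) +
        rt (p.eval u.length + 2) (- z u) ^ ((g x).length + (g x).length)).prod)} := by
    ext x
    simp only [Set.mem_setOf_eq]
    have h7 := crit_signs (l := g x) (z := z) (m := fun u => p.eval u.length + 2)
      (P := fun u => u ∈ C) hzb (fun u hu => by
        have := (hau u).1 hu
        simp only [hz]
        linarith) (fun u hu => by
        have : ¬ 0 < a u := fun h => hu ((hau u).2 h)
        simp only [hz]
        linarith)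
    rw [← h7]
    cases t x
    · simp
    · simp only [true_and, if_true, one_mul]
      rw [two_mul, sub_eq_add_neg]
  rw [e]
  exact h6

end Pool.Agent.Work.PolyTime
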