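import Pool.Agent.Work.PolyTime.EtrGates

/-!
The translation of `ETR` into gate systems takes polynomial time.
-/

set_option autoImplicit false
set_option linter.unusedSimpArgs false

namespace Pool.Agent.Work.PolyTime

section

variable {α β γ δ σ : Type} [Code α] [Code β] [Code γ] [Code δ] [Code σ]

theorem PTime.bind {o : α → Option β} {f : α → β → Option γ} (ho : PTime o)
    (hf : PTime (fun y : α × β => f y.1 y.2)) : PTime (fun x => (o x).bind (f x)) := by
  refine PTime.optionCases ho (g := fun _ => none) (h := fun y => f y.1 y.2) (by fun_prop) hf ?_ ?_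
  · intro x hx; simp [hx]
  · intro x b hx; simp [hx]

theorem PTime.optMap {o : α → Option β} {f : α → β → γ} (ho : PTime o)
    (hf : PTime (fun y : α × β => f y.1 y.2)) : PTime (fun x => (o x).map (f x)) := by
  refine PTime.optionCases ho (g := fun _ => none) (h := fun y => Option.some (f y.1 y.2))
    (by fun_prop) hf.mkSome ?_ ?_
  · intro x hx; simp [hx]
  · intro x b hx; simp [hx]

theorem PTime.getD {o : α → Option β} {f : α → β} (ho : PTime o)
    (hf : PTime f) : PTime (fun x => (o x).getD (f x)) := by
  refine PTime.optionCases ho (g := f) (h := fun y => y.2)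
    hf (by fun_prop) ?_ ?_
  · intro x hx; simp [hx]
  · intro x b hx; simp [hx]

@[fun_prop]
theorem PTime.isEmpty {l : α → List β} (hl : PTime l) : PTime (fun x => (l x).isEmpty) := by
  refine PTime.listCases hl (g := fun _ => true) (h := fun _ => false) (by fun_prop)
    (by fun_prop) ?_ ?_
  · intro x hx; simp [hx]
  · intro x b m hx; simp [hx]

/-! ### Symbols -/

/-- The four bits of a symbol. -/
def quad : Sym → Bool × Bool × Bool × Bool
  | .lit => (false, false, false, false)
  | .bit b => (false, false, true, b)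
  | .var => (false, false, false, true)
  | .vbit b => (false, true, false, b)
  | .add => (false, true, true, false)
  | .sub => (false, true, true, true)
  | .mul => (true, false, false, false)
  | .neg => (true, false, false, true)
  | .eq => (true, false, true, false)
  | .lt => (true, false, true, true)
  | .le => (true, true, false, false)
  | .and => (true, true, false, true)
  | .or => (true, true, true, false)
  | .not => (true, true, true, true)

instance : Code Sym := ⟨fun s => code (quad s)⟩

theorem quad_symOf (a b c d : Bool) : quad (symOf a b c d) = (a, b, c, d) := by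
  cases a <;> cases b <;> cases c <;> cases d <;> rfl

theorem symOf_quad (s : Sym) :
    symOf (quad s).1 (quad s).2.1 (quad s).2.2.1 (quad s).2.2.2 = s := by
  cases s with
  | bit b => cases b <;> rfl
  | vbit b => cases b <;> rfl
  | _ => rfl

theorem sz_sym (s : Sym) : sz s ≤ 15 := by
  have h : sz s = sz (quad s) := rfl
  rw [h]
  generalize quad s = q
  obtain ⟨a, b, c, d⟩ := q
  have h1 := sz_bool a
  have h2 := sz_bool b
  have h3 := sz_bool c
  have h4 := sz_bool d
  simp only [sz_pair]
  omega

@[fun_prop]
theorem PTime.quad {s : α → Sym} (hs : PTime s) : PTime (fun x => PolyTime.quad (s x)) :=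
  hs.recode (fun _ => rfl)

@[fun_prop]
theorem PTime.symOf {a b c d : α → Bool} (ha : PTime a) (hb : PTime b) (hc : PTime c)
    (hd : PTime d) : PTime (fun x => PolyTime.symOf (a x) (b x) (c x) (d x)) := by
  have h : PTime (fun x => (a x, b x, c x, d x)) := by fun_prop
  refine h.recode (fun x => ?_)
  change Code.code (PolyTime.quad _) = _
  rw [quad_symOf]

/-- Case distinction on symbols. -/
theorem PTime.symCases {F : α → Sym → γ} {s : α → Sym} (hs : PTime s)
    (hF : ∀ a, PTime (fun x => F x a)) : PTime (fun x => F x (s x)) := by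
  have h : PTime (fun x =>
    bif (PolyTime.quad (s x)).1 then
      bif (PolyTime.quad (s x)).2.1 then
        bif (PolyTime.quad (s x)).2.2.1 then
          (bif (PolyTime.quad (s x)).2.2.2 then F x .not else F x .or)
        else (bif (PolyTime.quad (s x)).2.2.2 then F x .and else F x .le)
      else
        bif (PolyTime.quad (s x)).2.2.1 then
          (bif (PolyTime.quad (s x)).2.2.2 then F x .lt else F x .eq)
        else (bif (PolyTime.quad (s x)).2.2.2 then F x .neg else F x .mul)
    else
      bif (PolyTime.quad (s x)).2.1 then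
        bif (PolyTime.quad (s x)).2.2.1 then
          (bif (PolyTime.quad (s x)).2.2.2 then F x .sub else F x .add)
        else (bif (PolyTime.quad (s x)).2.2.2 then F x (.vbit true) else F x (.vbit false))
      else
        bif (PolyTime.quad (s x)).2.2.1 then
          (bif (PolyTime.quad (s x)).2.2.2 then F x (.bit true) else F x (.bit false))
        else (bif (PolyTime.quad (s x)).2.2.2 then F x .var else F x .lit)) := by
    refine PTime.cond (by fun_prop) (PTime.cond (by fun_prop)
      (PTime.cond (by fun_prop) (PTime.cond (by fun_prop) (hF _) (hF _))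
        (PTime.cond (by fun_prop) (hF _) (hF _)))
      (PTime.cond (by fun_prop) (PTime.cond (by fun_prop) (hF _) (hF _))
        (PTime.cond (by fun_prop) (hF _) (hF _)))) (PTime.cond (by fun_prop)
      (PTime.cond (by fun_prop) (PTime.cond (by fun_prop) (hF _) (hF _))
        (PTime.cond (by fun_prop) (hF _) (hF _)))
      (PTime.cond (by fun_prop) (PTime.cond (by fun_prop) (hF _) (hF _))
        (PTime.cond (by fun_prop) (hF _) (hF _))))
  refine h.code_congr (fun x => ?_)
  cases s x with
  | bit b => cases b <;> rfl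
  | vbit b => cases b <;> rfl
  | _ => rfl

/-! ### Reading symbols -/

theorem PTime.readStep : PTime (fun y : (List Bool × List Sym) × Bool => readStep y.1 y.2) := by
  -- the buffer has exactly three elements
  refine PTime.listCases (l := fun y : (List Bool × List Sym) × Bool => y.1.1) (by fun_prop)
    (g := fun y => (y.2 :: y.1.1, y.1.2))
    (h := fun z => PolyTime.readStep (z.2.1 :: z.2.2, z.1.1.2) z.1.2) (by fun_prop) ?_ ?_ ?_
  · refine PTime.listCases (l := fun z : ((List Bool × List Sym) × Bool) × Bool × List Bool =>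
      z.2.2) (by fun_prop) (g := fun z => (z.1.2 :: z.2.1 :: z.2.2, z.1.1.2))
      (h := fun u => PolyTime.readStep (u.1.2.1 :: u.2.1 :: u.2.2, u.1.1.1.2) u.1.1.2)
      (by fun_prop) ?_ ?_ ?_
    · refine PTime.listCases (l := fun u : (((List Bool × List Sym) × Bool) × Bool × List Bool) ×
        Bool × List Bool => u.2.2) (by fun_prop)
        (g := fun u => (u.1.1.2 :: u.1.2.1 :: u.2.1 :: u.2.2, u.1.1.1.2))
        (h := fun v => PolyTime.readStep (v.1.1.2.1 :: v.1.2.1 :: v.2.1 :: v.2.2, v.1.1.1.1.2)
          v.1.1.1.2)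
        (by fun_prop) ?_ ?_ ?_
      · refine PTime.listCases (l := fun v : ((((List Bool × List Sym) × Bool) × Bool × List Bool) ×
          Bool × List Bool) × Bool × List Bool => v.2.2) (by fun_prop)
          (g := fun v => ([], PolyTime.symOf v.1.1.1.2 v.1.1.2.1 v.1.2.1 v.2.1 :: v.1.1.1.1.2))
          (h := fun t => (t.1.1.1.1.2 :: t.1.1.1.2.1 :: t.1.1.2.1 :: t.1.2.1 :: t.2.1 :: t.2.2,
            t.1.1.1.1.1.2))
          (by fun_prop) (by fun_prop) ?_ ?_
        · rintro ⟨⟨⟨⟨⟨b0, o⟩, a⟩, c, l1⟩, d, l2⟩, e, l3⟩ h
          simp only at h; subst h; rfl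
        · rintro ⟨⟨⟨⟨⟨b0, o⟩, a⟩, c, l1⟩, d, l2⟩, e, l3⟩ f m h
          simp only at h; subst h; rfl
      · rintro ⟨⟨⟨⟨b0, o⟩, a⟩, c, l1⟩, d, l2⟩ h
        simp only at h; subst h; rfl
      · rintro ⟨⟨⟨⟨b0, o⟩, a⟩, c, l1⟩, d, l2⟩ f m h
        simp only at h; subst h; rfl
    · rintro ⟨⟨⟨b0, o⟩, a⟩, c, l1⟩ h
      simp only at h; subst h; rfl
    · rintro ⟨⟨⟨b0, o⟩, a⟩, c, l1⟩ f m h
      simp only at h; subst h; rfl
  · rintro ⟨⟨b0, o⟩, a⟩ h
    simp only at h; subst h; rfl
  · rintro ⟨⟨b0, o⟩, a⟩ f m h
    simp only at h; subst h; rfl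

theorem PTime.readSyms {w : α → List Bool} (hw : PTime w) :
    PTime (fun x => PolyTime.readSyms (w x)) := by
  have h : PTime (fun x => (w x).reverse.foldl
      (fun s b => (fun y : α × (List Bool × List Sym) × Bool =>
        PolyTime.readStep y.2.1 y.2.2) (x, s, b)) ([], [])) := by
    refine PTime.foldlGrow (f := fun y : α × (List Bool × List Sym) × Bool =>
        PolyTime.readStep y.2.1 y.2.2) hw.reverse (PTime.const _)
        (PTime.readStep.comp (by fun_prop)) (G := fun _ => 20) (PB.const 20) ?_
    rintro x a _ ⟨buf, out⟩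
    rcases buf with _ | ⟨b, _ | ⟨c, _ | ⟨d, _ | ⟨e, buf⟩⟩⟩⟩
    · have := sz_bool a
      simp only [PolyTime.readStep, sz_pair, sz_cons, sz_nil]; omega
    · have := sz_bool a
      simp only [PolyTime.readStep, sz_pair, sz_cons, sz_nil]; omega
    · have := sz_bool a
      simp only [PolyTime.readStep, sz_pair, sz_cons, sz_nil]; omega
    · have := sz_sym (PolyTime.symOf a b c d)
      simp only [PolyTime.readStep, sz_pair, sz_cons, sz_nil]; omega
    · have := sz_bool a
      simp only [PolyTime.readStep, sz_pair, sz_cons, sz_nil]; omega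
  exact h

/-! ### The machine -/

theorem PTime.itemT : PTime PolyTime.itemT := by
  refine PTime.sumCases (o := fun i : Item => i) (by fun_prop)
    (g := fun y => some (Sum.inl y.2)) (h := fun z => match z.2 with
      | Sum.inl v => some v
      | Sum.inr (Sum.inl v) => some v
      | Sum.inr (Sum.inr _) => none) (by fun_prop) ?_ ?_ ?_
  · refine PTime.sumCases (o := fun z : Item × (V ⊕ V ⊕ (V × V)) => z.2) (by fun_prop)
      (g := fun y => some y.2) (h := fun u => match u.2 with
        | Sum.inl v => some v
        | Sum.inr _ => none) (by fun_prop) ?_ ?_ ?_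
    · refine PTime.sumCases (o := fun z : (Item × (V ⊕ V ⊕ (V × V))) × (V ⊕ (V × V)) => z.2)
        (by fun_prop) (g := fun y => some y.2) (h := fun _ => none) (by fun_prop) (by fun_prop)
        ?_ ?_
      · rintro ⟨i, j⟩ b h; simp only at h; subst h; rfl
      · rintro ⟨i, j⟩ b h; simp only at h; subst h; rfl
    · rintro ⟨i, j⟩ b h; simp only at h; subst h; rfl
    · rintro ⟨i, j⟩ b h; simp only at h; subst h; rcases b with b | b <;> rfl
  · rintro i b h; subst h; rfl
  · rintro i b h; subst h; rcases b with b | b | b <;> rfl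

theorem PTime.itemF : PTime PolyTime.itemF := by
  refine PTime.sumCases (o := fun i : Item => i) (by fun_prop)
    (g := fun y => none) (h := fun z => match z.2 with
      | Sum.inl v => none
      | Sum.inr (Sum.inl v) => none
      | Sum.inr (Sum.inr p) => some p) (by fun_prop) ?_ ?_ ?_
  · refine PTime.sumCases (o := fun z : Item × (V ⊕ V ⊕ (V × V)) => z.2) (by fun_prop)
      (g := fun y => none) (h := fun u => match u.2 with
        | Sum.inl v => none
        | Sum.inr p => some p) (by fun_prop) ?_ ?_ ?_
    · refine PTime.sumCases (o := fun z : (Item × (V ⊕ V ⊕ (V × V))) × (V ⊕ (V × V)) => z.2)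
        (by fun_prop) (g := fun y => none) (h := fun y => some y.2) (by fun_prop) (by fun_prop)
        ?_ ?_
      · rintro ⟨i, j⟩ b h; simp only at h; subst h; rfl
      · rintro ⟨i, j⟩ b h; simp only at h; subst h; rfl
    · rintro ⟨i, j⟩ b h; simp only at h; subst h; rfl
    · rintro ⟨i, j⟩ b h; simp only at h; subst h; rcases b with b | b <;> rfl
  · rintro i b h; subst h; rfl
  · rintro i b h; subst h; rcases b with b | b | b <;> rfl

theorem PTime.itemL : PTime PolyTime.itemL := by
  refine PTime.sumCases (o := fun i : Item => i) (by fun_prop)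
    (g := fun y => none) (h := fun z => match z.2 with
      | Sum.inl v => some v
      | Sum.inr _ => none) (by fun_prop) ?_ ?_ ?_
  · refine PTime.sumCases (o := fun z : Item × (V ⊕ V ⊕ (V × V)) => z.2) (by fun_prop)
      (g := fun y => some y.2) (h := fun u => none) (by fun_prop) (by fun_prop) ?_ ?_
    · rintro ⟨i, j⟩ b h; simp only at h; subst h; rfl
    · rintro ⟨i, j⟩ b h; simp only at h; subst h; rfl
  · rintro i b h; subst h; rfl
  · rintro i b h; subst h; rcases b with b | b | b <;> rfl

theorem PTime.itemV : PTime PolyTime.itemV := by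
  refine PTime.sumCases (o := fun i : Item => i) (by fun_prop)
    (g := fun y => some y.2) (h := fun z => none) (by fun_prop) (by fun_prop) ?_ ?_
  · rintro i b h; subst h; rfl
  · rintro i b h; subst h; rcases b with b | b | b <;> rfl

theorem PTime.popBy {f : Item → Option β} (hf : PTime f) {st : α → List Item} (hst : PTime st) :
    PTime (fun x => PolyTime.popBy f (st x)) := by
  refine PTime.listCases hst (g := fun _ => none)
    (h := fun y => (f y.2.1).bind fun b => some (b, y.2.2)) (by fun_prop) ?_ ?_ ?_
  · exact PTime.bind (hf.comp (by fun_prop)) (by fun_prop)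
  · intro x hx; rw [hx]; rfl
  · intro x b m hx; rw [hx]; rfl

@[fun_prop]
theorem PTime.popT {st : α → List Item} (hst : PTime st) : PTime (fun x => PolyTime.popT (st x)) :=
  PTime.popBy PTime.itemT hst

@[fun_prop]
theorem PTime.popF {st : α → List Item} (hst : PTime st) : PTime (fun x => PolyTime.popF (st x)) :=
  PTime.popBy PTime.itemF hst

@[fun_prop]
theorem PTime.popL {st : α → List Item} (hst : PTime st) : PTime (fun x => PolyTime.popL (st x)) :=
  PTime.popBy PTime.itemL hst

@[fun_prop]
theorem PTime.popV {st : α → List Item} (hst : PTime st) : PTime (fun x => PolyTime.popV (st x)) :=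
  PTime.popBy PTime.itemV hst

theorem PTime.cTT {f : ℕ → V → V → Item × List Gate}
    (hf : PTime (fun y : ℕ × V × V => f y.1 y.2.1 y.2.2)) :
    PTime (fun y : ℕ × List Item => PolyTime.cTT (f y.1) y.2) := by
  unfold PolyTime.cTT
  refine PTime.bind (by fun_prop) ?_
  refine PTime.bind (by fun_prop) ?_
  have h1 : PTime (fun y : ((ℕ × List Item) × (V × List Item)) × (V × List Item) =>
      f y.1.1.1 y.2.1 y.1.2.1) := hf.comp (f := fun y : ((ℕ × List Item) × (V × List Item)) ×
        (V × List Item) => (y.1.1.1, y.2.1, y.1.2.1)) (by fun_prop)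
  exact (PTime.prodMk ((PTime.fst.comp h1).cons (by fun_prop)) (PTime.snd.comp h1)).mkSome

theorem PTime.cFF {f : ℕ → V × V → V × V → Item × List Gate}
    (hf : PTime (fun y : ℕ × (V × V) × (V × V) => f y.1 y.2.1 y.2.2)) :
    PTime (fun y : ℕ × List Item => PolyTime.cFF (f y.1) y.2) := by
  unfold PolyTime.cFF
  refine PTime.bind (by fun_prop) ?_
  refine PTime.bind (by fun_prop) ?_
  have h1 : PTime (fun y : ((ℕ × List Item) × ((V × V) × List Item)) × ((V × V) × List Item) =>
      f y.1.1.1 y.2.1 y.1.2.1) := hf.comp (f := fun y : ((ℕ × List Item) × ((V × V) × List Item)) ×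
        ((V × V) × List Item) => (y.1.1.1, y.2.1, y.1.2.1)) (by fun_prop)
  exact (PTime.prodMk ((PTime.fst.comp h1).cons (by fun_prop)) (PTime.snd.comp h1)).mkSome

theorem PTime.cAct (a : Sym) : PTime (fun y : ℕ × List Item => PolyTime.cAct a y.1 y.2) := by
  cases a with
  | lit => simp only [PolyTime.cAct]; fun_prop
  | bit b =>
    cases b
    · simp only [PolyTime.cAct]
      exact PTime.bind (by fun_prop) (by fun_prop)
    · simp only [PolyTime.cAct]
      exact PTime.bind (by fun_prop) (by fun_prop)
  | var => simp only [PolyTime.cAct]; fun_prop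
  | vbit b =>
    simp only [PolyTime.cAct]
    exact PTime.bind (by fun_prop) (by fun_prop)
  | add => simp only [PolyTime.cAct]; exact PTime.cTT (by unfold addG; fun_prop)
  | sub => simp only [PolyTime.cAct]; exact PTime.cTT (by unfold subG; fun_prop)
  | mul => simp only [PolyTime.cAct]; exact PTime.cTT (by unfold mulG; fun_prop)
  | neg =>
    simp only [PolyTime.cAct]
    exact PTime.bind (by fun_prop) (by fun_prop)
  | eq => simp only [PolyTime.cAct]; exact PTime.cTT (by unfold eqG; fun_prop)
  | lt => simp only [PolyTime.cAct]; exact PTime.cTT (by unfold ltG ltGates; fun_prop)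
  | le => simp only [PolyTime.cAct]; exact PTime.cTT (by unfold leG ltGates; fun_prop)
  | and => simp only [PolyTime.cAct]; exact PTime.cFF (by unfold andG; fun_prop)
  | or => simp only [PolyTime.cAct]; exact PTime.cFF (by unfold orG; fun_prop)
  | not =>
    simp only [PolyTime.cAct]
    exact PTime.bind (by fun_prop) (by fun_prop)

theorem PTime.cStep {s : α → St} {a : α → Sym} (hs : PTime s) (ha : PTime a) :
    PTime (fun x => PolyTime.cStep (s x) (a x)) := by
  unfold PolyTime.cStep
  refine PTime.bind ?_ (by fun_prop)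
  exact PTime.symCases ha (fun a => (PTime.cAct a).comp
    (f := fun x => ((s x).1, (s x).2.1)) (by fun_prop))

theorem sz_old {n : ℕ} {v : V} (h : Old n v) : sz v ≤ 30 + 4 * n := by
  rcases v with x | ⟨m, j⟩
  · have h1 : x.length ≤ n := h
    have h2 : sz x ≤ 1 + x.length * (1 + 3) := sz_list_le x 3 (fun b _ => sz_bool b)
    simp only [sz_inl]
    omega
  · have h1 : m < n ∧ j < 8 := h
    simp only [sz_inr, sz_pair, sz_nat]
    omega

theorem sz_iold {n : ℕ} {i : Item} (h : IOld n i) : sz i ≤ 80 + 8 * n := by
  rcases i with x | v | v | ⟨p, q⟩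
  · have h1 : sz (Sum.inl x : V) ≤ 30 + 4 * n := sz_old (v := Sum.inl x) h
    simp only [sz_inl] at *
    omega
  · have h1 : sz v ≤ 30 + 4 * n := sz_old h
    simp only [sz_inl, sz_inr] at *
    omega
  · have h1 : sz v ≤ 30 + 4 * n := sz_old h
    simp only [sz_inl, sz_inr] at *
    omega
  · have h1 : sz p ≤ 30 + 4 * n := sz_old h.1
    have h2 : sz q ≤ 30 + 4 * n := sz_old h.2
    simp only [sz_inl, sz_inr, sz_pair] at *
    omega

theorem sz_gold {n : ℕ} {g : Gate} (h : GOld n g) : sz g ≤ 100 + 12 * n := by
  obtain ⟨k, a, b, c⟩ := g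
  obtain ⟨h1, h2, h3, h4⟩ := h
  have h1' := sz_old h1
  have h2' := sz_old h2
  have h3' := sz_old h3
  simp only at *
  simp only [sz_pair, sz_nat]
  omega

theorem sz_sim {s : St} {abs : List Obj} (h : Sim s abs) :
    sz s ≤ 5 + 2 * s.1 + s.1 * (81 + 8 * s.1) + 8 * s.1 * (101 + 12 * s.1) := by
  obtain ⟨n, st, gs⟩ := s
  have h1 := sz_list_le st (80 + 8 * n) (fun i hi => sz_iold (h.iold i hi))
  have h2 := sz_list_le gs (100 + 12 * n) (fun i hi => sz_gold (h.gold i hi))
  have h3 : st.length * (1 + (80 + 8 * n)) ≤ n * (81 + 8 * n) := by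
    have := h.lenS
    simp only at this
    have e : 1 + (80 + 8 * n) = 81 + 8 * n := by ring
    rw [e]
    exact Nat.mul_le_mul_right _ this
  have h4 : gs.length * (1 + (100 + 12 * n)) ≤ 8 * n * (101 + 12 * n) := by
    have := h.lenG
    simp only at this
    have e : 1 + (100 + 12 * n) = 101 + 12 * n := by ring
    rw [e]
    exact Nat.mul_le_mul_right _ this
  simp only [sz_pair, sz_nat]
  omega

theorem PTime.cRun {toks : α → List Sym} (ht : PTime toks) :
    PTime (fun x => PolyTime.cRun (toks x)) := by
  have h : PTime (fun x => (toks x).foldl (fun s a =>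
      (fun y : α × Option St × Sym => y.2.1.bind fun s => PolyTime.cStep s y.2.2) (x, s, a))
      (some cInit)) := by
    refine PTime.foldl (f := fun y : α × Option St × Sym =>
      y.2.1.bind fun s => PolyTime.cStep s y.2.2) ht (PTime.const _) ?_
      (B := fun x => 7 + 2 * sz (toks x) + sz (toks x) * (81 + 8 * sz (toks x)) +
        8 * sz (toks x) * (101 + 12 * sz (toks x))) ?_ ?_
    · exact PTime.bind (by fun_prop) (PTime.cStep (by fun_prop) (by fun_prop))
    · have h1 := ht.sz_le
      exact (((PB.const 7).add ((PB.const 2).mul h1)).add (h1.mul ((PB.const 81).add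
        ((PB.const 8).mul h1)))).add (((PB.const 8).mul h1).mul ((PB.const 101).add
        ((PB.const 12).mul h1)))
    · intro x l' hl'
      change sz (PolyTime.cRun l') ≤ _
      have hlen : l'.length + 1 ≤ sz (toks x) := by
        have h1 := hl'.length_le
        have h2 := length_lt_sz (toks x)
        omega
      rcases run_good l' with ⟨-, h2⟩ | ⟨abs, s, -, h2, h3, h4⟩
      · rw [h2, sz_none]; omega
      · rw [h2, sz_some]
        have h5 := sz_sim h3
        rw [← h4] at hlen
        have h6 : s.1 * (81 + 8 * s.1) ≤ sz (toks x) * (81 + 8 * sz (toks x)) := by gcongr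
        have h7 : 8 * s.1 * (101 + 12 * s.1) ≤ 8 * sz (toks x) * (101 + 12 * sz (toks x)) := by
          gcongr
        omega
  exact h

theorem PTime.accept {s : α → St} (hs : PTime s) : PTime (fun x => PolyTime.accept (s x)) := by
  unfold PolyTime.accept
  exact PTime.bind (by fun_prop) (by fun_prop)

theorem PTime.gatesOf {toks : α → List Sym} (ht : PTime toks) :
    PTime (fun x => PolyTime.gatesOf (toks x)) := by
  unfold PolyTime.gatesOf
  refine PTime.getD (PTime.bind (PTime.cRun ht) ?_) (PTime.const _)
  exact PTime.accept (by fun_prop)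

theorem PTime.gatesW {w : α → List Bool} (hw : PTime w) :
    PTime (fun x => PolyTime.gatesW (w x)) := by
  unfold PolyTime.gatesW
  have h := PTime.readSyms hw
  exact PTime.cond (PTime.isEmpty (PTime.fst.comp h)) (PTime.gatesOf (PTime.snd.comp h))
    (PTime.const _)

theorem PTime.gvars {G : α → List Gate} (hG : PTime G) :
    PTime (fun x => PolyTime.gvars (G x)) := by
  unfold PolyTime.gvars
  exact PTime.flatMap hG (by fun_prop)

theorem PTime.pos {l : α → List V} {v : α → V} (hl : PTime l) (hv : PTime v) :
    PTime (fun x => PolyTime.pos (l x) (v x)) := by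
  have hf : PTime (fun y : α × (Bool × ℕ) × V => bif y.2.1.1 then y.2.1 else
        bif decide (y.2.2 = v y.1) then (true, y.2.1.2) else (false, y.2.1.2 + 1)) := by
    have h1 : PTime (fun y : α × (Bool × ℕ) × V => v y.1) := hv.comp PTime.fst
    fun_prop
  have h : PTime (fun x => ((l x).foldl (fun s w =>
      (fun y : α × (Bool × ℕ) × V => bif y.2.1.1 then y.2.1 else
        bif decide (y.2.2 = v y.1) then (true, y.2.1.2) else (false, y.2.1.2 + 1)) (x, s, w))
      (false, 0)).2) := by
    refine PTime.snd.comp (PTime.foldlGrow (f := fun y : α × (Bool × ℕ) × V =>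
      bif y.2.1.1 then y.2.1 else
        bif decide (y.2.2 = v y.1) then (true, y.2.1.2) else (false, y.2.1.2 + 1)) hl
      (PTime.const _) hf (G := fun _ => 5) (PB.const 5) ?_)
    rintro x w _ ⟨b, n⟩
    cases b
    · simp only [cond_false]
      by_cases hw : w = v x
      · simp [hw]; omega
      · simp [hw]; omega
    · simp
  exact h

theorem PTime.renum {G : α → List Gate} (hG : PTime G) :
    PTime (fun x => PolyTime.renum (G x)) := by
  unfold PolyTime.renum
  have h1 : PTime (fun y : α × Gate => PolyTime.gvars (G y.1)) := PTime.gvars (hG.comp PTime.fst)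
  refine PTime.map hG ?_
  exact PTime.prodMk (by fun_prop) (PTime.prodMk (PTime.pos h1 (by fun_prop))
    (PTime.prodMk (PTime.pos h1 (by fun_prop)) (PTime.pos h1 (by fun_prop))))

theorem PTime.etrGates {w : α → List Bool} (hw : PTime w) :
    PTime (fun x => PolyTime.etrGates (w x)) := by
  unfold PolyTime.etrGates
  exact PTime.renum (PTime.gatesW hw)

end

end Pool.Agent.Work.PolyTime
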