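import Pool.Agent.Work.PolyTime.Raw

/-!
Formulas as typed data, and criteria for membership in and hardness for the existential theory
of the reals.
-/

set_option autoImplicit false
set_option linter.unusedSimpArgs false

namespace Pool.Agent.Work.PolyTime

open Function

instance : Code Term := ⟨fun t => code t.rpn⟩
instance : Code Formula := ⟨fun t => code t.rpn⟩

/-- The true formula. -/
def Formula.tt : Formula := .eq (.lit []) (.lit [])

/-- Conjunction of a list of formulas. -/
def conj (l : List Formula) : Formula := l.foldl Formula.and Formula.tt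

theorem conj_holds (x : Name → ℝ) (l : List Formula) :
    (conj l).Holds x ↔ ∀ φ ∈ l, φ.Holds x := by
  have key : ∀ (l : List Formula) (ψ : Formula), (l.foldl Formula.and ψ).Holds x ↔
      ψ.Holds x ∧ ∀ φ ∈ l, φ.Holds x := by
    intro l
    induction l with
    | nil => intro ψ; simp
    | cons φ l ih =>
      intro ψ
      rw [List.foldl_cons, ih]
      simp only [Formula.Holds, List.mem_cons, forall_eq_or_imp, and_assoc]
  rw [conj, key]
  simp [Formula.tt, Formula.Holds]

theorem conj_rpn (l : List Formula) :
    (conj l).rpn = Formula.tt.rpn ++ l.flatMap (fun φ => φ.rpn ++ [Sym.and]) := by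
  have key : ∀ (l : List Formula) (ψ : Formula), (l.foldl Formula.and ψ).rpn =
      ψ.rpn ++ l.flatMap (fun φ => φ.rpn ++ [Sym.and]) := by
    intro l
    induction l with
    | nil => intro ψ; simp
    | cons φ l ih =>
      intro ψ
      rw [List.foldl_cons, ih]
      simp [Formula.rpn]
  exact key l _

theorem encode_ne_nil (φ : Formula) : φ.encode ≠ [] := by
  cases φ <;> simp [Formula.encode, Formula.rpn, List.flatMap_append, Sym.bits]

section

variable {α β γ : Type} [Code α] [Code β] [Code γ]

@[fun_prop]
theorem PTime.termRpn {t : α → Term} (ht : PTime t) : PTime (fun x => (t x).rpn) :=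
  ht.recode (fun _ => rfl)

@[fun_prop]
theorem PTime.formulaRpn {t : α → Formula} (ht : PTime t) : PTime (fun x => (t x).rpn) :=
  ht.recode (fun _ => rfl)

theorem PTime.ofTermRpn {t : α → Term} (ht : PTime (fun x => (t x).rpn)) : PTime t :=
  ht.recode (fun _ => rfl)

theorem PTime.ofFormulaRpn {t : α → Formula} (ht : PTime (fun x => (t x).rpn)) : PTime t :=
  ht.recode (fun _ => rfl)

@[fun_prop]
theorem PTime.termAdd {s t : α → Term} (hs : PTime s) (ht : PTime t) :
    PTime (fun x => Term.add (s x) (t x)) := by
  apply PTime.ofTermRpn; simp only [Term.rpn]; fun_prop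

@[fun_prop]
theorem PTime.termSub {s t : α → Term} (hs : PTime s) (ht : PTime t) :
    PTime (fun x => Term.sub (s x) (t x)) := by
  apply PTime.ofTermRpn; simp only [Term.rpn]; fun_prop

@[fun_prop]
theorem PTime.termMul {s t : α → Term} (hs : PTime s) (ht : PTime t) :
    PTime (fun x => Term.mul (s x) (t x)) := by
  apply PTime.ofTermRpn; simp only [Term.rpn]; fun_prop

@[fun_prop]
theorem PTime.termNeg {t : α → Term} (ht : PTime t) :
    PTime (fun x => Term.neg (t x)) := by
  apply PTime.ofTermRpn; simp only [Term.rpn]; fun_prop

@[fun_prop]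
theorem PTime.termVar {v : α → Name} (hv : PTime v) : PTime (fun x => Term.var (v x)) := by
  apply PTime.ofTermRpn; simp only [Term.rpn]
  refine PTime.cons (by fun_prop) (PTime.map hv ?_)
  have h : PTime (fun y : α × Bool => (false, true, false, y.2)) := by fun_prop
  exact h.recode (fun _ => rfl)

@[fun_prop]
theorem PTime.formulaEq {s t : α → Term} (hs : PTime s) (ht : PTime t) :
    PTime (fun x => Formula.eq (s x) (t x)) := by
  apply PTime.ofFormulaRpn; simp only [Formula.rpn]; fun_prop

@[fun_prop]
theorem PTime.formulaLt {s t : α → Term} (hs : PTime s) (ht : PTime t) :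
    PTime (fun x => Formula.lt (s x) (t x)) := by
  apply PTime.ofFormulaRpn; simp only [Formula.rpn]; fun_prop

@[fun_prop]
theorem PTime.formulaLe {s t : α → Term} (hs : PTime s) (ht : PTime t) :
    PTime (fun x => Formula.le (s x) (t x)) := by
  apply PTime.ofFormulaRpn; simp only [Formula.rpn]; fun_prop

@[fun_prop]
theorem PTime.formulaAnd {s t : α → Formula} (hs : PTime s) (ht : PTime t) :
    PTime (fun x => Formula.and (s x) (t x)) := by
  apply PTime.ofFormulaRpn; simp only [Formula.rpn]; fun_prop

@[fun_prop]
theorem PTime.formulaOr {s t : α → Formula} (hs : PTime s) (ht : PTime t) :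
    PTime (fun x => Formula.or (s x) (t x)) := by
  apply PTime.ofFormulaRpn; simp only [Formula.rpn]; fun_prop

@[fun_prop]
theorem PTime.formulaNot {s : α → Formula} (hs : PTime s) :
    PTime (fun x => Formula.not (s x)) := by
  apply PTime.ofFormulaRpn; simp only [Formula.rpn]; fun_prop

@[fun_prop]
theorem PTime.conj {l : α → List Formula} (hl : PTime l) :
    PTime (fun x => PolyTime.conj (l x)) := by
  apply PTime.ofFormulaRpn; simp only [conj_rpn]
  exact PTime.append (by fun_prop) (PTime.flatMap hl (by fun_prop))

@[fun_prop]
theorem PTime.symBits {s : α → Sym} (hs : PTime s) : PTime (fun x => (s x).bits) := by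
  have h : PTime (fun x => [(PolyTime.quad (s x)).1, (PolyTime.quad (s x)).2.1,
    (PolyTime.quad (s x)).2.2.1, (PolyTime.quad (s x)).2.2.2]) := by fun_prop
  refine h.code_congr (fun x => ?_)
  cases s x <;> rfl

@[fun_prop]
theorem PTime.formulaEncode {φ : α → Formula} (hφ : PTime φ) :
    PTime (fun x => (φ x).encode) := by
  unfold Formula.encode
  exact PTime.flatMap (by fun_prop) (by fun_prop)

end

/-- The decision problem given by a set of well-formed inputs and a set of yes-instances. -/
def problem {α : Type} [Code α] (wf yes : α → Prop) : Set (List Bool) :=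
  {w | ∃ a : α, w = (code a).ser ∧ wf a ∧ yes a}

/-- The reduction of a problem to `ETR`. -/
def toEtr {α : Type} [Code α] [Decode α] (wf : α → Bool) (φ : α → Formula) (w : List Bool) :
    List Bool :=
  (((parseT w).bind Decode.dec).bind fun a => bif wf a then some (φ a).encode else none).getD []

theorem Decode.injective {α : Type} [Code α] [Decode α] : Function.Injective (code : α → T) := by
  intro a b h
  have h1 := dec_code a
  rw [h, dec_code b] at h1
  exact (Option.some.inj h1).symm

/-- Membership criterion. -/
theorem reducible_to_etr {α : Type} [Code α] [Decode α] {wf yes : α → Prop} {wf' : α → Bool}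
    {φ : α → Formula} (hw : ∀ a, wf' a = true ↔ wf a) (hwp : PTime wf') (hφ : PTime φ)
    (h : ∀ a, wf a → (yes a ↔ ∃ x : Name → ℝ, (φ a).Holds x)) :
    PolyReducible (problem wf yes) ETR := by
  refine ⟨toEtr wf' φ, polyTimeComputable_of_PTime_word ?_, ?_⟩
  · unfold toEtr
    refine PTime.getD (PTime.bind (PTime.bind (PTime.parseT PTime.id) ?_) ?_) (PTime.const _)
    · exact Decode.ptime.comp (by fun_prop)
    · exact PTime.cond (hwp.comp (by fun_prop))
        (PTime.mkSome (PTime.formulaEncode (hφ.comp (by fun_prop)))) (by fun_prop)
  · intro w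
    constructor
    · rintro ⟨a, rfl, h1, h2⟩
      have e1 : parseT (code a).ser = some (code a) := parseT_eq_some.2 rfl
      have e2 : wf' a = true := (hw a).2 h1
      have e3 : toEtr wf' φ (code a).ser = (φ a).encode := by
        simp [toEtr, e1, dec_code a, e2]
      rw [e3]
      exact ⟨φ a, rfl, (h a h1).1 h2⟩
    · rintro ⟨ψ, hψ, x, hx⟩
      simp only [toEtr] at hψ
      cases h1 : parseT w with
      | none =>
        rw [h1] at hψ
        exact absurd hψ.symm (encode_ne_nil ψ)
      | some t =>
        rw [h1] at hψ
        simp only [Option.bind_some] at hψ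
        cases h2 : (Decode.dec t : Option α) with
        | none =>
          rw [h2] at hψ
          exact absurd hψ.symm (encode_ne_nil ψ)
        | some a =>
          rw [h2] at hψ
          simp only [Option.bind_some] at hψ
          cases h3 : wf' a with
          | false =>
            rw [h3] at hψ
            exact absurd hψ.symm (encode_ne_nil ψ)
          | true =>
            rw [h3] at hψ
            simp only [cond_true, Option.getD_some] at hψ
            have h4 : φ a = ψ := by
              have e1 := congrArg readSyms hψ
              rw [Formula.encode, Formula.encode, readSyms_flatMap, readSyms_flatMap] at e1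
              have e2 : (φ a).rpn = ψ.rpn := (Prod.mk.inj e1).2
              have e3 := aRun_formula (φ a) []
              rw [e2, aRun_formula] at e3
              simpa using e3.symm
            refine ⟨a, ?_, (hw a).1 h3, (h a ((hw a).1 h3)).2 ⟨x, by rw [h4]; exact hx⟩⟩
            rw [parseT_eq_some.1 h1, code_of_dec h2]

/-- Hardness criterion. -/
theorem etr_reducible_to {α : Type} [Code α] [Decode α] {wf yes : α → Prop}
    {F : List (ℕ × ℕ × ℕ × ℕ) → α} (hF : PTime F) (hw : ∀ L, wf (F L))
    (h : ∀ L, (∃ x : ℕ → ℝ, ∀ g ∈ L, NHolds x g) ↔ yes (F L)) :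
    PolyReducible ETR (problem wf yes) := by
  refine ⟨fun w => (code (F (etrGates w))).ser,
    polyTimeComputable_of_PTime (hF.comp (PTime.etrGates PTime.id)), fun w => ?_⟩
  rw [etrGates_correct, h]
  constructor
  · intro hy
    exact ⟨_, rfl, hw _, hy⟩
  · rintro ⟨a, ha, -, hy⟩
    have := Decode.injective (T.ser_inj ha)
    rw [this]; exact hy

end Pool.Agent.Work.PolyTime
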