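import Pool.Agent.Work.PolyTime.Fold

/-!
Typed polynomial-time functions.
-/

set_option autoImplicit false
set_option linter.unusedSimpArgs false

namespace Pool.Agent.Work.PolyTime

open Function

/-- Types whose elements are represented by binary trees. -/
class Code (α : Type) where
  /-- the tree of an element -/
  code : α → T

export Code (code)

/-- Codes that are injective. -/
class LawfulCode (α : Type) [Code α] : Prop where
  inj : Function.Injective (code : α → T)

instance : Code T := ⟨id⟩
instance : LawfulCode T := ⟨fun _ _ h => h⟩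
instance : Code Unit := ⟨fun _ => T.nil⟩
instance : LawfulCode Unit := ⟨fun _ _ _ => rfl⟩
instance : Code Bool := ⟨bitCode⟩
instance : LawfulCode Bool := ⟨fun a b h => by
  cases a <;> cases b <;> simp_all [code, bitCode]⟩

/-- Unary code of natural numbers. -/
def natCode : ℕ → T
  | 0 => T.nil
  | n + 1 => T.cons T.nil (natCode n)

instance : Code ℕ := ⟨natCode⟩
instance : LawfulCode ℕ := ⟨fun a b h => by
  induction a generalizing b with
  | zero => cases b with
    | zero => rfl
    | succ b => simp [code, natCode] at h
  | succ a ih => cases b with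
    | zero => simp [code, natCode] at h
    | succ b =>
      simp only [code, natCode, T.cons.injEq, true_and] at h
      rw [ih b h]⟩

instance {α β : Type} [Code α] [Code β] : Code (α × β) := ⟨fun x => T.cons (code x.1) (code x.2)⟩
instance {α β : Type} [Code α] [Code β] [LawfulCode α] [LawfulCode β] : LawfulCode (α × β) :=
  ⟨fun a b h => by
    simp only [code, T.cons.injEq] at h
    exact Prod.ext (LawfulCode.inj h.1) (LawfulCode.inj h.2)⟩

instance {α : Type} [Code α] : Code (List α) := ⟨listCode code⟩
instance {α : Type} [Code α] [LawfulCode α] : LawfulCode (List α) :=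
  ⟨fun a b h => by
    induction a generalizing b with
    | nil => cases b with
      | nil => rfl
      | cons y l => simp [code, listCode] at h
    | cons x a ih => cases b with
      | nil => simp [code, listCode] at h
      | cons y l =>
        simp only [code, listCode, T.cons.injEq] at h
        rw [LawfulCode.inj h.1, ih l h.2]⟩

instance {α : Type} [Code α] : Code (Option α) :=
  ⟨fun x => match x with | none => T.nil | some a => T.cons T.nil (code a)⟩
instance {α : Type} [Code α] [LawfulCode α] : LawfulCode (Option α) :=
  ⟨fun a b h => by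
    cases a <;> cases b <;> simp only [code, T.cons.injEq, true_and, reduceCtorEq] at h
    · rfl
    · rw [LawfulCode.inj h]⟩

instance {α β : Type} [Code α] [Code β] : Code (α ⊕ β) :=
  ⟨fun x => match x with | Sum.inl a => T.cons T.nil (code a)
                         | Sum.inr b => T.cons (T.cons T.nil T.nil) (code b)⟩
instance {α β : Type} [Code α] [Code β] [LawfulCode α] [LawfulCode β] : LawfulCode (α ⊕ β) :=
  ⟨fun a b h => by
    cases a <;> cases b <;> simp only [code, T.cons.injEq, true_and, reduceCtorEq, false_and] at h
    · rw [LawfulCode.inj h]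
    · rw [LawfulCode.inj h]⟩

instance instCodeSubtype {α : Type} [Code α] (p : α → Prop) : Code {x // p x} :=
  ⟨fun x => code x.1⟩
instance {α : Type} [Code α] [LawfulCode α] (p : α → Prop) : LawfulCode {x // p x} :=
  ⟨fun _ _ h => Subtype.ext (LawfulCode.inj h)⟩

/-- Size of the representation. -/
def sz {α : Type} [Code α] (a : α) : ℕ := (code a).ser.length

theorem sz_pos {α : Type} [Code α] (a : α) : 1 ≤ sz a := by
  unfold sz; cases code a <;> simp [T.ser]

@[simp] theorem sz_pair {α β : Type} [Code α] [Code β] (a : α) (b : β) :
    sz (a, b) = 1 + sz a + sz b := by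
  simp only [sz, code, T.ser, List.length_cons, List.length_append]; omega

@[simp] theorem sz_nil {α : Type} [Code α] : sz ([] : List α) = 1 := rfl

@[simp] theorem sz_cons {α : Type} [Code α] (a : α) (l : List α) :
    sz (a :: l) = 1 + sz a + sz l := by
  simp only [sz, code, listCode, T.ser, List.length_cons, List.length_append]; omega

@[simp] theorem sz_zero : sz (0 : ℕ) = 1 := rfl

@[simp] theorem sz_nat (n : ℕ) : sz n = 2 * n + 1 := by
  induction n with
  | zero => rfl
  | succ n ih =>
    have : sz (n + 1) = 2 + sz n := by
      simp only [sz, code, natCode, T.ser, List.length_cons, List.length_append, List.length_nil]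
      omega
    omega

@[simp] theorem sz_none {α : Type} [Code α] : sz (none : Option α) = 1 := rfl

@[simp] theorem sz_some {α : Type} [Code α] (a : α) : sz (some a) = 2 + sz a := by
  simp only [sz, code, T.ser, List.length_cons, List.length_append, List.length_nil]; omega

@[simp] theorem sz_inl {α β : Type} [Code α] [Code β] (a : α) :
    sz (Sum.inl a : α ⊕ β) = 2 + sz a := by
  simp only [sz, code, T.ser, List.length_cons, List.length_append, List.length_nil]; omega

@[simp] theorem sz_inr {α β : Type} [Code α] [Code β] (b : β) :
    sz (Sum.inr b : α ⊕ β) = 4 + sz b := by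
  simp only [sz, code, T.ser, List.length_cons, List.length_append, List.length_nil]; omega

@[simp] theorem sz_unit (a : Unit) : sz a = 1 := rfl

@[simp] theorem sz_false : sz false = 1 := rfl
@[simp] theorem sz_true : sz true = 3 := rfl

theorem sz_bool (b : Bool) : sz b ≤ 3 := by cases b <;> simp

@[simp] theorem sz_subtype {α : Type} [Code α] {p : α → Prop} (x : {x // p x}) :
    sz x = sz x.1 := rfl

@[simp] theorem sz_T_nil : sz T.nil = 1 := rfl
@[simp] theorem sz_T_cons (a b : T) : sz (T.cons a b) = 1 + sz a + sz b := by
  simp only [sz, code, id_eq, T.ser, List.length_cons, List.length_append]; omega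

theorem sz_append {α : Type} [Code α] (l m : List α) : sz (l ++ m) + 1 = sz l + sz m := by
  induction l with
  | nil => simp; omega
  | cons a l ih => simp only [List.cons_append, sz_cons]; omega

theorem sz_list {α : Type} [Code α] (l : List α) : sz l = 1 + (l.map (fun a => 1 + sz a)).sum := by
  induction l with
  | nil => simp
  | cons a l ih => simp only [sz_cons, List.map_cons, List.sum_cons]; omega

theorem sz_mem {α : Type} [Code α] {l : List α} {a : α} (h : a ∈ l) : sz a < sz l := by
  induction l with
  | nil => simp at h
  | cons b l ih =>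
    rcases List.mem_cons.1 h with rfl | h
    · simp only [sz_cons]; omega
    · have := ih h
      simp only [sz_cons]; omega

theorem length_lt_sz {α : Type} [Code α] (l : List α) : l.length < sz l := by
  induction l with
  | nil => simp
  | cons b l ih => simp only [sz_cons, List.length_cons]; omega

theorem sz_list_le {α : Type} [Code α] (l : List α) (B : ℕ) (h : ∀ a ∈ l, sz a ≤ B) :
    sz l ≤ 1 + l.length * (1 + B) := by
  induction l with
  | nil => simp
  | cons b l ih =>
    have h1 := ih (fun a ha => h a (by simp [ha]))
    have h2 := h b (by simp)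
    simp only [sz_cons, List.length_cons, add_mul, one_mul]
    omega

theorem sz_prefix {α : Type} [Code α] {l m : List α} (h : l <+: m) : sz l ≤ sz m := by
  obtain ⟨r, rfl⟩ := h
  have := sz_append l r
  have := sz_pos r
  omega

/-- Polynomial-time functions between coded types. -/
@[fun_prop]
def PTime {α β : Type} [Code α] [Code β] (f : α → β) : Prop :=
  PS (fun a => (code a).ser) (fun a => (code (f a)).ser)

/-- Polynomially bounded numerical functions. -/
def PB {α : Type} [Code α] (n : α → ℕ) : Prop := ∃ p : Polynomial ℕ, ∀ a, n a ≤ p.eval (sz a)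

section

variable {α β γ δ σ : Type} [Code α] [Code β] [Code γ] [Code δ] [Code σ]

theorem PB.const (c : ℕ) : PB (fun _ : α => c) := ⟨Polynomial.C c, fun a => by simp⟩

theorem PB.add {m n : α → ℕ} (hm : PB m) (hn : PB n) : PB (fun a => m a + n a) := by
  obtain ⟨p, hp⟩ := hm
  obtain ⟨q, hq⟩ := hn
  exact ⟨p + q, fun a => by simpa using add_le_add (hp a) (hq a)⟩

theorem PB.mul {m n : α → ℕ} (hm : PB m) (hn : PB n) : PB (fun a => m a * n a) := by
  obtain ⟨p, hp⟩ := hm
  obtain ⟨q, hq⟩ := hn
  exact ⟨p * q, fun a => by simpa using Nat.mul_le_mul (hp a) (hq a)⟩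

theorem PB.mono {m n : α → ℕ} (hn : PB n) (h : ∀ a, m a ≤ n a) : PB m := by
  obtain ⟨p, hp⟩ := hn
  exact ⟨p, fun a => (h a).trans (hp a)⟩

theorem PB.self : PB (fun a : α => sz a) := ⟨Polynomial.X, fun a => by simp⟩

theorem PTime.sz_le {f : α → β} (hf : PTime f) : PB (fun a => sz (f a)) := by
  obtain ⟨q, hq⟩ := hf.length_le
  exact ⟨q, hq⟩

theorem PB.comp {n : β → ℕ} (hn : PB n) {f : α → β} (hf : PB (fun a => sz (f a))) :
    PB (fun a => n (f a)) := by
  obtain ⟨p, hp⟩ := hn
  obtain ⟨q, hq⟩ := hf
  refine ⟨p.comp q, fun a => (hp (f a)).trans ?_⟩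
  rw [Polynomial.eval_comp]
  exact Comp.poly_mono p (hq a)

theorem PTime.code_congr {f g : α → β} (hf : PTime f) (h : ∀ a, f a = g a) : PTime g := by
  have : f = g := funext h
  exact this ▸ hf

/-- Polynomial-time computability only depends on codes. -/
theorem PTime.recode {f : α → β} (hf : PTime f) {g : α → γ} (h : ∀ a, code (g a) = code (f a)) :
    PTime g := by
  unfold PTime at *
  simpa only [h] using hf

/-- Change of the source type along a map preserving codes. -/
theorem PTime.source {f : β → γ} (hf : PTime f) (r : α → β) (h : ∀ a, code (r a) = code a) :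
    PTime (fun a => f (r a)) := by
  have := PS.reindex (h := hf) r
  unfold PTime
  simpa only [h] using this

@[fun_prop]
theorem PTime.id : PTime (fun a : α => a) := PS.refl _

@[fun_prop]
theorem PTime.const (c : β) : PTime (fun _ : α => c) := PS.const _ _

@[fun_prop]
theorem PTime.comp {g : β → γ} {f : α → β} (hg : PTime g) (hf : PTime f) :
    PTime (fun x => g (f x)) := by
  have := PS.reindex (h := hg) f
  exact PS.trans hf this

@[fun_prop]
theorem PTime.prodMk {f : α → β} {g : α → γ} (hf : PTime f) (hg : PTime g) :
    PTime (fun x => (f x, g x)) := PS.tag_append hf hg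

@[fun_prop]
theorem PTime.fst : PTime (fun x : α × β => x.1) :=
  PS.left (t := fun x : α × β => T.cons (code x.1) (code x.2)) (PS.refl _)

@[fun_prop]
theorem PTime.snd : PTime (fun x : α × β => x.2) :=
  PS.right (t := fun x : α × β => T.cons (code x.1) (code x.2)) (PS.refl _)

@[fun_prop]
theorem PTime.code {f : α → β} (hf : PTime f) : PTime (fun x => Code.code (f x)) :=
  hf.recode (fun _ => rfl)

@[fun_prop]
theorem PTime.val {p : β → Prop} {f : α → {x // p x}} (hf : PTime f) :
    PTime (fun x => (f x).1) := hf.recode (fun _ => rfl)

theorem PTime.subtypeMk {p : β → Prop} {f : α → β} (hf : PTime f) (h : ∀ a, p (f a)) :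
    PTime (fun x => (⟨f x, h x⟩ : {x // p x})) := hf.recode (fun _ => rfl)

@[fun_prop]
theorem PTime.treeLeft {f : α → T} (hf : PTime f) : PTime (fun x => (f x).left) :=
  PS.left hf

@[fun_prop]
theorem PTime.treeRight {f : α → T} (hf : PTime f) : PTime (fun x => (f x).right) :=
  PS.right hf

@[fun_prop]
theorem PTime.treeCons {f g : α → T} (hf : PTime f) (hg : PTime g) :
    PTime (fun x => T.cons (f x) (g x)) := PS.tag_append hf hg

/-- Branching on a tree being a leaf. -/
theorem PTime.branch {c : α → T} {f : α → β} (hc : PTime c)
    (h0 : PTime (fun a : {a // c a = T.nil} => f a.1))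
    (h1 : PTime (fun a : {a // c a ≠ T.nil} => f a.1)) : PTime f :=
  PS.branch (c := c) hc h0 h1

/-- Branching on a boolean. -/
theorem PTime.branchBool {c : α → Bool} {f : α → β} (hc : PTime c)
    (h0 : PTime (fun a : {a // c a = false} => f a.1))
    (h1 : PTime (fun a : {a // c a = true} => f a.1)) : PTime f := by
  refine PTime.branch (c := fun a => Code.code (c a)) hc.code ?_ ?_
  · have e : ∀ a : {a // Code.code (c a) = T.nil}, c a.1 = false := fun a => by
      have h := a.2
      cases hca : c a.1
      · rfl
      · rw [hca] at h; cases h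
    exact h0.source (fun a : {a // Code.code (c a) = T.nil} => ⟨a.1, e a⟩) (fun _ => rfl)
  · have e : ∀ a : {a // Code.code (c a) ≠ T.nil}, c a.1 = true := fun a => by
      have h := a.2
      cases hca : c a.1
      · rw [hca] at h; exact absurd rfl h
      · rfl
    exact h1.source (fun a : {a // Code.code (c a) ≠ T.nil} => ⟨a.1, e a⟩) (fun _ => rfl)

@[fun_prop]
theorem PTime.cond {c : α → Bool} {f g : α → β} (hc : PTime c) (hf : PTime f) (hg : PTime g) :
    PTime (fun x => bif c x then f x else g x) := by
  refine PTime.branchBool hc ?_ ?_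
  · refine ((hg.comp (PTime.id (α := {a // c a = false})).val)).code_congr (fun a => ?_)
    rw [a.2]; rfl
  · refine ((hf.comp (PTime.id (α := {a // c a = true})).val)).code_congr (fun a => ?_)
    rw [a.2]; rfl

@[fun_prop]
theorem PTime.ite {p : α → Prop} [DecidablePred p] {f g : α → β}
    (hp : PTime (fun x => decide (p x))) (hf : PTime f) (hg : PTime g) :
    PTime (fun x => if p x then f x else g x) := by
  refine (PTime.cond hp hf hg).code_congr (fun a => ?_)
  by_cases h : p a <;> simp [h]

@[fun_prop]
theorem PTime.not {c : α → Bool} (hc : PTime c) : PTime (fun x => !(c x)) := by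
  refine (PTime.cond hc (PTime.const false) (PTime.const true)).code_congr (fun a => ?_)
  cases c a <;> rfl

@[fun_prop]
theorem PTime.and {c d : α → Bool} (hc : PTime c) (hd : PTime d) :
    PTime (fun x => c x && d x) := by
  refine (PTime.cond hc hd (PTime.const false)).code_congr (fun a => ?_)
  cases c a <;> rfl

@[fun_prop]
theorem PTime.or {c d : α → Bool} (hc : PTime c) (hd : PTime d) :
    PTime (fun x => c x || d x) := by
  refine (PTime.cond hc (PTime.const true) hd).code_congr (fun a => ?_)
  cases c a <;> rfl

@[fun_prop]
theorem PTime.cons {f : α → β} {g : α → List β} (hf : PTime f) (hg : PTime g) :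
    PTime (fun x => f x :: g x) :=
  (PTime.prodMk hf hg).recode (fun _ => rfl)

@[fun_prop]
theorem PTime.mkSome {f : α → β} (hf : PTime f) : PTime (fun x => some (f x)) :=
  (PTime.prodMk (PTime.const ()) hf).recode (fun _ => rfl)

@[fun_prop]
theorem PTime.inl {f : α → β} (hf : PTime f) : PTime (fun x => (Sum.inl (f x) : β ⊕ γ)) :=
  (PTime.prodMk (PTime.const ()) hf).recode (fun _ => rfl)

@[fun_prop]
theorem PTime.inr {f : α → γ} (hf : PTime f) : PTime (fun x => (Sum.inr (f x) : β ⊕ γ)) :=
  (PTime.prodMk (PTime.const true) hf).recode (fun _ => rfl)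

@[fun_prop]
theorem PTime.succ {f : α → ℕ} (hf : PTime f) : PTime (fun x => f x + 1) :=
  (PTime.prodMk (PTime.const ()) hf).recode (fun _ => rfl)

/-- Case distinction on lists, in specification form. -/
theorem PTime.listCases {l : α → List β} (hl : PTime l) {F : α → γ} {g : α → γ}
    {h : α × β × List β → γ} (hg : PTime g) (hh : PTime h)
    (e0 : ∀ x, l x = [] → F x = g x) (e1 : ∀ x b m, l x = b :: m → F x = h (x, b, m)) :
    PTime F := by
  refine PTime.branch (c := fun a => Code.code (l a)) hl.code ?_ ?_
  · have e : ∀ a : {a // Code.code (l a) = T.nil}, l a.1 = [] := fun a => by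
      have h := a.2
      cases hca : l a.1
      · rfl
      · rw [hca] at h; cases h
    exact (hg.comp (PTime.id (α := {a // Code.code (l a) = T.nil})).val).code_congr
      (fun a => (e0 a.1 (e a)).symm)
  · have e : ∀ a : {a // Code.code (l a) ≠ T.nil}, ∃ b m, l a.1 = b :: m := fun a => by
      have h := a.2
      cases hca : l a.1 with
      | nil => rw [hca] at h; exact absurd rfl h
      | cons b m => exact ⟨b, m, rfl⟩
    choose b m hbm using e
    have h1 : PTime (fun a : {a // Code.code (l a) ≠ T.nil} => (a.1, b a, m a)) := by
      have : PTime (fun a : {a // Code.code (l a) ≠ T.nil} => (a.1, l a.1)) :=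
        PTime.prodMk PTime.id.val (hl.comp PTime.id.val)
      refine this.recode (fun a => ?_)
      change T.cons _ (T.cons _ _) = T.cons _ (Code.code (l a.1))
      rw [hbm a]; rfl
    exact (hh.comp h1).code_congr (fun a => (e1 a.1 _ _ (hbm a)).symm)

/-- Case distinction on natural numbers, in specification form. -/
theorem PTime.natCases {n : α → ℕ} (hn : PTime n) {F : α → γ} {g : α → γ}
    {h : α × ℕ → γ} (hg : PTime g) (hh : PTime h)
    (e0 : ∀ x, n x = 0 → F x = g x) (e1 : ∀ x m, n x = m + 1 → F x = h (x, m)) :
    PTime F := by
  refine PTime.branch (c := fun a => Code.code (n a)) hn.code ?_ ?_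
  · have e : ∀ a : {a // Code.code (n a) = T.nil}, n a.1 = 0 := fun a => by
      have h := a.2
      cases hca : n a.1
      · rfl
      · rw [hca] at h; cases h
    exact (hg.comp (PTime.id (α := {a // Code.code (n a) = T.nil})).val).code_congr
      (fun a => (e0 a.1 (e a)).symm)
  · have e : ∀ a : {a // Code.code (n a) ≠ T.nil}, ∃ m, n a.1 = m + 1 := fun a => by
      have h := a.2
      cases hca : n a.1 with
      | zero => rw [hca] at h; exact absurd rfl h
      | succ m => exact ⟨m, rfl⟩
    choose m hbm using e
    have h1 : PTime (fun a : {a // Code.code (n a) ≠ T.nil} => (a.1, m a)) := by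
      have : PTime (fun a : {a // Code.code (n a) ≠ T.nil} => (a.1, (Code.code (n a.1)).right)) :=
        PTime.prodMk PTime.id.val (hn.comp PTime.id.val).code.treeRight
      refine this.recode (fun a => ?_)
      change T.cons _ _ = T.cons _ (Code.code (n a.1)).right
      rw [hbm a]; rfl
    exact (hh.comp h1).code_congr (fun a => (e1 a.1 _ (hbm a)).symm)

/-- Case distinction on options, in specification form. -/
theorem PTime.optionCases {o : α → Option β} (ho : PTime o) {F : α → γ} {g : α → γ}
    {h : α × β → γ} (hg : PTime g) (hh : PTime h)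
    (e0 : ∀ x, o x = none → F x = g x) (e1 : ∀ x b, o x = some b → F x = h (x, b)) :
    PTime F := by
  refine PTime.branch (c := fun a => Code.code (o a)) ho.code ?_ ?_
  · have e : ∀ a : {a // Code.code (o a) = T.nil}, o a.1 = none := fun a => by
      have h := a.2
      cases hca : o a.1
      · rfl
      · rw [hca] at h; cases h
    exact (hg.comp (PTime.id (α := {a // Code.code (o a) = T.nil})).val).code_congr
      (fun a => (e0 a.1 (e a)).symm)
  · have e : ∀ a : {a // Code.code (o a) ≠ T.nil}, ∃ m, o a.1 = some m := fun a => by
      have h := a.2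
      cases hca : o a.1 with
      | none => rw [hca] at h; exact absurd rfl h
      | some m => exact ⟨m, rfl⟩
    choose m hbm using e
    have h1 : PTime (fun a : {a // Code.code (o a) ≠ T.nil} => (a.1, m a)) := by
      have : PTime (fun a : {a // Code.code (o a) ≠ T.nil} => (a.1, (Code.code (o a.1)).right)) :=
        PTime.prodMk PTime.id.val (ho.comp PTime.id.val).code.treeRight
      refine this.recode (fun a => ?_)
      change T.cons _ _ = T.cons _ (Code.code (o a.1)).right
      rw [hbm a]; rfl
    exact (hh.comp h1).code_congr (fun a => (e1 a.1 _ (hbm a)).symm)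

/-- Case distinction on sums, in specification form. -/
theorem PTime.sumCases {o : α → β ⊕ δ} (ho : PTime o) {F : α → γ} {g : α × β → γ}
    {h : α × δ → γ} (hg : PTime g) (hh : PTime h)
    (e0 : ∀ x b, o x = Sum.inl b → F x = g (x, b))
    (e1 : ∀ x b, o x = Sum.inr b → F x = h (x, b)) :
    PTime F := by
  refine PTime.branch (c := fun a => (Code.code (o a)).left) ho.code.treeLeft ?_ ?_
  · have e : ∀ a : {a // (Code.code (o a)).left = T.nil}, ∃ m, o a.1 = Sum.inl m := fun a => by
      have h := a.2
      cases hca : o a.1 with
      | inl m => exact ⟨m, rfl⟩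
      | inr m => rw [hca] at h; cases h
    choose m hbm using e
    have h1 : PTime (fun a : {a // (Code.code (o a)).left = T.nil} => (a.1, m a)) := by
      have : PTime (fun a : {a // (Code.code (o a)).left = T.nil} =>
          (a.1, (Code.code (o a.1)).right)) :=
        PTime.prodMk PTime.id.val (ho.comp PTime.id.val).code.treeRight
      refine this.recode (fun a => ?_)
      change T.cons _ _ = T.cons _ (Code.code (o a.1)).right
      rw [hbm a]; rfl
    exact (hg.comp h1).code_congr (fun a => (e0 a.1 _ (hbm a)).symm)
  · have e : ∀ a : {a // (Code.code (o a)).left ≠ T.nil}, ∃ m, o a.1 = Sum.inr m := fun a => by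
      have h := a.2
      cases hca : o a.1 with
      | inl m => rw [hca] at h; exact absurd rfl h
      | inr m => exact ⟨m, rfl⟩
    choose m hbm using e
    have h1 : PTime (fun a : {a // (Code.code (o a)).left ≠ T.nil} => (a.1, m a)) := by
      have : PTime (fun a : {a // (Code.code (o a)).left ≠ T.nil} =>
          (a.1, (Code.code (o a.1)).right)) :=
        PTime.prodMk PTime.id.val (ho.comp PTime.id.val).code.treeRight
      refine this.recode (fun a => ?_)
      change T.cons _ _ = T.cons _ (Code.code (o a.1)).right
      rw [hbm a]; rfl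
    exact (hh.comp h1).code_congr (fun a => (e1 a.1 _ (hbm a)).symm)

/-- Folds with polynomially bounded intermediate states. -/
theorem PTime.foldl {l : α → List β} {s : α → σ} {f : α × σ × β → σ} (hl : PTime l)
    (hs : PTime s) (hf : PTime f) {B : α → ℕ} (hB : PB B)
    (hb : ∀ x, ∀ l', l' <+: l x → sz (l'.foldl (fun s b => f (x, s, b)) (s x)) ≤ B x) :
    PTime (fun x => (l x).foldl (fun s b => f (x, s, b)) (s x)) := by
  obtain ⟨p, hp⟩ := hB
  have key : ∀ (x : α) (l' : List β) (s : σ),
      l'.foldl (fun (y : α × σ) b => (y.1, f (y.1, y.2, b))) (x, s) =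
        (x, l'.foldl (fun s b => f (x, s, b)) s) := by
    intro x l'
    induction l' with
    | nil => intro s; rfl
    | cons b l' ih => intro s; simp only [List.foldl_cons]; exact ih _
  have h1 : PTime (fun x => (l x).foldl (fun (y : α × σ) b => (y.1, f (y.1, y.2, b)))
      (x, s x)) := by
    refine PS.foldl (cs := (Code.code : α × σ → T)) (ca := (Code.code : β → T))
      (f := fun (y : α × σ) b => (y.1, f (y.1, y.2, b))) (l := l) (s := fun x => (x, s x))
      ?_ hl (PTime.prodMk PTime.id hs) (1 + Polynomial.X + p) ?_
    · have : PTime (fun z : (α × σ) × β => (z.1.1, f (z.1.1, z.1.2, z.2))) := by fun_prop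
      exact this
    · intro x l' hl'
      rw [key]
      have h2 := hb x l' hl'
      have h3 := hp x
      change sz (x, _) ≤ _
      rw [sz_pair]
      simp only [Polynomial.eval_add, Polynomial.eval_one, Polynomial.eval_X]
      change _ ≤ 1 + sz x + _
      change B x ≤ Polynomial.eval (sz x) p at h3
      have h4 : Polynomial.eval (List.length (Code.code x).ser) p = Polynomial.eval (sz x) p := rfl
      rw [h4]
      omega
  have h2 := (PTime.snd (α := α) (β := σ)).comp h1
  refine h2.code_congr (fun x => ?_)
  rw [key]

/-- Folds whose step increases the size by a bounded amount. -/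
theorem PTime.foldlGrow {l : α → List β} {s : α → σ} {f : α × σ × β → σ} (hl : PTime l)
    (hs : PTime s) (hf : PTime f) {G : α → ℕ} (hG : PB G)
    (hg : ∀ x, ∀ b ∈ l x, ∀ s, sz (f (x, s, b)) ≤ sz s + G x) :
    PTime (fun x => (l x).foldl (fun s b => f (x, s, b)) (s x)) := by
  have hB : PB (fun x => sz (s x) + sz (l x) * G x) := hs.sz_le.add (hl.sz_le.mul hG)
  refine PTime.foldl hl hs hf hB ?_
  intro x l' hl'
  have key : ∀ (l' : List β) (t : σ), (∀ b ∈ l', b ∈ l x) →
      sz (l'.foldl (fun s b => f (x, s, b)) t) ≤ sz t + l'.length * G x := by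
    intro l'
    induction l' with
    | nil => intro t _; simp
    | cons b l' ih =>
      intro t hm
      have h1 := ih (f (x, t, b)) (fun b hb => hm b (by simp [hb]))
      have h2 := hg x b (hm b (by simp)) t
      simp only [List.foldl_cons, List.length_cons, add_mul, one_mul]
      omega
  have h1 := key l' (s x) (fun b hb => hl'.subset hb)
  have h2 : l'.length ≤ sz (l x) := hl'.length_le.trans (length_lt_sz _).le
  exact h1.trans (by gcongr)

end

end Pool.Agent.Work.PolyTime
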