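import Pool.Agent.Work.PolyTime.NPHard

/-!
Independent sets: the reduction from clause systems.
-/

set_option autoImplicit false
set_option linter.unusedSimpArgs false

namespace Pool.Agent.Work.PolyTime

/-- The vertices: occurrences of literals, as triples (clause, sign, variable). -/
def isV (C : List NClause) : List (ℕ × Bool × ℕ) :=
  C.zipIdx.flatMap fun ck => ck.1.map fun l => (ck.2, l.1, l.2)

/-- Number of vertices. -/
def isN (C : List NClause) : ℕ := (isV C).length

/-- Occurrences in conflict: in the same clause, or contradictory. -/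
def confl (a b : ℕ × Bool × ℕ) : Bool :=
  decide (a.1 = b.1) || (decide (a.2.2 = b.2.2) && !decide (a.2.1 = b.2.1))

/-- The edges of the conflict graph. -/
def isE (C : List NClause) : List (ℕ × ℕ) :=
  (isV C).zipIdx.flatMap fun a =>
    ((isV C).zipIdx.filter fun b => decide (a.2 < b.2) && confl a.1 b.1).map fun b => (a.2, b.2)

theorem mem_isE {C : List NClause} {i j : ℕ} : (i, j) ∈ isE C ↔
    i < j ∧ ∃ a b, (isV C)[i]? = some a ∧ (isV C)[j]? = some b ∧ confl a b = true := by
  simp only [isE, List.mem_flatMap, List.mem_map, List.mem_filter, Bool.and_eq_true,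
    decide_eq_true_eq]
  constructor
  · rintro ⟨⟨a, i'⟩, h1, ⟨b, j'⟩, ⟨h2, h3, h4⟩, h5⟩
    simp only [Prod.mk.injEq] at h3 h4 h5
    obtain ⟨rfl, rfl⟩ := h5
    rw [List.mem_zipIdx_iff_getElem?] at h1 h2
    exact ⟨h3, a, b, h1, h2, h4⟩
  · rintro ⟨h1, a, b, h2, h3, h4⟩
    refine ⟨(a, i), ?_, (b, j), ⟨?_, h1, h4⟩, rfl⟩
    · rw [List.mem_zipIdx_iff_getElem?]; exact h2
    · rw [List.mem_zipIdx_iff_getElem?]; exact h3

theorem isE_lt {C : List NClause} {e : ℕ × ℕ} (h : e ∈ isE C) : e.1 < e.2 ∧ e.2 < isN C := by
  obtain ⟨h1, a, b, h2, h3, -⟩ := mem_isE.1 (show (e.1, e.2) ∈ isE C from h)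
  exact ⟨h1, (List.getElem?_eq_some_iff.1 h3).1⟩

theorem mem_isV {C : List NClause} {k : ℕ} {b : Bool} {x : ℕ} :
    (k, b, x) ∈ isV C ↔ ∃ c, C[k]? = some c ∧ (b, x) ∈ c := by
  simp only [isV, List.mem_flatMap, List.mem_map, Prod.exists, Prod.mk.injEq]
  constructor
  · rintro ⟨c, k', h1, b', x', h2, rfl, rfl, rfl⟩
    rw [List.mem_zipIdx_iff_getElem?] at h1
    exact ⟨c, h1, h2⟩
  · rintro ⟨c, h1, h2⟩
    exact ⟨c, k, by rw [List.mem_zipIdx_iff_getElem?]; exact h1, b, x, h2, rfl, rfl, rfl⟩

theorem confl_symm {a b : ℕ × Bool × ℕ} : confl a b = confl b a := by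
  simp only [confl]
  rw [Bool.eq_iff_iff]
  simp only [Bool.or_eq_true, Bool.and_eq_true, decide_eq_true_eq, Bool.not_eq_true',
    decide_eq_false_iff_not]
  constructor
  · rintro (h | ⟨h, h'⟩)
    · exact Or.inl h.symm
    · exact Or.inr ⟨h.symm, fun h'' => h' h''.symm⟩
  · rintro (h | ⟨h, h'⟩)
    · exact Or.inl h.symm
    · exact Or.inr ⟨h.symm, fun h'' => h' h''.symm⟩

/-- Independent sets. -/
def IsInd (E : List (ℕ × ℕ)) (n : ℕ) (S : Finset ℕ) : Prop :=
  (∀ v ∈ S, v < n) ∧ ∀ e ∈ E, ¬ (e.1 ∈ S ∧ e.2 ∈ S)

theorem ind_correct (C : List NClause) :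
    CnfSat C ↔ ∃ S : Finset ℕ, IsInd (isE C) (isN C) S ∧ C.length ≤ S.card := by
  classical
  constructor
  · rintro ⟨X, hX⟩
    have hpick : ∀ k : Fin C.length, ∃ i : ℕ, ∃ l : Bool × ℕ, (isV C)[i]? = some (k.1, l.1, l.2) ∧
        X l.2 = l.1 := by
      intro k
      obtain ⟨l, hl, hl'⟩ := hX (C[k.1]) (List.getElem_mem k.2)
      have hm : (k.1, l.1, l.2) ∈ isV C := mem_isV.2 ⟨C[k.1], by simp, hl⟩
      obtain ⟨i, hi, hi'⟩ := List.getElem_of_mem hm
      exact ⟨i, l, by rw [List.getElem?_eq_getElem hi, hi'], hl'⟩
    choose i l hi hl using hpick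
    have hinj : Function.Injective i := by
      intro k k' hkk
      have h1 := hi k
      rw [hkk, hi k'] at h1
      simp only [Option.some.injEq, Prod.mk.injEq] at h1
      exact Fin.ext h1.1.symm
    refine ⟨Finset.univ.image i, ⟨?_, ?_⟩, ?_⟩
    · intro v hv
      simp only [Finset.mem_image, Finset.mem_univ, true_and] at hv
      obtain ⟨k, rfl⟩ := hv
      exact (List.getElem?_eq_some_iff.1 (hi k)).1
    · rintro ⟨u, v⟩ he ⟨hu, hv⟩
      simp only [Finset.mem_image, Finset.mem_univ, true_and] at hu hv
      obtain ⟨k, rfl⟩ := hu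
      obtain ⟨k', rfl⟩ := hv
      obtain ⟨h1, a, b, h2, h3, h4⟩ := mem_isE.1 he
      rw [hi] at h2 h3
      simp only [Option.some.injEq] at h2 h3
      subst h2; subst h3
      simp only [confl, Bool.or_eq_true, decide_eq_true_eq, Bool.and_eq_true, Bool.not_eq_true',
        decide_eq_false_iff_not] at h4
      rcases h4 with h4 | ⟨h4, h5⟩
      · have : k = k' := Fin.ext h4
        rw [this] at h1; omega
      · apply h5
        rw [← hl k, ← hl k', h4]
    · rw [Finset.card_image_of_injective _ hinj]; simp
  · rintro ⟨S, ⟨h1, h2⟩, h3⟩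
    have hind : ∀ u ∈ S, ∀ v ∈ S, u ≠ v → ∀ a b, (isV C)[u]? = some a → (isV C)[v]? = some b →
        confl a b = false := by
      intro u hu v hv huv a b ha hb
      by_contra hc
      simp only [Bool.not_eq_false] at hc
      rcases Nat.lt_or_gt_of_ne huv with h | h
      · exact h2 (u, v) (mem_isE.2 ⟨h, a, b, ha, hb, hc⟩) ⟨hu, hv⟩
      · exact h2 (v, u) (mem_isE.2 ⟨h, b, a, hb, ha, by rw [confl_symm]; exact hc⟩) ⟨hv, hu⟩
    have hget : ∀ v ∈ S, ∃ a, (isV C)[v]? = some a := fun v hv =>
      ⟨(isV C)[v]'(h1 v hv), List.getElem?_eq_getElem _⟩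
    -- the clause of a vertex
    let cl : ℕ → ℕ := fun v => ((isV C)[v]?.map Prod.fst).getD 0
    have hcl : ∀ v a, (isV C)[v]? = some a → cl v = a.1 := by
      intro v a h; simp only [cl, h]; rfl
    have hinj : Set.InjOn cl S := by
      intro u hu v hv huv
      by_contra hne
      obtain ⟨a, ha⟩ := hget u hu
      obtain ⟨b, hb⟩ := hget v hv
      have h4 := hind u hu v hv hne a b ha hb
      rw [hcl u a ha, hcl v b hb] at huv
      simp [confl, huv] at h4
    have hmaps : ∀ v ∈ S, cl v ∈ Finset.range C.length := by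
      intro v hv
      obtain ⟨a, ha⟩ := hget v hv
      rw [hcl v a ha, Finset.mem_range]
      have hm : a ∈ isV C := List.mem_of_getElem? ha
      obtain ⟨k, b, x⟩ := a
      obtain ⟨c, hc, -⟩ := mem_isV.1 hm
      exact (List.getElem?_eq_some_iff.1 hc).1
    have himg : S.image cl = Finset.range C.length := by
      apply Finset.eq_of_subset_of_card_le
      · intro k hk
        obtain ⟨v, hv, rfl⟩ := Finset.mem_image.1 hk
        exact hmaps v hv
      · rw [Finset.card_image_of_injOn hinj, Finset.card_range]; exact h3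
    refine ⟨fun x => decide (∃ v ∈ S, ∃ k, (isV C)[v]? = some (k, true, x)), ?_⟩
    intro c hc
    obtain ⟨k, hk, rfl⟩ := List.getElem_of_mem hc
    have hkm : k ∈ S.image cl := by rw [himg]; exact Finset.mem_range.2 hk
    obtain ⟨v, hv, hvk⟩ := Finset.mem_image.1 hkm
    obtain ⟨⟨k', b, x⟩, ha⟩ := hget v hv
    rw [hcl v _ ha] at hvk
    simp only at hvk
    subst hvk
    have hm : (k', b, x) ∈ isV C := List.mem_of_getElem? ha
    obtain ⟨c', hc', hbx⟩ := mem_isV.1 hm
    rw [List.getElem?_eq_getElem hk, Option.some.injEq] at hc'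
    subst hc'
    refine ⟨(b, x), hbx, ?_⟩
    simp only
    cases b with
    | true =>
      simp only [decide_eq_true_eq]
      exact ⟨v, hv, k', ha⟩
    | false =>
      rw [decide_eq_false_iff_not]
      rintro ⟨u, hu, k, hu'⟩
      have hne : u ≠ v := by
        rintro rfl
        rw [ha] at hu'
        simp at hu'
      have h4 := hind u hu v hv hne _ _ hu' ha
      simp [confl] at h4

/-! ### Running time -/

theorem isV_ptime : PTime isV := by
  unfold isV
  exact PTime.flatMap (PTime.zipIdx PTime.id) (PTime.map (by fun_prop) (by fun_prop))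

theorem isN_ptime : PTime isN := PTime.length isV_ptime

theorem isE_ptime : PTime isE := by
  unfold isE
  have h1 : PTime (fun C : List NClause => (isV C).zipIdx) := PTime.zipIdx isV_ptime
  refine PTime.flatMap h1 (PTime.map (PTime.filter (h1.comp PTime.fst) ?_) ?_)
  · unfold confl; fun_prop
  · fun_prop

/-! ### Binary numbers -/

/-- Value of a word, least significant digit first. -/
def valL : List Bool → ℕ
  | [] => 0
  | b :: l => (if b then 1 else 0) + 2 * valL l

theorem litVal_reverse (l : List Bool) : litVal l.reverse = valL l := by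
  induction l with
  | nil => rfl
  | cons b l ih =>
    rw [List.reverse_cons]
    have : litVal (l.reverse ++ [b]) = 2 * litVal l.reverse + (if b then 1 else 0) := by
      simp [litVal, List.foldl_append]
    rw [this, ih, valL]; ring

/-- One step of adding with carry. -/
def addStep (s : Bool × List Bool) (b : Bool) : Bool × List Bool :=
  (s.1 && b, (bif s.1 then !b else b) :: s.2)

/-- Adding one. -/
def incL (l : List Bool) : List Bool :=
  bif (l.foldl addStep (true, [])).1 then (true :: (l.foldl addStep (true, [])).2).reverse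
  else (l.foldl addStep (true, [])).2.reverse

theorem foldl_addStep (l : List Bool) : ∀ (c : Bool) (out : List Bool),
    ∃ c' r, l.foldl addStep (c, out) = (c', r ++ out) ∧ r.length = l.length ∧
      valL r.reverse + (if c' then 2 ^ l.length else 0) = valL l + (if c then 1 else 0) := by
  induction l with
  | nil => intro c out; exact ⟨c, [], rfl, rfl, by simp [valL]⟩
  | cons b l ih =>
    intro c out
    obtain ⟨c', r, h1, h2, h3⟩ := ih (c && b) ((bif c then !b else b) :: out)
    refine ⟨c', r ++ [bif c then !b else b], ?_, by simp [h2], ?_⟩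
    · rw [List.foldl_cons]
      have : addStep (c, out) b = (c && b, (bif c then !b else b) :: out) := rfl
      rw [this, h1]; simp
    · rw [List.reverse_append, List.reverse_singleton, List.singleton_append]
      simp only [valL, List.length_cons, pow_succ]
      cases c <;> cases b <;> cases c' <;> simp at h3 ⊢ <;> omega

theorem valL_append (l : List Bool) (b : Bool) :
    valL (l ++ [b]) = valL l + (if b then 2 ^ l.length else 0) := by
  induction l with
  | nil => simp [valL]
  | cons a l ih =>
    simp only [List.cons_append, valL, ih, List.length_cons, pow_succ]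
    cases b <;> simp <;> ring

theorem incL_val (l : List Bool) : valL (incL l) = valL l + 1 := by
  obtain ⟨c', r, h1, h2, h3⟩ := foldl_addStep l true []
  rw [List.append_nil] at h1
  unfold incL
  rw [h1]
  cases c' with
  | true =>
    simp only [cond_true, List.reverse_cons]
    rw [valL_append, List.length_reverse, h2]
    simpa using h3
  | false =>
    simp only [cond_false]
    simpa using h3

theorem incL_length (l : List Bool) : (incL l).length ≤ l.length + 1 := by
  obtain ⟨c', r, h1, h2, h3⟩ := foldl_addStep l true []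
  rw [List.append_nil] at h1
  unfold incL
  rw [h1]
  cases c' <;> simp [h2]

/-- Binary representation of a number given in unary. -/
def toBin (n : ℕ) : List Bool :=
  ((List.replicate n ()).foldl (fun s _ => incL s) []).reverse

theorem foldl_incL (n : ℕ) : ∀ l, valL ((List.replicate n ()).foldl (fun s _ => incL s) l) =
    valL l + n ∧ ((List.replicate n ()).foldl (fun s _ => incL s) l).length ≤ l.length + n := by
  induction n with
  | zero => intro l; simp
  | succ n ih =>
    intro l
    rw [List.replicate_succ, List.foldl_cons]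
    have h1 := ih (incL l)
    have h2 := incL_val l
    have h3 := incL_length l
    omega

theorem toBin_val (n : ℕ) : litVal (toBin n) = n := by
  rw [toBin, litVal_reverse, (foldl_incL n []).1]
  simp [valL]

section

variable {α : Type} [Code α]

theorem PTime.incL {l : α → List Bool} (hl : PTime l) : PTime (fun x => PolyTime.incL (l x)) := by
  have h : PTime (fun x => (l x).foldl (fun s b =>
      (fun y : α × (Bool × List Bool) × Bool => addStep y.2.1 y.2.2) (x, s, b)) (true, [])) := by
    refine PTime.foldlGrow (f := fun y : α × (Bool × List Bool) × Bool => addStep y.2.1 y.2.2)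
      hl (PTime.const _) (by unfold addStep; fun_prop) (G := fun _ => 10) (PB.const 10) ?_
    rintro x b _ ⟨c, out⟩
    have h1 := sz_bool (c && b)
    have h2 := sz_bool (bif c then !b else b)
    have h3 := sz_pos c
    simp only [addStep, sz_pair, sz_cons]
    omega
  unfold PolyTime.incL
  simp only at h
  fun_prop

@[fun_prop]
theorem PTime.toBin {n : α → ℕ} (hn : PTime n) : PTime (fun x => PolyTime.toBin (n x)) := by
  have h : PTime (fun x => ((List.replicate (n x) ()).foldl (fun s u =>
      (fun y : α × List Bool × Unit => PolyTime.incL y.2.1) (x, s, u)) []).reverse) := by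
    refine PTime.reverse (PTime.foldl (f := fun y : α × List Bool × Unit => PolyTime.incL y.2.1)
      hn.replicateUnit (PTime.const _) (PTime.incL (by fun_prop))
      (B := fun x => 1 + sz (n x) * 4) ((PB.const 1).add (hn.sz_le.mul (PB.const 4))) ?_)
    intro x l' hl'
    have hrep : l' = List.replicate l'.length () := by
      refine List.eq_replicate_iff.2 ⟨rfl, fun b _ => rfl⟩
    rw [hrep]
    have h1 := (foldl_incL l'.length []).2
    have h2 := sz_list_le ((List.replicate l'.length ()).foldl (fun s _ => PolyTime.incL s) []) 3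
      (fun b _ => sz_bool b)
    have h3 : l'.length ≤ sz (n x) := by
      have h4 := hl'.length_le
      rw [List.length_replicate] at h4
      have h5 := sz_nat (n x)
      omega
    simp only [List.length_nil, Nat.zero_add] at h1
    simp only
    omega
  exact h

end

end Pool.Agent.Work.PolyTime
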