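import Mathlib

/-!
Composition of polynomial-time TM2 computations whose intermediate alphabet is `Bool`.
-/

set_option autoImplicit false
set_option linter.unusedSimpArgs false

namespace Pool.Agent.Work.PolyTime.Comp

open Function Turing StateTransition

/-- A polynomial with natural coefficients is monotone. -/
theorem poly_mono (p : Polynomial ℕ) : Monotone (fun n : ℕ => p.eval n) := by
  intro a b hab
  simp only
  induction p using Polynomial.induction_on' with
  | add p q hp hq => simp only [Polynomial.eval_add]; exact add_le_add hp hq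
  | monomial n a => simp only [Polynomial.eval_monomial]; gcongr

section Growth

variable {K : Type} [DecidableEq K] {Γ : K → Type} {Λ σ : Type}

/-- Maximal number of pushes of a statement. -/
def pushes : TM2.Stmt Γ Λ σ → ℕ
  | TM2.Stmt.push _ _ q => pushes q + 1
  | TM2.Stmt.peek _ _ q => pushes q
  | TM2.Stmt.pop _ _ q => pushes q
  | TM2.Stmt.load _ q => pushes q
  | TM2.Stmt.branch _ q₁ q₂ => max (pushes q₁) (pushes q₂)
  | TM2.Stmt.goto _ => 0
  | TM2.Stmt.halt => 0

theorem length_stepAux (q : TM2.Stmt Γ Λ σ) (v : σ) (S : ∀ k, List (Γ k)) (k : K) :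
    ((TM2.stepAux q v S).stk k).length ≤ (S k).length + pushes q := by
  induction q generalizing v S with
  | push k' f q ih =>
    simp only [TM2.stepAux, pushes]
    refine (ih v _).trans ?_
    by_cases h : k = k'
    · subst h; simp; omega
    · simp [h]
  | peek k' f q ih => simp only [TM2.stepAux, pushes]; exact ih _ _
  | pop k' f q ih =>
    simp only [TM2.stepAux, pushes]
    refine (ih _ _).trans ?_
    by_cases h : k = k'
    · subst h; simp
    · simp [h]
  | load f q ih => simp only [TM2.stepAux, pushes]; exact ih _ _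
  | branch f q₁ q₂ ih₁ ih₂ =>
    simp only [TM2.stepAux, pushes]
    cases f v
    · exact (ih₂ _ _).trans (by simp)
    · exact (ih₁ _ _).trans (by simp)
  | goto f => simp [TM2.stepAux, pushes]
  | halt => simp [TM2.stepAux, pushes]

theorem length_steps (M : Λ → TM2.Stmt Γ Λ σ) (C : ℕ) (hC : ∀ l, pushes (M l) ≤ C) (n : ℕ) :
    ∀ (a b : TM2.Cfg Γ Λ σ), (flip bind (TM2.step M))^[n] (some a) = some b →
      ∀ k, (b.stk k).length ≤ (a.stk k).length + n * C := by
  induction n with
  | zero =>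
    intro a b h k
    simp only [iterate_zero, id_eq, Option.some.injEq] at h
    subst h; simp
  | succ n ih =>
    intro a b h k
    rw [iterate_succ_apply] at h
    obtain ⟨l, v, S⟩ := a
    cases l with
    | none =>
      exfalso
      have : (flip bind (TM2.step M)) (some (⟨none, v, S⟩ : TM2.Cfg Γ Λ σ)) = none := rfl
      rw [this] at h
      have h' : ∀ m, (flip bind (TM2.step M))^[m] (none : Option (TM2.Cfg Γ Λ σ)) = none := by
        intro m; induction m with
        | zero => rfl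
        | succ m ihm => rw [iterate_succ_apply]; exact ihm
      rw [h'] at h
      exact absurd h (by simp)
    | some l =>
      have : (flip bind (TM2.step M)) (some (⟨some l, v, S⟩ : TM2.Cfg Γ Λ σ)) =
        some (TM2.stepAux (M l) v S) := rfl
      rw [this] at h
      have h1 := ih _ _ h k
      have h2 := length_stepAux (M l) v S k
      have h3 := hC l
      calc _ ≤ _ := h1
        _ ≤ (S k).length + pushes (M l) + n * C := by omega
        _ ≤ (S k).length + (n + 1) * C := by rw [add_mul]; omega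

theorem iter_none (M : Λ → TM2.Stmt Γ Λ σ) (m : ℕ) :
    (flip bind (TM2.step M))^[m] (none : Option (TM2.Cfg Γ Λ σ)) = none := by
  induction m with
  | zero => rfl
  | succ m ihm => rw [iterate_succ_apply]; exact ihm

end Growth

section Construction

variable (M₁ M₂ : FinTM2)

/-- Stack indices of the composite. -/
abbrev CK : Type := M₁.K ⊕ (M₂.K ⊕ Unit)

/-- Alphabets of the composite. -/
abbrev CΓ : CK M₁ M₂ → Type
  | Sum.inl k => M₁.Γ k
  | Sum.inr (Sum.inl k) => M₂.Γ k
  | Sum.inr (Sum.inr _) => Bool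

/-- Labels of the composite. -/
abbrev CΛ : Type := M₁.Λ ⊕ (M₂.Λ ⊕ Bool)

/-- States of the composite. -/
abbrev Cσ : Type := M₁.σ × (M₂.σ × Option Bool)

variable {M₁ M₂}

/-- Combined stacks. -/
def comb (S₁ : ∀ k, List (M₁.Γ k)) (S₂ : ∀ k, List (M₂.Γ k)) (t : List Bool) :
    ∀ k, List (CΓ M₁ M₂ k)
  | Sum.inl k => S₁ k
  | Sum.inr (Sum.inl k) => S₂ k
  | Sum.inr (Sum.inr _) => t

instance decK : DecidableEq (CK M₁ M₂) := inferInstance

theorem update_comb₁ (S₁ : ∀ k, List (M₁.Γ k)) (S₂ : ∀ k, List (M₂.Γ k)) (t : List Bool)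
    (k : M₁.K) (x : List (M₁.Γ k)) :
    update (comb S₁ S₂ t) (Sum.inl k) x = comb (update S₁ k x) S₂ t := by
  funext j
  rcases j with j | j | j
  · by_cases h : j = k
    · subst h; simp [comb]
    · have : (Sum.inl j : CK M₁ M₂) ≠ Sum.inl k := fun h' => h (Sum.inl.inj h')
      simp [comb, h]
  · simp [comb]
  · simp [comb]

theorem update_comb₂ (S₁ : ∀ k, List (M₁.Γ k)) (S₂ : ∀ k, List (M₂.Γ k)) (t : List Bool)
    (k : M₂.K) (x : List (M₂.Γ k)) :
    update (comb S₁ S₂ t) (Sum.inr (Sum.inl k)) x = comb S₁ (update S₂ k x) t := by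
  funext j
  rcases j with j | j | j
  · simp [comb]
  · by_cases h : j = k
    · subst h; simp [comb]
    · simp [comb, h]
  · simp [comb]

theorem update_comb₃ (S₁ : ∀ k, List (M₁.Γ k)) (S₂ : ∀ k, List (M₂.Γ k)) (t x : List Bool) :
    update (comb S₁ S₂ t) (Sum.inr (Sum.inr ())) x = comb S₁ S₂ x := by
  funext j
  rcases j with j | j | j
  · simp [comb]
  · simp [comb]
  · simp [comb]

/-- Statements of the first machine. -/
def lift₁ : TM2.Stmt M₁.Γ M₁.Λ M₁.σ → TM2.Stmt (CΓ M₁ M₂) (CΛ M₁ M₂) (Cσ M₁ M₂)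
  | TM2.Stmt.push k f q => TM2.Stmt.push (Sum.inl k) (fun v => f v.1) (lift₁ q)
  | TM2.Stmt.peek k f q => TM2.Stmt.peek (Sum.inl k) (fun v s => (f v.1 s, v.2)) (lift₁ q)
  | TM2.Stmt.pop k f q => TM2.Stmt.pop (Sum.inl k) (fun v s => (f v.1 s, v.2)) (lift₁ q)
  | TM2.Stmt.load f q => TM2.Stmt.load (fun v => (f v.1, v.2)) (lift₁ q)
  | TM2.Stmt.branch f q₁ q₂ => TM2.Stmt.branch (fun v => f v.1) (lift₁ q₁) (lift₁ q₂)
  | TM2.Stmt.goto f => TM2.Stmt.goto (fun v => Sum.inl (f v.1))
  | TM2.Stmt.halt => TM2.Stmt.goto (fun _ => Sum.inr (Sum.inr false))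

/-- Statements of the second machine. -/
def lift₂ : TM2.Stmt M₂.Γ M₂.Λ M₂.σ → TM2.Stmt (CΓ M₁ M₂) (CΛ M₁ M₂) (Cσ M₁ M₂)
  | TM2.Stmt.push k f q => TM2.Stmt.push (Sum.inr (Sum.inl k)) (fun v => f v.2.1) (lift₂ q)
  | TM2.Stmt.peek k f q =>
      TM2.Stmt.peek (Sum.inr (Sum.inl k)) (fun v s => (v.1, f v.2.1 s, v.2.2)) (lift₂ q)
  | TM2.Stmt.pop k f q =>
      TM2.Stmt.pop (Sum.inr (Sum.inl k)) (fun v s => (v.1, f v.2.1 s, v.2.2)) (lift₂ q)
  | TM2.Stmt.load f q => TM2.Stmt.load (fun v => (v.1, f v.2.1, v.2.2)) (lift₂ q)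
  | TM2.Stmt.branch f q₁ q₂ => TM2.Stmt.branch (fun v => f v.2.1) (lift₂ q₁) (lift₂ q₂)
  | TM2.Stmt.goto f => TM2.Stmt.goto (fun v => Sum.inr (Sum.inl (f v.2.1)))
  | TM2.Stmt.halt => TM2.Stmt.halt

variable (e₁ : M₁.Γ M₁.k₁ ≃ Bool) (e₂ : M₂.Γ M₂.k₀ ≃ Bool)

/-- The transition table of the composite. -/
def ctable : CΛ M₁ M₂ → TM2.Stmt (CΓ M₁ M₂) (CΛ M₁ M₂) (Cσ M₁ M₂)
  | Sum.inl l => lift₁ (M₁.m l)
  | Sum.inr (Sum.inl l) => lift₂ (M₂.m l)
  | Sum.inr (Sum.inr false) =>
      TM2.Stmt.pop (Sum.inl M₁.k₁) (fun v s => (v.1, v.2.1, s.map e₁))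
        (TM2.Stmt.branch (fun v => v.2.2.isSome)
          (TM2.Stmt.push (Sum.inr (Sum.inr ())) (fun v => v.2.2.getD false)
            (TM2.Stmt.goto (fun _ => Sum.inr (Sum.inr false))))
          (TM2.Stmt.goto (fun _ => Sum.inr (Sum.inr true))))
  | Sum.inr (Sum.inr true) =>
      TM2.Stmt.pop (Sum.inr (Sum.inr ())) (fun v s => (v.1, v.2.1, s))
        (TM2.Stmt.branch (fun v => v.2.2.isSome)
          (TM2.Stmt.push (Sum.inr (Sum.inl M₂.k₀)) (fun v => e₂.symm (v.2.2.getD false))
            (TM2.Stmt.goto (fun _ => Sum.inr (Sum.inr true))))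
          (TM2.Stmt.goto (fun _ => Sum.inr (Sum.inl M₂.main))))

instance : Fintype M₁.K := M₁.kFin
instance : Fintype M₁.Λ := M₁.ΛFin
instance : Fintype M₁.σ := M₁.σFin
instance : Fintype (M₁.Γ M₁.k₀) := M₁.Γk₀Fin

/-- The composite machine. -/
def cmach : FinTM2 where
  K := CK M₁ M₂
  k₀ := Sum.inl M₁.k₀
  k₁ := Sum.inr (Sum.inl M₂.k₁)
  Γ := CΓ M₁ M₂
  Λ := CΛ M₁ M₂
  main := Sum.inl M₁.main
  σ := Cσ M₁ M₂
  initialState := (M₁.initialState, M₂.initialState, none)
  Γk₀Fin := inferInstanceAs (Fintype (M₁.Γ M₁.k₀))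
  m := ctable e₁ e₂

theorem stepAux_lift₁ (q : TM2.Stmt M₁.Γ M₁.Λ M₁.σ) (v : M₁.σ) (w : M₂.σ × Option Bool)
    (S₁ : ∀ k, List (M₁.Γ k)) (S₂ : ∀ k, List (M₂.Γ k)) (t : List Bool) :
    TM2.stepAux (lift₁ q) (v, w) (comb S₁ S₂ t) =
      (⟨some ((TM2.stepAux q v S₁).l.elim (Sum.inr (Sum.inr false)) Sum.inl),
        ((TM2.stepAux q v S₁).var, w), comb (TM2.stepAux q v S₁).stk S₂ t⟩ :
        TM2.Cfg (CΓ M₁ M₂) (CΛ M₁ M₂) (Cσ M₁ M₂)) := by
  induction q generalizing v S₁ with
  | push k f q ih =>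
    simp only [lift₁, TM2.stepAux]
    rw [← ih]
    congr 1
    exact update_comb₁ _ _ _ _ _
  | peek k f q ih => simp only [lift₁, TM2.stepAux]; rw [← ih]; rfl
  | pop k f q ih =>
    simp only [lift₁, TM2.stepAux]
    rw [← ih]
    congr 1
    exact update_comb₁ _ _ _ _ _
  | load f q ih => simp only [lift₁, TM2.stepAux]; rw [← ih]
  | branch f q₁ q₂ ih₁ ih₂ =>
    simp only [lift₁, TM2.stepAux]
    cases f v
    · exact ih₂ _ _
    · exact ih₁ _ _
  | goto f => simp [lift₁, TM2.stepAux]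
  | halt => simp [lift₁, TM2.stepAux]

theorem stepAux_lift₂ (q : TM2.Stmt M₂.Γ M₂.Λ M₂.σ) (v₁ : M₁.σ) (v : M₂.σ) (o : Option Bool)
    (S₁ : ∀ k, List (M₁.Γ k)) (S₂ : ∀ k, List (M₂.Γ k)) (t : List Bool) :
    TM2.stepAux (lift₂ q) (v₁, v, o) (comb S₁ S₂ t) =
      (⟨(TM2.stepAux q v S₂).l.map (fun l => Sum.inr (Sum.inl l)),
        (v₁, (TM2.stepAux q v S₂).var, o), comb S₁ (TM2.stepAux q v S₂).stk t⟩ :
        TM2.Cfg (CΓ M₁ M₂) (CΛ M₁ M₂) (Cσ M₁ M₂)) := by
  induction q generalizing v S₂ with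
  | push k f q ih =>
    simp only [lift₂, TM2.stepAux]
    rw [← ih]
    congr 1
    exact update_comb₂ _ _ _ _ _
  | peek k f q ih => simp only [lift₂, TM2.stepAux]; rw [← ih]; rfl
  | pop k f q ih =>
    simp only [lift₂, TM2.stepAux]
    rw [← ih]
    congr 1
    exact update_comb₂ _ _ _ _ _
  | load f q ih => simp only [lift₂, TM2.stepAux]; rw [← ih]
  | branch f q₁ q₂ ih₁ ih₂ =>
    simp only [lift₂, TM2.stepAux]
    cases f v
    · exact ih₂ _ _
    · exact ih₁ _ _
  | goto f => simp [lift₂, TM2.stepAux]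
  | halt => simp [lift₂, TM2.stepAux]

theorem sim₁ (w : M₂.σ × Option Bool) (S₂ : ∀ k, List (M₂.Γ k)) (t : List Bool) (n : ℕ) :
    ∀ a b : TM2.Cfg M₁.Γ M₁.Λ M₁.σ, (flip bind (TM2.step M₁.m))^[n] (some a) = some b →
      (flip bind (TM2.step (ctable e₁ e₂)))^[n]
        (some ⟨some (a.l.elim (Sum.inr (Sum.inr false)) Sum.inl), (a.var, w),
          comb a.stk S₂ t⟩) =
        some ⟨some (b.l.elim (Sum.inr (Sum.inr false)) Sum.inl), (b.var, w),
          comb b.stk S₂ t⟩ := by
  induction n with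
  | zero =>
    intro a b h
    simp only [iterate_zero, id_eq, Option.some.injEq] at h
    subst h; rfl
  | succ n ih =>
    intro a b h
    rw [iterate_succ_apply] at h
    obtain ⟨l, v, S⟩ := a
    cases l with
    | none =>
      exfalso
      have : (flip bind (TM2.step M₁.m)) (some (⟨none, v, S⟩ : TM2.Cfg M₁.Γ M₁.Λ M₁.σ)) = none :=
        rfl
      rw [this, iter_none] at h
      exact absurd h (by simp)
    | some l =>
      have : (flip bind (TM2.step M₁.m)) (some (⟨some l, v, S⟩ : TM2.Cfg M₁.Γ M₁.Λ M₁.σ)) =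
        some (TM2.stepAux (M₁.m l) v S) := rfl
      rw [this] at h
      rw [iterate_succ_apply, ← ih _ _ h]
      congr 1
      exact congrArg some (stepAux_lift₁ (M₁.m l) v w S S₂ t)

theorem sim₂ (v₁ : M₁.σ) (o : Option Bool) (S₁ : ∀ k, List (M₁.Γ k)) (t : List Bool) (n : ℕ) :
    ∀ a b : TM2.Cfg M₂.Γ M₂.Λ M₂.σ, (flip bind (TM2.step M₂.m))^[n] (some a) = some b →
      (flip bind (TM2.step (ctable e₁ e₂)))^[n]
        (some ⟨a.l.map (fun l => Sum.inr (Sum.inl l)), (v₁, a.var, o), comb S₁ a.stk t⟩) =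
        some ⟨b.l.map (fun l => Sum.inr (Sum.inl l)), (v₁, b.var, o), comb S₁ b.stk t⟩ := by
  induction n with
  | zero =>
    intro a b h
    simp only [iterate_zero, id_eq, Option.some.injEq] at h
    subst h; rfl
  | succ n ih =>
    intro a b h
    rw [iterate_succ_apply] at h
    obtain ⟨l, v, S⟩ := a
    cases l with
    | none =>
      exfalso
      have : (flip bind (TM2.step M₂.m)) (some (⟨none, v, S⟩ : TM2.Cfg M₂.Γ M₂.Λ M₂.σ)) = none :=
        rfl
      rw [this, iter_none] at h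
      exact absurd h (by simp)
    | some l =>
      have : (flip bind (TM2.step M₂.m)) (some (⟨some l, v, S⟩ : TM2.Cfg M₂.Γ M₂.Λ M₂.σ)) =
        some (TM2.stepAux (M₂.m l) v S) := rfl
      rw [this] at h
      rw [iterate_succ_apply, ← ih _ _ h]
      congr 1
      exact congrArg some (stepAux_lift₂ (M₂.m l) v₁ v o S₁ S t)

theorem mv₁ (v₁ : M₁.σ) (v₂ : M₂.σ) (S₂ : ∀ k, List (M₂.Γ k)) (l : List (M₁.Γ M₁.k₁)) :
    ∀ (o : Option Bool) (S₁ : ∀ k, List (M₁.Γ k)) (t : List Bool), S₁ M₁.k₁ = l →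
      (flip bind (TM2.step (ctable e₁ e₂)))^[l.length + 1]
        (some ⟨some (Sum.inr (Sum.inr false)), (v₁, v₂, o), comb S₁ S₂ t⟩) =
        some ⟨some (Sum.inr (Sum.inr true)), (v₁, v₂, none),
          comb (update S₁ M₁.k₁ []) S₂ ((l.map e₁).reverse ++ t)⟩ := by
  induction l with
  | nil =>
    intro o S₁ t h
    simp only [List.length_nil, zero_add, iterate_one, flip]
    have h' : comb S₁ S₂ t (Sum.inl M₁.k₁) = [] := h
    simp only [Option.bind_eq_bind, Option.bind_some, TM2.step, ctable, TM2.stepAux, h',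
      List.head?_nil, Option.map_none, Option.isSome_none, cond_false, List.tail_nil,
      List.map_nil, List.reverse_nil, List.nil_append]
    rw [update_comb₁]
  | cons a l ih =>
    intro o S₁ t h
    have h' : comb S₁ S₂ t (Sum.inl M₁.k₁) = a :: l := h
    rw [List.length_cons, iterate_succ_apply]
    have hstep : (flip bind (TM2.step (ctable e₁ e₂)))
        (some ⟨some (Sum.inr (Sum.inr false)), (v₁, v₂, o), comb S₁ S₂ t⟩) =
        some ⟨some (Sum.inr (Sum.inr false)), (v₁, v₂, some (e₁ a)),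
          comb (update S₁ M₁.k₁ l) S₂ (e₁ a :: t)⟩ := by
      simp only [flip, Option.bind_eq_bind, Option.bind_some, TM2.step, ctable, TM2.stepAux, h',
        List.head?_cons, Option.map_some, Option.isSome_some, cond_true, List.tail_cons,
        Option.getD_some]
      rw [update_comb₁]
      congr 2
      exact update_comb₃ _ _ _ _
    rw [hstep, ih (some (e₁ a)) (update S₁ M₁.k₁ l) (e₁ a :: t) (by simp)]
    simp

theorem mv₂ (v₁ : M₁.σ) (v₂ : M₂.σ) (S₁ : ∀ k, List (M₁.Γ k)) (t : List Bool) :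
    ∀ (o : Option Bool) (S₂ : ∀ k, List (M₂.Γ k)),
      (flip bind (TM2.step (ctable e₁ e₂)))^[t.length + 1]
        (some ⟨some (Sum.inr (Sum.inr true)), (v₁, v₂, o), comb S₁ S₂ t⟩) =
        some ⟨some (Sum.inr (Sum.inl M₂.main)), (v₁, v₂, none),
          comb S₁ (update S₂ M₂.k₀ ((t.map e₂.symm).reverse ++ S₂ M₂.k₀)) []⟩ := by
  induction t with
  | nil =>
    intro o S₂
    simp only [List.length_nil, zero_add, iterate_one, flip]
    have h' : comb S₁ S₂ [] (Sum.inr (Sum.inr ())) = [] := rfl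
    simp only [Option.bind_eq_bind, Option.bind_some, TM2.step, ctable, TM2.stepAux, h',
      List.head?_nil, Option.isSome_none, cond_false, List.tail_nil,
      List.map_nil, List.reverse_nil, List.nil_append]
    rw [update_comb₃]
    simp
  | cons a t ih =>
    intro o S₂
    have h' : comb S₁ S₂ (a :: t) (Sum.inr (Sum.inr ())) = a :: t := rfl
    rw [List.length_cons, iterate_succ_apply]
    have hstep : (flip bind (TM2.step (ctable e₁ e₂)))
        (some ⟨some (Sum.inr (Sum.inr true)), (v₁, v₂, o), comb S₁ S₂ (a :: t)⟩) =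
        some ⟨some (Sum.inr (Sum.inr true)), (v₁, v₂, some a),
          comb S₁ (update S₂ M₂.k₀ (e₂.symm a :: S₂ M₂.k₀)) t⟩ := by
      simp only [flip, Option.bind_eq_bind, Option.bind_some, TM2.step, ctable, TM2.stepAux, h',
        List.head?_cons, Option.isSome_some, cond_true, List.tail_cons,
        Option.getD_some]
      rw [update_comb₃]
      congr 2
      exact update_comb₂ _ _ _ _ _
    rw [hstep, ih]
    simp

end Construction

/-- Unpacking of an output certificate. -/
theorem outputs_iff (tm : FinTM2) (x : List (tm.Γ tm.k₀)) (y : List (tm.Γ tm.k₁)) (m : ℕ) :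
    Nonempty (TM2OutputsInTime tm x (some y) m) ↔
      ∃ n ≤ m, (flip bind (TM2.step tm.m))^[n] (some (initList tm x)) = some (haltList tm y) := by
  constructor
  · rintro ⟨⟨⟨n, h⟩, hn⟩⟩
    exact ⟨n, hn, h⟩
  · rintro ⟨n, hn, h⟩
    exact ⟨⟨⟨n, h⟩, hn⟩⟩

/-- The stack function of the initial configuration. -/
def initStk (tm : FinTM2) (x : List (tm.Γ tm.k₀)) : ∀ k, List (tm.Γ k) :=
  update (fun _ => []) tm.k₀ x

/-- The stack function of the final configuration. -/
def haltStk (tm : FinTM2) (x : List (tm.Γ tm.k₁)) : ∀ k, List (tm.Γ k) :=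
  update (fun _ => []) tm.k₁ x

theorem initList_eq (tm : FinTM2) (x : List (tm.Γ tm.k₀)) :
    initList tm x = ⟨some tm.main, tm.initialState, initStk tm x⟩ := by
  unfold initList
  congr 1
  funext k
  by_cases h : k = tm.k₀
  · subst h
    simp [initStk]
  · simp [initStk, h]

theorem haltList_eq (tm : FinTM2) (x : List (tm.Γ tm.k₁)) :
    haltList tm x = ⟨none, tm.initialState, haltStk tm x⟩ := by
  unfold haltList
  congr 1
  funext k
  by_cases h : k = tm.k₁
  · subst h
    simp [haltStk]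
  · simp [haltStk, h]

theorem exists_pushes_bound (tm : FinTM2) : ∃ C, ∀ l, pushes (tm.m l) ≤ C := by
  have := tm.ΛFin
  refine ⟨Finset.univ.sup (fun l => pushes (tm.m l)), fun l => ?_⟩
  exact Finset.le_sup (f := fun l => pushes (tm.m l)) (Finset.mem_univ l)

/-- Composition of polynomial-time TM2 computations (intermediate alphabet `Bool`). -/
theorem comp {α β γ αΓ γΓ : Type} {ea : α → List αΓ} {eb : β → List Bool} {ec : γ → List γΓ}
    {f : α → β} {g : β → γ} (h₁ : TM2ComputableInPolyTime ea eb f)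
    (h₂ : TM2ComputableInPolyTime eb ec g) :
    Nonempty (TM2ComputableInPolyTime ea ec (g ∘ f)) := by
  obtain ⟨C, hC⟩ := exists_pushes_bound h₁.tm
  let e₁ : h₁.tm.Γ h₁.tm.k₁ ≃ Bool := h₁.outputAlphabet
  let e₂ : h₂.tm.Γ h₂.tm.k₀ ≃ Bool := h₂.inputAlphabet
  let q : Polynomial ℕ := Polynomial.X + h₁.time * Polynomial.C C
  let M : FinTM2 := cmach e₁ e₂
  suffices H : ∀ a, Nonempty (TM2OutputsInTime M (List.map h₁.inputAlphabet.invFun (ea a))
      (some ((List.map h₂.outputAlphabet.invFun) (ec (g (f a)))))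
      ((h₁.time + (q + 1) + (q + 1) + h₂.time.comp q).eval (ea a).length)) by
    exact ⟨{
      tm := M
      inputAlphabet := h₁.inputAlphabet
      outputAlphabet := h₂.outputAlphabet
      time := h₁.time + (q + 1) + (q + 1) + h₂.time.comp q
      outputsFun := fun a => (H a).some }⟩
  intro a
  obtain ⟨n₁, hn₁, hr₁⟩ := (outputs_iff _ _ _ _).1 ⟨h₁.outputsFun a⟩
  obtain ⟨n₂, hn₂, hr₂⟩ := (outputs_iff _ _ _ _).1 ⟨h₂.outputsFun (f a)⟩
  set x := List.map h₁.inputAlphabet.invFun (ea a) with hx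
  set y := List.map h₁.outputAlphabet.invFun (eb (f a)) with hy
  set x' := List.map h₂.inputAlphabet.invFun (eb (f a)) with hx'
  set z := List.map h₂.outputAlphabet.invFun (ec (g (f a))) with hz
  have hlen : (eb (f a)).length ≤ (ea a).length + n₁ * C := by
    have h := length_steps h₁.tm.m C hC n₁ _ _ hr₁ h₁.tm.k₁
    rw [haltList_eq, initList_eq] at h
    simp only [haltStk, initStk, update_self, hy, List.length_map] at h
    refine h.trans ?_
    gcongr
    by_cases hk : h₁.tm.k₁ = h₁.tm.k₀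
    · have : ∀ (k : h₁.tm.K) (_ : k = h₁.tm.k₀),
          (update (fun _ => []) h₁.tm.k₀ x k : List (h₁.tm.Γ k)).length ≤ (ea a).length := by
        intro k hk
        subst hk
        simp [hx]
      exact this _ hk
    · rw [update_of_ne hk]
      simp
  have hq : (ea a).length + n₁ * C ≤ q.eval (ea a).length := by
    simp only [q, Polynomial.eval_add, Polynomial.eval_X, Polynomial.eval_mul, Polynomial.eval_C]
    gcongr
  have hL : (eb (f a)).length ≤ q.eval (ea a).length := hlen.trans hq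
  refine (outputs_iff M x z _).2 ?_
  rw [initList_eq, haltList_eq] at hr₁ hr₂
  -- first machine
  have s₁ := sim₁ e₁ e₂ (h₂.tm.initialState, none) (fun _ => []) [] n₁ _ _ hr₁
  simp only [Option.elim_some, Option.elim_none] at s₁
  have s₂ := mv₁ e₁ e₂ h₁.tm.initialState h₂.tm.initialState (fun _ => []) y none
    (haltStk h₁.tm y) [] (by simp [haltStk])
  have hye : y.map e₁ = eb (f a) := by
    simp only [hy, List.map_map]
    conv_rhs => rw [← List.map_id (eb (f a))]
    congr 1
    funext b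
    exact h₁.outputAlphabet.apply_symm_apply b
  rw [hye, List.append_nil] at s₂
  have hup : update (haltStk h₁.tm y) h₁.tm.k₁ [] = fun _ => [] := by
    funext k
    by_cases hk : k = h₁.tm.k₁
    · subst hk; simp
    · simp [haltStk, hk]
  rw [hup] at s₂
  have s₃ := mv₂ e₁ e₂ h₁.tm.initialState h₂.tm.initialState (fun _ => [])
    (eb (f a)).reverse none (fun _ => [])
  have hx'e : (List.map e₂.symm (eb (f a)).reverse).reverse ++ [] = x' := by
    simp only [List.map_reverse, List.reverse_reverse, List.append_nil, hx']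
    rfl
  rw [hx'e] at s₃
  have s₄ := sim₂ e₁ e₂ h₁.tm.initialState none (fun _ => []) [] n₂ _ _ hr₂
  simp only [Option.map_some, Option.map_none] at s₄
  have hlast : initStk h₂.tm x' = update (fun _ => []) h₂.tm.k₀ x' := rfl
  rw [hlast] at s₄
  have hfin : (flip bind (TM2.step (ctable e₁ e₂)))^[n₂ + ((eb (f a)).reverse.length + 1 +
      (y.length + 1 + n₁))] (some ⟨some (Sum.inl h₁.tm.main),
        (h₁.tm.initialState, h₂.tm.initialState, none),
        comb (initStk h₁.tm x) (fun _ => []) []⟩) =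
      some ⟨none, (h₁.tm.initialState, h₂.tm.initialState, none),
        comb (fun _ => []) (haltStk h₂.tm z) []⟩ := by
    rw [iterate_add_apply _ n₂, iterate_add_apply _ ((eb (f a)).reverse.length + 1),
      iterate_add_apply _ (y.length + 1), s₁, s₂, s₃, s₄]
  refine ⟨n₂ + ((eb (f a)).reverse.length + 1 + (y.length + 1 + n₁)), ?_, ?_⟩
  · simp only [Polynomial.eval_add, Polynomial.eval_one, Polynomial.eval_comp,
      List.length_reverse, hy, List.length_map]
    have h2 : h₂.time.eval (eb (f a)).length ≤ h₂.time.eval (q.eval (ea a).length) :=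
      poly_mono h₂.time hL
    omega
  · have i1 : (initList M x) = ⟨some (Sum.inl h₁.tm.main),
        (h₁.tm.initialState, h₂.tm.initialState, none),
        comb (initStk h₁.tm x) (fun _ => []) []⟩ := by
      refine (initList_eq M x).trans ?_
      have h := update_comb₁ (M₁ := h₁.tm) (M₂ := h₂.tm) (fun _ => []) (fun _ => []) []
        h₁.tm.k₀ x
      have h0 : (comb (M₁ := h₁.tm) (M₂ := h₂.tm) (fun _ => []) (fun _ => []) []) =
          fun _ => [] := by
        funext k; rcases k with k | k | k <;> rfl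
      rw [h0] at h
      exact congrArg (fun st => (⟨some (Sum.inl h₁.tm.main),
        (h₁.tm.initialState, h₂.tm.initialState, none), st⟩ :
        TM2.Cfg (CΓ h₁.tm h₂.tm) (CΛ h₁.tm h₂.tm) (Cσ h₁.tm h₂.tm))) h
    have i2 : (haltList M z) = ⟨none, (h₁.tm.initialState, h₂.tm.initialState, none),
        comb (fun _ => []) (haltStk h₂.tm z) []⟩ := by
      refine (haltList_eq M z).trans ?_
      have h := update_comb₂ (M₁ := h₁.tm) (M₂ := h₂.tm) (fun _ => []) (fun _ => []) []
        h₂.tm.k₁ z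
      have h0 : (comb (M₁ := h₁.tm) (M₂ := h₂.tm) (fun _ => []) (fun _ => []) []) =
          fun _ => [] := by
        funext k; rcases k with k | k | k <;> rfl
      rw [h0] at h
      exact congrArg (fun st => (⟨none,
        (h₁.tm.initialState, h₂.tm.initialState, none), st⟩ :
        TM2.Cfg (CΓ h₁.tm h₂.tm) (CΛ h₁.tm h₂.tm) (Cσ h₁.tm h₂.tm))) h
    exact (congrArg ((flip bind (TM2.step (ctable e₁ e₂)))^[n₂ + ((eb (f a)).reverse.length + 1 +
      (y.length + 1 + n₁))]) (congrArg some i1)).trans (hfin.trans (congrArg some i2.symm))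

end Pool.Agent.Work.PolyTime.Comp
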