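import Pool.Agent.Work.PolyTime.Cmd
import Pool.Agent.Work.PolyTime.Comp

/-!
Closure properties of polynomial-time string functions, at the level of stack programs.
-/

set_option autoImplicit false
set_option linter.unusedSimpArgs false

namespace Pool.Agent.Work.PolyTime

open Function

/-- Juxtaposition of two stores. -/
def join {K K' : Type} (s : K → List Bool) (r : K' → List Bool) : K ⊕ K' → List Bool
  | Sum.inl k => s k
  | Sum.inr k => r k

@[simp] theorem join_inl {K K' : Type} (s : K → List Bool) (r : K' → List Bool) (k : K) :
    join s r (Sum.inl k) = s k := rfl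

@[simp] theorem join_inr {K K' : Type} (s : K → List Bool) (r : K' → List Bool) (k : K') :
    join s r (Sum.inr k) = r k := rfl

@[simp] theorem update_join_inl {K K' : Type} [DecidableEq K] [DecidableEq K']
    (s : K → List Bool) (r : K' → List Bool) (k : K) (x : List Bool) :
    update (join s r) (Sum.inl k) x = join (update s k x) r := by
  funext j
  rcases j with j | j
  · by_cases h : j = k
    · subst h; simp
    · have h' : (Sum.inl j : K ⊕ K') ≠ Sum.inl k := fun e => h (Sum.inl.inj e)
      rw [update_of_ne h', join_inl, join_inl, update_of_ne h]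
  · have h' : (Sum.inr j : K ⊕ K') ≠ Sum.inl k := fun e => by cases e
    rw [update_of_ne h', join_inr, join_inr]

@[simp] theorem update_join_inr {K K' : Type} [DecidableEq K] [DecidableEq K']
    (s : K → List Bool) (r : K' → List Bool) (k : K') (x : List Bool) :
    update (join s r) (Sum.inr k) x = join s (update r k x) := by
  funext j
  rcases j with j | j
  · have h' : (Sum.inl j : K ⊕ K') ≠ Sum.inr k := fun e => by cases e
    rw [update_of_ne h', join_inl, join_inl]
  · by_cases h : j = k
    · subst h; simp
    · have h' : (Sum.inr j : K ⊕ K') ≠ Sum.inr k := fun e => h (Sum.inr.inj e)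
      rw [update_of_ne h', join_inr, join_inr, update_of_ne h]

section ExecLemmas

variable {K : Type} [DecidableEq K]

theorem Exec.congr {c : Cmd K} {s s₁ s₂ : K → List Bool} {t : ℕ} (h : Exec c s s₁ t)
    (e : s₁ = s₂) : Exec c s s₂ t := e ▸ h

theorem Exec.congrL {c : Cmd K} {s s₁ s₂ : K → List Bool} {t : ℕ} (h : Exec c s₁ s t)
    (e : s₁ = s₂) : Exec c s₂ s t := e ▸ h

theorem Exec.length_le {c : Cmd K} {s s' : K → List Bool} {t : ℕ} (h : Exec c s s' t) (k : K) :
    (s' k).length ≤ (s k).length + t := by
  induction h with
  | skip s => omega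
  | push k' b s =>
    by_cases hk : k = k'
    · subst hk; simp
    · simp [hk]
  | seq h₁ h₂ ih₁ ih₂ => omega
  | popN hk h ih =>
    rename_i k' cn cf ct s s' t
    by_cases hkk : k = k'
    · subst hkk; simp at ih; omega
    · simp [hkk] at ih; omega
  | popF l hk h ih =>
    rename_i k' cn cf ct s s' t
    by_cases hkk : k = k'
    · subst hkk; simp at ih; rw [hk]; simp; omega
    · simp [hkk] at ih; omega
  | popT l hk h ih =>
    rename_i k' cn cf ct s s' t
    by_cases hkk : k = k'
    · subst hkk; simp at ih; rw [hk]; simp; omega
    · simp [hkk] at ih; omega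
  | loopDone hk => omega
  | loopStep hk h₁ h₂ ih₁ ih₂ => omega
  | mono h hle ih => omega

theorem Exec.map_inl {K' : Type} [DecidableEq K'] {c : Cmd K} {s s' : K → List Bool} {t : ℕ}
    (h : Exec c s s' t) (r : K' → List Bool) :
    Exec (c.map (Sum.inl : K → K ⊕ K')) (join s r) (join s' r) t := by
  induction h with
  | skip s => exact Exec.skip _
  | push k b s =>
    have := Exec.push (Sum.inl k : K ⊕ K') b (join s r)
    simpa [Cmd.map] using this
  | seq h₁ h₂ ih₁ ih₂ => exact Exec.seq ih₁ ih₂
  | popN hk h ih =>
    refine Exec.popN (by simpa using hk) ?_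
    simpa using ih
  | popF l hk h ih =>
    refine Exec.popF l (by simpa using hk) ?_
    simpa using ih
  | popT l hk h ih =>
    refine Exec.popT l (by simpa using hk) ?_
    simpa using ih
  | loopDone hk => exact Exec.loopDone (by simpa using hk)
  | loopStep hk h₁ h₂ ih₁ ih₂ => exact Exec.loopStep (by simpa using hk) ih₁ ih₂
  | mono h hle ih => exact Exec.mono ih hle

theorem Exec.map_inr {K' : Type} [DecidableEq K'] {c : Cmd K} {s s' : K → List Bool} {t : ℕ}
    (h : Exec c s s' t) (r : K' → List Bool) :
    Exec (c.map (Sum.inr : K → K' ⊕ K)) (join r s) (join r s') t := by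
  induction h with
  | skip s => exact Exec.skip _
  | push k b s =>
    have := Exec.push (Sum.inr k : K' ⊕ K) b (join r s)
    simpa [Cmd.map] using this
  | seq h₁ h₂ ih₁ ih₂ => exact Exec.seq ih₁ ih₂
  | popN hk h ih =>
    refine Exec.popN (by simpa using hk) ?_
    simpa using ih
  | popF l hk h ih =>
    refine Exec.popF l (by simpa using hk) ?_
    simpa using ih
  | popT l hk h ih =>
    refine Exec.popT l (by simpa using hk) ?_
    simpa using ih
  | loopDone hk => exact Exec.loopDone (by simpa using hk)
  | loopStep hk h₁ h₂ ih₁ ih₂ => exact Exec.loopStep (by simpa using hk) ih₁ ih₂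
  | mono h hle ih => exact Exec.mono ih hle

/-- Move stack `a` onto stack `b`, reversing. -/
def moveRev (a b : K) : Cmd K :=
  Cmd.loop a (Cmd.pop a Cmd.skip (Cmd.push b false) (Cmd.push b true))

theorem exec_moveRev {a b : K} (hab : a ≠ b) (l : List Bool) :
    ∀ s : K → List Bool, s a = l →
      Exec (moveRev a b) s (update (update s a []) b (l.reverse ++ s b)) (3 * l.length + 1) := by
  induction l with
  | nil =>
    intro s hs
    refine (Exec.loopDone hs).congr ?_
    funext k
    by_cases h1 : k = b
    · subst h1; simp
    · by_cases h2 : k = a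
      · subst h2; simp [hab, hs]
      · simp [h1, h2]
  | cons x l ih =>
    intro s hs
    have hne : s a ≠ [] := by rw [hs]; simp
    have step : Exec (Cmd.pop a Cmd.skip (Cmd.push b false) (Cmd.push b true)) s
        (update (update s a l) b (x :: s b)) 2 := by
      cases x with
      | false =>
        refine Exec.popF l hs ?_
        refine (Exec.push b false _).congr ?_
        simp [hab.symm]
      | true =>
        refine Exec.popT l hs ?_
        refine (Exec.push b true _).congr ?_
        simp [hab.symm]
    have h2 := ih (update (update s a l) b (x :: s b)) (by simp [hab])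
    refine ((Exec.loopStep hne step h2).mono ?_).congr ?_
    · simp only [List.length_cons]; omega
    · funext k
      by_cases h1 : k = b
      · subst h1; simp
      · by_cases h2 : k = a
        · subst h2; simp [hab]
        · simp [h1, h2]

/-- Empty stack `a`. -/
def clear (a : K) : Cmd K := Cmd.loop a (Cmd.pop a Cmd.skip Cmd.skip Cmd.skip)

theorem exec_clear {a : K} (l : List Bool) :
    ∀ s : K → List Bool, s a = l → Exec (clear a) s (update s a []) (3 * l.length + 1) := by
  induction l with
  | nil =>
    intro s hs
    refine (Exec.loopDone hs).congr ?_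
    rw [← hs]; simp
  | cons x l ih =>
    intro s hs
    have hne : s a ≠ [] := by rw [hs]; simp
    have step : Exec (Cmd.pop a Cmd.skip Cmd.skip Cmd.skip) s (update s a l) 2 := by
      cases x with
      | false => exact Exec.popF l hs (Exec.skip _)
      | true => exact Exec.popT l hs (Exec.skip _)
    have h2 := ih (update s a l) (by simp)
    refine ((Exec.loopStep hne step h2).mono ?_).congr ?_
    · simp only [List.length_cons]; omega
    · simp

/-- Move stack `a` onto both `b` and `c`, reversing. -/
def dupRev (a b c : K) : Cmd K :=
  Cmd.loop a (Cmd.pop a Cmd.skip (Cmd.seq (Cmd.push b false) (Cmd.push c false))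
    (Cmd.seq (Cmd.push b true) (Cmd.push c true)))

theorem exec_dupRev {a b c : K} (hab : a ≠ b) (hac : a ≠ c) (hbc : b ≠ c) (l : List Bool) :
    ∀ s : K → List Bool, s a = l →
      Exec (dupRev a b c) s
        (update (update (update s a []) b (l.reverse ++ s b)) c (l.reverse ++ s c))
        (4 * l.length + 1) := by
  induction l with
  | nil =>
    intro s hs
    refine (Exec.loopDone hs).congr ?_
    funext k
    by_cases h1 : k = c
    · subst h1; simp
    · by_cases h3 : k = b
      · subst h3; simp [h1]
      · by_cases h2 : k = a
        · subst h2; simp [hab, hac, hs]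
        · simp [h1, h2, h3]
  | cons x l ih =>
    intro s hs
    have hne : s a ≠ [] := by rw [hs]; simp
    have step : Exec (Cmd.pop a Cmd.skip (Cmd.seq (Cmd.push b false) (Cmd.push c false))
        (Cmd.seq (Cmd.push b true) (Cmd.push c true))) s
        (update (update (update s a l) b (x :: s b)) c (x :: s c)) 3 := by
      cases x with
      | false =>
        refine Exec.popF (t := 1 + 1) l hs (Exec.seq (Exec.push b false _) ?_)
        refine (Exec.push c false _).congr ?_
        simp [hab.symm, hac.symm, hbc.symm]
      | true =>
        refine Exec.popT (t := 1 + 1) l hs (Exec.seq (Exec.push b true _) ?_)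
        refine (Exec.push c true _).congr ?_
        simp [hab.symm, hac.symm, hbc.symm]
    have h2 := ih (update (update (update s a l) b (x :: s b)) c (x :: s c))
      (by simp [hab, hac])
    refine ((Exec.loopStep hne step h2).mono ?_).congr ?_
    · simp only [List.length_cons]; omega
    · funext k
      by_cases h1 : k = c
      · subst h1; simp
      · by_cases h3 : k = b
        · subst h3; simp [h1]
        · by_cases h2 : k = a
          · subst h2; simp [hab, hac]
          · simp [h1, h2, h3]

/-- Push a constant word. -/
def pushWord (a : K) : List Bool → Cmd K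
  | [] => Cmd.skip
  | b :: l => Cmd.seq (pushWord a l) (Cmd.push a b)

theorem exec_pushWord (a : K) (l : List Bool) (s : K → List Bool) :
    Exec (pushWord a l) s (update s a (l ++ s a)) (l.length + 1) := by
  induction l with
  | nil => exact (Exec.skip s).congr (by simp)
  | cons b l ih =>
    refine ((Exec.seq ih (Exec.push a b _)).mono (by simp)).congr ?_
    simp

end ExecLemmas

/-- `PS u v`: there is a polynomial-time program computing the word `v j` from the word `u j`,
uniformly in the index `j`. -/
def PS {ι : Type} (u v : ι → List Bool) : Prop :=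
  ∃ (K : Type) (_ : DecidableEq K) (_ : Fintype K) (c : Cmd K) (i o : K) (p : Polynomial ℕ),
    ∀ j, Exec c (single i (u j)) (single o (v j)) (p.eval (u j).length)

/-- The four auxiliary stacks used by the constructions. -/
inductive Aux | a | b | c | d
  deriving DecidableEq

instance : Fintype Aux := ⟨{Aux.a, Aux.b, Aux.c, Aux.d}, fun x => by cases x <;> simp⟩

theorem PS.length_le {ι : Type} {u v : ι → List Bool} (h : PS u v) :
    ∃ q : Polynomial ℕ, ∀ j, (v j).length ≤ q.eval (u j).length := by
  obtain ⟨K, _, _, c, i, o, p, h⟩ := h
  refine ⟨Polynomial.X + p, fun j => ?_⟩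
  have := (h j).length_le o
  simp only [single, update_self] at this
  refine this.trans ?_
  simp only [Polynomial.eval_add, Polynomial.eval_X]
  gcongr
  by_cases ho : o = i
  · subst ho; simp
  · simp [ho]

theorem PS.refl {ι : Type} (u : ι → List Bool) : PS u u :=
  ⟨Unit, inferInstance, inferInstance, Cmd.skip, (), (), 1, fun j => by
    simpa using Exec.skip (single () (u j))⟩

theorem PS.reindex {ι ι' : Type} {u v : ι → List Bool} (h : PS u v) (r : ι' → ι) :
    PS (fun j => u (r j)) (fun j => v (r j)) := by
  obtain ⟨K, h1, h2, c, i, o, p, h⟩ := h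
  exact ⟨K, h1, h2, c, i, o, p, fun j => h (r j)⟩

theorem single_inl {K K' : Type} [DecidableEq K] [DecidableEq K'] (i : K) (x : List Bool) :
    single (Sum.inl i : K ⊕ K') x = join (single i x) (fun _ => []) := by
  have : (fun _ => [] : K ⊕ K' → List Bool) = join (fun _ => []) (fun _ => []) := by
    funext k; rcases k with k | k <;> rfl
  unfold single
  rw [this, update_join_inl]

theorem single_inr {K K' : Type} [DecidableEq K] [DecidableEq K'] (i : K) (x : List Bool) :
    single (Sum.inr i : K' ⊕ K) x = join (fun _ => []) (single i x) := by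
  have : (fun _ => [] : K' ⊕ K → List Bool) = join (fun _ => []) (fun _ => []) := by
    funext k; rcases k with k | k <;> rfl
  unfold single
  rw [this, update_join_inr]

@[simp] theorem update_single {K : Type} [DecidableEq K] (i : K) (x y : List Bool) :
    update (single i x) i y = single i y := by
  simp [single]

@[simp] theorem single_nil {K : Type} [DecidableEq K] (i : K) :
    single i [] = fun _ => [] := by
  unfold single
  funext k
  by_cases h : k = i
  · subst h; simp
  · simp [h]

@[simp] theorem single_self {K : Type} [DecidableEq K] (i : K) (x : List Bool) :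
    single i x i = x := by
  simp [single]

theorem update_const_nil {K : Type} [DecidableEq K] (i : K) (x : List Bool) :
    update (fun _ => []) i x = single i x := rfl

theorem PS.trans {ι : Type} {u v w : ι → List Bool} (h₁ : PS u v) (h₂ : PS v w) : PS u w := by
  obtain ⟨q, hq⟩ := h₁.length_le
  obtain ⟨K₁, _, _, c₁, i₁, o₁, p₁, h₁⟩ := h₁
  obtain ⟨K₂, _, _, c₂, i₂, o₂, p₂, h₂⟩ := h₂
  refine ⟨K₁ ⊕ (K₂ ⊕ Unit), inferInstance, inferInstance,
    Cmd.seq (c₁.map Sum.inl) (Cmd.seq (moveRev (Sum.inl o₁) (Sum.inr (Sum.inr ())))
      (Cmd.seq (moveRev (Sum.inr (Sum.inr ())) (Sum.inr (Sum.inl i₂)))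
        ((c₂.map Sum.inl).map Sum.inr))), Sum.inl i₁, Sum.inr (Sum.inl o₂),
    p₁ + (3 * q + 1) + (3 * q + 1) + p₂.comp q, fun j => ?_⟩
  rw [single_inl, single_inr, single_inl]
  have e1 := (h₁ j).map_inl (K' := K₂ ⊕ Unit) (join (fun _ => []) (fun _ => []))
  have e2 := exec_moveRev (K := K₁ ⊕ (K₂ ⊕ Unit)) (a := Sum.inl o₁) (b := Sum.inr (Sum.inr ()))
    (by simp) (v j) (join (single o₁ (v j)) (join (fun _ => []) (fun _ => []))) (by simp)
  simp only [update_join_inl, update_join_inr, join_inl, join_inr, update_single, single_nil,
    update_const_nil, List.append_nil] at e2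
  have e3 := exec_moveRev (K := K₁ ⊕ (K₂ ⊕ Unit)) (a := Sum.inr (Sum.inr ()))
    (b := Sum.inr (Sum.inl i₂))
    (by simp) (v j).reverse (join (fun _ => []) (join (fun _ => [])
      (single () (v j).reverse))) (by simp)
  simp only [update_join_inl, update_join_inr, join_inl, join_inr, update_single, single_nil,
    update_const_nil, List.append_nil, List.reverse_reverse] at e3
  have e4 := ((h₂ j).map_inl (K' := Unit) (fun _ => [])).map_inr (K' := K₁) (fun _ => [])
  refine ((Exec.seq e1 (Exec.seq e2 (Exec.seq e3 e4))).mono ?_).congrL ?_
  · have h3 : p₂.eval (v j).length ≤ p₂.eval (q.eval (u j).length) :=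
      Comp.poly_mono p₂ (hq j)
    have h4 := hq j
    simp only [Polynomial.eval_add, Polynomial.eval_one, Polynomial.eval_comp,
        List.length_reverse, Polynomial.eval_mul, Polynomial.eval_ofNat]
    omega
  · funext k; rcases k with k | k | k <;> rfl

end Pool.Agent.Work.PolyTime
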