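import Pool.Agent.Work.PolyTime.Tree

/-!
More closure properties: projections, branching, folds.
-/

set_option autoImplicit false
set_option linter.unusedSimpArgs false

namespace Pool.Agent.Work.PolyTime

open Function

theorem PS.trans' {ι : Type} {u v w : ι → List Bool} (h₁ : PS u v) {K₂ : Type} [DecidableEq K₂]
    [Fintype K₂] (c₂ : Cmd K₂) (i₂ o₂ : K₂) (τ : ι → ℕ)
    (h₂ : ∀ j, Exec c₂ (single i₂ (v j)) (single o₂ (w j)) (τ j)) (r : Polynomial ℕ)
    (hr : ∀ j, τ j ≤ r.eval (u j).length) : PS u w := by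
  obtain ⟨q, hq⟩ := h₁.length_le
  obtain ⟨K₁, _, _, c₁, i₁, o₁, p₁, h₁⟩ := h₁
  refine ⟨K₁ ⊕ (K₂ ⊕ Unit), inferInstance, inferInstance,
    Cmd.seq (c₁.map Sum.inl) (Cmd.seq (moveRev (Sum.inl o₁) (Sum.inr (Sum.inr ())))
      (Cmd.seq (moveRev (Sum.inr (Sum.inr ())) (Sum.inr (Sum.inl i₂)))
        ((c₂.map Sum.inl).map Sum.inr))), Sum.inl i₁, Sum.inr (Sum.inl o₂),
    p₁ + (3 * q + 1) + (3 * q + 1) + r, fun j => ?_⟩
  rw [single_inl, single_inr, single_inl]
  have e1 := (h₁ j).map_inl (K' := K₂ ⊕ Unit) (join (fun _ => []) (fun _ => []))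
  have e2 := exec_moveRev (K := K₁ ⊕ (K₂ ⊕ Unit)) (a := Sum.inl o₁) (b := Sum.inr (Sum.inr ()))
    (by simp) (v j) (join (single o₁ (v j)) (join (fun _ => []) (fun _ => []))) (by simp)
  simp only [update_join_inl, update_join_inr, join_inl, join_inr, update_single, single_nil,
    update_const_nil, List.append_nil] at e2
  have e3 := exec_moveRev (K := K₁ ⊕ (K₂ ⊕ Unit)) (a := Sum.inr (Sum.inr ()))
    (b := Sum.inr (Sum.inl i₂))
    (by simp) (v j).reverse (join (fun _ => []) (join (fun _ => [])
      (single () (v j).reverse))) (by simp)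
  simp only [update_join_inl, update_join_inr, join_inl, join_inr, update_single, single_nil,
    update_const_nil, List.append_nil, List.reverse_reverse] at e3
  have e4 := ((h₂ j).map_inl (K' := Unit) (fun _ => [])).map_inr (K' := K₁) (fun _ => [])
  refine ((Exec.seq e1 (Exec.seq e2 (Exec.seq e3 e4))).mono ?_).congrL ?_
  · have h4 := hq j
    have h5 := hr j
    simp only [Polynomial.eval_add, Polynomial.eval_one, Polynomial.eval_comp,
        List.length_reverse, Polynomial.eval_mul, Polynomial.eval_ofNat]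
    omega
  · funext k; rcases k with k | k | k <;> rfl

/-- Unpacked left subtree. -/
def leftProg : Cmd Aux :=
  Cmd.pop Aux.a Cmd.skip (Cmd.push Aux.d false)
    (Cmd.seq (parse Aux.a Aux.b Aux.c) (Cmd.seq (clear Aux.a) (moveRev Aux.b Aux.d)))

theorem exec_leftProg (t : T) :
    Exec leftProg (single Aux.a t.ser) (single Aux.d t.left.ser) (9 * t.ser.length + 10) := by
  cases t with
  | nil =>
    refine (Exec.popF (t := 1) [] (by simp [T.ser]) ?_).mono (by simp [T.ser])
    simpa [T.left, T.ser, update_const_nil] using Exec.push Aux.d false (fun _ => [])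
  | cons x y =>
    refine (Exec.popT (t := (6 * x.ser.length + 2) + ((3 * y.ser.length + 1) +
      (3 * x.ser.length + 1))) (x.ser ++ y.ser) (by simp [T.ser]) ?_).mono
      (by simp only [T.ser, List.length_cons, List.length_append]; omega)
    rw [update_single]
    have e1 := exec_parse (a := Aux.a) (b := Aux.b) (c := Aux.c) (by simp) (by simp) (by simp) x
      (single Aux.a (x.ser ++ y.ser)) y.ser (by simp) (by simp [single_of_ne])
    have e2 := exec_clear (a := Aux.a) y.ser (update (update (single Aux.a (x.ser ++ y.ser))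
      Aux.a y.ser) Aux.b (x.ser.reverse ++ single Aux.a (x.ser ++ y.ser) Aux.b)) (by simp)
    have e3 := exec_moveRev (a := Aux.b) (b := Aux.d) (by simp) x.ser.reverse
      (update (update (update (single Aux.a (x.ser ++ y.ser))
      Aux.a y.ser) Aux.b (x.ser.reverse ++ single Aux.a (x.ser ++ y.ser) Aux.b)) Aux.a [])
      (by simp [single_of_ne])
    rw [List.length_reverse] at e3
    refine (Exec.seq e1 (Exec.seq e2 e3)).congr ?_
    funext k
    cases k <;> simp [single, T.left]

/-- Unpacked right subtree. -/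
def rightProg : Cmd Aux :=
  Cmd.pop Aux.a Cmd.skip (Cmd.push Aux.d false)
    (Cmd.seq (parse Aux.a Aux.b Aux.c) (Cmd.seq (clear Aux.b)
      (Cmd.seq (moveRev Aux.a Aux.b) (moveRev Aux.b Aux.d))))

theorem exec_rightProg (t : T) :
    Exec rightProg (single Aux.a t.ser) (single Aux.d t.right.ser) (12 * t.ser.length + 10) := by
  cases t with
  | nil =>
    refine (Exec.popF (t := 1) [] (by simp [T.ser]) ?_).mono (by simp [T.ser])
    simpa [T.right, T.ser, update_const_nil] using Exec.push Aux.d false (fun _ => [])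
  | cons x y =>
    refine (Exec.popT (t := (6 * x.ser.length + 2) + ((3 * x.ser.length + 1) +
      ((3 * y.ser.length + 1) + (3 * y.ser.length + 1)))) (x.ser ++ y.ser)
      (by simp [T.ser]) ?_).mono
      (by simp only [T.ser, List.length_cons, List.length_append]; omega)
    rw [update_single]
    have e1 := exec_parse (a := Aux.a) (b := Aux.b) (c := Aux.c) (by simp) (by simp) (by simp) x
      (single Aux.a (x.ser ++ y.ser)) y.ser (by simp) (by simp [single_of_ne])
    have e2 := exec_clear (a := Aux.b) x.ser.reverse (update (update (single Aux.a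
      (x.ser ++ y.ser)) Aux.a y.ser) Aux.b (x.ser.reverse ++
      single Aux.a (x.ser ++ y.ser) Aux.b)) (by simp [single_of_ne])
    rw [List.length_reverse] at e2
    have e3 := exec_moveRev (a := Aux.a) (b := Aux.b) (by simp) y.ser
      (update (update (update (single Aux.a (x.ser ++ y.ser))
      Aux.a y.ser) Aux.b (x.ser.reverse ++ single Aux.a (x.ser ++ y.ser) Aux.b)) Aux.b [])
      (by simp [single_of_ne])
    have e4 := exec_moveRev (a := Aux.b) (b := Aux.d) (by simp) y.ser.reverse _
      (show (update (update (update (update (update (single Aux.a (x.ser ++ y.ser))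
      Aux.a y.ser) Aux.b (x.ser.reverse ++ single Aux.a (x.ser ++ y.ser) Aux.b)) Aux.b [])
        Aux.a []) Aux.b (y.ser.reverse ++ (update (update (update (single Aux.a (x.ser ++ y.ser))
      Aux.a y.ser) Aux.b (x.ser.reverse ++ single Aux.a (x.ser ++ y.ser) Aux.b)) Aux.b [])
        Aux.b)) Aux.b = y.ser.reverse by simp [single_of_ne])
    rw [List.length_reverse] at e4
    refine (Exec.seq e1 (Exec.seq e2 (Exec.seq e3 e4))).congr ?_
    funext k
    cases k <;> simp [single, T.right]

theorem PS.left {ι : Type} {u : ι → List Bool} {t : ι → T} (h : PS u (fun j => (t j).ser)) :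
    PS u (fun j => (t j).left.ser) := by
  obtain ⟨q, hq⟩ := h.length_le
  refine h.trans' leftProg Aux.a Aux.d (fun j => 9 * (t j).ser.length + 10)
    (fun j => exec_leftProg (t j)) (9 * q + 10) (fun j => ?_)
  have := hq j
  simp only [Polynomial.eval_add, Polynomial.eval_mul, Polynomial.eval_ofNat]
  omega

theorem PS.right {ι : Type} {u : ι → List Bool} {t : ι → T} (h : PS u (fun j => (t j).ser)) :
    PS u (fun j => (t j).right.ser) := by
  obtain ⟨q, hq⟩ := h.length_le
  refine h.trans' rightProg Aux.a Aux.d (fun j => 12 * (t j).ser.length + 10)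
    (fun j => exec_rightProg (t j)) (12 * q + 10) (fun j => ?_)
  have := hq j
  simp only [Polynomial.eval_add, Polynomial.eval_mul, Polynomial.eval_ofNat]
  omega

theorem PS.branch {ι : Type} {u v : ι → List Bool} {c : ι → T} (hc : PS u (fun j => (c j).ser))
    (hf : PS (fun j : {j // c j = T.nil} => u j.1) (fun j => v j.1))
    (hg : PS (fun j : {j // c j ≠ T.nil} => u j.1) (fun j => v j.1)) : PS u v := by
  obtain ⟨qc, hqc⟩ := hc.length_le
  obtain ⟨qf, hqf⟩ := hf.length_le
  obtain ⟨qg, hqg⟩ := hg.length_le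
  obtain ⟨Kc, _, _, cc, ic, oc, pc, hc⟩ := hc
  obtain ⟨Kf, _, _, cf, iF, oF, pf, hf⟩ := hf
  obtain ⟨Kg, _, _, cg, iG, oG, pg, hg⟩ := hg
  refine ⟨Kc ⊕ (Kf ⊕ (Kg ⊕ Aux)), inferInstance, inferInstance,
    Cmd.seq (moveRev (Sum.inr (Sum.inr (Sum.inr Aux.a))) (Sum.inr (Sum.inr (Sum.inr Aux.b))))
    (Cmd.seq (dupRev (Sum.inr (Sum.inr (Sum.inr Aux.b))) (Sum.inl ic)
      (Sum.inr (Sum.inr (Sum.inr Aux.c))))
    (Cmd.seq (cc.map Sum.inl)
    (Cmd.pop (Sum.inl oc) Cmd.skip
      (Cmd.seq (moveRev (Sum.inr (Sum.inr (Sum.inr Aux.c))) (Sum.inr (Sum.inr (Sum.inr Aux.b))))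
      (Cmd.seq (moveRev (Sum.inr (Sum.inr (Sum.inr Aux.b))) (Sum.inr (Sum.inl iF)))
      (Cmd.seq ((cf.map Sum.inl).map Sum.inr)
      (Cmd.seq (moveRev (Sum.inr (Sum.inl oF)) (Sum.inr (Sum.inr (Sum.inr Aux.b))))
        (moveRev (Sum.inr (Sum.inr (Sum.inr Aux.b))) (Sum.inr (Sum.inr (Sum.inr Aux.d))))))))
      (Cmd.seq (clear (Sum.inl oc))
      (Cmd.seq (moveRev (Sum.inr (Sum.inr (Sum.inr Aux.c))) (Sum.inr (Sum.inr (Sum.inr Aux.b))))
      (Cmd.seq (moveRev (Sum.inr (Sum.inr (Sum.inr Aux.b))) (Sum.inr (Sum.inr (Sum.inl iG))))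
      (Cmd.seq (((cg.map Sum.inl).map Sum.inr).map Sum.inr)
      (Cmd.seq (moveRev (Sum.inr (Sum.inr (Sum.inl oG))) (Sum.inr (Sum.inr (Sum.inr Aux.b))))
        (moveRev (Sum.inr (Sum.inr (Sum.inr Aux.b)))
          (Sum.inr (Sum.inr (Sum.inr Aux.d)))))))))))),
    Sum.inr (Sum.inr (Sum.inr Aux.a)), Sum.inr (Sum.inr (Sum.inr Aux.d)),
    (20 * Polynomial.X + 20 + pc + 3 * qc + pf + pg + 6 * qf + 6 * qg), fun j => ?_⟩
  rw [single_inr, single_inr, single_inr, single_inr, single_inr, single_inr]
  have e1 := exec_moveRev (K := Kc ⊕ (Kf ⊕ (Kg ⊕ Aux))) (a := Sum.inr (Sum.inr (Sum.inr Aux.a)))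
    (b := Sum.inr (Sum.inr (Sum.inr Aux.b))) (by simp) (u j)
    (join (fun _ => []) (join (fun _ => []) (join (fun _ => []) (single Aux.a (u j)))))
    (by simp)
  simp only [update_join_inl, update_join_inr, join_inl, join_inr, update_single, single_nil,
    update_const_nil, List.append_nil, List.reverse_reverse, update_idem, single_of_ne,
    update_single_ne_nil, ne_eq, reduceCtorEq, not_false_eq_true] at e1
  have e2 := exec_dupRev (K := Kc ⊕ (Kf ⊕ (Kg ⊕ Aux))) (a := Sum.inr (Sum.inr (Sum.inr Aux.b)))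
    (b := Sum.inl ic) (c := Sum.inr (Sum.inr (Sum.inr Aux.c))) (by simp) (by simp) (by simp)
    (u j).reverse
    (join (fun _ => []) (join (fun _ => []) (join (fun _ => []) (single Aux.b (u j).reverse))))
    (by simp)
  simp only [update_join_inl, update_join_inr, join_inl, join_inr, update_single, single_nil,
    update_const_nil, List.append_nil, List.reverse_reverse, update_idem, single_of_ne,
    update_single_ne_nil, ne_eq, reduceCtorEq, not_false_eq_true] at e2
  have e3 := (hc j).map_inl (K' := Kf ⊕ (Kg ⊕ Aux))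
    (join (fun _ => []) (join (fun _ => []) (single Aux.c (u j))))
  have l1 := hqc j
  by_cases hcj : c j = T.nil
  · have l2 := hqf ⟨j, hcj⟩
    have e4 := exec_moveRev (K := Kc ⊕ (Kf ⊕ (Kg ⊕ Aux)))
      (a := Sum.inr (Sum.inr (Sum.inr Aux.c)))
      (b := Sum.inr (Sum.inr (Sum.inr Aux.b))) (by simp) (u j)
      (join (fun _ => []) (join (fun _ => []) (join (fun _ => []) (single Aux.c (u j)))))
      (by simp)
    simp only [update_join_inl, update_join_inr, join_inl, join_inr, update_single, single_nil,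
      update_const_nil, List.append_nil, List.reverse_reverse, update_idem, single_of_ne,
      update_single_ne_nil, ne_eq, reduceCtorEq, not_false_eq_true] at e4
    have e5 := exec_moveRev (K := Kc ⊕ (Kf ⊕ (Kg ⊕ Aux)))
      (a := Sum.inr (Sum.inr (Sum.inr Aux.b)))
      (b := Sum.inr (Sum.inl iF)) (by simp) (u j).reverse
      (join (fun _ => []) (join (fun _ => []) (join (fun _ => [])
        (single Aux.b (u j).reverse)))) (by simp)
    simp only [update_join_inl, update_join_inr, join_inl, join_inr, update_single, single_nil,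
      update_const_nil, List.append_nil, List.reverse_reverse, update_idem, single_of_ne,
      update_single_ne_nil, ne_eq, reduceCtorEq, not_false_eq_true] at e5
    have e6 := ((hf ⟨j, hcj⟩).map_inl (K' := Kg ⊕ Aux)
      (join (fun _ => []) (fun _ => []))).map_inr (K' := Kc) (fun _ => [])
    have e7 := exec_moveRev (K := Kc ⊕ (Kf ⊕ (Kg ⊕ Aux)))
      (a := Sum.inr (Sum.inl oF))
      (b := Sum.inr (Sum.inr (Sum.inr Aux.b))) (by simp) (v j)
      (join (fun _ => []) (join (single oF (v j)) (join (fun _ => [])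
        (fun _ => [])))) (by simp)
    simp only [update_join_inl, update_join_inr, join_inl, join_inr, update_single, single_nil,
      update_const_nil, List.append_nil, List.reverse_reverse, update_idem, single_of_ne,
      update_single_ne_nil, ne_eq, reduceCtorEq, not_false_eq_true] at e7
    have e8 := exec_moveRev (K := Kc ⊕ (Kf ⊕ (Kg ⊕ Aux)))
      (a := Sum.inr (Sum.inr (Sum.inr Aux.b)))
      (b := Sum.inr (Sum.inr (Sum.inr Aux.d))) (by simp) (v j).reverse
      (join (fun _ => []) (join (fun _ => []) (join (fun _ => [])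
        (single Aux.b (v j).reverse)))) (by simp)
    simp only [update_join_inl, update_join_inr, join_inl, join_inr, update_single, single_nil,
      update_const_nil, List.append_nil, List.reverse_reverse, update_idem, single_of_ne,
      update_single_ne_nil, ne_eq, reduceCtorEq, not_false_eq_true] at e8
    have hF := Exec.popF (k := (Sum.inl oc : Kc ⊕ (Kf ⊕ (Kg ⊕ Aux)))) (cn := Cmd.skip)
      (ct := (Cmd.seq (clear (Sum.inl oc))
      (Cmd.seq (moveRev (Sum.inr (Sum.inr (Sum.inr Aux.c))) (Sum.inr (Sum.inr (Sum.inr Aux.b))))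
      (Cmd.seq (moveRev (Sum.inr (Sum.inr (Sum.inr Aux.b))) (Sum.inr (Sum.inr (Sum.inl iG))))
      (Cmd.seq (((cg.map Sum.inl).map Sum.inr).map Sum.inr)
      (Cmd.seq (moveRev (Sum.inr (Sum.inr (Sum.inl oG))) (Sum.inr (Sum.inr (Sum.inr Aux.b))))
        (moveRev (Sum.inr (Sum.inr (Sum.inr Aux.b)))
          (Sum.inr (Sum.inr (Sum.inr Aux.d)))))))))) (s :=
      join (single oc (c j).ser)
        (join (fun _ => []) (join (fun _ => []) (single Aux.c (u j)))))
      [] (by simp [hcj, T.ser])
      ((Exec.seq e4 (Exec.seq e5 (Exec.seq e6 (Exec.seq e7 e8)))).congrL (by simp))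
    refine ((Exec.seq e1 (Exec.seq e2 (Exec.seq (e3.congrL rfl) hF))).mono ?_).congrL ?_
    · simp only [List.length_reverse, Polynomial.eval_add, Polynomial.eval_mul,
        Polynomial.eval_ofNat, Polynomial.eval_X]
      simp only at l1 l2
      omega
    · rfl
  · have l2 := hqg ⟨j, hcj⟩
    obtain ⟨x, y, hxy⟩ : ∃ x y, c j = T.cons x y := by
      cases h : c j with
      | nil => exact absurd h hcj
      | cons x y => exact ⟨x, y, rfl⟩
    have e3' := exec_clear (K := Kc ⊕ (Kf ⊕ (Kg ⊕ Aux))) (a := Sum.inl oc) (x.ser ++ y.ser)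
      (join (single oc (x.ser ++ y.ser)) (join (fun _ => []) (join (fun _ => [])
        (single Aux.c (u j))))) (by simp)
    simp only [update_join_inl, update_join_inr, join_inl, join_inr, update_single, single_nil,
      update_const_nil, List.append_nil, List.reverse_reverse, update_idem, single_of_ne,
      update_single_ne_nil, ne_eq, reduceCtorEq, not_false_eq_true] at e3'
    have e4 := exec_moveRev (K := Kc ⊕ (Kf ⊕ (Kg ⊕ Aux)))
      (a := Sum.inr (Sum.inr (Sum.inr Aux.c)))
      (b := Sum.inr (Sum.inr (Sum.inr Aux.b))) (by simp) (u j)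
      (join (fun _ => []) (join (fun _ => []) (join (fun _ => []) (single Aux.c (u j)))))
      (by simp)
    simp only [update_join_inl, update_join_inr, join_inl, join_inr, update_single, single_nil,
      update_const_nil, List.append_nil, List.reverse_reverse, update_idem, single_of_ne,
      update_single_ne_nil, ne_eq, reduceCtorEq, not_false_eq_true] at e4
    have e5 := exec_moveRev (K := Kc ⊕ (Kf ⊕ (Kg ⊕ Aux)))
      (a := Sum.inr (Sum.inr (Sum.inr Aux.b)))
      (b := Sum.inr (Sum.inr (Sum.inl iG))) (by simp) (u j).reverse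
      (join (fun _ => []) (join (fun _ => []) (join (fun _ => [])
        (single Aux.b (u j).reverse)))) (by simp)
    simp only [update_join_inl, update_join_inr, join_inl, join_inr, update_single, single_nil,
      update_const_nil, List.append_nil, List.reverse_reverse, update_idem, single_of_ne,
      update_single_ne_nil, ne_eq, reduceCtorEq, not_false_eq_true] at e5
    have e6 := (((hg ⟨j, hcj⟩).map_inl (K' := Aux) (fun _ => [])).map_inr (K' := Kf)
      (fun _ => [])).map_inr (K' := Kc) (fun _ => [])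
    have e7 := exec_moveRev (K := Kc ⊕ (Kf ⊕ (Kg ⊕ Aux)))
      (a := Sum.inr (Sum.inr (Sum.inl oG)))
      (b := Sum.inr (Sum.inr (Sum.inr Aux.b))) (by simp) (v j)
      (join (fun _ => []) (join (fun _ => []) (join (single oG (v j))
        (fun _ => [])))) (by simp)
    simp only [update_join_inl, update_join_inr, join_inl, join_inr, update_single, single_nil,
      update_const_nil, List.append_nil, List.reverse_reverse, update_idem, single_of_ne,
      update_single_ne_nil, ne_eq, reduceCtorEq, not_false_eq_true] at e7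
    have e8 := exec_moveRev (K := Kc ⊕ (Kf ⊕ (Kg ⊕ Aux)))
      (a := Sum.inr (Sum.inr (Sum.inr Aux.b)))
      (b := Sum.inr (Sum.inr (Sum.inr Aux.d))) (by simp) (v j).reverse
      (join (fun _ => []) (join (fun _ => []) (join (fun _ => [])
        (single Aux.b (v j).reverse)))) (by simp)
    simp only [update_join_inl, update_join_inr, join_inl, join_inr, update_single, single_nil,
      update_const_nil, List.append_nil, List.reverse_reverse, update_idem, single_of_ne,
      update_single_ne_nil, ne_eq, reduceCtorEq, not_false_eq_true] at e8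
    have hG := Exec.popT (k := (Sum.inl oc : Kc ⊕ (Kf ⊕ (Kg ⊕ Aux)))) (cn := Cmd.skip)
      (cf := (Cmd.seq (moveRev (Sum.inr (Sum.inr (Sum.inr Aux.c)))
        (Sum.inr (Sum.inr (Sum.inr Aux.b))))
      (Cmd.seq (moveRev (Sum.inr (Sum.inr (Sum.inr Aux.b))) (Sum.inr (Sum.inl iF)))
      (Cmd.seq ((cf.map Sum.inl).map Sum.inr)
      (Cmd.seq (moveRev (Sum.inr (Sum.inl oF)) (Sum.inr (Sum.inr (Sum.inr Aux.b))))
        (moveRev (Sum.inr (Sum.inr (Sum.inr Aux.b))) (Sum.inr (Sum.inr (Sum.inr Aux.d)))))))))
      (s := join (single oc (c j).ser)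
        (join (fun _ => []) (join (fun _ => []) (single Aux.c (u j)))))
      (x.ser ++ y.ser) (by simp [hxy, T.ser])
      ((Exec.seq e3' (Exec.seq e4 (Exec.seq e5 (Exec.seq e6 (Exec.seq e7 e8))))).congrL
        (by simp))
    refine ((Exec.seq e1 (Exec.seq e2 (Exec.seq (e3.congrL rfl) hG))).mono ?_).congrL ?_
    · have l3 : (x.ser ++ y.ser).length + 1 ≤ (c j).ser.length := by
        rw [hxy]; simp [T.ser]
      simp only [List.length_reverse, Polynomial.eval_add, Polynomial.eval_mul,
        Polynomial.eval_ofNat, Polynomial.eval_X]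
      simp only at l1 l2
      omega
    · rfl

end Pool.Agent.Work.PolyTime
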