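import Mathlib

/-!
Structured programs on finitely many stacks of bits, with a big-step cost semantics,
and their compilation to Mathlib's `Turing.FinTM2` machines.
-/

set_option autoImplicit false
set_option linter.unusedSimpArgs false

namespace Pool.Agent.Work.PolyTime

open Function

/-- Structured programs acting on stacks of bits indexed by `K`. -/
inductive Cmd (K : Type) : Type
  | skip : Cmd K
  | push (k : K) (b : Bool) : Cmd K
  | seq (c₁ c₂ : Cmd K) : Cmd K
  | pop (k : K) (cn cf ct : Cmd K) : Cmd K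
  | loop (k : K) (c : Cmd K) : Cmd K

namespace Cmd

variable {K : Type}

/-- Renaming of stacks. -/
def map {K' : Type} (f : K → K') : Cmd K → Cmd K'
  | skip => skip
  | push k b => push (f k) b
  | seq c₁ c₂ => seq (map f c₁) (map f c₂)
  | pop k cn cf ct => pop (f k) (map f cn) (map f cf) (map f ct)
  | loop k c => loop (f k) (map f c)

/-- The program points of a program. -/
def Node : Cmd K → Type
  | skip => Unit
  | push _ _ => Unit
  | seq c₁ c₂ => Node c₁ ⊕ Node c₂
  | pop _ cn cf ct => Unit ⊕ (Node cn ⊕ (Node cf ⊕ Node ct))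
  | loop _ c => Unit ⊕ Node c

/-- The program points form a finite type. -/
@[instance_reducible]
def nodeFintype : (c : Cmd K) → Fintype (Node c)
  | skip => inferInstanceAs (Fintype Unit)
  | push _ _ => inferInstanceAs (Fintype Unit)
  | seq c₁ c₂ => @instFintypeSum _ _ (nodeFintype c₁) (nodeFintype c₂)
  | pop _ cn cf ct =>
      @instFintypeSum _ _ (inferInstanceAs (Fintype Unit))
        (@instFintypeSum _ _ (nodeFintype cn)
          (@instFintypeSum _ _ (nodeFintype cf) (nodeFintype ct)))
  | loop _ c => @instFintypeSum _ _ (inferInstanceAs (Fintype Unit)) (nodeFintype c)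

instance (c : Cmd K) : Fintype (Node c) := nodeFintype c

/-- Entry point. -/
def entry : (c : Cmd K) → Node c
  | skip => ()
  | push _ _ => ()
  | seq c₁ _ => Sum.inl (entry c₁)
  | pop _ _ _ _ => Sum.inl ()
  | loop _ _ => Sum.inl ()

open Turing.TM2.Stmt in
/-- Code of a program with program points embedded in a label type. -/
def code {Λ : Type} : (c : Cmd K) → (Node c → Λ) → Λ → Node c →
    Turing.TM2.Stmt (fun _ : K => Bool) Λ (Option Bool)
  | skip, _, exit, _ => goto (fun _ => exit)
  | push k b, _, exit, _ => Turing.TM2.Stmt.push k (fun _ => b) (goto (fun _ => exit))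
  | seq c₁ c₂, emb, _, Sum.inl n =>
      code c₁ (fun m => emb (Sum.inl m)) (emb (Sum.inr (entry c₂))) n
  | seq _ c₂, emb, exit, Sum.inr n => code c₂ (fun m => emb (Sum.inr m)) exit n
  | pop k cn cf ct, emb, _, Sum.inl _ =>
      Turing.TM2.Stmt.pop k (fun _ o => o) (goto (fun v => match v with
        | none => emb (Sum.inr (Sum.inl (entry cn)))
        | some false => emb (Sum.inr (Sum.inr (Sum.inl (entry cf))))
        | some true => emb (Sum.inr (Sum.inr (Sum.inr (entry ct))))))
  | pop _ cn _ _, emb, exit, Sum.inr (Sum.inl n) =>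
      code cn (fun m => emb (Sum.inr (Sum.inl m))) exit n
  | pop _ _ cf _, emb, exit, Sum.inr (Sum.inr (Sum.inl n)) =>
      code cf (fun m => emb (Sum.inr (Sum.inr (Sum.inl m)))) exit n
  | pop _ _ _ ct, emb, exit, Sum.inr (Sum.inr (Sum.inr n)) =>
      code ct (fun m => emb (Sum.inr (Sum.inr (Sum.inr m)))) exit n
  | loop k c, emb, exit, Sum.inl _ =>
      peek k (fun _ o => o) (goto (fun v => match v with
        | none => exit
        | some _ => emb (Sum.inr (entry c))))
  | loop _ c, emb, _, Sum.inr n => code c (fun m => emb (Sum.inr m)) (emb (Sum.inl ())) n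

end Cmd

/-- `Exec c s s' t`: started in store `s`, the program `c` ends in store `s'` within time `t`. -/
inductive Exec {K : Type} [DecidableEq K] :
    Cmd K → (K → List Bool) → (K → List Bool) → ℕ → Prop
  | skip (s) : Exec Cmd.skip s s 1
  | push (k b s) : Exec (Cmd.push k b) s (update s k (b :: s k)) 1
  | seq {c₁ c₂ s s' s'' t₁ t₂} : Exec c₁ s s' t₁ → Exec c₂ s' s'' t₂ →
      Exec (Cmd.seq c₁ c₂) s s'' (t₁ + t₂)
  | popN {k cn cf ct s s' t} : s k = [] → Exec cn (update s k []) s' t →
      Exec (Cmd.pop k cn cf ct) s s' (t + 1)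
  | popF {k cn cf ct s s' t} (l) : s k = false :: l → Exec cf (update s k l) s' t →
      Exec (Cmd.pop k cn cf ct) s s' (t + 1)
  | popT {k cn cf ct s s' t} (l) : s k = true :: l → Exec ct (update s k l) s' t →
      Exec (Cmd.pop k cn cf ct) s s' (t + 1)
  | loopDone {k c s} : s k = [] → Exec (Cmd.loop k c) s s 1
  | loopStep {k c s s' s'' t₁ t₂} : s k ≠ [] → Exec c s s' t₁ → Exec (Cmd.loop k c) s' s'' t₂ →
      Exec (Cmd.loop k c) s s'' (t₁ + t₂ + 1)
  | mono {c s s' t t'} : Exec c s s' t → t ≤ t' → Exec c s s' t'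

section Compile

variable {K : Type} [DecidableEq K] {Λ : Type}

/-- `n`-step reachability of TM2 configurations. -/
def Reach (M : Λ → Turing.TM2.Stmt (fun _ : K => Bool) Λ (Option Bool)) (n : ℕ)
    (a b : Turing.TM2.Cfg (fun _ : K => Bool) Λ (Option Bool)) : Prop :=
  (flip bind (Turing.TM2.step M))^[n] (some a) = some b

theorem Reach.trans {M : Λ → Turing.TM2.Stmt (fun _ : K => Bool) Λ (Option Bool)} {m n : ℕ}
    {a b c : Turing.TM2.Cfg (fun _ : K => Bool) Λ (Option Bool)}
    (h₁ : Reach M m a b) (h₂ : Reach M n b c) : Reach M (m + n) a c := by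
  unfold Reach at *
  rw [Nat.add_comm, Function.iterate_add_apply, h₁, h₂]

theorem Reach.one {M : Λ → Turing.TM2.Stmt (fun _ : K => Bool) Λ (Option Bool)}
    {a b : Turing.TM2.Cfg (fun _ : K => Bool) Λ (Option Bool)}
    (h : Turing.TM2.step M a = some b) : Reach M 1 a b := by
  unfold Reach
  simp [flip, h]

theorem exec_reach {c : Cmd K} {s s' : K → List Bool} {t : ℕ} (h : Exec c s s' t) :
    ∀ (M : Λ → Turing.TM2.Stmt (fun _ : K => Bool) Λ (Option Bool))
      (emb : c.Node → Λ) (exit : Λ), (∀ n, M (emb n) = c.code emb exit n) →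
      ∀ v : Option Bool, ∃ v' : Option Bool, ∃ n ≤ t,
        Reach M n ⟨some (emb c.entry), v, s⟩ ⟨some exit, v', s'⟩ := by
  induction h with
  | skip s =>
    intro M emb exit hM v
    refine ⟨v, 1, le_refl _, Reach.one ?_⟩
    have := hM (Cmd.entry Cmd.skip)
    rw [Turing.TM2.step, this]
    simp [Cmd.code]
  | push k b s =>
    intro M emb exit hM v
    refine ⟨v, 1, le_refl _, Reach.one ?_⟩
    have := hM (Cmd.entry (Cmd.push k b))
    rw [Turing.TM2.step, this]
    simp [Cmd.code]
  | @seq c₁ c₂ s s' s'' t₁ t₂ h₁ h₂ ih₁ ih₂ =>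
    intro M emb exit hM v
    obtain ⟨v1, n1, hn1, hr1⟩ := ih₁ M (fun m => emb (Sum.inl m)) (emb (Sum.inr c₂.entry))
      (fun n => hM (Sum.inl n)) v
    obtain ⟨v2, n2, hn2, hr2⟩ := ih₂ M (fun m => emb (Sum.inr m)) exit
      (fun n => hM (Sum.inr n)) v1
    exact ⟨v2, n1 + n2, by omega, hr1.trans hr2⟩
  | @popN k cn cf ct s s' t hk h ih =>
    intro M emb exit hM v
    obtain ⟨v2, n2, hn2, hr2⟩ := ih M (fun m => emb (Sum.inr (Sum.inl m))) exit
      (fun n => hM (Sum.inr (Sum.inl n))) none
    refine ⟨v2, 1 + n2, by omega, Reach.trans (Reach.one ?_) hr2⟩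
    have := hM (Cmd.entry (Cmd.pop k cn cf ct))
    rw [Turing.TM2.step, this]
    simp [Cmd.code, Cmd.entry, hk]
  | @popF k cn cf ct s s' t l hk h ih =>
    intro M emb exit hM v
    obtain ⟨v2, n2, hn2, hr2⟩ := ih M (fun m => emb (Sum.inr (Sum.inr (Sum.inl m)))) exit
      (fun n => hM (Sum.inr (Sum.inr (Sum.inl n)))) (some false)
    refine ⟨v2, 1 + n2, by omega, Reach.trans (Reach.one ?_) hr2⟩
    have := hM (Cmd.entry (Cmd.pop k cn cf ct))
    rw [Turing.TM2.step, this]
    simp [Cmd.code, Cmd.entry, hk]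
  | @popT k cn cf ct s s' t l hk h ih =>
    intro M emb exit hM v
    obtain ⟨v2, n2, hn2, hr2⟩ := ih M (fun m => emb (Sum.inr (Sum.inr (Sum.inr m)))) exit
      (fun n => hM (Sum.inr (Sum.inr (Sum.inr n)))) (some true)
    refine ⟨v2, 1 + n2, by omega, Reach.trans (Reach.one ?_) hr2⟩
    have := hM (Cmd.entry (Cmd.pop k cn cf ct))
    rw [Turing.TM2.step, this]
    simp [Cmd.code, Cmd.entry, hk]
  | @loopDone k c s hk =>
    intro M emb exit hM v
    refine ⟨none, 1, le_refl _, Reach.one ?_⟩
    have := hM (Cmd.entry (Cmd.loop k c))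
    rw [Turing.TM2.step, this]
    simp [Cmd.code, Cmd.entry, hk]
  | @loopStep k c s s' s'' t₁ t₂ hk h₁ h₂ ih₁ ih₂ =>
    intro M emb exit hM v
    obtain ⟨b, l, hbl⟩ : ∃ b l, s k = b :: l := by
      cases hs : s k with
      | nil => exact absurd hs hk
      | cons b l => exact ⟨b, l, rfl⟩
    obtain ⟨v1, n1, hn1, hr1⟩ := ih₁ M (fun m => emb (Sum.inr m)) (emb (Sum.inl ()))
      (fun n => hM (Sum.inr n)) (some b)
    obtain ⟨v2, n2, hn2, hr2⟩ := ih₂ M emb exit hM v1
    refine ⟨v2, 1 + (n1 + n2), by omega, Reach.trans (Reach.one ?_) (hr1.trans hr2)⟩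
    have := hM (Cmd.entry (Cmd.loop k c))
    rw [Turing.TM2.step, this]
    simp [Cmd.code, Cmd.entry, hbl]
  | mono h hle ih =>
    intro M emb exit hM v
    obtain ⟨v2, n2, hn2, hr2⟩ := ih M emb exit hM v
    exact ⟨v2, n2, hn2.trans hle, hr2⟩

end Compile

/-- The transition table of the machine of a program. -/
def Cmd.table {K : Type} (c : Cmd K) : Option c.Node →
    Turing.TM2.Stmt (fun _ : K => Bool) (Option c.Node) (Option Bool)
  | none => Turing.TM2.Stmt.load (fun _ => none) Turing.TM2.Stmt.halt
  | some n => c.code some none n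

/-- The machine of a program. -/
def Cmd.toTM {K : Type} [DecidableEq K] [Fintype K] (c : Cmd K) (i o : K) : Turing.FinTM2 where
  K := K
  k₀ := i
  k₁ := o
  Γ := fun _ => Bool
  Λ := Option c.Node
  main := some c.entry
  σ := Option Bool
  initialState := none
  m := c.table

/-- The store with a single nonempty stack. -/
def single {K : Type} [DecidableEq K] (i : K) (x : List Bool) : K → List Bool :=
  update (fun _ => []) i x

theorem initList_toTM {K : Type} [DecidableEq K] [Fintype K] (c : Cmd K) (i o : K)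
    (x : List Bool) :
    Turing.initList (c.toTM i o) x = ⟨some (some c.entry), none, single i x⟩ := by
  have key : ∀ k : K, (@dite (List Bool) (k = i) (inferInstanceAs (Decidable (k = i)))
      (fun _ => x) fun _ => []) = single i x k := by
    intro k
    by_cases hk : k = i
    · subst hk; simp [single]
    · simp [single, hk]
  have : (Turing.initList (c.toTM i o) x).stk = single i x := by
    funext k
    exact key k
  exact congrArg (fun st : K → List Bool => (⟨some (some c.entry), none, st⟩ :
    Turing.TM2.Cfg (fun _ : K => Bool) (Option c.Node) (Option Bool))) this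

theorem haltList_toTM {K : Type} [DecidableEq K] [Fintype K] (c : Cmd K) (i o : K)
    (x : List Bool) :
    Turing.haltList (c.toTM i o) x = ⟨none, none, single o x⟩ := by
  have key : ∀ k : K, (@dite (List Bool) (k = o) (inferInstanceAs (Decidable (k = o)))
      (fun _ => x) fun _ => []) = single o x k := by
    intro k
    by_cases hk : k = o
    · subst hk; simp [single]
    · simp [single, hk]
  have : (Turing.haltList (c.toTM i o) x).stk = single o x := by
    funext k
    exact key k
  exact congrArg (fun st : K → List Bool => (⟨none, none, st⟩ :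
    Turing.TM2.Cfg (fun _ : K => Bool) (Option c.Node) (Option Bool))) this

theorem exec_outputs {K : Type} [DecidableEq K] [Fintype K] {c : Cmd K} {i o : K}
    {x y : List Bool} {t : ℕ} (h : Exec c (single i x) (single o y) t) :
    Nonempty (Turing.TM2OutputsInTime (c.toTM i o) x (some y) (t + 1)) := by
  obtain ⟨v', n, hn, hr⟩ := exec_reach (Λ := Option c.Node) h c.table some none
    (fun n => rfl) none
  have h2 : Reach c.table 1 ⟨some none, v', single o y⟩ ⟨none, none, single o y⟩ := by
    apply Reach.one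
    simp [Turing.TM2.step, Cmd.table]
  have h3 := hr.trans h2
  unfold Reach at h3
  have e0 : (some (Turing.initList (c.toTM i o) x) :
      Option (Turing.TM2.Cfg (fun _ : K => Bool) (Option c.Node) (Option Bool))) =
      some ⟨some (some c.entry), none, single i x⟩ := congrArg some (initList_toTM c i o x)
  have e1 : (some (Turing.haltList (c.toTM i o) y) :
      Option (Turing.TM2.Cfg (fun _ : K => Bool) (Option c.Node) (Option Bool))) =
      some ⟨none, none, single o y⟩ := congrArg some (haltList_toTM c i o y)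
  exact ⟨⟨⟨n + 1, (congrArg ((flip bind (Turing.TM2.step c.table))^[n + 1]) e0).trans
    (h3.trans e1.symm)⟩, Nat.succ_le_succ hn⟩⟩

end Pool.Agent.Work.PolyTime
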