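import Pool.Agent.Work.PolyTime.More
import Pool.Agent.Work.PolyTime.NPDefs
import Pool.Agent.Work.MP_0532f7_lc.CookLevin

/-!
From falsifiability of formulas to satisfiability of clause systems.
-/

set_option autoImplicit false
set_option linter.unusedSimpArgs false

namespace Pool.Agent.Work.PolyTime

open Pool.Agent.Work.MP_0532f7_lc (Form TAUT pr)

/-! ### Tokens -/

/-- Tokens: a variable, negation (`false`), implication (`true`). -/
abbrev Tok : Type := Name ⊕ Bool

/-- The tokens of a formula in Polish notation. -/
def ftoks : Form → List Tok
  | .var s => [Sum.inl s]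
  | .neg φ => Sum.inr false :: ftoks φ
  | .imp φ ψ => Sum.inr true :: (ftoks φ ++ ftoks ψ)

def tokBits : Tok → List Bool
  | Sum.inl s => false :: false :: pr s []
  | Sum.inr false => [false, true]
  | Sum.inr true => [true]

theorem ftoks_bits (φ : Form) : (ftoks φ).flatMap tokBits = φ.code := by
  induction φ with
  | var s => simp [ftoks, tokBits, Form.code]
  | neg φ ih => simp [ftoks, tokBits, Form.code, ih]
  | imp φ ψ ih1 ih2 => simp [ftoks, tokBits, Form.code, List.flatMap_append, ih1, ih2]

/-- State of the reader: mode, current name, tokens read (last one first). -/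
abbrev RSt : Type := (Bool × Bool) × Name × List Tok

def rStep (s : RSt) (b : Bool) : RSt :=
  bif s.1.1 then
    bif s.1.2 then ((true, false), s.2.1 ++ [b], s.2.2)
    else bif b then ((true, true), s.2.1, s.2.2) else ((false, false), [], Sum.inl s.2.1 :: s.2.2)
  else
    bif s.1.2 then
      bif b then ((false, false), [], Sum.inr false :: s.2.2) else ((true, false), [], s.2.2)
    else bif b then ((false, false), [], Sum.inr true :: s.2.2) else ((false, true), [], s.2.2)

def rRun (w : List Bool) : RSt := w.foldl rStep ((false, false), [], [])

/-- Bits read since the last complete token. -/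
def pending (m : Bool × Bool) (s : Name) : List Bool :=
  match m with
  | (false, false) => []
  | (false, true) => [false]
  | (true, false) => false :: false :: s.flatMap fun b => [true, b]
  | (true, true) => false :: false :: ((s.flatMap fun b => [true, b]) ++ [true])

theorem pr_nil_eq (s : Name) : pr s [] = (s.flatMap fun b => [true, b]) ++ [false] := by
  induction s with
  | nil => rfl
  | cons b s ih => simp [pr, ih]

theorem rRun_spec (w : List Bool) :
    w = (rRun w).2.2.reverse.flatMap tokBits ++ pending (rRun w).1 (rRun w).2.1 := by
  induction w using List.reverseRecOn with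
  | nil => simp [rRun, pending]
  | append_singleton w b ih =>
    have e : rRun (w ++ [b]) = rStep (rRun w) b := by simp [rRun, List.foldl_append]
    rw [e]
    generalize rRun w = s at ih
    obtain ⟨⟨m1, m2⟩, x, out⟩ := s
    simp only at ih
    rw [ih]
    cases m1 <;> cases m2 <;> cases b <;>
      simp [rStep, pending, List.flatMap_append, tokBits, pr_nil_eq]

theorem rRun_tok (t : Tok) (out : List Tok) :
    (tokBits t).foldl rStep ((false, false), [], out) = ((false, false), [], t :: out) := by
  rcases t with s | b
  · have key : ∀ (s x : Name), (pr s []).foldl rStep ((true, false), x, out) =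
        ((false, false), [], Sum.inl (x ++ s) :: out) := by
      intro s
      induction s with
      | nil => intro x; simp [pr, rStep]
      | cons b s ih =>
        intro x
        simp only [pr, List.foldl_cons, rStep, cond_true, cond_false]
        rw [ih]; simp
    simp only [tokBits, List.foldl_cons, rStep, cond_true, cond_false]
    rw [key]; simp
  · cases b <;> simp [tokBits, rStep]

theorem rRun_toks (l : List Tok) :
    rRun (l.flatMap tokBits) = ((false, false), [], l.reverse) := by
  have key : ∀ (l out : List Tok), (l.flatMap tokBits).foldl rStep ((false, false), [], out) =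
      ((false, false), [], l.reverse ++ out) := by
    intro l
    induction l with
    | nil => intro out; simp
    | cons t l ih =>
      intro out
      rw [List.flatMap_cons, List.foldl_append, rRun_tok, ih]
      simp
  have h := key l []
  rw [List.append_nil] at h
  exact h

/-! ### The abstract machine -/

def fAct : Tok → List Form → Option (List Form)
  | Sum.inl s, st => some (Form.var s :: st)
  | Sum.inr false, φ :: r => some (Form.neg φ :: r)
  | Sum.inr true, φ :: ψ :: r => some (Form.imp φ ψ :: r)
  | _, _ => none

/-- Running on tokens, the last token first. -/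
def fRun (l : List Tok) : Option (List Form) := l.foldl (fun s t => s.bind (fAct t)) (some [])

theorem fRun_snoc (l : List Tok) (t : Tok) : fRun (l ++ [t]) = (fRun l).bind (fAct t) := by
  simp [fRun, List.foldl_append]

theorem fRun_ftoks (φ : Form) : ∀ (l : List Tok) (st : List Form), fRun l = some st →
    fRun (l ++ (ftoks φ).reverse) = some (φ :: st) := by
  induction φ with
  | var s => intro l st h; simp [ftoks, fRun_snoc, h, fAct]
  | neg φ ih =>
    intro l st h
    have := ih l st h
    rw [ftoks, List.reverse_cons, ← List.append_assoc, fRun_snoc, this]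
    rfl
  | imp φ ψ ih1 ih2 =>
    intro l st h
    have h1 := ih2 l st h
    have h2 := ih1 _ _ h1
    rw [ftoks, List.reverse_cons, List.reverse_append, ← List.append_assoc, fRun_snoc,
      ← List.append_assoc, h2]
    rfl

theorem fRun_eq (l : List Tok) : ∀ st : List Form, fRun l = some st →
    l.reverse = st.flatMap ftoks := by
  induction l using List.reverseRecOn with
  | nil =>
    intro st h
    have : fRun [] = some [] := rfl
    rw [this] at h
    simp only [Option.some.injEq] at h
    subst h; rfl
  | append_singleton l t ih =>
    intro st h
    rw [fRun_snoc] at h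
    cases hl : fRun l with
    | none => rw [hl] at h; cases h
    | some st' =>
      have h1 := ih st' hl
      rw [hl, Option.bind_some] at h
      rw [List.reverse_append, List.reverse_singleton, List.singleton_append, h1]
      rcases t with s | b
      · simp only [fAct, Option.some.injEq] at h
        subst h; simp [ftoks]
      · cases b
        · rcases st' with _ | ⟨φ, r⟩
          · simp [fAct] at h
          · simp only [fAct, Option.some.injEq] at h
            subst h; simp [ftoks]
        · rcases st' with _ | ⟨φ, _ | ⟨ψ, r⟩⟩
          · simp [fAct] at h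
          · simp [fAct] at h
          · simp only [fAct, Option.some.injEq] at h
            subst h; simp [ftoks]

/-! ### The concrete machine -/

/-- Clauses: lists of literals `(b, x)`, meaning that `x` has the value `b`. -/
abbrev Clause : Type := List (Bool × V)

def CHolds (X : V → Bool) (c : Clause) : Prop := ∃ l ∈ c, X l.2 = l.1

abbrev CSt : Type := ℕ × List V × List Clause

def kStep (s : CSt) (t : Tok) : Option CSt :=
  match t, s.2.1 with
  | Sum.inl x, st => some (s.1 + 1, Sum.inl x :: st, s.2.2)
  | Sum.inr false, a :: r => some (s.1 + 1, ax s.1 0 :: r,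
      [(true, ax s.1 0), (true, a)] :: [(false, ax s.1 0), (false, a)] :: s.2.2)
  | Sum.inr true, a :: b :: r => some (s.1 + 1, ax s.1 0 :: r,
      [(false, ax s.1 0), (false, a), (true, b)] :: [(true, ax s.1 0), (true, a)] ::
        [(true, ax s.1 0), (false, b)] :: s.2.2)
  | _, _ => none

def kRun (l : List Tok) : Option CSt :=
  l.foldl (fun s t => s.bind fun s => kStep s t) (some (0, [], []))

theorem kRun_snoc (l : List Tok) (t : Tok) :
    kRun (l ++ [t]) = (kRun l).bind fun s => kStep s t := by
  simp [kRun, List.foldl_append]

/-- Variables that may occur at time `n`. -/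
def VOld (l : List Tok) (n : ℕ) : V → Prop
  | Sum.inl x => (Sum.inl x : Tok) ∈ l
  | Sum.inr p => p.1 < n ∧ p.2 = 0

theorem VOld.mono {l l' : List Tok} {n m : ℕ} (hl : ∀ t ∈ l, t ∈ l') (hn : n ≤ m) {v : V}
    (h : VOld l n v) : VOld l' m v := by
  rcases v with x | p
  · exact hl _ h
  · exact ⟨lt_of_lt_of_le h.1 hn, h.2⟩

/-- The invariant of the concrete machine. -/
structure CSim (l : List Tok) (s : CSt) (abs : List Form) : Prop where
  time : s.1 = l.length
  vold : ∀ v ∈ s.2.1, VOld l s.1 v
  cold : ∀ c ∈ s.2.2, c.length ≤ 3 ∧ ∀ p ∈ c, VOld l s.1 p.2
  lenS : s.2.1.length ≤ s.1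
  lenC : s.2.2.length ≤ 3 * s.1
  sound : ∀ X : V → Bool, (∀ c ∈ s.2.2, CHolds X c) →
    List.Forall₂ (fun v φ => X v = φ.eval (fun x => X (Sum.inl x))) s.2.1 abs
  compl : ∀ y : Name → Bool, ∃ X : V → Bool, (∀ x, X (Sum.inl x) = y x) ∧
    (∀ c ∈ s.2.2, CHolds X c)

theorem csim_init : CSim [] (0, [], []) [] :=
  ⟨rfl, by simp, by simp, by simp, by simp, fun _ _ => List.Forall₂.nil,
    fun y => ⟨fun v => match v with | Sum.inl x => y x | Sum.inr _ => true, fun _ => rfl,
      by simp⟩⟩

/-- Setting the auxiliary variable of time `n`. -/
def setB (X : V → Bool) (n : ℕ) (b : Bool) : V → Bool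
  | Sum.inl x => X (Sum.inl x)
  | Sum.inr p => if p.1 = n then b else X (Sum.inr p)

theorem setB_old {X : V → Bool} {l : List Tok} {n : ℕ} {b : Bool} {v : V} (h : VOld l n v) :
    setB X n b v = X v := by
  rcases v with y | p
  · rfl
  · have : p.1 ≠ n := by have := h.1; omega
    simp [setB, this]

theorem setB_holds {X : V → Bool} {l : List Tok} {n : ℕ} {b : Bool} {c : Clause}
    (h : ∀ p ∈ c, VOld l n p.2) (hc : CHolds X c) : CHolds (setB X n b) c := by
  obtain ⟨p, hp, hp'⟩ := hc
  exact ⟨p, hp, by rw [setB_old (h p hp)]; exact hp'⟩

theorem csim_step {l : List Tok} {s : CSt} {abs : List Form} (hs : CSim l s abs) (t : Tok) :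
    (fAct t abs = none ∧ kStep s t = none) ∨ ∃ abs' s', fAct t abs = some abs' ∧
      kStep s t = some s' ∧ CSim (l ++ [t]) s' abs' := by
  obtain ⟨n, st, cs⟩ := s
  obtain ⟨h1, h2, h3, h4, h5, h6, h7⟩ := hs
  simp only at h1 h2 h3 h4 h5 h6 h7
  have hsub : ∀ u ∈ l, u ∈ l ++ [t] := fun u hu => by simp [hu]
  have hm : ∀ {v : V}, VOld l n v → VOld (l ++ [t]) (n + 1) v := fun hv => hv.mono hsub (by simp)
  have hcm : ∀ c ∈ cs, c.length ≤ 3 ∧ ∀ p ∈ c, VOld (l ++ [t]) (n + 1) p.2 := fun c hc =>
    ⟨(h3 c hc).1, fun p hp => hm ((h3 c hc).2 p hp)⟩
  have hax : VOld (l ++ [t]) (n + 1) (ax n 0) := ⟨by simp, rfl⟩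
  have hlen : st.length = abs.length := by
    obtain ⟨X, -, hX⟩ := h7 (fun _ => true)
    exact (h6 X hX).length_eq
  have hB : ∀ (X : V → Bool) (b : Bool), setB X n b (ax n 0) = b := fun X b => by simp [setB]
  rcases t with x | b
  · right
    refine ⟨_, _, rfl, rfl, ?_⟩
    refine ⟨by simp [h1], ?_, hcm, by simp; omega, by simp; omega, ?_, h7⟩
    · intro v hv
      simp only [List.mem_cons] at hv
      rcases hv with rfl | hv
      · exact (by simp : (Sum.inl x : Tok) ∈ l ++ [Sum.inl x])
      · exact hm (h2 v hv)
    · intro X hX
      exact List.Forall₂.cons rfl (h6 X hX)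
  · cases b
    · rcases st with _ | ⟨a, r⟩
      · rcases abs with _ | ⟨φ, abs⟩
        · left; exact ⟨rfl, rfl⟩
        · simp at hlen
      · rcases abs with _ | ⟨φ, abs⟩
        · simp at hlen
        · right
          refine ⟨_, _, rfl, rfl, ?_⟩
          have ha : VOld l n a := h2 a (by simp)
          refine ⟨by simp [h1], ?_, ?_, ?_, ?_, ?_, ?_⟩
          · intro v hv
            simp only [List.mem_cons] at hv
            rcases hv with rfl | hv
            · exact hax
            · exact hm (h2 v (by simp [hv]))
          · intro c hc
            simp only [List.mem_cons] at hc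
            rcases hc with rfl | rfl | hc
            · refine ⟨by simp, ?_⟩
              simp only [List.mem_cons, List.not_mem_nil, or_false, forall_eq_or_imp, forall_eq]
              exact ⟨hax, hm ha⟩
            · refine ⟨by simp, ?_⟩
              simp only [List.mem_cons, List.not_mem_nil, or_false, forall_eq_or_imp, forall_eq]
              exact ⟨hax, hm ha⟩
            · exact hcm c hc
          · simp only [List.length_cons] at *; omega
          · simp only [List.length_cons] at *; omega
          · intro X hX
            simp only [List.mem_cons, forall_eq_or_imp] at hX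
            obtain ⟨c1, c2, c3⟩ := hX
            have h8 := h6 X c3
            rw [List.forall₂_cons] at h8
            refine List.Forall₂.cons ?_ h8.2
            simp only [CHolds, List.mem_cons, List.not_mem_nil, or_false, exists_eq_or_imp,
              exists_eq_left] at c1 c2
            simp only [Form.eval, ← h8.1]
            cases hx : X (ax n 0) <;> cases hy : X a <;> simp_all
          · intro y
            obtain ⟨X, hX1, hX2⟩ := h7 y
            refine ⟨setB X n (!(X a)), fun x => hX1 x, ?_⟩
            intro c hc
            simp only [List.mem_cons] at hc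
            rcases hc with rfl | rfl | hc
            · simp only [CHolds, List.mem_cons, List.not_mem_nil, or_false, exists_eq_or_imp,
                exists_eq_left, hB, setB_old ha]
              cases X a <;> simp
            · simp only [CHolds, List.mem_cons, List.not_mem_nil, or_false, exists_eq_or_imp,
                exists_eq_left, hB, setB_old ha]
              cases X a <;> simp
            · exact setB_holds (h3 c hc).2 (hX2 c hc)
    · rcases st with _ | ⟨a, _ | ⟨b, r⟩⟩
      · rcases abs with _ | ⟨φ, abs⟩
        · left; exact ⟨rfl, rfl⟩
        · simp at hlen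
      · rcases abs with _ | ⟨φ, _ | ⟨ψ, abs⟩⟩
        · simp at hlen
        · left; exact ⟨rfl, rfl⟩
        · simp at hlen
      · rcases abs with _ | ⟨φ, _ | ⟨ψ, abs⟩⟩
        · simp at hlen
        · simp at hlen
        · right
          refine ⟨_, _, rfl, rfl, ?_⟩
          have ha : VOld l n a := h2 a (by simp)
          have hb : VOld l n b := h2 b (by simp)
          refine ⟨by simp [h1], ?_, ?_, ?_, ?_, ?_, ?_⟩
          · intro v hv
            simp only [List.mem_cons] at hv
            rcases hv with rfl | hv
            · exact hax
            · exact hm (h2 v (by simp [hv]))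
          · intro c hc
            simp only [List.mem_cons] at hc
            rcases hc with rfl | rfl | rfl | hc
            · refine ⟨by simp, ?_⟩
              simp only [List.mem_cons, List.not_mem_nil, or_false, forall_eq_or_imp, forall_eq]
              exact ⟨hax, hm ha, hm hb⟩
            · refine ⟨by simp, ?_⟩
              simp only [List.mem_cons, List.not_mem_nil, or_false, forall_eq_or_imp, forall_eq]
              exact ⟨hax, hm ha⟩
            · refine ⟨by simp, ?_⟩
              simp only [List.mem_cons, List.not_mem_nil, or_false, forall_eq_or_imp, forall_eq]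
              exact ⟨hax, hm hb⟩
            · exact hcm c hc
          · simp only [List.length_cons] at *; omega
          · simp only [List.length_cons] at *; omega
          · intro X hX
            simp only [List.mem_cons, forall_eq_or_imp] at hX
            obtain ⟨c1, c2, c3, c4⟩ := hX
            have h8 := h6 X c4
            rw [List.forall₂_cons, List.forall₂_cons] at h8
            refine List.Forall₂.cons ?_ h8.2.2
            simp only [CHolds, List.mem_cons, List.not_mem_nil, or_false, exists_eq_or_imp,
              exists_eq_left] at c1 c2 c3
            simp only [Form.eval, ← h8.1, ← h8.2.1]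
            cases hx : X (ax n 0) <;> cases hy : X a <;> cases hz : X b <;> simp_all
          · intro y
            obtain ⟨X, hX1, hX2⟩ := h7 y
            refine ⟨setB X n (!(X a) || X b), fun x => hX1 x, ?_⟩
            intro c hc
            simp only [List.mem_cons] at hc
            rcases hc with rfl | rfl | rfl | hc
            · simp only [CHolds, List.mem_cons, List.not_mem_nil, or_false, exists_eq_or_imp,
                exists_eq_left, hB, setB_old ha, setB_old hb]
              cases X a <;> cases X b <;> simp
            · simp only [CHolds, List.mem_cons, List.not_mem_nil, or_false, exists_eq_or_imp,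
                exists_eq_left, hB, setB_old ha, setB_old hb]
              cases X a <;> cases X b <;> simp
            · simp only [CHolds, List.mem_cons, List.not_mem_nil, or_false, exists_eq_or_imp,
                exists_eq_left, hB, setB_old ha, setB_old hb]
              cases X a <;> cases X b <;> simp
            · exact setB_holds (h3 c hc).2 (hX2 c hc)

theorem csim_run (l : List Tok) : (fRun l = none ∧ kRun l = none) ∨
    ∃ abs s, fRun l = some abs ∧ kRun l = some s ∧ CSim l s abs := by
  induction l using List.reverseRecOn with
  | nil => exact Or.inr ⟨_, _, rfl, rfl, csim_init⟩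
  | append_singleton l t ih =>
    rw [fRun_snoc, kRun_snoc]
    rcases ih with ⟨h1, h2⟩ | ⟨abs, s, h1, h2, h3⟩
    · left; simp [h1, h2]
    · rw [h1, h2]
      simp only [Option.bind_some]
      exact csim_step h3 t

/-- The clauses when the machine has accepted: the formula is falsified. -/
def kAccept (s : CSt) : Option (List Clause) :=
  match s.2.1 with
  | [v] => some ([(false, v)] :: s.2.2)
  | _ => none

/-- The clauses of a word: satisfiable iff the word is not the code of a tautology. -/
def clausesW (w : List Bool) : List Clause :=
  bif (rRun w).1.1 || (rRun w).1.2 then []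
  else ((kRun (rRun w).2.2).bind kAccept).getD []

theorem clausesW_correct (w : List Bool) :
    w ∉ TAUT ↔ ∃ X : V → Bool, ∀ c ∈ clausesW w, CHolds X c := by
  have triv : clausesW w = [] → w ∉ TAUT → (w ∉ TAUT ↔ ∃ X : V → Bool, ∀ c ∈ clausesW w,
      CHolds X c) := by
    intro h h'
    rw [h]
    exact ⟨fun _ => ⟨fun _ => true, by simp⟩, fun _ => h'⟩
  have hspec := rRun_spec w
  by_cases hm : (rRun w).1 = (false, false)
  · have e1 : (rRun w).1.1 = false := by rw [hm]
    have e2 : (rRun w).1.2 = false := by rw [hm]
    have e3 : clausesW w = ((kRun (rRun w).2.2).bind kAccept).getD [] := by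
      simp [clausesW, e1, e2]
    rw [hm] at hspec
    simp only [pending, List.append_nil] at hspec
    have htaut : ∀ φ : Form, φ.code = w → fRun (rRun w).2.2 = some [φ] := by
      intro φ hφ
      have h1 : rRun w = ((false, false), [], (ftoks φ).reverse) := by
        rw [← hφ, ← ftoks_bits, rRun_toks]
      rw [h1]
      have := fRun_ftoks φ [] [] rfl
      simpa using this
    rcases csim_run (rRun w).2.2 with ⟨h1, h2⟩ | ⟨abs, s, h1, h2, h3⟩
    · refine triv (by rw [e3, h2]; rfl) ?_
      rintro ⟨φ, hφ, -⟩
      rw [htaut φ hφ] at h1; cases h1
    · obtain ⟨n, st, cs⟩ := s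
      have hlen : st.length = abs.length := by
        obtain ⟨X, -, hX⟩ := h3.compl (fun _ => true)
        exact (h3.sound X hX).length_eq
      rcases st with _ | ⟨v, _ | ⟨v', r⟩⟩
      · refine triv (by rw [e3, h2]; rfl) ?_
        rintro ⟨φ, hφ, -⟩
        rw [htaut φ hφ] at h1
        simp only [Option.some.injEq] at h1
        subst h1; simp at hlen
      · rcases abs with _ | ⟨φ, _ | ⟨ψ, abs⟩⟩
        · simp at hlen
        · have hw : w = φ.code := by
            have h4 := fRun_eq _ _ h1
            rw [hspec, h4]
            simp [ftoks_bits]
          have e4 : clausesW w = [(false, v)] :: cs := by rw [e3, h2]; rfl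
          rw [e4]
          constructor
          · intro hw'
            have h5 : ∃ y : Name → Bool, φ.eval y = false := by
              by_contra hcon
              apply hw'
              refine ⟨φ, hw.symm, fun y => ?_⟩
              by_contra hy
              exact hcon ⟨y, by simpa using hy⟩
            obtain ⟨y, hy⟩ := h5
            obtain ⟨X, hX1, hX2⟩ := h3.compl y
            refine ⟨X, ?_⟩
            simp only [List.mem_cons, forall_eq_or_imp]
            refine ⟨⟨(false, v), by simp, ?_⟩, hX2⟩
            have h6 := h3.sound X hX2
            rw [List.forall₂_cons] at h6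
            simp only
            rw [h6.1, ← hy]
            congr 1
            funext x
            exact hX1 x
          · rintro ⟨X, hX⟩ ⟨ψ, hψ, hψ'⟩
            simp only [List.mem_cons, forall_eq_or_imp] at hX
            have h6 := h3.sound X hX.2
            rw [List.forall₂_cons] at h6
            have h7 := htaut ψ hψ
            rw [h1] at h7
            simp only [Option.some.injEq, List.cons.injEq, and_true] at h7
            subst h7
            obtain ⟨l, hl, hl'⟩ := hX.1
            simp only [List.mem_singleton] at hl
            subst hl
            simp only at hl'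
            rw [h6.1, hψ'] at hl'
            cases hl'
        · simp at hlen
      · refine triv (by rw [e3, h2]; rfl) ?_
        rintro ⟨φ, hφ, -⟩
        rw [htaut φ hφ] at h1
        simp only [Option.some.injEq] at h1
        subst h1; simp at hlen
  · have e3 : clausesW w = [] := by
      have h4 : ((rRun w).1.1 || (rRun w).1.2) = true := by
        by_contra h5
        apply hm
        simp only [Bool.or_eq_true, not_or, Bool.not_eq_true] at h5
        exact Prod.ext h5.1 h5.2
      rw [clausesW, h4]; rfl
    refine triv e3 ?_
    rintro ⟨φ, hφ, -⟩
    apply hm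
    rw [← hφ, ← ftoks_bits, rRun_toks]

end Pool.Agent.Work.PolyTime
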