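import Mathlib

/-!
Decision problems as sets of bit strings, polynomial-time many-one reductions (with Mathlib's
multi-stack Turing machines), the existential theory of the reals, and the class of problems
reducible to it.
-/

set_option autoImplicit false

namespace Pool.Agent.Work.PolyTime

/-- Polynomial-time computability of a function on bit strings (Mathlib's machines). -/
def PolyTimeComputable (f : List Bool → List Bool) : Prop :=
  Nonempty (Turing.TM2ComputableInPolyTime (id : List Bool → List Bool)
    (id : List Bool → List Bool) f)

/-- Polynomial-time many-one reducibility of decision problems. -/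
def PolyReducible (L L' : Set (List Bool)) : Prop :=
  ∃ f : List Bool → List Bool, PolyTimeComputable f ∧ ∀ w, w ∈ L ↔ f w ∈ L'

/-- Names (of variables, points, vertices, colours) are bit strings. -/
abbrev Name : Type := List Bool

/-- The natural number with the given binary digits, most significant digit first. -/
def litVal (bs : List Bool) : ℕ := bs.foldl (fun n b => 2 * n + (if b then 1 else 0)) 0

/-- Polynomial expressions with integer coefficients. -/
inductive Term : Type
  | lit (bs : List Bool)
  | var (x : Name)
  | add (s t : Term)
  | sub (s t : Term)
  | mul (s t : Term)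
  | neg (t : Term)

/-- The value of a polynomial expression at a real point. -/
def Term.eval (x : Name → ℝ) : Term → ℝ
  | .lit bs => (litVal bs : ℝ)
  | .var v => x v
  | .add s t => s.eval x + t.eval x
  | .sub s t => s.eval x - t.eval x
  | .mul s t => s.eval x * t.eval x
  | .neg t => - t.eval x

/-- Quantifier-free formulas built from polynomial equations and inequalities. -/
inductive Formula : Type
  | eq (s t : Term)
  | lt (s t : Term)
  | le (s t : Term)
  | and (φ ψ : Formula)
  | or (φ ψ : Formula)
  | not (φ : Formula)

/-- Truth of a quantifier-free formula at a real point. -/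
def Formula.Holds (x : Name → ℝ) : Formula → Prop
  | .eq s t => s.eval x = t.eval x
  | .lt s t => s.eval x < t.eval x
  | .le s t => s.eval x ≤ t.eval x
  | .and φ ψ => φ.Holds x ∧ ψ.Holds x
  | .or φ ψ => φ.Holds x ∨ ψ.Holds x
  | .not φ => ¬ φ.Holds x

/-- The sixteen symbols used to write formulas. -/
inductive Sym : Type
  | lit | bit (b : Bool) | var | vbit (b : Bool) | add | sub | mul | neg
  | eq | lt | le | and | or | not
  deriving DecidableEq

/-- Symbols are written with four bits. -/
def Sym.bits : Sym → List Bool
  | .lit => [false, false, false, false]
  | .bit b => [false, false, true, b]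
  | .var => [false, false, false, true]
  | .vbit b => [false, true, false, b]
  | .add => [false, true, true, false]
  | .sub => [false, true, true, true]
  | .mul => [true, false, false, false]
  | .neg => [true, false, false, true]
  | .eq => [true, false, true, false]
  | .lt => [true, false, true, true]
  | .le => [true, true, false, false]
  | .and => [true, true, false, true]
  | .or => [true, true, true, false]
  | .not => [true, true, true, true]

/-- Expressions are written in reverse Polish form; a literal is the symbol `lit` followed by
its binary digits, a variable is the symbol `var` followed by the bits of its name. -/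
def Term.rpn : Term → List Sym
  | .lit bs => Sym.lit :: bs.map Sym.bit
  | .var v => Sym.var :: v.map Sym.vbit
  | .add s t => s.rpn ++ t.rpn ++ [Sym.add]
  | .sub s t => s.rpn ++ t.rpn ++ [Sym.sub]
  | .mul s t => s.rpn ++ t.rpn ++ [Sym.mul]
  | .neg t => t.rpn ++ [Sym.neg]

/-- Formulas are written in reverse Polish form. -/
def Formula.rpn : Formula → List Sym
  | .eq s t => s.rpn ++ t.rpn ++ [Sym.eq]
  | .lt s t => s.rpn ++ t.rpn ++ [Sym.lt]
  | .le s t => s.rpn ++ t.rpn ++ [Sym.le]
  | .and φ ψ => φ.rpn ++ ψ.rpn ++ [Sym.and]
  | .or φ ψ => φ.rpn ++ ψ.rpn ++ [Sym.or]
  | .not φ => φ.rpn ++ [Sym.not]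

/-- The bit string of a formula. -/
def Formula.encode (φ : Formula) : List Bool := φ.rpn.flatMap Sym.bits

/-- The existential theory of the reals: the (encodings of) quantifier-free formulas that are
satisfied by some real values of the variables. -/
def ETR : Set (List Bool) := {w | ∃ φ : Formula, w = φ.encode ∧ ∃ x : Name → ℝ, φ.Holds x}

/-- The class of decision problems that reduce in polynomial time to `ETR`. -/
def ExistsR : Set (Set (List Bool)) := {L | PolyReducible L ETR}

/-- Completeness for `ExistsR` under polynomial-time many-one reductions. -/
def ExistsRComplete (L : Set (List Bool)) : Prop :=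
  L ∈ ExistsR ∧ ∀ L' ∈ ExistsR, PolyReducible L' L

end Pool.Agent.Work.PolyTime
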