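import Pool.Agent.Work.PolyTime.GatesSim

/-!
`ETR` in terms of gate systems.
-/

set_option autoImplicit false
set_option linter.unusedSimpArgs false

namespace Pool.Agent.Work.PolyTime

theorem aRun_snoc (l : List Sym) (a : Sym) (st : Option (List Obj)) :
    aRun (l ++ [a]) st = (aRun l st).bind (aAct a) := by
  simp [aRun_append, aRun_cons, aRun_nil]

theorem cRun_snoc (l : List Sym) (a : Sym) :
    cRun (l ++ [a]) = (cRun l).bind fun s => cStep s a := by
  simp [cRun, List.foldl_append]

theorem run_good (toks : List Sym) : (aRun toks (some []) = none ∧ cRun toks = none) ∨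
    ∃ abs s, aRun toks (some []) = some abs ∧ cRun toks = some s ∧ Sim s abs ∧
      s.1 = toks.length + 1 := by
  induction toks using List.reverseRecOn with
  | nil => exact Or.inr ⟨[], cInit, rfl, rfl, sim_init, rfl⟩
  | append_singleton l a ih =>
    rw [aRun_snoc, cRun_snoc]
    rcases ih with ⟨h1, h2⟩ | ⟨abs, ⟨n, st, gs⟩, h1, h2, h3, h4⟩
    · left; simp [h1, h2]
    · rw [h1, h2]
      simp only [Option.bind_some]
      rcases good_act h3 a with ⟨h5, h6⟩ | ⟨abs', o, h5, h6, h7⟩
      · left
        refine ⟨h5, ?_⟩
        simp [cStep, h6]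
      · right
        refine ⟨abs', (n + 1, o.1, o.2 ++ gs), h5, ?_, h7, ?_⟩
        · simp [cStep, h6]
        · simp only [List.length_append, List.length_singleton] at *; omega

/-- An unsolvable system. -/
def noGates : List Gate := [(0, vone, vone, vone), (1, vone, vone, vone)]

theorem noGates_not (x : V → ℝ) : ¬ ∀ g ∈ noGates, g.Holds x := by
  intro h
  simp only [noGates, List.mem_cons, List.not_mem_nil, or_false, forall_eq_or_imp, forall_eq,
    Gate.Holds, one_ne_zero, if_false, if_true] at h
  linarith [h.1, h.2]

/-- The system of gates when the machine has accepted. -/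
def accept (s : St) : Option (List Gate) :=
  (popF s.2.1).bind fun y => bif y.2.isEmpty then some ((1, y.1.1, y.1.1, y.1.1) :: s.2.2) else none

/-- The system of gates of a list of symbols. -/
def gatesOf (toks : List Sym) : List Gate := ((cRun toks).bind accept).getD noGates

theorem gatesOf_correct (toks : List Sym) :
    (∃ φ : Formula, toks = φ.rpn ∧ ∃ x : Name → ℝ, φ.Holds x) ↔
      ∃ x : V → ℝ, ∀ g ∈ gatesOf toks, g.Holds x := by
  rcases run_good toks with ⟨h1, h2⟩ | ⟨abs, ⟨n, st, gs⟩, h1, h2, h3, -⟩
  · have e : gatesOf toks = noGates := by simp [gatesOf, h2]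
    constructor
    · rintro ⟨φ, rfl, -⟩
      rw [aRun_formula] at h1; cases h1
    · rintro ⟨x, hx⟩
      rw [e] at hx
      exact (noGates_not x hx).elim
  · rcases popF_cases h3.shape with ⟨h4, h5⟩ | ⟨i, r, φ, ra, p, h6, rfl, h4, h5, h7⟩
    · have e : gatesOf toks = noGates := by
        simp only at h5
        simp [gatesOf, h2, accept, h5]
      constructor
      · rintro ⟨φ, rfl, -⟩
        rw [aRun_formula] at h1
        simp only [Option.some.injEq] at h1
        subst h1
        simp [aPopF] at h4
      · rintro ⟨x, hx⟩
        rw [e] at hx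
        exact (noGates_not x hx).elim
    · simp only at h6 h5
      subst h6
      have hs := h3.shape
      simp only [List.forall₂_cons] at hs
      rcases hs with ⟨hs1, hs2⟩
      cases hs2 with
      | @cons i' o' r' ra' hs3 hs4 =>
        have e : gatesOf toks = noGates := by
          simp [gatesOf, h2, accept, h5]
        constructor
        · rintro ⟨φ, rfl, -⟩
          rw [aRun_formula] at h1
          simp at h1
        · rintro ⟨x, hx⟩
          rw [e] at hx
          exact (noGates_not x hx).elim
      | nil =>
        have e : gatesOf toks = (1, p.1, p.1, p.1) :: gs := by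
          simp [gatesOf, h2, accept, h5]
        rw [e]
        constructor
        · rintro ⟨ψ, rfl, y, hy⟩
          rw [aRun_formula] at h1
          simp only [Option.some.injEq, List.cons.injEq, Sum.inr.injEq, and_true] at h1
          subst h1
          obtain ⟨x, hx1, hx2, hx3⟩ := h3.compl y
          simp only [List.forall₂_cons, List.Forall₂.nil, and_true] at hx3
          have hx4 := itemF_repC h7 hx3
          refine ⟨x, ?_⟩
          simp only [List.mem_cons, forall_eq_or_imp]
          refine ⟨?_, hx2⟩
          have : (fun v => x (Sum.inl v)) = y := funext hx1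
          rw [this] at hx4
          simp [Gate.Holds, hx4.1 hy]
        · rintro ⟨x, hx⟩
          simp only [List.mem_cons, forall_eq_or_imp] at hx
          have hx3 := h3.sound x hx.2
          simp only [List.forall₂_cons, List.Forall₂.nil, and_true] at hx3
          have hx4 := itemF_rep h7 hx3
          refine ⟨φ, aRun_eq_formula h1, fun v => x (Sum.inl v), hx4.1 ?_⟩
          have := hx.1
          simp only [Gate.Holds, one_ne_zero, if_false, if_true] at this
          linarith

/-! ### From bits to symbols -/

/-- The symbol with given bits. -/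
def symOf (a b c d : Bool) : Sym :=
  bif a then
    bif b then
      bif c then (bif d then .not else .or) else (bif d then .and else .le)
    else
      bif c then (bif d then .lt else .eq) else (bif d then .neg else .mul)
  else
    bif b then
      bif c then (bif d then .sub else .add) else (bif d then .vbit true else .vbit false)
    else
      bif c then (bif d then .bit true else .bit false) else (bif d then .var else .lit)

theorem symOf_bits (a b c d : Bool) : (symOf a b c d).bits = [a, b, c, d] := by
  cases a <;> cases b <;> cases c <;> cases d <;> rfl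

theorem exists_bits (s : Sym) : ∃ a b c d, s.bits = [a, b, c, d] ∧ symOf a b c d = s := by
  cases s with
  | bit b => cases b <;> exact ⟨_, _, _, _, rfl, rfl⟩
  | vbit b => cases b <;> exact ⟨_, _, _, _, rfl, rfl⟩
  | _ => exact ⟨_, _, _, _, rfl, rfl⟩

/-- One step of reading bits from the right. -/
def readStep (s : List Bool × List Sym) (a : Bool) : List Bool × List Sym :=
  match s with
  | ([b, c, d], out) => ([], symOf a b c d :: out)
  | (buf, out) => (a :: buf, out)

def readSyms (w : List Bool) : List Bool × List Sym := w.reverse.foldl readStep ([], [])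

theorem readSyms_cons (a : Bool) (w : List Bool) :
    readSyms (a :: w) = readStep (readSyms w) a := by
  simp [readSyms, List.foldl_append]

theorem readSyms_spec (w : List Bool) :
    w = (readSyms w).1 ++ (readSyms w).2.flatMap Sym.bits ∧ (readSyms w).1.length ≤ 3 := by
  induction w with
  | nil => simp [readSyms]
  | cons a w ih =>
    rw [readSyms_cons]
    obtain ⟨h1, h2⟩ := ih
    generalize readSyms w = s at *
    obtain ⟨buf, out⟩ := s
    simp only at h1 h2
    rcases buf with _ | ⟨b, _ | ⟨c, _ | ⟨d, _ | ⟨e, buf⟩⟩⟩⟩
    · simp [readStep, h1]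
    · simp [readStep, h1]
    · simp [readStep, h1]
    · simp only [readStep, List.flatMap_cons, symOf_bits]
      rw [h1]; simp
    · simp only [List.length_cons] at h2
      omega

theorem readSyms_flatMap (toks : List Sym) :
    readSyms (toks.flatMap Sym.bits) = ([], toks) := by
  induction toks with
  | nil => rfl
  | cons s toks ih =>
    obtain ⟨a, b, c, d, h1, h2⟩ := exists_bits s
    rw [List.flatMap_cons, h1]
    simp only [List.cons_append, List.nil_append]
    rw [readSyms_cons, readSyms_cons, readSyms_cons, readSyms_cons, ih]
    simp [readStep, h2]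

/-- The system of gates of a word. -/
def gatesW (w : List Bool) : List Gate :=
  bif (readSyms w).1.isEmpty then gatesOf (readSyms w).2 else noGates

theorem gatesW_correct (w : List Bool) :
    w ∈ ETR ↔ ∃ x : V → ℝ, ∀ g ∈ gatesW w, g.Holds x := by
  by_cases h : (readSyms w).1 = []
  · have e : gatesW w = gatesOf (readSyms w).2 := by simp [gatesW, h]
    rw [e, ← gatesOf_correct]
    have h1 := (readSyms_spec w).1
    rw [h, List.nil_append] at h1
    constructor
    · rintro ⟨φ, hφ, hx⟩
      refine ⟨φ, ?_, hx⟩
      rw [hφ, Formula.encode, readSyms_flatMap]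
    · rintro ⟨φ, hφ, hx⟩
      refine ⟨φ, ?_, hx⟩
      rw [h1, hφ, Formula.encode]
  · have e : gatesW w = noGates := by
      have h' : (readSyms w).1.isEmpty = false := by
        rw [Bool.eq_false_iff]
        exact fun h' => h (List.isEmpty_iff.1 h')
      simp only [gatesW, h', cond_false]
    rw [e]
    constructor
    · rintro ⟨φ, hφ, -⟩
      rw [hφ, Formula.encode, readSyms_flatMap] at h
      exact absurd rfl h
    · rintro ⟨x, hx⟩
      exact (noGates_not x hx).elim

/-! ### Numbering the variables -/

/-- All variables of a system. -/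
def gvars (G : List Gate) : List V := G.flatMap fun g => [g.2.1, g.2.2.1, g.2.2.2]

/-- Position of the first occurrence. -/
def pos (l : List V) (v : V) : ℕ :=
  (l.foldl (fun (s : Bool × ℕ) w => bif s.1 then s else
    bif decide (w = v) then (true, s.2) else (false, s.2 + 1)) (false, 0)).2

theorem pos_aux (v : V) : ∀ (l : List V) (n : ℕ),
    (l.foldl (fun (s : Bool × ℕ) w => bif s.1 then s else
      bif decide (w = v) then (true, s.2) else (false, s.2 + 1)) (true, n)).2 = n := by
  intro l
  induction l with
  | nil => intro n; rfl
  | cons w l ih => intro n; simpa using ih n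

theorem pos_getElem (l : List V) (v : V) (h : v ∈ l) : l[pos l v]? = some v := by
  have key : ∀ (l : List V) (n : ℕ), v ∈ l → ∃ k, (l.foldl (fun (s : Bool × ℕ) w => bif s.1 then s
      else bif decide (w = v) then (true, s.2) else (false, s.2 + 1)) (false, n)).2 = n + k ∧
      l[k]? = some v := by
    intro l
    induction l with
    | nil => intro n h; simp at h
    | cons w l ih =>
      intro n h
      by_cases hw : w = v
      · refine ⟨0, ?_, ?_⟩
        · rw [List.foldl_cons]
          have e : (bif (false, n).1 then (false, n) else
            bif decide (w = v) then (true, (false, n).2) else (false, (false, n).2 + 1)) =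
              (true, n) := by simp [hw]
          rw [e, pos_aux]; rfl
        · simp [hw]
      · have h' : v ∈ l := by
          rcases List.mem_cons.1 h with h | h
          · exact absurd h.symm hw
          · exact h
        obtain ⟨k, hk1, hk2⟩ := ih (n + 1) h'
        refine ⟨k + 1, ?_, ?_⟩
        · rw [List.foldl_cons]
          have e : (bif (false, n).1 then (false, n) else
            bif decide (w = v) then (true, (false, n).2) else (false, (false, n).2 + 1)) =
              (false, n + 1) := by simp [hw]
          rw [e, hk1]; omega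
        · simpa using hk2
  obtain ⟨k, hk1, hk2⟩ := key l 0 h
  rw [pos, hk1, Nat.zero_add, hk2]

/-- The system with numbered variables. -/
def renum (G : List Gate) : List (ℕ × ℕ × ℕ × ℕ) :=
  G.map fun g => (g.1, pos (gvars G) g.2.1, pos (gvars G) g.2.2.1, pos (gvars G) g.2.2.2)

/-- Truth of a gate with numbered variables. -/
def NHolds (x : ℕ → ℝ) (g : ℕ × ℕ × ℕ × ℕ) : Prop :=
  if g.1 = 0 then x g.2.1 = 1
  else if g.1 = 1 then x g.2.1 + x g.2.2.1 = x g.2.2.2
  else x g.2.1 * x g.2.2.1 = x g.2.2.2

theorem renum_correct (G : List Gate) :
    (∃ x : V → ℝ, ∀ g ∈ G, g.Holds x) ↔ ∃ x : ℕ → ℝ, ∀ g ∈ renum G, NHolds x g := by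
  constructor
  · rintro ⟨x, hx⟩
    refine ⟨fun n => x (((gvars G)[n]?).getD vone), ?_⟩
    intro g' hg'
    obtain ⟨g, hg, rfl⟩ := List.mem_map.1 hg'
    have hm : ∀ v ∈ [g.2.1, g.2.2.1, g.2.2.2],
        x (((gvars G)[pos (gvars G) v]?).getD vone) = x v := by
      intro v hv
      have hv' : v ∈ gvars G := List.mem_flatMap.2 ⟨g, hg, hv⟩
      rw [pos_getElem _ _ hv']; rfl
    have h := hx g hg
    simp only [List.mem_cons, List.not_mem_nil, or_false, forall_eq_or_imp, forall_eq] at hm
    simp only [NHolds, hm.1, hm.2.1, hm.2.2]
    exact h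
  · rintro ⟨x, hx⟩
    refine ⟨fun v => x (pos (gvars G) v), ?_⟩
    intro g hg
    exact hx _ (List.mem_map.2 ⟨g, hg, rfl⟩)

/-- The numbered gate system of a word. -/
def etrGates (w : List Bool) : List (ℕ × ℕ × ℕ × ℕ) := renum (gatesW w)

theorem etrGates_correct (w : List Bool) :
    w ∈ ETR ↔ ∃ x : ℕ → ℝ, ∀ g ∈ etrGates w, NHolds x g := by
  rw [gatesW_correct, renum_correct]; rfl

end Pool.Agent.Work.PolyTime
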