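import Pool.Agent.Work.PolyTime.Close

/-!
Folds over lists, and the conversion of raw words to coded lists.
-/

set_option autoImplicit false
set_option linter.unusedSimpArgs false

namespace Pool.Agent.Work.PolyTime

open Function

/-- The tree of a list, given trees of the elements. -/
def listCode {α : Type} (ca : α → T) : List α → T
  | [] => T.nil
  | x :: l => T.cons (ca x) (listCode ca l)

theorem length_listCode {α : Type} (ca : α → T) (l : List α) :
    l.length + 1 ≤ (listCode ca l).ser.length := by
  induction l with
  | nil => simp [listCode, T.ser]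
  | cons x l ih =>
    simp only [listCode, T.ser, List.length_cons, List.length_append]
    omega

/-- One iteration of the fold. -/
def foldBody {K : Type} (c : Cmd K) (i o : K) : Cmd (K ⊕ Aux) :=
  Cmd.seq (parse (Sum.inr Aux.a) (Sum.inr Aux.b) (Sum.inr Aux.c))
  (Cmd.seq (moveRev (Sum.inr Aux.b) (Sum.inl i))
  (Cmd.seq (moveRev (Sum.inr Aux.d) (Sum.inr Aux.b))
  (Cmd.seq (moveRev (Sum.inr Aux.b) (Sum.inl i))
  (Cmd.seq (Cmd.push (Sum.inl i) true)
  (Cmd.seq (c.map Sum.inl)
  (Cmd.seq (moveRev (Sum.inl o) (Sum.inr Aux.b))
    (moveRev (Sum.inr Aux.b) (Sum.inr Aux.d))))))))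

/-- The state of the auxiliary stacks during a fold. -/
def foldSt (x y : List Bool) : Aux → List Bool := update (single Aux.a x) Aux.d y

theorem exec_foldBody {K : Type} [DecidableEq K] (c : Cmd K) (i o : K) (x s s' : T)
    (r : List Bool) (τ : ℕ) (h : Exec c (single i (T.cons s x).ser) (single o s'.ser) τ) :
    Exec (foldBody c i o) (join (fun _ : K => []) (foldSt (x.ser ++ r) s.ser))
      (join (fun _ : K => []) (foldSt r s'.ser))
      (9 * x.ser.length + 6 * s.ser.length + 6 * s'.ser.length + τ + 10) := by
  have e1 := exec_parse (K := K ⊕ Aux) (a := Sum.inr Aux.a) (b := Sum.inr Aux.b)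
    (c := Sum.inr Aux.c) (by simp) (by simp) (by simp) x
    (join (fun _ : K => []) (foldSt (x.ser ++ r) s.ser)) r (by simp [foldSt])
    (by simp [foldSt, single_of_ne])
  have n1 : update (update (join (fun _ : K => []) (foldSt (x.ser ++ r) s.ser)) (Sum.inr Aux.a) r)
      (Sum.inr Aux.b) (x.ser.reverse ++ (join (fun _ : K => []) (foldSt (x.ser ++ r) s.ser) :
        K ⊕ Aux → List Bool) (Sum.inr Aux.b)) =
      join (fun _ : K => []) (update (foldSt r s.ser) Aux.b x.ser.reverse) := by
    simp only [update_join_inr, join_inr]
    congr 1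
    funext k; cases k <;> simp [foldSt, single]
  rw [n1] at e1
  have e2 := exec_moveRev (K := K ⊕ Aux) (a := Sum.inr Aux.b) (b := Sum.inl i) (by simp)
    x.ser.reverse (join (fun _ : K => []) (update (foldSt r s.ser) Aux.b x.ser.reverse)) (by simp)
  have n2 : update (update (join (fun _ : K => []) (update (foldSt r s.ser) Aux.b x.ser.reverse))
      (Sum.inr Aux.b) []) (Sum.inl i) (x.ser.reverse.reverse ++
        (join (fun _ : K => []) (update (foldSt r s.ser) Aux.b x.ser.reverse) :
        K ⊕ Aux → List Bool) (Sum.inl i)) =
      join (single i x.ser) (foldSt r s.ser) := by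
    simp only [update_join_inr, join_inr, update_join_inl, join_inl, List.reverse_reverse,
      List.append_nil, update_const_nil]
    congr 1
    funext k; cases k <;> simp [foldSt, single]
  rw [n2] at e2
  have e3 := exec_moveRev (K := K ⊕ Aux) (a := Sum.inr Aux.d) (b := Sum.inr Aux.b) (by simp)
    s.ser (join (single i x.ser) (foldSt r s.ser)) (by simp [foldSt])
  have n3 : update (update (join (single i x.ser) (foldSt r s.ser))
      (Sum.inr Aux.d) []) (Sum.inr Aux.b) (s.ser.reverse ++
        (join (single i x.ser) (foldSt r s.ser) : K ⊕ Aux → List Bool) (Sum.inr Aux.b)) =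
      join (single i x.ser) (update (single Aux.a r) Aux.b s.ser.reverse) := by
    simp only [update_join_inr, join_inr, update_join_inl, join_inl]
    congr 1
    funext k; cases k <;> simp [foldSt, single]
  rw [n3] at e3
  have e4 := exec_moveRev (K := K ⊕ Aux) (a := Sum.inr Aux.b) (b := Sum.inl i) (by simp)
    s.ser.reverse (join (single i x.ser) (update (single Aux.a r) Aux.b s.ser.reverse)) (by simp)
  have n4 : update (update (join (single i x.ser) (update (single Aux.a r) Aux.b s.ser.reverse))
      (Sum.inr Aux.b) []) (Sum.inl i) (s.ser.reverse.reverse ++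
        (join (single i x.ser) (update (single Aux.a r) Aux.b s.ser.reverse) :
        K ⊕ Aux → List Bool) (Sum.inl i)) =
      join (single i (s.ser ++ x.ser)) (single Aux.a r) := by
    simp only [update_join_inr, join_inr, update_join_inl, join_inl, List.reverse_reverse,
      single_self, update_single]
    congr 1
    funext k; cases k <;> simp [single]
  rw [n4] at e4
  have e5 := Exec.push (Sum.inl i : K ⊕ Aux) true
    (join (single i (s.ser ++ x.ser)) (single Aux.a r))
  simp only [update_join_inl, join_inl, single_self, update_single] at e5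
  have e6 := h.map_inl (K' := Aux) (single Aux.a r)
  have e7 := exec_moveRev (K := K ⊕ Aux) (a := Sum.inl o) (b := Sum.inr Aux.b) (by simp)
    s'.ser (join (single o s'.ser) (single Aux.a r)) (by simp)
  simp only [update_join_inl, join_inl, single_self, update_single, update_join_inr, join_inr,
    single_nil, single_of_ne, ne_eq, reduceCtorEq, not_false_eq_true, List.append_nil] at e7
  have e8 := exec_moveRev (K := K ⊕ Aux) (a := Sum.inr Aux.b) (b := Sum.inr Aux.d) (by simp)
    s'.ser.reverse (join (fun _ : K => []) (update (single Aux.a r) Aux.b s'.ser.reverse)) (by simp)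
  have n8 : update (update (join (fun _ : K => []) (update (single Aux.a r) Aux.b s'.ser.reverse))
      (Sum.inr Aux.b) []) (Sum.inr Aux.d) (s'.ser.reverse.reverse ++
        (join (fun _ : K => []) (update (single Aux.a r) Aux.b s'.ser.reverse) :
        K ⊕ Aux → List Bool) (Sum.inr Aux.d)) =
      join (fun _ : K => []) (foldSt r s'.ser) := by
    simp only [update_join_inr, join_inr, update_join_inl, join_inl, List.reverse_reverse,
      single_self, update_single]
    congr 1
    funext k; cases k <;> simp [single, foldSt]
  rw [n8] at e8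
  refine (Exec.seq e1 (Exec.seq e2 (Exec.seq e3 (Exec.seq e4 (Exec.seq e5 (Exec.seq e6
    (Exec.seq e7 e8))))))).mono ?_
  simp only [List.length_reverse]
  omega

/-- The main loop of a fold. -/
def foldLoop {K : Type} (c : Cmd K) (i o : K) : Cmd (K ⊕ Aux) :=
  Cmd.loop (Sum.inr Aux.a) (Cmd.pop (Sum.inr Aux.a) Cmd.skip Cmd.skip (foldBody c i o))

theorem exec_foldLoop {K : Type} [DecidableEq K] (c : Cmd K) (i o : K) {σ α : Type}
    (cs : σ → T) (ca : α → T) (f : σ → α → σ) (p : Polynomial ℕ)
    (h : ∀ s x, Exec c (single i (T.cons (cs s) (ca x)).ser) (single o (cs (f s x)).ser)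
      (p.eval (T.cons (cs s) (ca x)).ser.length))
    (B Q : ℕ) (l : List α) :
    ∀ s : σ, (∀ l', l' <+: l → (cs (l'.foldl f s)).ser.length ≤ B) →
      (∀ x ∈ l, (ca x).ser.length ≤ Q) →
      Exec (foldLoop c i o) (join (fun _ : K => []) (foldSt (listCode ca l).ser (cs s).ser))
        (join (fun _ : K => []) (foldSt [] (cs (l.foldl f s)).ser))
        (l.length * (9 * Q + 12 * B + p.eval (1 + B + Q) + 12) + 4) := by
  induction l with
  | nil =>
    intro s hB hQ
    have hne : (join (fun _ : K => []) (foldSt (listCode ca []).ser (cs s).ser))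
        (Sum.inr Aux.a) ≠ [] := by simp [foldSt, listCode, T.ser]
    have e1 : Exec (Cmd.pop (Sum.inr Aux.a : K ⊕ Aux) Cmd.skip Cmd.skip (foldBody c i o))
        (join (fun _ : K => []) (foldSt (listCode ca []).ser (cs s).ser))
        (join (fun _ : K => []) (foldSt [] (cs s).ser)) 2 := by
      refine Exec.popF (t := 1) [] (by simp [foldSt, listCode, T.ser]) ?_
      refine (Exec.skip _).congr ?_
      simp only [update_join_inr]
      congr 1
      funext k; cases k <;> simp [single, foldSt]
    have e2 : Exec (foldLoop c i o) (join (fun _ : K => []) (foldSt [] (cs s).ser))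
        (join (fun _ : K => []) (foldSt [] (cs s).ser)) 1 :=
      Exec.loopDone (by simp [foldSt])
    refine (Exec.loopStep hne e1 e2).mono ?_
    simp
  | cons x l ih =>
    intro s hB hQ
    have hne : (join (fun _ : K => []) (foldSt (listCode ca (x :: l)).ser (cs s).ser))
        (Sum.inr Aux.a) ≠ [] := by simp [foldSt, listCode, T.ser]
    have hB1 : (cs s).ser.length ≤ B := by simpa using hB [] (by simp)
    have hB2 : (cs (f s x)).ser.length ≤ B := by
      simpa using hB [x] (by simp [List.prefix_cons_iff])
    have hQ1 : (ca x).ser.length ≤ Q := hQ x (by simp)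
    have e1 : Exec (Cmd.pop (Sum.inr Aux.a : K ⊕ Aux) Cmd.skip Cmd.skip (foldBody c i o))
        (join (fun _ : K => []) (foldSt (listCode ca (x :: l)).ser (cs s).ser))
        (join (fun _ : K => []) (foldSt (listCode ca l).ser (cs (f s x)).ser))
        (9 * (ca x).ser.length + 6 * (cs s).ser.length + 6 * (cs (f s x)).ser.length +
          p.eval (T.cons (cs s) (ca x)).ser.length + 10 + 1) := by
      refine Exec.popT ((ca x).ser ++ (listCode ca l).ser)
        (by simp [foldSt, listCode, T.ser]) ?_
      refine (exec_foldBody c i o (ca x) (cs s) (cs (f s x)) (listCode ca l).ser _ (h s x)).congrL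
        ?_
      simp only [update_join_inr]
      congr 1
      funext k; cases k <;> simp [single, foldSt]
    have e2 := ih (f s x) (fun l' hl' => by
      have := hB (x :: l') (by simpa [List.cons_prefix_cons] using hl')
      simpa using this) (fun y hy => hQ y (by simp [hy]))
    refine (Exec.loopStep hne e1 e2).mono ?_
    have hp : p.eval (T.cons (cs s) (ca x)).ser.length ≤ p.eval (1 + B + Q) := by
      apply Comp.poly_mono p
      simp only [T.ser, List.length_cons, List.length_append]
      omega
    simp only [List.length_cons, add_mul, one_mul]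
    omega

/-- The fold program: from the code of `(s, l)` to the code of the folded state. -/
def foldProg {K : Type} (c : Cmd K) (i o : K) : Cmd (K ⊕ Aux) :=
  Cmd.pop (Sum.inr Aux.a) Cmd.skip Cmd.skip
    (Cmd.seq (parse (Sum.inr Aux.a) (Sum.inr Aux.b) (Sum.inr Aux.c))
    (Cmd.seq (moveRev (Sum.inr Aux.b) (Sum.inr Aux.d)) (foldLoop c i o)))

theorem PS.foldl {ι σ α : Type} {cs : σ → T} {ca : α → T} {f : σ → α → σ}
    (hf : PS (fun x : σ × α => (T.cons (cs x.1) (ca x.2)).ser)
      (fun x => (cs (f x.1 x.2)).ser)) {u : ι → List Bool} {l : ι → List α} {s : ι → σ}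
    (hl : PS u (fun j => (listCode ca (l j)).ser)) (hs : PS u (fun j => (cs (s j)).ser))
    (b : Polynomial ℕ) (hb : ∀ j, ∀ l', l' <+: l j →
      (cs (l'.foldl f (s j))).ser.length ≤ b.eval (u j).length) :
    PS u (fun j => (cs ((l j).foldl f (s j))).ser) := by
  have hpair : PS u (fun j => (T.cons (cs (s j)) (listCode ca (l j))).ser) :=
    hs.tag_append hl
  obtain ⟨q, hq⟩ := hl.length_le
  obtain ⟨K, _, _, c, i, o, p, hf⟩ := hf
  have key : ∀ (l : List α) (x : α), x ∈ l → (ca x).ser.length ≤ (listCode ca l).ser.length := by
    intro l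
    induction l with
    | nil => intro x hx; simp at hx
    | cons y l ih =>
      intro x hx
      simp only [listCode, T.ser, List.length_cons, List.length_append]
      rcases List.mem_cons.1 hx with rfl | hx
      · omega
      · have := ih x hx; omega
  refine hpair.trans' (foldProg c i o) (Sum.inr Aux.a) (Sum.inr Aux.d)
    (fun j => 1 + ((6 * (cs (s j)).ser.length + 2) + ((3 * (cs (s j)).ser.length + 1) +
      ((l j).length * (9 * q.eval (u j).length + 12 * b.eval (u j).length +
        p.eval (1 + b.eval (u j).length + q.eval (u j).length) + 12) + 4)))) (fun j => ?_)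
    (1 + ((6 * b + 2) + ((3 * b + 1) + (q * (9 * q + 12 * b +
        p.comp (1 + b + q) + 12) + 4)))) (fun j => ?_)
  · rw [single_inr, single_inr]
    have e1 := exec_parse (K := K ⊕ Aux) (a := Sum.inr Aux.a) (b := Sum.inr Aux.b)
      (c := Sum.inr Aux.c) (by simp) (by simp) (by simp) (cs (s j))
      (join (fun _ : K => []) (single Aux.a ((cs (s j)).ser ++ (listCode ca (l j)).ser)))
      (listCode ca (l j)).ser (by simp) (by simp [single_of_ne])
    simp only [update_join_inr, join_inr, update_single, single_of_ne, ne_eq, reduceCtorEq,
      not_false_eq_true, List.append_nil] at e1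
    have e2 := exec_moveRev (K := K ⊕ Aux) (a := Sum.inr Aux.b) (b := Sum.inr Aux.d) (by simp)
      (cs (s j)).ser.reverse (join (fun _ : K => []) (update (single Aux.a (listCode ca (l j)).ser)
        Aux.b (cs (s j)).ser.reverse)) (by simp)
    have n2 : update (update (join (fun _ : K => []) (update (single Aux.a (listCode ca (l j)).ser)
        Aux.b (cs (s j)).ser.reverse)) (Sum.inr Aux.b) []) (Sum.inr Aux.d)
        ((cs (s j)).ser.reverse.reverse ++ (join (fun _ : K => [])
          (update (single Aux.a (listCode ca (l j)).ser)
        Aux.b (cs (s j)).ser.reverse) : K ⊕ Aux → List Bool) (Sum.inr Aux.d)) =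
        join (fun _ : K => []) (foldSt (listCode ca (l j)).ser (cs (s j)).ser) := by
      simp only [update_join_inr, join_inr, update_join_inl, join_inl, List.reverse_reverse]
      congr 1
      funext k; cases k <;> simp [single, foldSt]
    rw [n2, List.length_reverse] at e2
    have e3 := exec_foldLoop c i o cs ca f p (fun s x => hf (s, x)) (b.eval (u j).length)
      (q.eval (u j).length) (l j) (s j) (hb j)
      (fun x hx => (key _ x hx).trans (hq j))
    have n3 : join (fun _ : K => []) (foldSt [] (cs ((l j).foldl f (s j))).ser) =
        (join (fun _ : K => []) (single Aux.d (cs ((l j).foldl f (s j))).ser) :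
          K ⊕ Aux → List Bool) := by
      congr 1
      funext k; cases k <;> simp [single, foldSt]
    rw [n3] at e3
    refine (Exec.popT ((cs (s j)).ser ++ (listCode ca (l j)).ser)
      (by simp [T.ser]) ((Exec.seq e1 (Exec.seq e2 e3)).congrL ?_)).mono (by omega)
    simp
  · have h1 : (cs (s j)).ser.length ≤ b.eval (u j).length := by
      simpa using hb j [] (by simp)
    have h2 : (l j).length ≤ q.eval (u j).length := by
      have h3 := hq j
      have h4 := length_listCode ca (l j)
      omega
    simp only [Polynomial.eval_add, Polynomial.eval_mul, Polynomial.eval_ofNat,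
      Polynomial.eval_one, Polynomial.eval_comp]
    have h5 := Nat.mul_le_mul_right (9 * q.eval (u j).length + 12 * b.eval (u j).length +
        p.eval (1 + b.eval (u j).length + q.eval (u j).length) + 12) h2
    omega

/-- The tree of a bit. -/
def bitCode : Bool → T
  | false => T.nil
  | true => T.cons T.nil T.nil

/-- Conversion of a raw word (reversed, on stack `b`) to a coded list on stack `d`. -/
def rawLoop : Cmd Aux :=
  Cmd.loop Aux.b (Cmd.pop Aux.b Cmd.skip
    (pushWord Aux.d [true, false]) (pushWord Aux.d [true, true, false, false]))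

theorem exec_rawLoop (l : List Bool) :
    ∀ m : List Bool, Exec rawLoop (update (single Aux.b l.reverse) Aux.d (listCode bitCode m).ser)
      (single Aux.d (listCode bitCode (l ++ m)).ser) (7 * l.length + 1) := by
  induction l using List.reverseRecOn with
  | nil =>
    intro m
    refine (Exec.loopDone (by simp)).congr ?_
    funext k; cases k <;> simp [single]
  | append_singleton l x ih =>
    intro m
    have hne : (update (single Aux.b (l ++ [x]).reverse) Aux.d (listCode bitCode m).ser) Aux.b ≠
        [] := by simp
    have e1 : Exec (Cmd.pop Aux.b Cmd.skip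
        (pushWord Aux.d [true, false]) (pushWord Aux.d [true, true, false, false]))
        (update (single Aux.b (l ++ [x]).reverse) Aux.d (listCode bitCode m).ser)
        (update (single Aux.b l.reverse) Aux.d (listCode bitCode (x :: m)).ser) 6 := by
      cases x with
      | false =>
        refine (Exec.popF (t := 3) l.reverse (by simp) ?_).mono (by norm_num)
        refine (exec_pushWord _ _ _).congr ?_
        funext k; cases k <;> simp [single, listCode, bitCode, T.ser]
      | true =>
        refine (Exec.popT (t := 5) l.reverse (by simp) ?_)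
        refine (exec_pushWord _ _ _).congr ?_
        funext k; cases k <;> simp [single, listCode, bitCode, T.ser]
    have e2 := ih (x :: m)
    refine ((Exec.loopStep hne e1 e2).mono ?_).congr ?_
    · simp only [List.length_append, List.length_singleton]; omega
    · simp

theorem PS.raw {ι : Type} {u v : ι → List Bool} (h : PS u v) :
    PS u (fun j => (listCode bitCode (v j)).ser) := by
  obtain ⟨q, hq⟩ := h.length_le
  refine h.trans' (Cmd.seq (moveRev Aux.a Aux.b) (Cmd.seq (Cmd.push Aux.d false) rawLoop))
    Aux.a Aux.d (fun j => (3 * (v j).length + 1) + (1 + (7 * (v j).length + 1))) (fun j => ?_)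
    (10 * q + 3) (fun j => ?_)
  · have e1 := exec_moveRev (a := Aux.a) (b := Aux.b) (by simp) (v j) (single Aux.a (v j))
      (by simp)
    have e2 := Exec.push Aux.d false (single Aux.b (v j).reverse)
    have e3 := exec_rawLoop (v j) []
    rw [List.append_nil] at e3
    refine Exec.seq (e1.congr ?_) (Exec.seq (e2.congr ?_) e3)
    · simp [single_of_ne]; rfl
    · simp [single_of_ne, listCode, T.ser]
  · have := hq j
    simp only [Polynomial.eval_add, Polynomial.eval_mul, Polynomial.eval_ofNat]
    omega

end Pool.Agent.Work.PolyTime
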