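import Pool.Agent.Work.PolyTime.NPClose

/-!
Signed numbers of certificates (the functions of the class GapP) and their closure properties.
-/

set_option autoImplicit false
set_option linter.unusedSimpArgs false

namespace Pool.Agent.Work.PolyTime

open Pool.Agent.Work.MP_0532f7_lc (words mem_words card_words)

/-! ### Signs -/

/-- A sign is given by two bits: it is not zero, it is negative. -/
def sg (s : Bool × Bool) : ℤ := bif s.1 then (bif s.2 then -1 else 1) else 0

/-- Multiplication of signs. -/
def sgMul (s t : Bool × Bool) : Bool × Bool := (s.1 && t.1, bif s.2 then !t.2 else t.2)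

theorem sg_mul (s t : Bool × Bool) : sg (sgMul s t) = sg s * sg t := by
  rcases s with ⟨a, b⟩
  rcases t with ⟨c, d⟩
  cases a <;> cases b <;> cases c <;> cases d <;> rfl

section

variable {α β γ : Type} [Code α] [Code β] [Code γ]

theorem PTime.sgMul {s t : α → Bool × Bool} (hs : PTime s) (ht : PTime t) :
    PTime (fun x => PolyTime.sgMul (s x) (t x)) := by
  unfold PolyTime.sgMul
  exact PTime.prodMk (PTime.and (by fun_prop) (by fun_prop))
    (PTime.cond (by fun_prop) (PTime.not (by fun_prop)) (by fun_prop))

/-! ### Sums over words -/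

theorem sum_words_zero (F : List Bool → ℤ) : ∑ y ∈ words 0, F y = F [] := by
  have : words 0 = {[]} := by
    ext y
    rw [mem_words, Finset.mem_singleton, List.length_eq_zero_iff]
  rw [this, Finset.sum_singleton]

theorem sum_words_add (m n : ℕ) (F : List Bool → List Bool → ℤ) :
    ∑ y ∈ words (m + n), F (y.take m) (y.drop m) = ∑ u ∈ words m, ∑ v ∈ words n, F u v := by
  rw [← Finset.sum_product']
  refine Finset.sum_nbij' (fun y => (y.take m, y.drop m)) (fun p => p.1 ++ p.2) ?_ ?_ ?_ ?_ ?_
  · intro y hy
    rw [mem_words] at hy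
    rw [Finset.mem_product, mem_words, mem_words, List.length_take, List.length_drop]
    omega
  · rintro ⟨u, v⟩ h
    rw [Finset.mem_product, mem_words, mem_words] at h
    rw [mem_words, List.length_append]
    simp only at h ⊢
    omega
  · intro y _
    exact List.take_append_drop m y
  · rintro ⟨u, v⟩ h
    rw [Finset.mem_product, mem_words, mem_words] at h
    simp only at h ⊢
    rw [List.take_left' h.1, List.drop_left' h.1]
  · intro y _
    rfl

theorem sum_words_succ (n : ℕ) (F : List Bool → ℤ) : ∑ y ∈ words (n + 1), F y =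
    ∑ v ∈ words n, F (true :: v) + ∑ v ∈ words n, F (false :: v) := by
  have h := sum_words_add 1 n fun u v => F (u ++ v)
  have h1 : words 1 = {[true], [false]} := by
    ext y
    rw [mem_words, Finset.mem_insert, Finset.mem_singleton]
    rcases y with _ | ⟨b, _ | ⟨c, y⟩⟩
    · simp
    · cases b <;> simp
    · simp
  rw [h1, Finset.sum_insert (by simp), Finset.sum_singleton, add_comm 1 n] at h
  refine Eq.trans ?_ h
  refine Finset.sum_congr rfl fun y _ => ?_
  rw [List.take_append_drop]

theorem sum_words_all (n : ℕ) :
    ∑ v ∈ words n, (if (v.all fun b => !b) = true then (1 : ℤ) else 0) = 1 := by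
  rw [Finset.sum_eq_single (List.replicate n false)]
  · simp
  · intro v hv hne
    rw [if_neg]
    intro h
    apply hne
    rw [mem_words] at hv
    rw [List.eq_replicate_iff]
    simp only [List.all_eq_true, Bool.not_eq_true'] at h
    exact ⟨hv, h⟩
  · intro h
    exact absurd (mem_words.2 List.length_replicate) h

/-! ### Signed numbers of certificates -/

/-- `f` is a signed number of certificates whose length and whose signs are computed in polynomial
time. -/
def Gap (f : α → ℤ) : Prop :=
  ∃ (len : α → ℕ) (σ : α × List Bool → Bool × Bool), PTime len ∧ PTime σ ∧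
    ∀ a, f a = ∑ y ∈ words (len a), sg (σ (a, y))

theorem Gap.congr {f g : α → ℤ} (hf : Gap f) (h : ∀ a, f a = g a) : Gap g := by
  obtain ⟨len, σ, h1, h2, h3⟩ := hf
  exact ⟨len, σ, h1, h2, fun a => (h a).symm.trans (h3 a)⟩

theorem Gap.comp {f : β → ℤ} (hf : Gap f) {g : α → β} (hg : PTime g) :
    Gap (fun a => f (g a)) := by
  obtain ⟨len, σ, h1, h2, h3⟩ := hf
  exact ⟨fun a => len (g a), fun z => σ (g z.1, z.2), h1.comp hg,
    h2.comp (PTime.prodMk (hg.comp PTime.fst) PTime.snd), fun a => h3 (g a)⟩

theorem Gap.one : Gap (fun _ : α => 1) :=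
  ⟨fun _ => 0, fun _ => (true, false), PTime.const _, PTime.const _, fun a => by
    rw [sum_words_zero]; rfl⟩

theorem Gap.ind {t : α → Bool} (ht : PTime t) : Gap (fun a => if t a = true then 1 else 0) :=
  ⟨fun _ => 0, fun z => (t z.1, false), PTime.const _,
    PTime.prodMk (ht.comp PTime.fst) (PTime.const _), fun a => by
      rw [sum_words_zero]
      beta_reduce
      cases t a <;> rfl⟩

theorem Gap.pow2 {n : α → ℕ} (hn : PTime n) : Gap (fun a => (2 : ℤ) ^ n a) :=
  ⟨n, fun _ => (true, false), hn, PTime.const _, fun a => by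
    have : sg (true, false) = 1 := rfl
    beta_reduce
    rw [this, Finset.sum_const, card_words, nsmul_eq_mul, mul_one]
    push_cast
    rfl⟩

theorem Gap.neg {f : α → ℤ} (hf : Gap f) : Gap (fun a => - f a) := by
  obtain ⟨len, σ, h1, h2, h3⟩ := hf
  refine ⟨len, fun z => ((σ z).1, !(σ z).2), h1,
    PTime.prodMk (PTime.fst.comp h2) (PTime.not (PTime.snd.comp h2)), fun a => ?_⟩
  beta_reduce
  rw [h3, ← Finset.sum_neg_distrib]
  refine Finset.sum_congr rfl fun y _ => ?_
  generalize σ (a, y) = s
  rcases s with ⟨b, c⟩
  cases b <;> cases c <;> rfl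

theorem Gap.mul {f g : α → ℤ} (hf : Gap f) (hg : Gap g) : Gap (fun a => f a * g a) := by
  obtain ⟨m, σ, h1, h2, h3⟩ := hf
  obtain ⟨n, τ, k1, k2, k3⟩ := hg
  have e1 : PTime (fun z : α × List Bool => m z.1) := h1.comp PTime.fst
  refine ⟨fun a => m a + n a, fun z => PolyTime.sgMul (σ (z.1, z.2.take (m z.1)))
    (τ (z.1, z.2.drop (m z.1))), PTime.natAdd h1 k1, ?_, fun a => ?_⟩
  · exact PTime.sgMul (h2.comp (PTime.prodMk PTime.fst (PTime.take PTime.snd e1)))
      (k2.comp (PTime.prodMk PTime.fst (PTime.drop PTime.snd e1)))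
  · have := sum_words_add (m a) (n a) fun u v => sg (PolyTime.sgMul (σ (a, u)) (τ (a, v)))
    beta_reduce
    rw [this, h3, k3, Finset.sum_mul_sum]
    refine Finset.sum_congr rfl fun u _ => Finset.sum_congr rfl fun v _ => ?_
    rw [sg_mul]

theorem Gap.add {f g : α → ℤ} (hf : Gap f) (hg : Gap g) : Gap (fun a => f a + g a) := by
  obtain ⟨m, σ, h1, h2, h3⟩ := hf
  obtain ⟨n, τ, k1, k2, k3⟩ := hg
  have e1 : PTime (fun z : α × List Bool => m z.1) := h1.comp PTime.fst
  have et : PTime (fun z : α × List Bool => z.2.tail.take (m z.1)) :=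
    PTime.take (PTime.tail PTime.snd) e1
  have ed : PTime (fun z : α × List Bool => z.2.tail.drop (m z.1)) :=
    PTime.drop (PTime.tail PTime.snd) e1
  have hh : PTime (fun z : α × List Bool => z.2.headD false) := by
    have : PTime (fun z : α × List Bool => (z.2.head?).getD false) :=
      PTime.getD (PTime.headOpt PTime.snd) (PTime.const _)
    refine this.code_congr fun z => ?_
    cases z.2 <;> rfl
  refine ⟨fun a => m a + n a + 1, fun z => bif z.2.headD false then
      PolyTime.sgMul (σ (z.1, z.2.tail.take (m z.1))) ((z.2.tail.drop (m z.1)).all fun b => !b, false)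
    else PolyTime.sgMul ((z.2.tail.take (m z.1)).all fun b => !b, false)
      (τ (z.1, z.2.tail.drop (m z.1))), PTime.succ (PTime.natAdd h1 k1), ?_, fun a => ?_⟩
  · refine PTime.cond hh ?_ ?_
    · exact PTime.sgMul (h2.comp (PTime.prodMk PTime.fst et))
        (PTime.prodMk (PTime.all (p := fun _ b => !b) ed (PTime.not PTime.snd)) (PTime.const _))
    · exact PTime.sgMul (PTime.prodMk (PTime.all (p := fun _ b => !b) et (PTime.not PTime.snd))
        (PTime.const _)) (k2.comp (PTime.prodMk PTime.fst ed))
  · have hs : ∀ v : List Bool, sg (v.all fun b => !b, false) =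
        if (v.all fun b => !b) = true then (1 : ℤ) else 0 := by
      intro v
      cases (v.all fun b => !b) <;> rfl
    rw [sum_words_succ]
    simp only [List.headD_cons, List.tail_cons, cond_true, cond_false]
    have e2 := sum_words_add (m a) (n a) fun u v =>
      sg (PolyTime.sgMul (σ (a, u)) (v.all fun b => !b, false))
    have e3 := sum_words_add (m a) (n a) fun u v =>
      sg (PolyTime.sgMul (u.all fun b => !b, false) (τ (a, v)))
    rw [e2, e3]
    simp only [sg_mul, hs]
    rw [← Finset.sum_mul_sum, ← Finset.sum_mul_sum, sum_words_all, sum_words_all, mul_one, one_mul,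
      h3, k3]

theorem sz_drop_le {X : Type} [Code X] (l : List X) (n : ℕ) : sz (l.drop n) ≤ sz l := by
  have h := sz_append (l.take n) (l.drop n)
  rw [List.take_append_drop] at h
  have := sz_pos (l.take n)
  omega

/-- Products over lists. -/
theorem Gap.listProd {F : α × β → ℤ} (hF : Gap F) {l : α → List β} (hl : PTime l) :
    Gap (fun a => ((l a).map fun b => F (a, b)).prod) := by
  obtain ⟨len, σ, h1, h2, h3⟩ := hF
  refine ⟨fun a => ((l a).map fun b => len (a, b)).sum,
    fun z => ((l z.1).foldl (fun (s : List Bool × (Bool × Bool)) b =>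
      (s.1.drop (len (z.1, b)), PolyTime.sgMul s.2 (σ ((z.1, b), s.1.take (len (z.1, b))))))
      (z.2, (true, false))).2, ?_, ?_, fun a => ?_⟩
  · exact PTime.listSum (PTime.map (f := fun a b => len (a, b)) hl h1)
  · refine PTime.snd.comp (PTime.foldlGrow (α := α × List Bool)
      (l := fun z => l z.1) (s := fun z => (z.2, (true, false)))
      (f := fun w : (α × List Bool) × (List Bool × (Bool × Bool)) × β =>
        (w.2.1.1.drop (len (w.1.1, w.2.2)),
          PolyTime.sgMul w.2.1.2 (σ ((w.1.1, w.2.2), w.2.1.1.take (len (w.1.1, w.2.2))))))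
      (hl.comp PTime.fst) (by fun_prop) ?_ (G := fun _ => 7) (PB.const 7) ?_)
    · have ab : PTime (fun w : (α × List Bool) × (List Bool × (Bool × Bool)) × β =>
          (w.1.1, w.2.2)) := by fun_prop
      have n1 : PTime (fun w : (α × List Bool) × (List Bool × (Bool × Bool)) × β =>
          len (w.1.1, w.2.2)) := h1.comp ab
      have r1 : PTime (fun w : (α × List Bool) × (List Bool × (Bool × Bool)) × β =>
          w.2.1.1) := by fun_prop
      exact PTime.prodMk (PTime.drop r1 n1) (PTime.sgMul (by fun_prop)
        (h2.comp (PTime.prodMk ab (PTime.take r1 n1))))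
    · rintro z b _ ⟨r, s⟩
      have e1 := sz_drop_le r (len (z.1, b))
      generalize PolyTime.sgMul s (σ ((z.1, b), r.take (len (z.1, b)))) = t
      rcases t with ⟨t1, t2⟩
      have e2 := sz_bool t1
      have e3 := sz_bool t2
      simp only [sz_pair]
      have e4 := sz_pos s
      omega
  · have key : ∀ (l : List β) (s : Bool × Bool),
        ∑ y ∈ words ((l.map fun b => len (a, b)).sum), sg ((l.foldl
          (fun (s : List Bool × (Bool × Bool)) b => (s.1.drop (len (a, b)),
            PolyTime.sgMul s.2 (σ ((a, b), s.1.take (len (a, b)))))) (y, s)).2) =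
        sg s * (l.map fun b => F (a, b)).prod := by
      intro l
      induction l with
      | nil =>
        intro s
        simp only [List.map_nil, List.sum_nil, List.foldl_nil, List.prod_nil, mul_one]
        rw [sum_words_zero (fun _ => sg s)]
      | cons b l ih =>
        intro s
        rw [List.map_cons, List.sum_cons, List.map_cons, List.prod_cons]
        simp only [List.foldl_cons]
        have e := sum_words_add (len (a, b)) ((l.map fun b => len (a, b)).sum) fun u v =>
          sg ((l.foldl (fun (s : List Bool × (Bool × Bool)) b => (s.1.drop (len (a, b)),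
            PolyTime.sgMul s.2 (σ ((a, b), s.1.take (len (a, b))))))
              (v, PolyTime.sgMul s (σ ((a, b), u)))).2)
        rw [e]
        simp only [ih, sg_mul]
        rw [← Finset.sum_mul, ← Finset.mul_sum, ← h3]
        ring
    have h := key (l a) (true, false)
    have e1 : sg (true, false) = 1 := rfl
    rw [e1, one_mul] at h
    exact h.symm

end

/-- Positivity of a signed number of certificates is in PP. -/
theorem Gap.inPP {f : List Bool → ℤ} (hf : Gap f) : InPP {x | 0 < f x} := by
  obtain ⟨len, σ, h1, h2, h3⟩ := hf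
  obtain ⟨q, hq⟩ := length_bound h1
  have hle : ∀ x, len x ≤ q.eval x.length := fun x => by
    have := hq x
    rw [sz_nat] at this
    omega
  have e1 : PTime (fun z : List Bool × List Bool => σ (z.1, z.2.take (len z.1))) :=
    h2.comp (PTime.prodMk PTime.fst (PTime.take PTime.snd (h1.comp PTime.fst)))
  refine inPP_compare
    (V₁ := fun z => (σ (z.1, z.2.take (len z.1))).1 && (σ (z.1, z.2.take (len z.1))).2)
    (V₂ := fun z => (σ (z.1, z.2.take (len z.1))).1 && !(σ (z.1, z.2.take (len z.1))).2)
    (PTime.and (PTime.fst.comp e1) (PTime.snd.comp e1))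
    (PTime.and (PTime.fst.comp e1) (PTime.not (PTime.snd.comp e1))) q fun x => ?_
  have hcount : ∀ B : List Bool → Bool,
      (({y : List Bool | y.length = q.eval x.length ∧ B (y.take (len x)) = true}.ncard : ℕ) : ℤ) =
        2 ^ (q.eval x.length - len x) * ∑ u ∈ words (len x), (if B u = true then (1 : ℤ) else 0) := by
    intro B
    have e2 : {y : List Bool | y.length = q.eval x.length ∧ B (y.take (len x)) = true} =
        ((words (q.eval x.length)).filter fun y => B (y.take (len x)) = true : Finset (List Bool)) := by
      ext y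
      simp only [Set.mem_setOf_eq, Finset.coe_filter, mem_words]
    rw [e2, Set.ncard_coe_finset, Finset.card_filter]
    push_cast
    have e3 := sum_words_add (len x) (q.eval x.length - len x) fun u _ =>
      if B u = true then (1 : ℤ) else 0
    rw [Nat.add_sub_cancel' (hle x)] at e3
    rw [e3]
    simp only [Finset.sum_const, card_words, nsmul_eq_mul]
    rw [← Finset.mul_sum]
    push_cast
    rfl
  have g1 := hcount fun u => (σ (x, u)).1 && (σ (x, u)).2
  have g2 := hcount fun u => (σ (x, u)).1 && !(σ (x, u)).2
  have hfx : f x = ∑ u ∈ words (len x), (if ((σ (x, u)).1 && !(σ (x, u)).2) = true then (1 : ℤ) else 0)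
      - ∑ u ∈ words (len x), (if ((σ (x, u)).1 && (σ (x, u)).2) = true then (1 : ℤ) else 0) := by
    rw [h3, ← Finset.sum_sub_distrib]
    refine Finset.sum_congr rfl fun u _ => ?_
    generalize σ (x, u) = s
    rcases s with ⟨b, c⟩
    cases b <;> cases c <;> rfl
  have hp : (0 : ℤ) < 2 ^ (q.eval x.length - len x) := by positivity
  have h4 : x ∈ {x | 0 < f x} ↔ 0 < f x := Iff.rfl
  rw [h4]
  constructor
  · intro h
    have h5 : ((({y : List Bool | y.length = q.eval x.length ∧
        ((σ (x, y.take (len x))).1 && (σ (x, y.take (len x))).2) = true}.ncard : ℕ) : ℤ)) <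
        ((({y : List Bool | y.length = q.eval x.length ∧
        ((σ (x, y.take (len x))).1 && !(σ (x, y.take (len x))).2) = true}.ncard : ℕ) : ℤ)) := by
      rw [g1, g2]
      refine mul_lt_mul_of_pos_left ?_ hp
      linarith
    exact_mod_cast h5
  · intro h
    have h5 : ((({y : List Bool | y.length = q.eval x.length ∧
        ((σ (x, y.take (len x))).1 && (σ (x, y.take (len x))).2) = true}.ncard : ℕ) : ℤ)) <
        ((({y : List Bool | y.length = q.eval x.length ∧
        ((σ (x, y.take (len x))).1 && !(σ (x, y.take (len x))).2) = true}.ncard : ℕ) : ℤ)) := by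
      exact_mod_cast h
    rw [g1, g2] at h5
    have := lt_of_mul_lt_mul_left h5 hp.le
    linarith

end Pool.Agent.Work.PolyTime
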