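import Pool.Agent.Work.PolyTime.Machine

/-!
The concrete stack machine which translates a formula into a system of gates.
-/

set_option autoImplicit false
set_option linter.unusedSimpArgs false

namespace Pool.Agent.Work.PolyTime

/-- Variables of the gate system: the variables of the formula and auxiliary ones. -/
abbrev V : Type := Name ⊕ (ℕ × ℕ)

/-- Gates: kind `0` is `x = 1`, kind `1` is `x + y = z`, the other kinds are `x * y = z`. -/
abbrev Gate : Type := ℕ × V × V × V

def Gate.Holds (x : V → ℝ) (g : Gate) : Prop :=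
  if g.1 = 0 then x g.2.1 = 1
  else if g.1 = 1 then x g.2.1 + x g.2.2.1 = x g.2.2.2
  else x g.2.1 * x g.2.2.1 = x g.2.2.2

/-- Items of the concrete stack: a variable, a literal, a compound term, a formula. -/
abbrev Item : Type := Name ⊕ V ⊕ V ⊕ (V × V)

abbrev iname (x : Name) : Item := Sum.inl x
abbrev ilit (v : V) : Item := Sum.inr (Sum.inl v)
abbrev iterm (v : V) : Item := Sum.inr (Sum.inr (Sum.inl v))
abbrev iform (p : V × V) : Item := Sum.inr (Sum.inr (Sum.inr p))

def itemT : Item → Option V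
  | Sum.inl x => some (Sum.inl x)
  | Sum.inr (Sum.inl v) => some v
  | Sum.inr (Sum.inr (Sum.inl v)) => some v
  | Sum.inr (Sum.inr (Sum.inr _)) => none

def itemF : Item → Option (V × V)
  | Sum.inr (Sum.inr (Sum.inr p)) => some p
  | _ => none

def itemL : Item → Option V
  | Sum.inr (Sum.inl v) => some v
  | _ => none

def itemV : Item → Option Name
  | Sum.inl x => some x
  | _ => none

/-- Pop an item of a given sort. -/
def popBy {β : Type} (f : Item → Option β) : List Item → Option (β × List Item)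
  | [] => none
  | i :: r => (f i).bind fun b => some (b, r)

abbrev popT := popBy itemT
abbrev popF := popBy itemF
abbrev popL := popBy itemL
abbrev popV := popBy itemV

/-- Auxiliary variables. -/
abbrev ax (n j : ℕ) : V := Sum.inr (n, j)

/-- The variable with value one. -/
abbrev vone : V := ax 0 0

/-- New items and new gates. -/
abbrev Out : Type := List Item × List Gate

def cTT (f : V → V → Item × List Gate) (st : List Item) : Option Out :=
  (popT st).bind fun y => (popT y.2).bind fun z =>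
    some ((f z.1 y.1).1 :: z.2, (f z.1 y.1).2)

def cFF (f : V × V → V × V → Item × List Gate) (st : List Item) : Option Out :=
  (popF st).bind fun y => (popF y.2).bind fun z =>
    some ((f z.1 y.1).1 :: z.2, (f z.1 y.1).2)

def addG (n : ℕ) (s t : V) : Item × List Gate := (iterm (ax n 0), [(1, s, t, ax n 0)])
def subG (n : ℕ) (s t : V) : Item × List Gate := (iterm (ax n 0), [(1, ax n 0, t, s)])
def mulG (n : ℕ) (s t : V) : Item × List Gate := (iterm (ax n 0), [(2, s, t, ax n 0)])
def eqG (n : ℕ) (s t : V) : Item × List Gate :=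
  (iform (ax n 0, ax n 1), [(1, ax n 0, t, s), (2, ax n 0, ax n 2, ax n 3),
    (1, ax n 1, vone, ax n 3)])

/-- the gates for `s < t` -/
def ltGates (n : ℕ) (s t : V) : List Gate :=
  [(1, ax n 0, s, t), (2, ax n 2, ax n 2, ax n 3), (2, ax n 0, ax n 3, ax n 4),
    (1, ax n 1, vone, ax n 4), (2, ax n 6, ax n 6, ax n 7), (1, ax n 0, ax n 7, ax n 5)]

def ltG (n : ℕ) (s t : V) : Item × List Gate := (iform (ax n 1, ax n 5), ltGates n s t)
def leG (n : ℕ) (s t : V) : Item × List Gate := (iform (ax n 5, ax n 1), ltGates n t s)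

def andG (n : ℕ) (p q : V × V) : Item × List Gate :=
  (iform (ax n 0, ax n 3), [(2, p.1, p.1, ax n 1), (2, q.1, q.1, ax n 2),
    (1, ax n 1, ax n 2, ax n 0), (2, p.2, q.2, ax n 3)])

def orG (n : ℕ) (p q : V × V) : Item × List Gate :=
  (iform (ax n 3, ax n 0), [(2, p.2, p.2, ax n 1), (2, q.2, q.2, ax n 2),
    (1, ax n 1, ax n 2, ax n 0), (2, p.1, q.1, ax n 3)])

/-- The action of a symbol on the concrete stack. -/
def cAct : Sym → ℕ → List Item → Option Out
  | .lit, n, st => some (ilit (ax n 0) :: st, [(1, ax n 0, ax n 0, ax n 0)])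
  | .bit false, n, st => (popL st).bind fun y =>
      some (ilit (ax n 0) :: y.2, [(1, y.1, y.1, ax n 0)])
  | .bit true, n, st => (popL st).bind fun y =>
      some (ilit (ax n 0) :: y.2, [(1, y.1, y.1, ax n 1), (1, ax n 1, vone, ax n 0)])
  | .var, _, st => some (iname [] :: st, [])
  | .vbit b, _, st => (popV st).bind fun y => some (iname (y.1 ++ [b]) :: y.2, [])
  | .add, n, st => cTT (addG n) st
  | .sub, n, st => cTT (subG n) st
  | .mul, n, st => cTT (mulG n) st
  | .neg, n, st => (popT st).bind fun y =>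
      some (iterm (ax n 0) :: y.2, [(1, ax n 0, y.1, ax n 1), (1, ax n 1, ax n 1, ax n 1)])
  | .eq, n, st => cTT (eqG n) st
  | .lt, n, st => cTT (ltG n) st
  | .le, n, st => cTT (leG n) st
  | .and, n, st => cFF (andG n) st
  | .or, n, st => cFF (orG n) st
  | .not, _, st => (popF st).bind fun y => some (iform (y.1.2, y.1.1) :: y.2, [])

/-- Counter, stack, gates. -/
abbrev St : Type := ℕ × List Item × List Gate

def cStep (s : St) (a : Sym) : Option St :=
  (cAct a s.1 s.2.1).bind fun y => some (s.1 + 1, y.1, y.2 ++ s.2.2)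

def cInit : St := (1, [], [(0, vone, vone, vone)])

def cRun (toks : List Sym) : Option St :=
  toks.foldl (fun s a => s.bind fun s => cStep s a) (some cInit)

/-! ### The simulation relation -/

/-- Correspondence of shapes. -/
def Shape : Item → Obj → Prop
  | Sum.inl x, Sum.inl (Term.var y) => x = y
  | Sum.inr (Sum.inl _), Sum.inl (Term.lit _) => True
  | Sum.inr (Sum.inr (Sum.inl _)), Sum.inl (Term.add _ _) => True
  | Sum.inr (Sum.inr (Sum.inl _)), Sum.inl (Term.sub _ _) => True
  | Sum.inr (Sum.inr (Sum.inl _)), Sum.inl (Term.mul _ _) => True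
  | Sum.inr (Sum.inr (Sum.inl _)), Sum.inl (Term.neg _) => True
  | Sum.inr (Sum.inr (Sum.inr _)), Sum.inr _ => True
  | _, _ => False

/-- Old variables. -/
def Old (n : ℕ) : V → Prop
  | Sum.inl x => x.length ≤ n
  | Sum.inr p => p.1 < n ∧ p.2 < 8

/-- Items made of old variables. -/
def IOld (n : ℕ) : Item → Prop
  | Sum.inl x => x.length ≤ n
  | Sum.inr (Sum.inl v) => Old n v
  | Sum.inr (Sum.inr (Sum.inl v)) => Old n v
  | Sum.inr (Sum.inr (Sum.inr p)) => Old n p.1 ∧ Old n p.2

def GOld (n : ℕ) (g : Gate) : Prop := Old n g.2.1 ∧ Old n g.2.2.1 ∧ Old n g.2.2.2 ∧ g.1 < 3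

/-- The value of an item, soundness. -/
def Rep (x : V → ℝ) : Item → Obj → Prop
  | Sum.inl n, Sum.inl t => x (Sum.inl n) = t.eval (fun v => x (Sum.inl v))
  | Sum.inr (Sum.inl v), Sum.inl t => x v = t.eval (fun v => x (Sum.inl v))
  | Sum.inr (Sum.inr (Sum.inl v)), Sum.inl t => x v = t.eval (fun v => x (Sum.inl v))
  | Sum.inr (Sum.inr (Sum.inr p)), Sum.inr φ =>
      (x p.1 = 0 → φ.Holds (fun v => x (Sum.inl v))) ∧
      (x p.2 = 0 → ¬ φ.Holds (fun v => x (Sum.inl v)))
  | _, _ => False

/-- The value of an item, completeness. -/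
def RepC (x : V → ℝ) : Item → Obj → Prop
  | Sum.inl n, Sum.inl t => x (Sum.inl n) = t.eval (fun v => x (Sum.inl v))
  | Sum.inr (Sum.inl v), Sum.inl t => x v = t.eval (fun v => x (Sum.inl v))
  | Sum.inr (Sum.inr (Sum.inl v)), Sum.inl t => x v = t.eval (fun v => x (Sum.inl v))
  | Sum.inr (Sum.inr (Sum.inr p)), Sum.inr φ =>
      (φ.Holds (fun v => x (Sum.inl v)) → x p.1 = 0) ∧
      (¬ φ.Holds (fun v => x (Sum.inl v)) → x p.2 = 0)
  | _, _ => False

theorem Old.mono {n m : ℕ} (h : n ≤ m) {v : V} (hv : Old n v) : Old m v := by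
  rcases v with x | p
  · exact le_trans hv h
  · exact ⟨lt_of_lt_of_le hv.1 h, hv.2⟩

theorem IOld.mono {n m : ℕ} (h : n ≤ m) {i : Item} (hi : IOld n i) : IOld m i := by
  rcases i with x | v | v | p
  · exact le_trans hi h
  · exact Old.mono h hi
  · exact Old.mono h hi
  · exact ⟨Old.mono h hi.1, Old.mono h hi.2⟩

theorem GOld.mono {n m : ℕ} (h : n ≤ m) {g : Gate} (hg : GOld n g) : GOld m g :=
  ⟨hg.1.mono h, hg.2.1.mono h, hg.2.2.1.mono h, hg.2.2.2⟩

/-- Changing the auxiliary variables of time `n`. -/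
def setAx (x : V → ℝ) (n : ℕ) (f : ℕ → ℝ) : V → ℝ
  | Sum.inl v => x (Sum.inl v)
  | Sum.inr p => if p.1 = n then f p.2 else x (Sum.inr p)

theorem setAx_inl (x : V → ℝ) (n : ℕ) (f : ℕ → ℝ) (v : Name) :
    setAx x n f (Sum.inl v) = x (Sum.inl v) := rfl

theorem setAx_ax (x : V → ℝ) (n : ℕ) (f : ℕ → ℝ) (j : ℕ) : setAx x n f (Sum.inr (n, j)) = f j := by
  simp [setAx]

theorem setAx_old {x : V → ℝ} {n : ℕ} {f : ℕ → ℝ} {v : V} (h : Old n v) : setAx x n f v = x v := by
  rcases v with y | p
  · rfl
  · have : p.1 ≠ n := by have := h.1; omega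
    simp [setAx, this]

theorem setAx_holds {x : V → ℝ} {n : ℕ} {f : ℕ → ℝ} {g : Gate} (h : GOld n g) :
    g.Holds (setAx x n f) ↔ g.Holds x := by
  simp only [Gate.Holds, setAx_old h.1, setAx_old h.2.1, setAx_old h.2.2.1]

theorem setAx_repC {x : V → ℝ} {n : ℕ} {f : ℕ → ℝ} {i : Item} {o : Obj} (h : IOld n i)
    (hr : RepC x i o) : RepC (setAx x n f) i o := by
  rcases i with y | v | v | p <;> rcases o with t | φ
  · exact hr
  · exact hr
  · simp only [RepC, IOld] at *
    rw [setAx_old h]; exact hr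
  · exact hr
  · simp only [RepC, IOld] at *
    rw [setAx_old h]; exact hr
  · exact hr
  · exact hr
  · simp only [RepC, IOld] at *
    rw [setAx_old h.1, setAx_old h.2]; exact hr

/-- The simulation relation. -/
structure Sim (s : St) (abs : List Obj) : Prop where
  pos : 1 ≤ s.1
  shape : List.Forall₂ Shape s.2.1 abs
  iold : ∀ i ∈ s.2.1, IOld s.1 i
  gold : ∀ g ∈ s.2.2, GOld s.1 g
  lenS : s.2.1.length ≤ s.1
  lenG : s.2.2.length ≤ 8 * s.1
  one : (0, vone, vone, vone) ∈ s.2.2
  sound : ∀ x : V → ℝ, (∀ g ∈ s.2.2, g.Holds x) → List.Forall₂ (Rep x) s.2.1 abs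
  compl : ∀ y : Name → ℝ, ∃ x : V → ℝ, (∀ v, x (Sum.inl v) = y v) ∧ (∀ g ∈ s.2.2, g.Holds x) ∧
    List.Forall₂ (RepC x) s.2.1 abs

theorem sim_init : Sim cInit [] := by
  refine ⟨le_refl _, List.Forall₂.nil, by simp [cInit], ?_, by simp [cInit], by simp [cInit],
    by simp [cInit], fun x _ => List.Forall₂.nil, fun y => ⟨fun v => match v with
      | Sum.inl n => y n
      | Sum.inr _ => 1, fun v => rfl, ?_, List.Forall₂.nil⟩⟩
  · simp [cInit, GOld, Old]
  · simp [cInit, Gate.Holds]

theorem forall₂_imp_mem {A B : Type} {R S : A → B → Prop} {l : List A} {m : List B}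
    (h : List.Forall₂ R l m) (hi : ∀ a ∈ l, ∀ b, R a b → S a b) : List.Forall₂ S l m := by
  induction h with
  | nil => exact List.Forall₂.nil
  | cons h1 _ ih =>
    exact List.Forall₂.cons (hi _ (by simp) _ h1) (ih (fun a ha => hi a (by simp [ha])))

/-- The general step: items `is` (matching objects `os`) are replaced by an item `i` (matching
the object `o`), with new gates `G`. -/
theorem sim_step {n : ℕ} {is r : List Item} {gs : List Gate} {os ra : List Obj} {i : Item}
    {o : Obj} {G : List Gate} (hs : Sim (n, is ++ r, gs) (os ++ ra))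
    (hlen : is.length = os.length)
    (hshape : List.Forall₂ Shape is os → Shape i o)
    (hi : (∀ j ∈ is, IOld n j) → IOld (n + 1) i)
    (hG : (∀ j ∈ is, IOld n j) → ∀ g ∈ G, GOld (n + 1) g)
    (hl : G.length ≤ 8)
    (hsound : ∀ x : V → ℝ, x vone = 1 → List.Forall₂ (Rep x) is os → (∀ g ∈ G, g.Holds x) →
      Rep x i o)
    (hcompl : ∀ x : V → ℝ, x vone = 1 → List.Forall₂ (RepC x) is os → ∃ f : ℕ → ℝ,
      (∀ j ∈ is, IOld n j) →
      (∀ g ∈ G, g.Holds (setAx x n f)) ∧ RepC (setAx x n f) i o) :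
    Sim (n + 1, i :: r, G ++ gs) (o :: ra) := by
  obtain ⟨h1, h2, h3, h4, h5, h6, h7, h8, h9⟩ := hs
  simp only at h1 h2 h3 h4 h5 h6 h7 h8 h9
  have split2 : ∀ {R : Item → Obj → Prop}, List.Forall₂ R (is ++ r) (os ++ ra) →
      List.Forall₂ R is os ∧ List.Forall₂ R r ra := by
    intro R h
    have e1 : is = (is ++ r).take is.length := by simp
    have e2 : os = (os ++ ra).take is.length := by rw [hlen]; simp
    have e3 : r = (is ++ r).drop is.length := by simp
    have e4 : ra = (os ++ ra).drop is.length := by rw [hlen]; simp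
    refine ⟨?_, ?_⟩
    · have := List.forall₂_take is.length h
      rw [← e1, ← e2] at this; exact this
    · have := List.forall₂_drop is.length h
      rw [← e3, ← e4] at this; exact this
  have hisold : ∀ j ∈ is, IOld n j := fun j hj => h3 j (by simp [hj])
  have hrold : ∀ j ∈ r, IOld n j := fun j hj => h3 j (by simp [hj])
  have one_of : ∀ x : V → ℝ, (∀ g ∈ gs, Gate.Holds x g) → x vone = 1 := by
    intro x hx
    simpa [Gate.Holds] using hx _ h7
  refine ⟨by simp, List.Forall₂.cons (hshape (split2 h2).1) (split2 h2).2, ?_, ?_, ?_, ?_, ?_,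
    ?_, ?_⟩
  · intro j hj
    simp only [List.mem_cons] at hj
    rcases hj with rfl | hj
    · exact hi hisold
    · exact (hrold j hj).mono (by simp)
  · intro g hg
    simp only [List.mem_append] at hg
    rcases hg with hg | hg
    · exact hG hisold g hg
    · exact (h4 g hg).mono (by simp)
  · simp only [List.length_cons, List.length_append] at *; omega
  · simp only [List.length_append] at *; omega
  · simp only [List.mem_append]; exact Or.inr h7
  · intro x hx
    have hx1 : ∀ g ∈ gs, Gate.Holds x g := fun g hg => hx g (by simp [hg])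
    have hx2 : ∀ g ∈ G, Gate.Holds x g := fun g hg => hx g (by simp [hg])
    have h10 := split2 (h8 x hx1)
    exact List.Forall₂.cons (hsound x (one_of x hx1) h10.1 hx2) h10.2
  · intro y
    obtain ⟨x, hx1, hx2, hx3⟩ := h9 y
    have h10 := split2 hx3
    obtain ⟨f, hf⟩ := hcompl x (one_of x hx2) h10.1
    obtain ⟨hf1, hf2⟩ := hf hisold
    refine ⟨setAx x n f, fun v => hx1 v, ?_, List.Forall₂.cons hf2 ?_⟩
    · intro g hg
      simp only [List.mem_append] at hg
      rcases hg with hg | hg
      · exact hf1 g hg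
      · exact (setAx_holds (h4 g hg)).2 (hx2 g hg)
    · exact forall₂_imp_mem h10.2 (fun a ha b hab => setAx_repC (hrold a ha) hab)

end Pool.Agent.Work.PolyTime
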