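import Pool.Agent.Work.PolyTime.Gates

/-!
Correctness of the translation of formulas into gates.
-/

set_option autoImplicit false
set_option linter.unusedSimpArgs false

namespace Pool.Agent.Work.PolyTime

theorem popT_cases {st : List Item} {abs : List Obj} (h : List.Forall₂ Shape st abs) :
    (aPopT abs = none ∧ popT st = none) ∨ ∃ i r t ra v, st = i :: r ∧ abs = Sum.inl t :: ra ∧
      aPopT abs = some (t, ra) ∧ popT st = some (v, r) ∧ itemT i = some v := by
  cases h with
  | nil => exact Or.inl ⟨rfl, rfl⟩
  | @cons i o r ra h1 h2 =>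
    rcases o with t | φ
    · rcases i with y | v | v | p
      · exact Or.inr ⟨_, _, _, _, _, rfl, rfl, rfl, rfl, rfl⟩
      · exact Or.inr ⟨_, _, _, _, _, rfl, rfl, rfl, rfl, rfl⟩
      · exact Or.inr ⟨_, _, _, _, _, rfl, rfl, rfl, rfl, rfl⟩
      · cases t <;> simp [Shape] at h1
    · rcases i with y | v | v | p
      · simp [Shape] at h1
      · simp [Shape] at h1
      · simp [Shape] at h1
      · exact Or.inl ⟨rfl, rfl⟩

theorem popF_cases {st : List Item} {abs : List Obj} (h : List.Forall₂ Shape st abs) :
    (aPopF abs = none ∧ popF st = none) ∨ ∃ i r t ra v, st = i :: r ∧ abs = Sum.inr t :: ra ∧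
      aPopF abs = some (t, ra) ∧ popF st = some (v, r) ∧ itemF i = some v := by
  cases h with
  | nil => exact Or.inl ⟨rfl, rfl⟩
  | @cons i o r ra h1 h2 =>
    rcases o with t | φ
    · rcases i with y | v | v | p
      · exact Or.inl ⟨rfl, rfl⟩
      · exact Or.inl ⟨rfl, rfl⟩
      · exact Or.inl ⟨rfl, rfl⟩
      · cases t <;> simp [Shape] at h1
    · rcases i with y | v | v | p
      · simp [Shape] at h1
      · simp [Shape] at h1
      · simp [Shape] at h1
      · exact Or.inr ⟨_, _, _, _, _, rfl, rfl, rfl, rfl, rfl⟩

theorem popL_cases {st : List Item} {abs : List Obj} (h : List.Forall₂ Shape st abs) :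
    (aPopL abs = none ∧ popL st = none) ∨ ∃ r bs ra v, st = ilit v :: r ∧
      abs = Sum.inl (Term.lit bs) :: ra ∧ aPopL abs = some (bs, ra) ∧ popL st = some (v, r) := by
  cases h with
  | nil => exact Or.inl ⟨rfl, rfl⟩
  | @cons i o r ra h1 h2 =>
    rcases o with t | φ
    · cases t <;> rcases i with y | v | v | p <;> simp [Shape] at h1
      · exact Or.inr ⟨_, _, _, _, rfl, rfl, rfl, rfl⟩
      all_goals exact Or.inl ⟨rfl, rfl⟩
    · rcases i with y | v | v | p
      · simp [Shape] at h1
      · simp [Shape] at h1
      · simp [Shape] at h1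
      · exact Or.inl ⟨rfl, rfl⟩

theorem popV_cases {st : List Item} {abs : List Obj} (h : List.Forall₂ Shape st abs) :
    (aPopV abs = none ∧ popV st = none) ∨ ∃ r x ra, st = iname x :: r ∧
      abs = Sum.inl (Term.var x) :: ra ∧ aPopV abs = some (x, ra) ∧ popV st = some (x, r) := by
  cases h with
  | nil => exact Or.inl ⟨rfl, rfl⟩
  | @cons i o r ra h1 h2 =>
    rcases o with t | φ
    · cases t <;> rcases i with y | v | v | p <;> simp [Shape] at h1
      · exact Or.inl ⟨rfl, rfl⟩
      · subst h1; exact Or.inr ⟨_, _, _, rfl, rfl, rfl, rfl⟩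
      all_goals exact Or.inl ⟨rfl, rfl⟩
    · rcases i with y | v | v | p
      · simp [Shape] at h1
      · simp [Shape] at h1
      · simp [Shape] at h1
      · exact Or.inl ⟨rfl, rfl⟩

theorem itemT_old {n : ℕ} {i : Item} {v : V} (h : itemT i = some v) (hi : IOld n i) : Old n v := by
  rcases i with y | w | w | p <;> simp [itemT] at h <;> subst h <;> exact hi

theorem itemF_old {n : ℕ} {i : Item} {v : V × V} (h : itemF i = some v) (hi : IOld n i) :
    Old n v.1 ∧ Old n v.2 := by
  rcases i with y | w | w | p <;> simp [itemF] at h <;> subst h <;> exact hi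

theorem itemT_rep {x : V → ℝ} {i : Item} {v : V} {t : Term} (h : itemT i = some v)
    (hi : Rep x i (Sum.inl t)) : x v = t.eval (fun v => x (Sum.inl v)) := by
  rcases i with y | w | w | p <;> simp [itemT] at h <;> subst h <;> exact hi

theorem itemT_repC {x : V → ℝ} {i : Item} {v : V} {t : Term} (h : itemT i = some v)
    (hi : RepC x i (Sum.inl t)) : x v = t.eval (fun v => x (Sum.inl v)) := by
  rcases i with y | w | w | p <;> simp [itemT] at h <;> subst h <;> exact hi

theorem itemF_rep {x : V → ℝ} {i : Item} {v : V × V} {t : Formula} (h : itemF i = some v)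
    (hi : Rep x i (Sum.inr t)) : (x v.1 = 0 → t.Holds (fun v => x (Sum.inl v))) ∧
      (x v.2 = 0 → ¬ t.Holds (fun v => x (Sum.inl v))) := by
  rcases i with y | w | w | p <;> simp [itemF] at h; subst h; exact hi

theorem itemF_repC {x : V → ℝ} {i : Item} {v : V × V} {t : Formula} (h : itemF i = some v)
    (hi : RepC x i (Sum.inr t)) : (t.Holds (fun v => x (Sum.inl v)) → x v.1 = 0) ∧
      (¬ t.Holds (fun v => x (Sum.inl v)) → x v.2 = 0) := by
  rcases i with y | w | w | p <;> simp [itemF] at h; subst h; exact hi

/-- The outcome of one action. -/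
def Good (n : ℕ) (gs : List Gate) (a : Option (List Obj)) (c : Option Out) : Prop :=
  (a = none ∧ c = none) ∨ ∃ abs o, a = some abs ∧ c = some o ∧ Sim (n + 1, o.1, o.2 ++ gs) abs

theorem good_TT {n : ℕ} {st : List Item} {gs : List Gate} {abs : List Obj}
    (hs : Sim (n, st, gs) abs) (f : V → V → Item × List Gate) (g : Term → Term → Obj)
    (hshape : ∀ s t v w, Shape (f v w).1 (g s t))
    (hold : ∀ v w, 1 ≤ n → Old n v → Old n w → IOld (n + 1) (f v w).1 ∧
      ∀ g ∈ (f v w).2, GOld (n + 1) g)
    (hl : ∀ v w, (f v w).2.length ≤ 8)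
    (hsound : ∀ (x : V → ℝ) v w s t, x vone = 1 → x v = s.eval (fun v => x (Sum.inl v)) →
      x w = t.eval (fun v => x (Sum.inl v)) → (∀ g ∈ (f v w).2, g.Holds x) →
      Rep x (f v w).1 (g s t))
    (hcompl : ∀ (x : V → ℝ) v w s t, x vone = 1 → x v = s.eval (fun v => x (Sum.inl v)) →
      x w = t.eval (fun v => x (Sum.inl v)) → ∃ F : ℕ → ℝ, Old n vone → Old n v → Old n w →
        (∀ g ∈ (f v w).2, g.Holds (setAx x n F)) ∧ RepC (setAx x n F) (f v w).1 (g s t)) :
    Good n gs (aTT g abs) (cTT f st) := by
  have hn := hs.pos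
  simp only at hn
  have hvone : Old n vone := ⟨hn, by norm_num⟩
  rcases popT_cases hs.shape with ⟨h1, h2⟩ | ⟨i, r, t, ra, w, rfl, rfl, h3, h4, h5⟩
  · left; simp [aTT, cTT, h1, h2]
  · have hs' := hs.shape
    simp only at hs'
    rw [List.forall₂_cons] at hs'
    rcases popT_cases hs'.2 with ⟨h1, h2⟩ | ⟨j, r, s, ra, v, rfl, rfl, h6, h7, h8⟩
    · left; simp [aTT, cTT, h1, h2, h3, h4]
    · right
      refine ⟨g s t :: ra, ((f v w).1 :: r, (f v w).2), ?_, ?_, ?_⟩
      · simp [aTT, h3, h6]
      · simp [cTT, h4, h7]
      · refine sim_step (is := [i, j]) (os := [Sum.inl t, Sum.inl s]) hs rfl (fun _ => hshape _ _ _ _)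
          ?_ ?_ (hl _ _) ?_ ?_
        · intro h
          exact (hold v w hn (itemT_old h8 (h j (by simp))) (itemT_old h5 (h i (by simp)))).1
        · intro h
          exact (hold v w hn (itemT_old h8 (h j (by simp))) (itemT_old h5 (h i (by simp)))).2
        · intro x hx h hG
          simp only [List.forall₂_cons, List.forall₂_nil_right_iff, and_true] at h
          exact hsound x v w s t hx (itemT_rep h8 h.2) (itemT_rep h5 h.1) hG
        · intro x hx h
          simp only [List.forall₂_cons, List.forall₂_nil_right_iff, and_true] at h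
          obtain ⟨F, hF⟩ := hcompl x v w s t hx (itemT_repC h8 h.2) (itemT_repC h5 h.1)
          exact ⟨F, fun h => hF hvone (itemT_old h8 (h j (by simp))) (itemT_old h5 (h i (by simp)))⟩

theorem good_FF {n : ℕ} {st : List Item} {gs : List Gate} {abs : List Obj}
    (hs : Sim (n, st, gs) abs) (f : V × V → V × V → Item × List Gate)
    (g : Formula → Formula → Formula)
    (hshape : ∀ s t v w, Shape (f v w).1 (Sum.inr (g s t)))
    (hold : ∀ v w, 1 ≤ n → Old n v.1 → Old n v.2 → Old n w.1 → Old n w.2 →
      IOld (n + 1) (f v w).1 ∧ ∀ g ∈ (f v w).2, GOld (n + 1) g)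
    (hl : ∀ v w, (f v w).2.length ≤ 8)
    (hsound : ∀ (x : V → ℝ) v w s t, x vone = 1 →
      (x v.1 = 0 → s.Holds (fun v => x (Sum.inl v))) →
      (x v.2 = 0 → ¬ s.Holds (fun v => x (Sum.inl v))) →
      (x w.1 = 0 → t.Holds (fun v => x (Sum.inl v))) →
      (x w.2 = 0 → ¬ t.Holds (fun v => x (Sum.inl v))) → (∀ g ∈ (f v w).2, g.Holds x) →
      Rep x (f v w).1 (Sum.inr (g s t)))
    (hcompl : ∀ (x : V → ℝ) v w s t, x vone = 1 →
      (s.Holds (fun v => x (Sum.inl v)) → x v.1 = 0) →
      (¬ s.Holds (fun v => x (Sum.inl v)) → x v.2 = 0) →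
      (t.Holds (fun v => x (Sum.inl v)) → x w.1 = 0) →
      (¬ t.Holds (fun v => x (Sum.inl v)) → x w.2 = 0) →
      ∃ F : ℕ → ℝ, Old n vone → Old n v.1 → Old n v.2 → Old n w.1 → Old n w.2 →
        (∀ g ∈ (f v w).2, g.Holds (setAx x n F)) ∧
          RepC (setAx x n F) (f v w).1 (Sum.inr (g s t))) :
    Good n gs (aFF g abs) (cFF f st) := by
  have hn := hs.pos
  simp only at hn
  have hvone : Old n vone := ⟨hn, by norm_num⟩
  rcases popF_cases hs.shape with ⟨h1, h2⟩ | ⟨i, r, t, ra, w, rfl, rfl, h3, h4, h5⟩
  · left; simp [aFF, cFF, h1, h2]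
  · have hs' := hs.shape
    simp only at hs'
    rw [List.forall₂_cons] at hs'
    rcases popF_cases hs'.2 with ⟨h1, h2⟩ | ⟨j, r, s, ra, v, rfl, rfl, h6, h7, h8⟩
    · left; simp [aFF, cFF, h1, h2, h3, h4]
    · right
      refine ⟨Sum.inr (g s t) :: ra, ((f v w).1 :: r, (f v w).2), ?_, ?_, ?_⟩
      · simp [aFF, h3, h6]
      · simp [cFF, h4, h7]
      · refine sim_step (is := [i, j]) (os := [Sum.inr t, Sum.inr s]) hs rfl (fun _ => hshape _ _ _ _)
          ?_ ?_ (hl _ _) ?_ ?_
        · intro h
          obtain ⟨a1, a2⟩ := itemF_old h8 (h j (by simp))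
          obtain ⟨a3, a4⟩ := itemF_old h5 (h i (by simp))
          exact (hold v w hn a1 a2 a3 a4).1
        · intro h
          obtain ⟨a1, a2⟩ := itemF_old h8 (h j (by simp))
          obtain ⟨a3, a4⟩ := itemF_old h5 (h i (by simp))
          exact (hold v w hn a1 a2 a3 a4).2
        · intro x hx h hG
          simp only [List.forall₂_cons, List.forall₂_nil_right_iff, and_true] at h
          obtain ⟨a1, a2⟩ := itemF_rep h8 h.2
          obtain ⟨a3, a4⟩ := itemF_rep h5 h.1
          exact hsound x v w s t hx a1 a2 a3 a4 hG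
        · intro x hx h
          simp only [List.forall₂_cons, List.forall₂_nil_right_iff, and_true] at h
          obtain ⟨a1, a2⟩ := itemF_repC h8 h.2
          obtain ⟨a3, a4⟩ := itemF_repC h5 h.1
          obtain ⟨F, hF⟩ := hcompl x v w s t hx a1 a2 a3 a4
          refine ⟨F, fun h => ?_⟩
          obtain ⟨a1, a2⟩ := itemF_old h8 (h j (by simp))
          obtain ⟨a3, a4⟩ := itemF_old h5 (h i (by simp))
          exact hF hvone a1 a2 a3 a4

theorem litVal_append (bs : List Bool) (b : Bool) :
    litVal (bs ++ [b]) = 2 * litVal bs + (if b then 1 else 0) := by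
  simp [litVal, List.foldl_append]

theorem forall_mem_one {A : Type} {P : A → Prop} {a : A} : (∀ g ∈ [a], P g) ↔ P a := by simp

theorem good_act {n : ℕ} {st : List Item} {gs : List Gate} {abs : List Obj}
    (hs : Sim (n, st, gs) abs) (a : Sym) : Good n gs (aAct a abs) (cAct a n st) := by
  have hn := hs.pos
  simp only at hn
  have hvone : Old n vone := ⟨hn, by norm_num⟩
  have hvone' : ∀ (x : V → ℝ) (F : ℕ → ℝ), setAx x n F vone = x vone := fun x F => setAx_old hvone
  have hvone'' : Old (n + 1) vone := hvone.mono (by simp)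
  have hax : ∀ j, j < 8 → Old (n + 1) (ax n j) := fun j hj => ⟨by simp, hj⟩
  cases a with
  | lit =>
    right
    refine ⟨_, _, rfl, rfl, ?_⟩
    refine sim_step (is := []) (os := []) hs rfl (fun _ => trivial) (fun _ => hax 0 (by norm_num))
      ?_ (by simp) ?_ ?_
    · intro _ g hg
      simp only [List.mem_singleton] at hg
      subst hg
      exact ⟨hax 0 (by norm_num), hax 0 (by norm_num), hax 0 (by norm_num), by norm_num⟩
    · intro x _ _ hG
      rw [forall_mem_one] at hG
      simp only [Gate.Holds, one_ne_zero, if_false, if_true] at hG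
      simp only [Rep, Term.eval, litVal, List.foldl_nil, Nat.cast_zero]
      linarith
    · intro x _ _
      refine ⟨fun _ => 0, fun _ => ⟨?_, ?_⟩⟩
      · rw [forall_mem_one]
        simp [Gate.Holds, setAx_ax]
      · simp [RepC, setAx_ax, Term.eval, litVal]
  | bit b =>
    rcases popL_cases hs.shape with ⟨h1, h2⟩ | ⟨r, bs, ra, v, rfl, rfl, h3, h4⟩
    · left
      cases b <;> simp [aAct, cAct, h1, h2]
    · right
      cases b
      · refine ⟨_, _, by simp only [aAct, h3, Option.bind_some]; rfl,
          by simp only [cAct, h4, Option.bind_some]; rfl, ?_⟩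
        refine sim_step (is := [ilit v]) (os := [Sum.inl (Term.lit bs)]) hs rfl (fun _ => trivial)
          (fun _ => hax 0 (by norm_num)) ?_ (by simp) ?_ ?_
        · intro h g hg
          have hv : Old (n + 1) v := Old.mono (Nat.le_succ n) (h (ilit v) (by simp))
          simp only [List.mem_singleton] at hg
          subst hg
          exact ⟨hv, hv, hax 0 (by norm_num), by norm_num⟩
        · intro x _ h hG
          rw [forall_mem_one] at hG
          simp only [List.forall₂_cons, List.forall₂_nil_right_iff, and_true] at h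
          simp only [Rep, Term.eval] at h
          simp only [Gate.Holds, one_ne_zero, if_false, if_true] at hG
          simp only [Rep, Term.eval, litVal_append, Bool.false_eq_true, if_false]
          push_cast
          linarith
        · intro x _ h
          simp only [List.forall₂_cons, List.forall₂_nil_right_iff, and_true] at h
          simp only [RepC, Term.eval] at h
          refine ⟨fun _ => 2 * x v, fun ho => ⟨?_, ?_⟩⟩
          · have hv : Old n v := ho (ilit v) (by simp)
            rw [forall_mem_one]
            simp only [Gate.Holds, one_ne_zero, if_false, if_true, setAx_ax, setAx_old hv]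
            ring
          · simp only [RepC, setAx_ax, Term.eval, litVal_append, h]
            simp
      · refine ⟨_, _, by simp only [aAct, h3, Option.bind_some]; rfl,
          by simp only [cAct, h4, Option.bind_some]; rfl, ?_⟩
        refine sim_step (is := [ilit v]) (os := [Sum.inl (Term.lit bs)]) hs rfl (fun _ => trivial)
          (fun _ => hax 0 (by norm_num)) ?_ (by simp) ?_ ?_
        · intro h g hg
          have hv : Old (n + 1) v := Old.mono (Nat.le_succ n) (h (ilit v) (by simp))
          simp only [List.mem_cons, List.not_mem_nil, or_false] at hg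
          rcases hg with rfl | rfl
          · exact ⟨hv, hv, hax 1 (by norm_num), by norm_num⟩
          · exact ⟨hax 1 (by norm_num), hvone'', hax 0 (by norm_num), by norm_num⟩
        · intro x hx h hG
          simp only [List.mem_cons, List.not_mem_nil, or_false, forall_eq_or_imp, forall_eq] at hG
          simp only [List.forall₂_cons, List.forall₂_nil_right_iff, and_true] at h
          simp only [Rep, Term.eval] at h
          simp only [Gate.Holds, one_ne_zero, if_false, if_true] at hG
          simp only [Rep, Term.eval, litVal_append, if_true]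
          push_cast
          linarith [hG.1, hG.2]
        · intro x hx h
          simp only [List.forall₂_cons, List.forall₂_nil_right_iff, and_true] at h
          simp only [RepC, Term.eval] at h
          refine ⟨fun j => if j = 0 then 2 * x v + 1 else 2 * x v, fun ho => ⟨?_, ?_⟩⟩
          · have hv : Old n v := ho (ilit v) (by simp)
            simp only [List.mem_cons, List.not_mem_nil, or_false, forall_eq_or_imp, forall_eq]
            simp only [Gate.Holds, one_ne_zero, if_false, if_true, setAx_ax, setAx_old hv, hvone',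
              hx]
            constructor
            · ring
            · trivial
          · simp only [RepC, setAx_ax, Term.eval, litVal_append, h]
            simp
  | var =>
    right
    refine ⟨_, _, rfl, rfl, ?_⟩
    refine sim_step (is := []) (os := []) hs rfl (fun _ => rfl) (fun _ => by simp [IOld])
      (by simp) (by simp) (fun x _ _ _ => by simp [Rep, Term.eval]) ?_
    intro x _ _
    exact ⟨fun _ => 0, fun _ => ⟨by simp, by simp [RepC, Term.eval]⟩⟩
  | vbit b =>
    rcases popV_cases hs.shape with ⟨h1, h2⟩ | ⟨r, y, ra, rfl, rfl, h3, h4⟩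
    · left
      simp [aAct, cAct, h1, h2]
    · right
      refine ⟨_, _, by simp only [aAct, h3, Option.bind_some]; rfl,
          by simp only [cAct, h4, Option.bind_some]; rfl, ?_⟩
      refine sim_step (is := [iname y]) (os := [Sum.inl (Term.var y)]) hs rfl (fun _ => rfl)
        ?_ (by simp) (by simp) (fun x _ _ _ => by simp [Rep, Term.eval]) ?_
      · intro h
        have : y.length ≤ n := h (iname y) (by simp)
        simp only [IOld, List.length_append, List.length_singleton]
        omega
      · intro x _ _
        exact ⟨fun _ => 0, fun _ => ⟨by simp, by simp [RepC, Term.eval]⟩⟩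
  | add =>
    refine good_TT hs (addG n) (fun s t => Sum.inl (Term.add s t)) (fun _ _ _ _ => trivial) ?_ (fun _ _ => by simp [addG]) ?_ ?_
    · intro v w _ hv hw
      refine ⟨hax 0 (by norm_num), ?_⟩
      simp only [addG, List.mem_singleton, forall_eq]
      exact ⟨hv.mono (by simp), hw.mono (by simp), hax 0 (by norm_num), by norm_num⟩
    · intro x v w s t _ hv hw hG
      simp only [addG, List.mem_singleton, forall_eq, Gate.Holds, one_ne_zero, if_false,
        if_true] at hG
      simp only [addG, Rep, Term.eval, ← hv, ← hw]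
      exact hG.symm
    · intro x v w s t _ hv hw
      refine ⟨fun _ => x v + x w, fun _ h1 h2 => ⟨?_, ?_⟩⟩
      · simp only [addG, List.mem_singleton, forall_eq, Gate.Holds, one_ne_zero, if_false,
          if_true, setAx_ax, setAx_old h1, setAx_old h2]
      · simp only [addG, RepC, setAx_ax, Term.eval, setAx_inl, hv, hw]
  | sub =>
    refine good_TT hs (subG n) (fun s t => Sum.inl (Term.sub s t)) (fun _ _ _ _ => trivial) ?_ (fun _ _ => by simp [subG]) ?_ ?_
    · intro v w _ hv hw
      refine ⟨hax 0 (by norm_num), ?_⟩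
      simp only [subG, List.mem_singleton, forall_eq]
      exact ⟨hax 0 (by norm_num), hw.mono (by simp), hv.mono (by simp), by norm_num⟩
    · intro x v w s t _ hv hw hG
      simp only [subG, List.mem_singleton, forall_eq, Gate.Holds, one_ne_zero, if_false,
        if_true] at hG
      simp only [subG, Rep, Term.eval, ← hv, ← hw]
      linarith
    · intro x v w s t _ hv hw
      refine ⟨fun _ => x v - x w, fun _ h1 h2 => ⟨?_, ?_⟩⟩
      · simp only [subG, List.mem_singleton, forall_eq, Gate.Holds, one_ne_zero, if_false,
          if_true, setAx_ax, setAx_old h1, setAx_old h2]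
        ring
      · simp only [subG, RepC, setAx_ax, Term.eval, setAx_inl, hv, hw]
  | mul =>
    refine good_TT hs (mulG n) (fun s t => Sum.inl (Term.mul s t)) (fun _ _ _ _ => trivial) ?_ (fun _ _ => by simp [mulG]) ?_ ?_
    · intro v w _ hv hw
      refine ⟨hax 0 (by norm_num), ?_⟩
      simp only [mulG, List.mem_singleton, forall_eq]
      exact ⟨hv.mono (by simp), hw.mono (by simp), hax 0 (by norm_num), by norm_num⟩
    · intro x v w s t _ hv hw hG
      simp only [mulG, List.mem_singleton, forall_eq, Gate.Holds, OfNat.ofNat_ne_zero,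
        OfNat.ofNat_ne_one, if_false] at hG
      simp only [mulG, Rep, Term.eval, ← hv, ← hw]
      exact hG.symm
    · intro x v w s t _ hv hw
      refine ⟨fun _ => x v * x w, fun _ h1 h2 => ⟨?_, ?_⟩⟩
      · simp only [mulG, List.mem_singleton, forall_eq, Gate.Holds, OfNat.ofNat_ne_zero,
          OfNat.ofNat_ne_one, if_false, setAx_ax, setAx_old h1, setAx_old h2]
      · simp only [mulG, RepC, setAx_ax, Term.eval, setAx_inl, hv, hw]
  | neg =>
    rcases popT_cases hs.shape with ⟨h1, h2⟩ | ⟨i, r, t, ra, v, rfl, rfl, h3, h4, h5⟩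
    · left
      simp [aAct, cAct, h1, h2]
    · right
      refine ⟨_, _, by simp only [aAct, h3, Option.bind_some]; rfl,
          by simp only [cAct, h4, Option.bind_some]; rfl, ?_⟩
      refine sim_step (is := [i]) (os := [Sum.inl t]) hs rfl (fun _ => trivial)
        (fun _ => hax 0 (by norm_num)) ?_ (by simp) ?_ ?_
      · intro h g hg
        have hv : Old (n + 1) v := Old.mono (by simp) (itemT_old h5 (h _ (by simp)))
        simp only [List.mem_cons, List.not_mem_nil, or_false] at hg
        rcases hg with rfl | rfl
        · exact ⟨hax 0 (by norm_num), hv, hax 1 (by norm_num), by norm_num⟩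
        · exact ⟨hax 1 (by norm_num), hax 1 (by norm_num), hax 1 (by norm_num), by norm_num⟩
      · intro x hx h hG
        simp only [List.mem_cons, List.not_mem_nil, or_false, forall_eq_or_imp, forall_eq] at hG
        simp only [List.forall₂_cons, List.forall₂_nil_right_iff, and_true] at h
        have hv := itemT_rep h5 h
        simp only [Gate.Holds, one_ne_zero, if_false, if_true] at hG
        simp only [Rep, Term.eval, ← hv]
        linarith [hG.1, hG.2]
      · intro x hx h
        simp only [List.forall₂_cons, List.forall₂_nil_right_iff, and_true] at h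
        have hv := itemT_repC h5 h
        refine ⟨fun j => if j = 0 then - x v else 0, fun ho => ⟨?_, ?_⟩⟩
        · have hv : Old n v := itemT_old h5 (ho _ (by simp))
          simp only [List.mem_cons, List.not_mem_nil, or_false, forall_eq_or_imp, forall_eq]
          simp [Gate.Holds, setAx_ax, setAx_old hv]
        · simp only [RepC, setAx_ax, Term.eval, setAx_inl, hv, if_true]
  | eq =>
    refine good_TT hs (eqG n) (fun s t => Sum.inr (Formula.eq s t)) (fun _ _ _ _ => trivial) ?_ (fun _ _ => by simp [eqG]) ?_ ?_
    · intro v w _ hv hw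
      refine ⟨⟨hax 0 (by norm_num), hax 1 (by norm_num)⟩, ?_⟩
      simp only [eqG, List.mem_cons, List.not_mem_nil, or_false, forall_eq_or_imp, forall_eq]
      exact ⟨⟨hax 0 (by norm_num), hw.mono (by simp), hv.mono (by simp), by norm_num⟩,
        ⟨hax 0 (by norm_num), hax 2 (by norm_num), hax 3 (by norm_num), by norm_num⟩,
        ⟨hax 1 (by norm_num), hvone'', hax 3 (by norm_num), by norm_num⟩⟩
    · intro x v w s t hx hv hw hG
      simp only [eqG, List.mem_cons, List.not_mem_nil, or_false, forall_eq_or_imp, forall_eq,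
        Gate.Holds, one_ne_zero, if_false, if_true, OfNat.ofNat_ne_zero,
        OfNat.ofNat_ne_one, hx] at hG
      obtain ⟨g1, g2, g3⟩ := hG
      simp only [eqG, Rep, Formula.Holds, ← hv, ← hw]
      constructor
      · intro h; rw [h] at g1; linarith
      · intro h h'
        rw [h] at g3
        have : x (ax n 0) = 0 := by linarith
        rw [this] at g2
        linarith
    · intro x v w s t hx hv hw
      refine ⟨fun j => if j = 0 then x v - x w else
        if j = 1 then (x v - x w) * (x v - x w)⁻¹ - 1 else
        if j = 2 then (x v - x w)⁻¹ else (x v - x w) * (x v - x w)⁻¹, fun _ h1 h2 => ⟨?_, ?_⟩⟩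
      · simp only [eqG, List.mem_cons, List.not_mem_nil, or_false, forall_eq_or_imp, forall_eq,
          Gate.Holds, one_ne_zero, if_false, if_true, OfNat.ofNat_ne_zero, hvone', hx,
          OfNat.ofNat_ne_one, setAx_ax, setAx_old h1, setAx_old h2]
        norm_num
      · simp only [eqG, RepC, setAx_ax, Formula.Holds, setAx_inl, ← hv, ← hw]
        simp only [one_ne_zero, if_false, if_true]
        constructor
        · intro h; rw [h]; ring
        · intro h
          have : x v - x w ≠ 0 := sub_ne_zero.2 h
          rw [mul_inv_cancel₀ this]; ring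
  | lt =>
    refine good_TT hs (ltG n) (fun s t => Sum.inr (Formula.lt s t)) (fun _ _ _ _ => trivial) ?_ (fun _ _ => by simp [ltG, ltGates])
      ?_ ?_
    · intro v w _ hv hw
      refine ⟨⟨hax 1 (by norm_num), hax 5 (by norm_num)⟩, ?_⟩
      simp only [ltG, ltGates, List.mem_cons, List.not_mem_nil, or_false, forall_eq_or_imp,
        forall_eq]
      exact ⟨⟨hax 0 (by norm_num), hv.mono (by simp), hw.mono (by simp), by norm_num⟩,
        ⟨hax 2 (by norm_num), hax 2 (by norm_num), hax 3 (by norm_num), by norm_num⟩,
        ⟨hax 0 (by norm_num), hax 3 (by norm_num), hax 4 (by norm_num), by norm_num⟩,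
        ⟨hax 1 (by norm_num), hvone'', hax 4 (by norm_num), by norm_num⟩,
        ⟨hax 6 (by norm_num), hax 6 (by norm_num), hax 7 (by norm_num), by norm_num⟩,
        ⟨hax 0 (by norm_num), hax 7 (by norm_num), hax 5 (by norm_num), by norm_num⟩⟩
    · intro x v w s t hx hv hw hG
      simp only [ltG, ltGates, List.mem_cons, List.not_mem_nil, or_false, forall_eq_or_imp,
        forall_eq, Gate.Holds, one_ne_zero, if_false, if_true, OfNat.ofNat_ne_zero,
        OfNat.ofNat_ne_one, hx] at hG
      obtain ⟨g1, g2, g3, g4, g5, g6⟩ := hG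
      simp only [ltG, Rep, Formula.Holds, ← hv, ← hw]
      constructor
      · intro h
        rw [h] at g4
        rw [← g2, ← g4] at g3
        by_contra h'
        have h1 : x (ax n 0) ≤ 0 := by linarith
        have h2 : x (ax n 0) * (x (ax n 2) * x (ax n 2)) ≤ 0 :=
          mul_nonpos_of_nonpos_of_nonneg h1 (mul_self_nonneg _)
        linarith
      · intro h h'
        rw [h, ← g5] at g6
        nlinarith [mul_self_nonneg (x (ax n 6))]
    · intro x v w s t hx hv hw
      refine ⟨fun j => if j = 0 then x w - x v else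
        if j = 1 then (x w - x v) * (Real.sqrt ((x w - x v)⁻¹) * Real.sqrt ((x w - x v)⁻¹)) - 1 else
        if j = 2 then Real.sqrt ((x w - x v)⁻¹) else
        if j = 3 then Real.sqrt ((x w - x v)⁻¹) * Real.sqrt ((x w - x v)⁻¹) else
        if j = 4 then (x w - x v) * (Real.sqrt ((x w - x v)⁻¹) * Real.sqrt ((x w - x v)⁻¹)) else
        if j = 5 then (x w - x v) + Real.sqrt (x v - x w) * Real.sqrt (x v - x w) else
        if j = 6 then Real.sqrt (x v - x w) else
        Real.sqrt (x v - x w) * Real.sqrt (x v - x w), fun _ h1 h2 => ⟨?_, ?_⟩⟩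
      · simp only [ltG, ltGates, List.mem_cons, List.not_mem_nil, or_false, forall_eq_or_imp,
          forall_eq, Gate.Holds, one_ne_zero, if_false, if_true, OfNat.ofNat_ne_zero, hvone', hx,
          OfNat.ofNat_ne_one, setAx_ax, setAx_old h1, setAx_old h2]
        norm_num
      · simp only [ltG, RepC, setAx_ax, Formula.Holds, setAx_inl, ← hv, ← hw]
        norm_num
        constructor
        · intro h
          have h3 : 0 < x w - x v := by linarith
          rw [← mul_inv, Real.mul_self_sqrt h3.le, mul_inv_cancel₀ h3.ne']; ring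
        · intro h
          rw [Real.mul_self_sqrt (by linarith)]; ring
  | le =>
    refine good_TT hs (leG n) (fun s t => Sum.inr (Formula.le s t)) (fun _ _ _ _ => trivial) ?_ (fun _ _ => by simp [leG, ltGates])
      ?_ ?_
    · intro w v _ hw hv
      refine ⟨⟨hax 5 (by norm_num), hax 1 (by norm_num)⟩, ?_⟩
      simp only [leG, ltGates, List.mem_cons, List.not_mem_nil, or_false, forall_eq_or_imp,
        forall_eq]
      exact ⟨⟨hax 0 (by norm_num), hv.mono (by simp), hw.mono (by simp), by norm_num⟩,
        ⟨hax 2 (by norm_num), hax 2 (by norm_num), hax 3 (by norm_num), by norm_num⟩,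
        ⟨hax 0 (by norm_num), hax 3 (by norm_num), hax 4 (by norm_num), by norm_num⟩,
        ⟨hax 1 (by norm_num), hvone'', hax 4 (by norm_num), by norm_num⟩,
        ⟨hax 6 (by norm_num), hax 6 (by norm_num), hax 7 (by norm_num), by norm_num⟩,
        ⟨hax 0 (by norm_num), hax 7 (by norm_num), hax 5 (by norm_num), by norm_num⟩⟩
    · intro x w v s t hx hw hv hG
      simp only [leG, ltGates, List.mem_cons, List.not_mem_nil, or_false, forall_eq_or_imp,
        forall_eq, Gate.Holds, one_ne_zero, if_false, if_true, OfNat.ofNat_ne_zero,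
        OfNat.ofNat_ne_one, hx] at hG
      obtain ⟨g1, g2, g3, g4, g5, g6⟩ := hG
      simp only [leG, Rep, Formula.Holds, ← hv, ← hw]
      constructor
      · intro h
        rw [h, ← g5] at g6
        nlinarith [mul_self_nonneg (x (ax n 6))]
      · intro h h'
        rw [h] at g4
        rw [← g2, ← g4] at g3
        have h1 : x (ax n 0) ≤ 0 := by linarith
        have h2 : x (ax n 0) * (x (ax n 2) * x (ax n 2)) ≤ 0 :=
          mul_nonpos_of_nonpos_of_nonneg h1 (mul_self_nonneg _)
        linarith
    · intro x w v s t hx hw hv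
      refine ⟨fun j => if j = 0 then x w - x v else
        if j = 1 then (x w - x v) * (Real.sqrt ((x w - x v)⁻¹) * Real.sqrt ((x w - x v)⁻¹)) - 1 else
        if j = 2 then Real.sqrt ((x w - x v)⁻¹) else
        if j = 3 then Real.sqrt ((x w - x v)⁻¹) * Real.sqrt ((x w - x v)⁻¹) else
        if j = 4 then (x w - x v) * (Real.sqrt ((x w - x v)⁻¹) * Real.sqrt ((x w - x v)⁻¹)) else
        if j = 5 then (x w - x v) + Real.sqrt (x v - x w) * Real.sqrt (x v - x w) else
        if j = 6 then Real.sqrt (x v - x w) else
        Real.sqrt (x v - x w) * Real.sqrt (x v - x w), fun _ h1 h2 => ⟨?_, ?_⟩⟩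
      · simp only [leG, ltGates, List.mem_cons, List.not_mem_nil, or_false, forall_eq_or_imp,
          forall_eq, Gate.Holds, one_ne_zero, if_false, if_true, OfNat.ofNat_ne_zero, hvone', hx,
          OfNat.ofNat_ne_one, setAx_ax, setAx_old h1, setAx_old h2]
        norm_num
      · simp only [leG, RepC, setAx_ax, Formula.Holds, setAx_inl, ← hv, ← hw]
        norm_num
        constructor
        · intro h
          rw [Real.mul_self_sqrt (by linarith)]; ring
        · intro h
          have h3 : 0 < x w - x v := by linarith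
          rw [← mul_inv, Real.mul_self_sqrt h3.le, mul_inv_cancel₀ h3.ne']; ring
  | and =>
    refine good_FF hs (andG n) Formula.and (fun _ _ _ _ => trivial) ?_ (fun _ _ => by simp [andG])
      ?_ ?_
    · intro v w _ hv1 hv2 hw1 hw2
      refine ⟨⟨hax 0 (by norm_num), hax 3 (by norm_num)⟩, ?_⟩
      simp only [andG, List.mem_cons, List.not_mem_nil, or_false, forall_eq_or_imp,
        forall_eq]
      exact ⟨⟨hv1.mono (by simp), hv1.mono (by simp), hax 1 (by norm_num), by norm_num⟩,
        ⟨hw1.mono (by simp), hw1.mono (by simp), hax 2 (by norm_num), by norm_num⟩,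
        ⟨hax 1 (by norm_num), hax 2 (by norm_num), hax 0 (by norm_num), by norm_num⟩,
        ⟨hv2.mono (by simp), hw2.mono (by simp), hax 3 (by norm_num), by norm_num⟩⟩
    · intro x v w s t hx hv1 hv2 hw1 hw2 hG
      simp only [andG, List.mem_cons, List.not_mem_nil, or_false, forall_eq_or_imp,
        forall_eq, Gate.Holds, one_ne_zero, if_false, if_true, OfNat.ofNat_ne_zero,
        OfNat.ofNat_ne_one, hx] at hG
      obtain ⟨g1, g2, g3, g4⟩ := hG
      simp only [andG, Rep, Formula.Holds]
      constructor
      · intro h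
        rw [h, ← g1, ← g2] at g3
        have h1 := mul_self_nonneg (x v.1)
        have h2 := mul_self_nonneg (x w.1)
        exact ⟨hv1 (mul_self_eq_zero.1 (by linarith)), hw1 (mul_self_eq_zero.1 (by linarith))⟩
      · rintro h ⟨h1, h2⟩
        rw [h] at g4
        rcases mul_eq_zero.1 g4 with h3 | h3
        · exact hv2 h3 h1
        · exact hw2 h3 h2
    · intro x v w s t hx hv1 hv2 hw1 hw2
      refine ⟨fun j => if j = 0 then x v.1 * x v.1 + x w.1 * x w.1 else
        if j = 1 then x v.1 * x v.1 else
        if j = 2 then x w.1 * x w.1 else x v.2 * x w.2, fun _ h1 h2 h3 h4 => ⟨?_, ?_⟩⟩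
      · simp only [andG, List.mem_cons, List.not_mem_nil, or_false, forall_eq_or_imp,
          forall_eq, Gate.Holds, one_ne_zero, if_false, if_true, OfNat.ofNat_ne_zero, hvone', hx,
          OfNat.ofNat_ne_one, setAx_ax, setAx_old h1, setAx_old h2, setAx_old h3, setAx_old h4]
        norm_num
      · simp only [andG, RepC, setAx_ax, Formula.Holds, setAx_inl]
        norm_num
        constructor
        · intro h h'
          rw [hv1 h, hw1 h']; ring
        · intro h
          by_cases h' : s.Holds (fun v => x (Sum.inl v))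
          · exact Or.inr (hw2 (h h'))
          · exact Or.inl (hv2 h')
  | or =>
    refine good_FF hs (orG n) Formula.or (fun _ _ _ _ => trivial) ?_ (fun _ _ => by simp [orG])
      ?_ ?_
    · intro v w _ hv1 hv2 hw1 hw2
      refine ⟨⟨hax 3 (by norm_num), hax 0 (by norm_num)⟩, ?_⟩
      simp only [orG, List.mem_cons, List.not_mem_nil, or_false, forall_eq_or_imp,
        forall_eq]
      exact ⟨⟨hv2.mono (by simp), hv2.mono (by simp), hax 1 (by norm_num), by norm_num⟩,
        ⟨hw2.mono (by simp), hw2.mono (by simp), hax 2 (by norm_num), by norm_num⟩,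
        ⟨hax 1 (by norm_num), hax 2 (by norm_num), hax 0 (by norm_num), by norm_num⟩,
        ⟨hv1.mono (by simp), hw1.mono (by simp), hax 3 (by norm_num), by norm_num⟩⟩
    · intro x v w s t hx hv1 hv2 hw1 hw2 hG
      simp only [orG, List.mem_cons, List.not_mem_nil, or_false, forall_eq_or_imp,
        forall_eq, Gate.Holds, one_ne_zero, if_false, if_true, OfNat.ofNat_ne_zero,
        OfNat.ofNat_ne_one, hx] at hG
      obtain ⟨g1, g2, g3, g4⟩ := hG
      simp only [orG, Rep, Formula.Holds]
      constructor
      · intro h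
        rw [h] at g4
        rcases mul_eq_zero.1 g4 with h3 | h3
        · exact Or.inl (hv1 h3)
        · exact Or.inr (hw1 h3)
      · rintro h h'
        rw [h, ← g1, ← g2] at g3
        have h1 := mul_self_nonneg (x v.2)
        have h2 := mul_self_nonneg (x w.2)
        rcases h' with h' | h'
        · exact hv2 (mul_self_eq_zero.1 (by linarith)) h'
        · exact hw2 (mul_self_eq_zero.1 (by linarith)) h'
    · intro x v w s t hx hv1 hv2 hw1 hw2
      refine ⟨fun j => if j = 0 then x v.2 * x v.2 + x w.2 * x w.2 else
        if j = 1 then x v.2 * x v.2 else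
        if j = 2 then x w.2 * x w.2 else x v.1 * x w.1, fun _ h1 h2 h3 h4 => ⟨?_, ?_⟩⟩
      · simp only [orG, List.mem_cons, List.not_mem_nil, or_false, forall_eq_or_imp,
          forall_eq, Gate.Holds, one_ne_zero, if_false, if_true, OfNat.ofNat_ne_zero, hvone', hx,
          OfNat.ofNat_ne_one, setAx_ax, setAx_old h1, setAx_old h2, setAx_old h3, setAx_old h4]
        norm_num
      · simp only [orG, RepC, setAx_ax, Formula.Holds, setAx_inl]
        norm_num
        constructor
        · rintro (h | h)
          · exact Or.inl (hv1 h)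
          · exact Or.inr (hw1 h)
        · intro h h'
          rw [hv2 h, hw2 h']; ring
  | not =>
    rcases popF_cases hs.shape with ⟨h1, h2⟩ | ⟨i, r, t, ra, v, rfl, rfl, h3, h4, h5⟩
    · left
      simp [aAct, cAct, h1, h2]
    · right
      refine ⟨_, _, by simp only [aAct, h3, Option.bind_some]; rfl,
          by simp only [cAct, h4, Option.bind_some]; rfl, ?_⟩
      refine sim_step (is := [i]) (os := [Sum.inr t]) hs rfl (fun _ => trivial)
        ?_ (by simp) (by simp) ?_ ?_
      · intro h
        have hv := itemF_old h5 (h _ (by simp))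
        exact ⟨hv.2.mono (by simp), hv.1.mono (by simp)⟩
      · intro x hx h _
        simp only [List.forall₂_cons, List.forall₂_nil_right_iff, and_true] at h
        have hv := itemF_rep h5 h
        simp only [Rep, Formula.Holds, not_not]
        exact ⟨hv.2, hv.1⟩
      · intro x hx h
        simp only [List.forall₂_cons, List.forall₂_nil_right_iff, and_true] at h
        have hv := itemF_repC h5 h
        refine ⟨fun _ => 0, fun ho => ⟨by simp, ?_⟩⟩
        have hv' := itemF_old h5 (ho _ (by simp))
        simp only [RepC, Formula.Holds, not_not, setAx_inl, setAx_old hv'.1, setAx_old hv'.2]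
        exact ⟨hv.2, hv.1⟩

end Pool.Agent.Work.PolyTime
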