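import Pool.Agent.Work.PolyTime.Typed

/-!
Polynomial-time list functions.
-/

set_option autoImplicit false
set_option linter.unusedSimpArgs false

namespace Pool.Agent.Work.PolyTime

open Function

section

variable {α β γ δ σ : Type} [Code α] [Code β] [Code γ] [Code δ] [Code σ]

theorem PB.polyEval {n : α → ℕ} (hn : PB n) (p : Polynomial ℕ) : PB (fun a => p.eval (n a)) := by
  obtain ⟨q, hq⟩ := hn
  refine ⟨p.comp q, fun a => ?_⟩
  rw [Polynomial.eval_comp]
  exact Comp.poly_mono p (hq a)

/-- Uniform bound for the values of a polynomial-time function at the members of a list. -/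
theorem PTime.exists_bound {l : α → List β} {f : α × β → γ} (hl : PTime l) (hf : PTime f) :
    ∃ G : α → ℕ, PB G ∧ ∀ x, ∀ b ∈ l x, sz (f (x, b)) ≤ G x := by
  obtain ⟨p, hp⟩ := hf.sz_le
  refine ⟨fun x => p.eval (1 + sz x + sz (l x)),
    (((PB.const 1).add PB.self).add hl.sz_le).polyEval p, fun x b hb => ?_⟩
  refine (hp (x, b)).trans (Comp.poly_mono p ?_)
  rw [sz_pair]
  have := sz_mem hb
  omega

theorem foldl_cons_eq {X : Type} (l m : List X) :
    l.foldl (fun acc a => a :: acc) m = l.reverse ++ m := by
  induction l generalizing m with
  | nil => rfl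
  | cons a l ih => simp [ih]

theorem sz_reverse (l : List α) : sz l.reverse = sz l := by
  induction l with
  | nil => rfl
  | cons a l ih =>
    rw [List.reverse_cons]
    have := sz_append l.reverse [a]
    simp only [sz_cons, sz_nil] at *
    omega

@[fun_prop]
theorem PTime.reverse {l : α → List β} (hl : PTime l) : PTime (fun x => (l x).reverse) := by
  have h : PTime (fun x => (l x).foldl (fun s b => (fun y : α × List β × β => y.2.2 :: y.2.1)
      (x, s, b)) []) := by
    refine PTime.foldl (f := fun y : α × List β × β => y.2.2 :: y.2.1) hl (PTime.const [])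
      (by fun_prop) (B := fun x => sz (l x)) hl.sz_le ?_
    intro x l' hl'
    simp only
    rw [foldl_cons_eq, List.append_nil, sz_reverse]
    exact sz_prefix hl'
  refine h.code_congr (fun x => ?_)
  simp only
  rw [foldl_cons_eq, List.append_nil]

@[fun_prop]
theorem PTime.append {l m : α → List β} (hl : PTime l) (hm : PTime m) :
    PTime (fun x => l x ++ m x) := by
  have h : PTime (fun x => (l x).reverse.foldl
      (fun s b => (fun y : α × List β × β => y.2.2 :: y.2.1) (x, s, b)) (m x)) := by
    refine PTime.foldl (f := fun y : α × List β × β => y.2.2 :: y.2.1) hl.reverse hm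
      (by fun_prop) (B := fun x => sz (l x) + sz (m x)) (hl.sz_le.add hm.sz_le) ?_
    intro x l' hl'
    simp only
    rw [foldl_cons_eq]
    have h1 := sz_append l'.reverse (m x)
    have h2 := sz_prefix hl'
    rw [sz_reverse] at h1 h2
    omega
  refine h.code_congr (fun x => ?_)
  simp only
  rw [foldl_cons_eq, List.reverse_reverse]

theorem foldl_map_eq {X Y : Type} (f : X → Y) (l : List X) (m : List Y) :
    l.foldl (fun acc a => f a :: acc) m = (l.map f).reverse ++ m := by
  induction l generalizing m with
  | nil => rfl
  | cons a l ih => simp [ih]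

theorem PTime.map {l : α → List β} {f : α → β → γ} (hl : PTime l)
    (hf : PTime (fun x : α × β => f x.1 x.2)) : PTime (fun x => (l x).map (f x)) := by
  obtain ⟨G, hG, hG'⟩ := PTime.exists_bound hl hf
  have h : PTime (fun x => (l x).reverse.foldl
      (fun s b => (fun y : α × List γ × β => f y.1 y.2.2 :: y.2.1) (x, s, b)) []) := by
    refine PTime.foldlGrow (f := fun y : α × List γ × β => f y.1 y.2.2 :: y.2.1) hl.reverse
      (PTime.const []) ?_ (G := fun x => 1 + G x) ((PB.const 1).add hG) ?_
    · exact PTime.cons (hf.comp (f := fun y : α × List γ × β => (y.1, y.2.2)) (by fun_prop))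
        (by fun_prop)
    · intro x b hb s
      have := hG' x b (by simpa using hb)
      simp only [sz_cons] at *
      omega
  refine h.code_congr (fun x => ?_)
  simp only
  rw [foldl_map_eq, List.append_nil, List.map_reverse, List.reverse_reverse]

theorem foldl_flatMap_eq {X Y : Type} (f : X → List Y) (l : List X) (m : List Y) :
    l.reverse.foldl (fun acc a => f a ++ acc) m = l.flatMap f ++ m := by
  induction l generalizing m with
  | nil => rfl
  | cons a l ih => simp [List.foldl_append, ih]

theorem PTime.flatMap {l : α → List β} {f : α → β → List γ} (hl : PTime l)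
    (hf : PTime (fun x : α × β => f x.1 x.2)) : PTime (fun x => (l x).flatMap (f x)) := by
  obtain ⟨G, hG, hG'⟩ := PTime.exists_bound hl hf
  have h : PTime (fun x => (l x).reverse.foldl
      (fun s b => (fun y : α × List γ × β => f y.1 y.2.2 ++ y.2.1) (x, s, b)) []) := by
    refine PTime.foldlGrow (f := fun y : α × List γ × β => f y.1 y.2.2 ++ y.2.1) hl.reverse
      (PTime.const []) ?_ (G := G) hG ?_
    · exact PTime.append (hf.comp (f := fun y : α × List γ × β => (y.1, y.2.2)) (by fun_prop))
        (by fun_prop)
    · intro x b hb s
      have := hG' x b (by simpa using hb)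
      have h2 := sz_append (f x b) s
      simp only at *
      omega
  refine h.code_congr (fun x => ?_)
  simp only
  rw [foldl_flatMap_eq, List.append_nil]

theorem PTime.filter {l : α → List β} {p : α → β → Bool} (hl : PTime l)
    (hp : PTime (fun x : α × β => p x.1 x.2)) : PTime (fun x => (l x).filter (p x)) := by
  have h : PTime (fun x => (l x).flatMap (fun b => bif p x b then [b] else [])) :=
    PTime.flatMap hl (PTime.cond hp (by fun_prop) (by fun_prop))
  refine h.code_congr (fun x => ?_)
  induction l x with
  | nil => rfl
  | cons b l ih =>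
    rw [List.flatMap_cons, ih]
    cases hb : p x b <;> simp [hb]

theorem PTime.all {l : α → List β} {p : α → β → Bool} (hl : PTime l)
    (hp : PTime (fun x : α × β => p x.1 x.2)) : PTime (fun x => (l x).all (p x)) := by
  have h : PTime (fun x => (l x).foldl
      (fun s b => (fun y : α × Bool × β => y.2.1 && p y.1 y.2.2) (x, s, b)) true) := by
    refine PTime.foldl (f := fun y : α × Bool × β => y.2.1 && p y.1 y.2.2) hl
      (PTime.const true) ?_ (B := fun _ => 3) (PB.const 3) ?_
    · exact PTime.and (by fun_prop)
        (hp.comp (f := fun y : α × Bool × β => (y.1, y.2.2)) (by fun_prop))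
    · intro x l' _
      exact sz_bool _
  refine h.code_congr (fun x => ?_)
  have key : ∀ (m : List β) (c : Bool), m.foldl (fun s b => s && p x b) c = (c && m.all (p x)) := by
    intro m
    induction m with
    | nil => intro c; simp
    | cons b m ih => intro c; simp [ih, Bool.and_assoc]
  simpa using key (l x) true

theorem PTime.any {l : α → List β} {p : α → β → Bool} (hl : PTime l)
    (hp : PTime (fun x : α × β => p x.1 x.2)) : PTime (fun x => (l x).any (p x)) := by
  have h : PTime (fun x => !((l x).all (fun b => !(p x b)))) := (PTime.all hl hp.not).not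
  refine h.code_congr (fun x => ?_)
  induction l x with
  | nil => rfl
  | cons b l ih => rw [List.any_cons, ← ih, List.all_cons]; simp

@[fun_prop]
theorem PTime.length {l : α → List β} (hl : PTime l) : PTime (fun x => (l x).length) := by
  have h : PTime (fun x => (l x).foldl
      (fun s b => (fun y : α × ℕ × β => y.2.1 + 1) (x, s, b)) 0) := by
    refine PTime.foldlGrow (f := fun y : α × ℕ × β => y.2.1 + 1) hl (PTime.const 0)
      (by fun_prop) (G := fun _ => 2) (PB.const 2) ?_
    intro x b _ s
    simp only [sz_nat]; omega
  refine h.code_congr (fun x => ?_)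
  have key : ∀ (m : List β) (c : ℕ), m.foldl (fun s _ => s + 1) c = c + m.length := by
    intro m
    induction m with
    | nil => intro c; rfl
    | cons b m ih => intro c; simp [ih]; omega
  simpa using key (l x) 0

theorem code_replicate (n : ℕ) : code (List.replicate n ()) = code n := by
  induction n with
  | zero => rfl
  | succ n ih =>
    rw [List.replicate_succ]
    exact congrArg (T.cons T.nil) ih

theorem PTime.replicateUnit {n : α → ℕ} (hn : PTime n) :
    PTime (fun x => List.replicate (n x) ()) :=
  hn.recode (fun x => code_replicate (n x))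

@[fun_prop]
theorem PTime.natAdd {m n : α → ℕ} (hm : PTime m) (hn : PTime n) : PTime (fun x => m x + n x) := by
  refine (PTime.length (PTime.append hm.replicateUnit hn.replicateUnit)).code_congr (fun x => ?_)
  simp

@[fun_prop]
theorem PTime.natMul {m n : α → ℕ} (hm : PTime m) (hn : PTime n) : PTime (fun x => m x * n x) := by
  refine (PTime.length (PTime.flatMap (f := fun x _ => List.replicate (n x) ())
    hm.replicateUnit (hn.replicateUnit.comp PTime.fst))).code_congr (fun x => ?_)
  simp

@[fun_prop]
theorem PTime.natPred {n : α → ℕ} (hn : PTime n) : PTime (fun x => n x - 1) := by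
  refine PTime.natCases hn (g := fun _ => 0) (h := fun y => y.2) (by fun_prop) (by fun_prop) ?_ ?_
  · intro x hx; simp [hx]
  · intro x m hx; simp [hx]

@[fun_prop]
theorem PTime.natSub {m n : α → ℕ} (hm : PTime m) (hn : PTime n) : PTime (fun x => m x - n x) := by
  have h : PTime (fun x => (List.replicate (n x) ()).foldl
      (fun s b => (fun y : α × ℕ × Unit => y.2.1 - 1) (x, s, b)) (m x)) := by
    refine PTime.foldlGrow (f := fun y : α × ℕ × Unit => y.2.1 - 1) hn.replicateUnit hm
      (by fun_prop) (G := fun _ => 0) (PB.const 0) ?_
    intro x b _ s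
    simp only [sz_nat]; omega
  refine h.code_congr (fun x => ?_)
  have key : ∀ (k c : ℕ), (List.replicate k ()).foldl (fun s _ => s - 1) c = c - k := by
    intro k
    induction k with
    | zero => intro c; rfl
    | succ k ih => intro c; simp only [List.replicate_succ, List.foldl_cons, ih]; omega
  simpa using key (n x) (m x)

@[fun_prop]
theorem PTime.natLe {m n : α → ℕ} (hm : PTime m) (hn : PTime n) :
    PTime (fun x => decide (m x ≤ n x)) := by
  refine PTime.natCases (n := fun x => m x - n x) (by fun_prop) (g := fun _ => true)
    (h := fun _ => false) (by fun_prop) (by fun_prop) ?_ ?_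
  · intro x hx
    have : m x ≤ n x := by omega
    simp [this]
  · intro x k hx
    have : ¬ m x ≤ n x := by omega
    simp [this]

/-- Comparison step for lists of bits. -/
def cmpStep (s : Option (List Bool)) (b : Bool) : Option (List Bool) :=
  match s with
  | some (c :: l) => bif (bif b then c else !c) then some l else none
  | _ => none

theorem foldl_cmpStep_none (l : List Bool) : l.foldl cmpStep none = none := by
  induction l with
  | nil => rfl
  | cons b l ih => simpa [cmpStep] using ih

theorem foldl_cmpStep (l m : List Bool) : l.foldl cmpStep (some m) = some [] ↔ l = m := by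
  induction l generalizing m with
  | nil => simp [eq_comm]
  | cons b l ih =>
    cases m with
    | nil => simp [cmpStep, foldl_cmpStep_none]
    | cons c m =>
      cases b <;> cases c <;> simp [cmpStep, foldl_cmpStep_none, ih]

theorem PTime.cmpStep : PTime (fun y : Option (List Bool) × Bool => cmpStep y.1 y.2) := by
  refine PTime.optionCases (o := fun y : Option (List Bool) × Bool => y.1) (by fun_prop)
    (g := fun _ => none)
    (h := fun z => match z.2 with
      | c :: l => bif (bif z.1.2 then c else !c) then some l else none
      | [] => none) (by fun_prop) ?_ ?_ ?_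
  · refine PTime.listCases (l := fun z : (Option (List Bool) × Bool) × List Bool => z.2)
      (by fun_prop) (g := fun _ => none)
      (h := fun y : ((Option (List Bool) × Bool) × List Bool) × Bool × List Bool =>
        bif (bif y.1.1.2 then y.2.1 else !y.2.1) then some y.2.2 else none)
        (by fun_prop) (by fun_prop) ?_ ?_
    · rintro ⟨z, l⟩ h; subst h; rfl
    · rintro ⟨z, l⟩ b m h; subst h; rfl
  · rintro ⟨a, b⟩ h; subst h; rfl
  · rintro ⟨a, b⟩ m h; subst h; cases m <;> rfl

theorem PTime.eqBits {l m : α → List Bool} (hl : PTime l) (hm : PTime m) :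
    PTime (fun x => decide (l x = m x)) := by
  have h : PTime (fun x => (l x).foldl
      (fun s b => (fun y : α × Option (List Bool) × Bool =>
        PolyTime.cmpStep y.2.1 y.2.2) (x, s, b)) (some (m x))) := by
    refine PTime.foldlGrow (f := fun y : α × Option (List Bool) × Bool =>
        PolyTime.cmpStep y.2.1 y.2.2) hl (by fun_prop) (PTime.cmpStep.comp (by fun_prop))
      (G := fun _ => 0) (PB.const 0) ?_
    intro x b _ s
    rcases s with _ | _ | ⟨c, l⟩
    · simp [PolyTime.cmpStep]
    · simp [PolyTime.cmpStep]
    · cases b <;> cases c <;> simp [PolyTime.cmpStep] <;> omega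
  refine PTime.optionCases h (g := fun _ => false) (h := fun y => y.2.isEmpty) (by fun_prop) ?_ ?_
    ?_
  · refine PTime.listCases (l := fun z : α × List Bool => z.2)
      (by fun_prop) (g := fun _ => true) (h := fun _ => false) (by fun_prop) (by fun_prop) ?_ ?_
    · rintro ⟨z, l⟩ h; subst h; rfl
    · rintro ⟨z, l⟩ b m h; subst h; rfl
  · intro x hx
    have : ¬ l x = m x := fun e => by
      rw [← foldl_cmpStep] at e
      simp only at hx
      rw [e] at hx; simp at hx
    simp [this]
  · intro x b hx
    simp only at hx
    have h1 := foldl_cmpStep (l x) (m x)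
    rw [hx] at h1
    cases b with
    | nil => simp at h1; simp [h1]
    | cons c b => simp at h1; simp [h1]

@[fun_prop]
theorem PTime.treeSer {t : α → T} (ht : PTime t) : PTime (fun x => (t x).ser) :=
  PS.raw ht

theorem T.ser_append_inj : ∀ (s t : T) (u v : List Bool), s.ser ++ u = t.ser ++ v →
    s = t ∧ u = v := by
  intro s
  induction s with
  | nil =>
    intro t u v h
    cases t with
    | nil => simpa [T.ser] using h
    | cons a b => simp [T.ser] at h
  | cons a b iha ihb =>
    intro t u v h
    cases t with
    | nil => simp [T.ser] at h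
    | cons c d =>
      simp only [T.ser, List.cons_append, List.append_assoc, List.cons.injEq, true_and] at h
      obtain ⟨h1, h2⟩ := iha c _ _ h
      obtain ⟨h3, h4⟩ := ihb d _ _ h2
      exact ⟨by rw [h1, h3], h4⟩

theorem T.ser_inj : Function.Injective T.ser := fun s t h =>
  (T.ser_append_inj s t [] [] (by simpa using h)).1

@[fun_prop]
theorem PTime.eqTree {s t : α → T} (hs : PTime s) (ht : PTime t) :
    PTime (fun x => decide (s x = t x)) := by
  refine (PTime.eqBits hs.treeSer ht.treeSer).code_congr (fun x => ?_)
  simp [T.ser_inj.eq_iff]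

@[fun_prop]
theorem PTime.eq [LawfulCode β] [DecidableEq β] {f g : α → β} (hf : PTime f) (hg : PTime g) :
    PTime (fun x => decide (f x = g x)) := by
  refine (PTime.eqTree hf.code hg.code).code_congr (fun x => ?_)
  simp [LawfulCode.inj.eq_iff]

theorem PTime.mem [LawfulCode β] [DecidableEq β] {f : α → β} {l : α → List β} (hf : PTime f)
    (hl : PTime l) : PTime (fun x => decide (f x ∈ l x)) := by
  have h : PTime (fun x => (l x).any (fun b => decide (b = f x))) := by
    refine PTime.any hl ?_
    exact PTime.eq PTime.snd (hf.comp PTime.fst)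
  refine h.code_congr (fun x => ?_)
  rw [Bool.eq_iff_iff]
  simp

/-- Pairing the elements of a list with their positions (in unary). -/
theorem PTime.zipIdx {l : α → List β} (hl : PTime l) : PTime (fun x => (l x).zipIdx) := by
  have h : PTime (fun x => ((l x).foldl
      (fun s b => (fun y : α × (List (β × ℕ) × ℕ) × β =>
        ((y.2.2, y.2.1.2) :: y.2.1.1, y.2.1.2 + 1)) (x, s, b)) (([] : List (β × ℕ)), 0)).1.reverse) := by
    refine PTime.reverse (PTime.fst.comp (PTime.foldl
      (f := fun y : α × (List (β × ℕ) × ℕ) × β =>
        ((y.2.2, y.2.1.2) :: y.2.1.1, y.2.1.2 + 1)) hl (PTime.const _) (by fun_prop)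
      (B := fun x => 3 + sz (l x) * (6 + 5 * sz (l x))) ?_ ?_))
    · exact (PB.const 3).add (hl.sz_le.mul ((PB.const 6).add ((PB.const 5).mul hl.sz_le)))
    · intro x l' hl'
      have key : ∀ (m : List β) (s : List (β × ℕ)) (n N : ℕ), n + m.length ≤ N →
          (∀ b ∈ m, sz b ≤ N) →
          sz (m.foldl (fun (s : List (β × ℕ) × ℕ) b => ((b, s.2) :: s.1, s.2 + 1)) (s, n)) ≤
            1 + sz s + (2 * n + 1) + m.length * (5 + 3 * N) := by
        intro m
        induction m with
        | nil => intro s n N _ _; simp
        | cons b m ih =>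
          intro s n N h1 h2
          simp only [List.length_cons] at h1
          have h3 := ih ((b, n) :: s) (n + 1) N (by omega) (fun b hb => h2 b (by simp [hb]))
          have h4 := h2 b (by simp)
          simp only [List.foldl_cons, sz_cons, sz_pair, sz_nat, List.length_cons, add_mul,
            one_mul] at *
          omega
      have h1 := key l' [] 0 (sz (l x)) (by
        have := hl'.length_le; have := length_lt_sz (l x); omega)
        (fun b hb => (sz_mem (hl'.subset hb)).le)
      have h2 : l'.length ≤ sz (l x) := hl'.length_le.trans (length_lt_sz _).le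
      refine h1.trans ?_
      simp only [sz_nil]
      have h3 : l'.length * (5 + 3 * sz (l x)) ≤ sz (l x) * (6 + 5 * sz (l x)) :=
        Nat.mul_le_mul h2 (by omega)
      omega
  refine h.code_congr (fun x => ?_)
  have key : ∀ (m : List β) (s : List (β × ℕ)) (n : ℕ),
      (m.foldl (fun (s : List (β × ℕ) × ℕ) b => ((b, s.2) :: s.1, s.2 + 1)) (s, n)).1.reverse =
        s.reverse ++ m.zipIdx n := by
    intro m
    induction m with
    | nil => intro s n; simp
    | cons b m ih => intro s n; simp [ih, List.zipIdx_cons]
  simpa using key (l x) [] 0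

end

end Pool.Agent.Work.PolyTime
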