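import Pool.Agent.Work.PolyTime.ETR
import Pool.Agent.Work.PolyTime.Lists

/-!
From typed polynomial-time functions to polynomial-time reductions between languages.
-/

set_option autoImplicit false
set_option linter.unusedSimpArgs false

namespace Pool.Agent.Work.PolyTime

open Function

/-- A program computing `f` on words yields a Mathlib machine. -/
theorem polyTimeComputable_of_PS {f : List Bool → List Bool}
    (h : PS (fun w : List Bool => w) f) : PolyTimeComputable f := by
  obtain ⟨K, _, _, c, i, o, p, h⟩ := h
  refine ⟨{
    tm := c.toTM i o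
    inputAlphabet := Equiv.refl Bool
    outputAlphabet := Equiv.refl Bool
    time := p + 1
    outputsFun := fun w => ?_ }⟩
  have h1 := (exec_outputs (h w)).some
  have e1 : List.map (Equiv.refl Bool).invFun (id w) = w := by simp
  have e2 : List.map (Equiv.refl Bool).invFun (id (f w)) = f w := by simp
  refine cast ?_ h1
  congr 1
  · exact e1.symm
  · exact congrArg some e2.symm
  · simp

/-- A typed polynomial-time function on words yields a Mathlib machine that outputs the
serialised value. -/
theorem polyTimeComputable_of_PTime {β : Type} [Code β] {f : List Bool → β} (hf : PTime f) :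
    PolyTimeComputable (fun w => (code (f w)).ser) :=
  polyTimeComputable_of_PS (PS.trans (PS.raw (PS.refl _)) hf)

theorem PolyTimeComputable.comp {f g : List Bool → List Bool} (hg : PolyTimeComputable g)
    (hf : PolyTimeComputable f) : PolyTimeComputable (fun w => g (f w)) := by
  obtain ⟨hf⟩ := hf
  obtain ⟨hg⟩ := hg
  exact Comp.comp hf hg

theorem PolyReducible.trans {L₁ L₂ L₃ : Set (List Bool)} (h₁ : PolyReducible L₁ L₂)
    (h₂ : PolyReducible L₂ L₃) : PolyReducible L₁ L₃ := by
  obtain ⟨f, hf, hf'⟩ := h₁
  obtain ⟨g, hg, hg'⟩ := h₂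
  exact ⟨fun w => g (f w), hg.comp hf, fun w => (hf' w).trans (hg' (f w))⟩

theorem existsRComplete_of {L : Set (List Bool)} (h₁ : PolyReducible L ETR)
    (h₂ : PolyReducible ETR L) : ExistsRComplete L :=
  ⟨h₁, fun _ hL' => PolyReducible.trans hL' h₂⟩

end Pool.Agent.Work.PolyTime
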