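import Pool.Agent.Work.PolyTime.Lang

/-!
Parsing of formulas in reverse Polish form: an abstract stack machine, and a concrete stack
machine which translates the formula into a system of gates.
-/

set_option autoImplicit false
set_option linter.unusedSimpArgs false

namespace Pool.Agent.Work.PolyTime

/-- Objects on the abstract stack. -/
abbrev Obj : Type := Term ⊕ Formula

/-- Reverse Polish form of a stack object. -/
def Obj.rpn : Obj → List Sym
  | Sum.inl t => t.rpn
  | Sum.inr φ => φ.rpn

def aPopT : List Obj → Option (Term × List Obj)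
  | Sum.inl t :: r => some (t, r)
  | _ => none

def aPopF : List Obj → Option (Formula × List Obj)
  | Sum.inr φ :: r => some (φ, r)
  | _ => none

def aPopL : List Obj → Option (List Bool × List Obj)
  | Sum.inl (Term.lit bs) :: r => some (bs, r)
  | _ => none

def aPopV : List Obj → Option (Name × List Obj)
  | Sum.inl (Term.var x) :: r => some (x, r)
  | _ => none

def aTT (f : Term → Term → Obj) (st : List Obj) : Option (List Obj) :=
  (aPopT st).bind fun y => (aPopT y.2).bind fun z => some (f z.1 y.1 :: z.2)

def aFF (f : Formula → Formula → Formula) (st : List Obj) : Option (List Obj) :=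
  (aPopF st).bind fun y => (aPopF y.2).bind fun z => some (Sum.inr (f z.1 y.1) :: z.2)

/-- The action of a symbol on the abstract stack. -/
def aAct : Sym → List Obj → Option (List Obj)
  | .lit, st => some (Sum.inl (.lit []) :: st)
  | .bit b, st => (aPopL st).bind fun y => some (Sum.inl (.lit (y.1 ++ [b])) :: y.2)
  | .var, st => some (Sum.inl (.var []) :: st)
  | .vbit b, st => (aPopV st).bind fun y => some (Sum.inl (.var (y.1 ++ [b])) :: y.2)
  | .add, st => aTT (fun s t => Sum.inl (.add s t)) st
  | .sub, st => aTT (fun s t => Sum.inl (.sub s t)) st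
  | .mul, st => aTT (fun s t => Sum.inl (.mul s t)) st
  | .neg, st => (aPopT st).bind fun y => some (Sum.inl (.neg y.1) :: y.2)
  | .eq, st => aTT (fun s t => Sum.inr (.eq s t)) st
  | .lt, st => aTT (fun s t => Sum.inr (.lt s t)) st
  | .le, st => aTT (fun s t => Sum.inr (.le s t)) st
  | .and, st => aFF Formula.and st
  | .or, st => aFF Formula.or st
  | .not, st => (aPopF st).bind fun y => some (Sum.inr (.not y.1) :: y.2)

def aRun (toks : List Sym) (st : Option (List Obj)) : Option (List Obj) :=
  toks.foldl (fun s a => s.bind (aAct a)) st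

theorem aRun_nil (st : Option (List Obj)) : aRun [] st = st := rfl

theorem aRun_cons (a : Sym) (l : List Sym) (st : Option (List Obj)) :
    aRun (a :: l) st = aRun l (st.bind (aAct a)) := rfl

theorem aRun_append (l m : List Sym) (st : Option (List Obj)) :
    aRun (l ++ m) st = aRun m (aRun l st) := by
  simp [aRun, List.foldl_append]

theorem aRun_term (t : Term) : ∀ st, aRun t.rpn (some st) = some (Sum.inl t :: st) := by
  induction t with
  | lit bs =>
    intro st
    have key : ∀ (l bs : List Bool), aRun (l.map Sym.bit) (some (Sum.inl (.lit bs) :: st)) =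
        some (Sum.inl (.lit (bs ++ l)) :: st) := by
      intro l
      induction l with
      | nil => intro bs; simp [aRun_nil]
      | cons b l ih =>
        intro bs
        rw [List.map_cons, aRun_cons]
        simp only [Option.bind_some, aAct, aPopL]
        rw [ih]; simp
    rw [Term.rpn, aRun_cons]
    simpa [aAct] using key bs []
  | var x =>
    intro st
    have key : ∀ (l bs : List Bool), aRun (l.map Sym.vbit) (some (Sum.inl (.var bs) :: st)) =
        some (Sum.inl (.var (bs ++ l)) :: st) := by
      intro l
      induction l with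
      | nil => intro bs; simp [aRun_nil]
      | cons b l ih =>
        intro bs
        rw [List.map_cons, aRun_cons]
        simp only [Option.bind_some, aAct, aPopV]
        rw [ih]; simp
    rw [Term.rpn, aRun_cons]
    simpa [aAct] using key x []
  | add s t ihs iht => intro st; simp [Term.rpn, aRun_append, ihs, iht, aRun_cons, aRun_nil, aAct, aTT, aPopT]
  | sub s t ihs iht => intro st; simp [Term.rpn, aRun_append, ihs, iht, aRun_cons, aRun_nil, aAct, aTT, aPopT]
  | mul s t ihs iht => intro st; simp [Term.rpn, aRun_append, ihs, iht, aRun_cons, aRun_nil, aAct, aTT, aPopT]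
  | neg t iht => intro st; simp [Term.rpn, aRun_append, iht, aRun_cons, aRun_nil, aAct, aPopT]

theorem aRun_formula (φ : Formula) : ∀ st, aRun φ.rpn (some st) = some (Sum.inr φ :: st) := by
  induction φ with
  | eq s t => intro st; simp [Formula.rpn, aRun_append, aRun_term, aRun_cons, aRun_nil, aAct, aTT, aPopT]
  | lt s t => intro st; simp [Formula.rpn, aRun_append, aRun_term, aRun_cons, aRun_nil, aAct, aTT, aPopT]
  | le s t => intro st; simp [Formula.rpn, aRun_append, aRun_term, aRun_cons, aRun_nil, aAct, aTT, aPopT]
  | and φ ψ ih1 ih2 => intro st; simp [Formula.rpn, aRun_append, ih1, ih2, aRun_cons, aRun_nil, aAct, aFF, aPopF]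
  | or φ ψ ih1 ih2 => intro st; simp [Formula.rpn, aRun_append, ih1, ih2, aRun_cons, aRun_nil, aAct, aFF, aPopF]
  | not φ ih => intro st; simp [Formula.rpn, aRun_append, ih, aRun_cons, aRun_nil, aAct, aPopF]

theorem aPopT_eq {st : List Obj} {y : Term × List Obj} (h : aPopT st = some y) :
    st = Sum.inl y.1 :: y.2 := by
  rcases st with _ | ⟨⟨t⟩ | φ, r⟩ <;> simp [aPopT] at h
  rw [← h]

theorem aPopF_eq {st : List Obj} {y : Formula × List Obj} (h : aPopF st = some y) :
    st = Sum.inr y.1 :: y.2 := by
  rcases st with _ | ⟨⟨t⟩ | φ, r⟩ <;> simp [aPopF] at h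
  rw [← h]

theorem aPopL_eq {st : List Obj} {y : List Bool × List Obj} (h : aPopL st = some y) :
    st = Sum.inl (.lit y.1) :: y.2 := by
  rcases st with _ | ⟨(t | φ), r⟩
  · simp [aPopL] at h
  · cases t <;> simp [aPopL] at h
    rw [← h]
  · simp [aPopL] at h

theorem aPopV_eq {st : List Obj} {y : Name × List Obj} (h : aPopV st = some y) :
    st = Sum.inl (.var y.1) :: y.2 := by
  rcases st with _ | ⟨(t | φ), r⟩
  · simp [aPopV] at h
  · cases t <;> simp [aPopV] at h
    rw [← h]
  · simp [aPopV] at h

/-- The tokens of a stack. -/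
def stRpn (st : List Obj) : List Sym := st.reverse.flatMap Obj.rpn

theorem stRpn_cons (o : Obj) (st : List Obj) : stRpn (o :: st) = stRpn st ++ o.rpn := by
  simp [stRpn, List.flatMap_append]

theorem aAct_stRpn {a : Sym} {st st' : List Obj} (h : aAct a st = some st') :
    stRpn st' = stRpn st ++ [a] := by
  cases a with
  | lit => simp [aAct] at h; subst h; simp [stRpn_cons, Obj.rpn, Term.rpn]
  | var => simp [aAct] at h; subst h; simp [stRpn_cons, Obj.rpn, Term.rpn]
  | bit b =>
    simp only [aAct, Option.bind_eq_some_iff] at h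
    obtain ⟨y, h1, h2⟩ := h
    rw [aPopL_eq h1]
    simp at h2; subst h2; simp [stRpn_cons, Obj.rpn, Term.rpn]
  | vbit b =>
    simp only [aAct, Option.bind_eq_some_iff] at h
    obtain ⟨y, h1, h2⟩ := h
    rw [aPopV_eq h1]
    simp at h2; subst h2; simp [stRpn_cons, Obj.rpn, Term.rpn]
  | neg =>
    simp only [aAct, Option.bind_eq_some_iff] at h
    obtain ⟨y, h1, h2⟩ := h
    rw [aPopT_eq h1]
    simp at h2; subst h2; simp [stRpn_cons, Obj.rpn, Term.rpn]
  | not =>
    simp only [aAct, Option.bind_eq_some_iff] at h
    obtain ⟨y, h1, h2⟩ := h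
    rw [aPopF_eq h1]
    simp at h2; subst h2; simp [stRpn_cons, Obj.rpn, Formula.rpn]
  | add =>
    simp only [aAct, aTT, Option.bind_eq_some_iff] at h
    obtain ⟨y, h1, z, h2, h3⟩ := h
    rw [aPopT_eq h1, aPopT_eq h2]
    simp at h3; subst h3; simp [stRpn_cons, Obj.rpn, Term.rpn]
  | sub =>
    simp only [aAct, aTT, Option.bind_eq_some_iff] at h
    obtain ⟨y, h1, z, h2, h3⟩ := h
    rw [aPopT_eq h1, aPopT_eq h2]
    simp at h3; subst h3; simp [stRpn_cons, Obj.rpn, Term.rpn]
  | mul =>
    simp only [aAct, aTT, Option.bind_eq_some_iff] at h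
    obtain ⟨y, h1, z, h2, h3⟩ := h
    rw [aPopT_eq h1, aPopT_eq h2]
    simp at h3; subst h3; simp [stRpn_cons, Obj.rpn, Term.rpn]
  | eq =>
    simp only [aAct, aTT, Option.bind_eq_some_iff] at h
    obtain ⟨y, h1, z, h2, h3⟩ := h
    rw [aPopT_eq h1, aPopT_eq h2]
    simp at h3; subst h3; simp [stRpn_cons, Obj.rpn, Formula.rpn]
  | lt =>
    simp only [aAct, aTT, Option.bind_eq_some_iff] at h
    obtain ⟨y, h1, z, h2, h3⟩ := h
    rw [aPopT_eq h1, aPopT_eq h2]
    simp at h3; subst h3; simp [stRpn_cons, Obj.rpn, Formula.rpn]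
  | le =>
    simp only [aAct, aTT, Option.bind_eq_some_iff] at h
    obtain ⟨y, h1, z, h2, h3⟩ := h
    rw [aPopT_eq h1, aPopT_eq h2]
    simp at h3; subst h3; simp [stRpn_cons, Obj.rpn, Formula.rpn]
  | and =>
    simp only [aAct, aFF, Option.bind_eq_some_iff] at h
    obtain ⟨y, h1, z, h2, h3⟩ := h
    rw [aPopF_eq h1, aPopF_eq h2]
    simp at h3; subst h3; simp [stRpn_cons, Obj.rpn, Formula.rpn]
  | or =>
    simp only [aAct, aFF, Option.bind_eq_some_iff] at h
    obtain ⟨y, h1, z, h2, h3⟩ := h
    rw [aPopF_eq h1, aPopF_eq h2]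
    simp at h3; subst h3; simp [stRpn_cons, Obj.rpn, Formula.rpn]

/-- Every accepted token list is the reverse Polish form of the resulting stack. -/
theorem aRun_stRpn (toks : List Sym) : ∀ st st', aRun toks (some st) = some st' →
    stRpn st' = stRpn st ++ toks := by
  induction toks with
  | nil => intro st st' h; simp [aRun_nil] at h; simp [h]
  | cons a l ih =>
    intro st st' h
    rw [aRun_cons, Option.bind_some] at h
    cases ha : aAct a st with
    | none =>
      rw [ha] at h
      exfalso
      have : ∀ m : List Sym, aRun m none = none := by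
        intro m; induction m with
        | nil => rfl
        | cons c m ihm => rw [aRun_cons]; exact ihm
      rw [this] at h; cases h
    | some st₁ =>
      rw [ha] at h
      rw [ih _ _ h, aAct_stRpn ha]; simp

/-- Unique readability. -/
theorem aRun_eq_formula {toks : List Sym} {φ : Formula}
    (h : aRun toks (some []) = some [Sum.inr φ]) : toks = φ.rpn := by
  have := aRun_stRpn _ _ _ h
  simpa [stRpn, Obj.rpn] using this.symm

end Pool.Agent.Work.PolyTime
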