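import Pool.Agent.Work.PolyTime.Basic

/-!
Binary trees, their serialisation, and closure properties of polynomial-time computability
for families of trees.
-/

set_option autoImplicit false
set_option linter.unusedSimpArgs false

namespace Pool.Agent.Work.PolyTime

open Function

theorem single_of_ne {K : Type} [DecidableEq K] {i k : K} (h : k ≠ i) (x : List Bool) :
    single i x k = [] := by
  simp [single, h]

theorem update_single_ne_nil {K : Type} [DecidableEq K] {i k : K} (h : k ≠ i) (x : List Bool) :
    update (single i x) k [] = single i x := by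
  funext j
  by_cases hj : j = k
  · subst hj; simp [single_of_ne h]
  · simp [hj]

theorem PS.tag_append {ι : Type} {u v w : ι → List Bool} (h₁ : PS u v) (h₂ : PS u w) :
    PS u (fun j => true :: (v j ++ w j)) := by
  obtain ⟨q₁, hq₁⟩ := h₁.length_le
  obtain ⟨q₂, hq₂⟩ := h₂.length_le
  obtain ⟨K₁, _, _, c₁, i₁, o₁, p₁, h₁⟩ := h₁
  obtain ⟨K₂, _, _, c₂, i₂, o₂, p₂, h₂⟩ := h₂
  refine ⟨K₁ ⊕ (K₂ ⊕ Aux), inferInstance, inferInstance,
    Cmd.seq (moveRev (Sum.inr (Sum.inr Aux.a)) (Sum.inr (Sum.inr Aux.b)))
    (Cmd.seq (dupRev (Sum.inr (Sum.inr Aux.b)) (Sum.inl i₁) (Sum.inr (Sum.inl i₂)))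
    (Cmd.seq (c₁.map Sum.inl)
    (Cmd.seq ((c₂.map Sum.inl).map Sum.inr)
    (Cmd.seq (moveRev (Sum.inr (Sum.inl o₂)) (Sum.inr (Sum.inr Aux.b)))
    (Cmd.seq (moveRev (Sum.inr (Sum.inr Aux.b)) (Sum.inr (Sum.inr Aux.c)))
    (Cmd.seq (moveRev (Sum.inl o₁) (Sum.inr (Sum.inr Aux.b)))
    (Cmd.seq (moveRev (Sum.inr (Sum.inr Aux.b)) (Sum.inr (Sum.inr Aux.c)))
    (Cmd.push (Sum.inr (Sum.inr Aux.c)) true)))))))),
    Sum.inr (Sum.inr Aux.a), Sum.inr (Sum.inr Aux.c),
    (3 * Polynomial.X + 1) + (4 * Polynomial.X + 1) + p₁ + p₂ + (3 * q₂ + 1) + (3 * q₂ + 1) +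
      (3 * q₁ + 1) + (3 * q₁ + 1) + 1, fun j => ?_⟩
  rw [single_inr, single_inr, single_inr, single_inr]
  have e1 := exec_moveRev (K := K₁ ⊕ (K₂ ⊕ Aux)) (a := Sum.inr (Sum.inr Aux.a))
    (b := Sum.inr (Sum.inr Aux.b)) (by simp) (u j)
    (join (fun _ => []) (join (fun _ => []) (single Aux.a (u j)))) (by simp)
  simp only [update_join_inl, update_join_inr, join_inl, join_inr, update_single, single_nil,
    update_const_nil, List.append_nil, List.reverse_reverse, update_idem, single_of_ne,
    update_single_ne_nil, ne_eq, reduceCtorEq, not_false_eq_true] at e1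
  have e2 := exec_dupRev (K := K₁ ⊕ (K₂ ⊕ Aux)) (a := Sum.inr (Sum.inr Aux.b))
    (b := Sum.inl i₁) (c := Sum.inr (Sum.inl i₂)) (by simp) (by simp) (by simp) (u j).reverse
    (join (fun _ => []) (join (fun _ => []) (single Aux.b (u j).reverse))) (by simp)
  simp only [update_join_inl, update_join_inr, join_inl, join_inr, update_single, single_nil,
    update_const_nil, List.append_nil, List.reverse_reverse, update_idem, single_of_ne,
    update_single_ne_nil, ne_eq, reduceCtorEq, not_false_eq_true] at e2
  have e3 := (h₁ j).map_inl (K' := K₂ ⊕ Aux) (join (single i₂ (u j)) (fun _ => []))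
  have e4 := ((h₂ j).map_inl (K' := Aux) (fun _ => [])).map_inr (K' := K₁) (single o₁ (v j))
  have e5 := exec_moveRev (K := K₁ ⊕ (K₂ ⊕ Aux)) (a := Sum.inr (Sum.inl o₂))
    (b := Sum.inr (Sum.inr Aux.b)) (by simp) (w j)
    (join (single o₁ (v j)) (join (single o₂ (w j)) (fun _ => []))) (by simp)
  simp only [update_join_inl, update_join_inr, join_inl, join_inr, update_single, single_nil,
    update_const_nil, List.append_nil, List.reverse_reverse, update_idem, single_of_ne,
    update_single_ne_nil, ne_eq, reduceCtorEq, not_false_eq_true] at e5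
  have e6 := exec_moveRev (K := K₁ ⊕ (K₂ ⊕ Aux)) (a := Sum.inr (Sum.inr Aux.b))
    (b := Sum.inr (Sum.inr Aux.c)) (by simp) (w j).reverse
    (join (single o₁ (v j)) (join (fun _ => []) (single Aux.b (w j).reverse))) (by simp)
  simp only [update_join_inl, update_join_inr, join_inl, join_inr, update_single, single_nil,
    update_const_nil, List.append_nil, List.reverse_reverse, update_idem, single_of_ne,
    update_single_ne_nil, ne_eq, reduceCtorEq, not_false_eq_true] at e6
  have e7 := exec_moveRev (K := K₁ ⊕ (K₂ ⊕ Aux)) (a := Sum.inl o₁)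
    (b := Sum.inr (Sum.inr Aux.b)) (by simp) (v j)
    (join (single o₁ (v j)) (join (fun _ => []) (single Aux.c (w j)))) (by simp)
  simp only [update_join_inl, update_join_inr, join_inl, join_inr, update_single, single_nil,
    update_const_nil, List.append_nil, List.reverse_reverse, update_idem, single_of_ne,
    update_single_ne_nil, ne_eq, reduceCtorEq, not_false_eq_true] at e7
  have e8 := exec_moveRev (K := K₁ ⊕ (K₂ ⊕ Aux)) (a := Sum.inr (Sum.inr Aux.b))
    (b := Sum.inr (Sum.inr Aux.c)) (by simp) (v j).reverse
    (join (fun _ => []) (join (fun _ => []) (update (single Aux.c (w j)) Aux.b (v j).reverse)))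
    (by simp)
  simp only [update_join_inl, update_join_inr, join_inl, join_inr, update_single, single_nil,
    update_const_nil, List.append_nil, List.reverse_reverse, update_idem, single_of_ne,
    update_single_ne_nil, ne_eq, reduceCtorEq, not_false_eq_true, update_of_ne,
    single_self] at e8
  have e9 := Exec.push (Sum.inr (Sum.inr Aux.c) : K₁ ⊕ (K₂ ⊕ Aux)) true
    (join (fun _ => []) (join (fun _ => []) (single Aux.c (v j ++ w j))))
  simp only [update_join_inl, update_join_inr, join_inl, join_inr, update_single, single_nil,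
    update_const_nil, List.append_nil, List.reverse_reverse, update_idem, single_of_ne,
    update_single_ne_nil, ne_eq, reduceCtorEq, not_false_eq_true, update_of_ne,
    single_self] at e9
  refine (Exec.seq e1 (Exec.seq e2 (Exec.seq e3 (Exec.seq e4 (Exec.seq e5 (Exec.seq e6
    (Exec.seq e7 (Exec.seq e8 e9)))))))).mono ?_
  have h4 := hq₁ j
  have h5 := hq₂ j
  simp only [Polynomial.eval_add, Polynomial.eval_one, Polynomial.eval_comp, Polynomial.eval_X,
      List.length_reverse, Polynomial.eval_mul, Polynomial.eval_ofNat]
  omega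

theorem PS.const {ι : Type} (u : ι → List Bool) (x : List Bool) : PS u (fun _ => x) := by
  refine ⟨Unit, inferInstance, inferInstance, Cmd.seq (clear ()) (pushWord () x), (), (),
    3 * Polynomial.X + 1 + Polynomial.C (x.length + 1), fun j => ?_⟩
  have e1 := exec_clear (a := ()) (u j) (single () (u j)) (by simp)
  simp only [update_single, single_nil] at e1
  have e2 := exec_pushWord () x (fun _ => [])
  simp only [List.append_nil, update_const_nil] at e2
  refine (Exec.seq e1 e2).mono ?_
  simp only [Polynomial.eval_add, Polynomial.eval_one, Polynomial.eval_comp, Polynomial.eval_X,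
      Polynomial.eval_mul, Polynomial.eval_ofNat, Polynomial.eval_C]
  omega

/-- Binary trees (equivalently, nested lists). -/
inductive T : Type
  | nil : T
  | cons (a b : T) : T
  deriving DecidableEq

namespace T

/-- Serialisation of binary trees in Polish form. -/
def ser : T → List Bool
  | nil => [false]
  | cons a b => true :: (ser a ++ ser b)

/-- Left subtree. -/
def left : T → T
  | nil => nil
  | cons a _ => a

/-- Right subtree. -/
def right : T → T
  | nil => nil
  | cons _ b => b

end T

/-- The body of the loop that moves one serialised tree from stack `a` to stack `b`,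
with a unary counter in stack `c`. -/
def parseBody {K : Type} (a b c : K) : Cmd K :=
  Cmd.pop a Cmd.skip
    (Cmd.seq (Cmd.push b false) (Cmd.pop c Cmd.skip Cmd.skip Cmd.skip))
    (Cmd.seq (Cmd.push b true) (Cmd.push c true))

theorem exec_parse_aux {K : Type} [DecidableEq K] {a b c : K} (hab : a ≠ b) (hac : a ≠ c)
    (hbc : b ≠ c) (t : T) :
    ∀ (s : K → List Bool) (r n : List Bool), s a = t.ser ++ r → s c = true :: n →
      ∀ (s'' : K → List Bool) (t'' : ℕ),
        Exec (Cmd.loop c (parseBody a b c))
          (update (update (update s a r) b (t.ser.reverse ++ s b)) c n) s'' t'' →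
        Exec (Cmd.loop c (parseBody a b c)) s s'' (6 * t.ser.length + t'') := by
  induction t with
  | nil =>
    intro s r n ha hc s'' t'' h
    have hne : s c ≠ [] := by rw [hc]; simp
    have e1 : Exec (parseBody a b c) s
        (update (update (update s a r) b (T.nil.ser.reverse ++ s b)) c n) 4 := by
      refine Exec.popF (t := 3) r (by rw [ha]; rfl) ?_
      refine Exec.seq (t₁ := 1) (t₂ := 2) (Exec.push b false _) ?_
      refine (Exec.popT (t := 1) n (by simp [hac, hbc.symm, hac.symm, hc]) (Exec.skip _)).congr ?_
      simp [hab.symm, T.ser]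
    refine (Exec.loopStep hne e1 h).mono ?_
    simp only [T.ser, List.length_singleton]; omega
  | cons x y ihx ihy =>
    intro s r n ha hc s'' t'' h
    have hne : s c ≠ [] := by rw [hc]; simp
    have e1 : Exec (parseBody a b c) s
        (update (update (update s a (x.ser ++ (y.ser ++ r))) b (true :: s b)) c
          (true :: true :: n)) 3 := by
      refine Exec.popT (t := 2) (x.ser ++ (y.ser ++ r)) (by rw [ha]; simp [T.ser]) ?_
      refine Exec.seq (t₁ := 1) (t₂ := 1) (Exec.push b true _) ?_
      refine (Exec.push c true _).congr ?_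
      simp [hab.symm, hac.symm, hbc.symm, hc]
    have e3 := ihy (update (update (update (update (update (update s a (x.ser ++ (y.ser ++ r)))
        b (true :: s b)) c (true :: true :: n)) a (y.ser ++ r)) b
        (x.ser.reverse ++ (true :: s b))) c (true :: n)) r n (by simp [hab, hac]) (by simp)
        s'' t'' (h.congrL ?_)
    · have e2 := ihx (update (update (update s a (x.ser ++ (y.ser ++ r))) b (true :: s b)) c
          (true :: true :: n)) (y.ser ++ r) (true :: n) (by simp [hab, hac]) (by simp) s''
          (6 * y.ser.length + t'') (e3.congrL ?_)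
      · refine (Exec.loopStep hne e1 e2).mono ?_
        simp only [T.ser, List.length_cons, List.length_append]; omega
      · simp [hbc]
    · funext k
      by_cases h1 : k = c
      · subst h1; simp
      · by_cases h2 : k = b
        · subst h2; simp [h1, T.ser]
        · by_cases h3 : k = a
          · subst h3; simp [h1, h2]
          · simp [h1, h2, h3]

/-- Move one serialised tree from stack `a` to stack `b` (reversed), using the empty
stack `c` as a counter. -/
def parse {K : Type} (a b c : K) : Cmd K :=
  Cmd.seq (Cmd.push c true) (Cmd.loop c (parseBody a b c))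

theorem exec_parse {K : Type} [DecidableEq K] {a b c : K} (hab : a ≠ b) (hac : a ≠ c)
    (hbc : b ≠ c) (t : T) (s : K → List Bool) (r : List Bool) (ha : s a = t.ser ++ r)
    (hc : s c = []) :
    Exec (parse a b c) s (update (update s a r) b (t.ser.reverse ++ s b))
      (6 * t.ser.length + 2) := by
  have e := exec_parse_aux hab hac hbc t (update s c [true]) r [] (by simp [hac, ha]) (by simp)
    (update (update s a r) b (t.ser.reverse ++ s b)) 1 ?_
  · refine (Exec.seq (Exec.push c true s) (e.congrL ?_)).mono (by omega)
    rw [hc]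
  · refine (Exec.loopDone (s := update (update s a r) b (t.ser.reverse ++ s b))
      (by simp [hac.symm, hbc.symm, hc])).congrL ?_
    funext k
    by_cases h1 : k = c
    · subst h1; simp [hac.symm, hbc.symm, hc]
    · by_cases h2 : k = b
      · subst h2; simp [h1]
      · by_cases h3 : k = a
        · subst h3; simp [h1, h2]
        · simp [h1, h2, h3]

end Pool.Agent.Work.PolyTime
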